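import Pool.Agent.HGP.Stmts

/-!
# HGP, module TRANS: relations on the torsor give relations between the coordinates
-/

open scoped BigOperators Topology
open MvPolynomial

namespace Pool.Agent.HGP

noncomputable section

namespace TRANS_

/-- Indices of the entries of the matrices. -/
abbrev VV {r : ℕ} (g : Fin r → ℕ) := Option (Σ i : Fin r, Ix (g i) × Ix (g i))

/-- Indices of the coordinates. -/
abbrev WW {r : ℕ} (g : Fin r → ℕ) := Option (Σ i : Fin r, Idx (g i))

/-- The inclusion of the coordinates number `i`. -/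
def emb {r : ℕ} (g : Fin r → ℕ) (i : Fin r) : Option (Idx (g i)) → WW g :=
  fun o => o.map (fun x => ⟨i, x⟩)

lemma comp_emb {r : ℕ} (g : Fin r → ℕ) (i : Fin r) (w : WW g → ℂ) :
    w ∘ emb g i = opt (w none) (fun x => w (some ⟨i, x⟩)) := by
  funext o
  cases o <;> rfl

lemma aeval_emb {r : ℕ} (g : Fin r → ℕ) (i : Fin r) (w : WW g → ℂ)
    (f : MvPolynomial (Option (Idx (g i))) ℤ) :
    aeval w (rename (emb g i) f) = aeval (opt (w none) (fun x => w (some ⟨i, x⟩))) f := by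
  rw [aeval_rename, comp_emb]

/-- The common denominator. -/
def Dt {r : ℕ} {g : Fin r → ℕ} (Δ : ∀ i, MvPolynomial (Option (Idx (g i))) ℤ) :
    MvPolynomial (WW g) ℤ := ∏ i, rename (emb g i) (Δ i)

/-- The numerators. -/
def qt {r : ℕ} {g : Fin r → ℕ} (Δ : ∀ i, MvPolynomial (Option (Idx (g i))) ℤ)
    (q : ∀ i, Ix (g i) × Ix (g i) → MvPolynomial (Option (Idx (g i))) ℤ) :
    VV g → MvPolynomial (WW g) ℤ := fun v => v.elim (X none * Dt Δ) (fun p =>
      (∏ k ∈ Finset.univ.erase p.1, rename (emb g k) (Δ k)) * rename (emb g p.1) (q p.1 p.2))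

lemma key {r : ℕ} {g : Fin r → ℕ} (Δ : ∀ i, MvPolynomial (Option (Idx (g i))) ℤ)
    (q : ∀ i, Ix (g i) × Ix (g i) → MvPolynomial (Option (Idx (g i))) ℤ)
    (h : ∀ i, ∀ (w : Idx (g i) → ℂ) (lam : ℂ),
      MvPolynomial.aeval (opt lam w) (Δ i) = (Aof w).det ∧
      ((Aof w).det ≠ 0 → ∀ p, MvPolynomial.aeval (opt lam w) (q i p) =
        (Aof w).det * mvec w lam p.1 p.2))
    (w : WW g → ℂ) (hw : ∀ i, (Aof (fun x => w (some ⟨i, x⟩))).det ≠ 0) :
    aeval w (Dt Δ) ≠ 0 ∧ (fun v => aeval w (qt Δ q v) / aeval w (Dt Δ)) =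
      tpt (w none) (fun i => mvec (fun x => w (some ⟨i, x⟩)) (w none)) := by
  have h1 : aeval w (Dt Δ) = ∏ i, (Aof (fun x => w (some ⟨i, x⟩))).det := by
    unfold Dt
    rw [map_prod]
    refine Finset.prod_congr rfl fun i _ => ?_
    rw [aeval_emb, (h i _ _).1]
  have h2 : aeval w (Dt Δ) ≠ 0 := by
    rw [h1]
    exact Finset.prod_ne_zero_iff.2 fun i _ => hw i
  refine ⟨h2, ?_⟩
  funext v
  rw [div_eq_iff h2]
  match v with
  | none =>
    show aeval w (X none * Dt Δ) = w none * aeval w (Dt Δ)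
    rw [map_mul, aeval_X]
  | some ⟨i, p⟩ =>
    show aeval w ((∏ k ∈ Finset.univ.erase i, rename (emb g k) (Δ k)) *
      rename (emb g i) (q i p)) = mvec (fun x => w (some ⟨i, x⟩)) (w none) p.1 p.2 *
        aeval w (Dt Δ)
    rw [map_mul, map_prod, aeval_emb, (h i _ _).2 (hw i) p, h1,
      ← Finset.mul_prod_erase Finset.univ (fun i => (Aof (fun x => w (some ⟨i, x⟩))).det)
        (Finset.mem_univ i)]
    have h3 : ∏ k ∈ Finset.univ.erase i, aeval w (rename (emb g k) (Δ k)) =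
        ∏ k ∈ Finset.univ.erase i, (Aof (fun x => w (some ⟨k, x⟩))).det := by
      refine Finset.prod_congr rfl fun k _ => ?_
      rw [aeval_emb, (h k _ _).1]
    rw [h3]
    ring

/-- A polynomial function along a path. -/
lemma eval_path {V : Type} (P : MvPolynomial V ℤ) (f : V → Polynomial ℂ) (s : ℂ) :
    (aeval f P).eval s = aeval (fun v => (f v).eval s) P := by
  have h := MvPolynomial.comp_aeval_apply (f := f)
    ((Polynomial.aeval s : Polynomial ℂ →ₐ[ℂ] ℂ).restrictScalars ℤ) P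
  simpa [Polynomial.coe_aeval_eq_eval] using h

lemma big_cell (hPath : Stmt_Path) {r : ℕ} {g : Fin r → ℕ} (P : MvPolynomial (VV g) ℤ)
    (lam : ℂ) (M : ∀ i, Matrix (Ix (g i)) (Ix (g i)) ℂ) (hlam : lam ≠ 0)
    (hM : ∀ i, Simil lam (M i)) (hne : aeval (tpt lam M) P ≠ 0) :
    ∃ M' : ∀ i, Matrix (Ix (g i)) (Ix (g i)) ℂ, (∀ i, Simil lam (M' i)) ∧
      (∀ i, (M' i).toBlocks₁₁.det ≠ 0) ∧ aeval (tpt lam M') P ≠ 0 := by
  choose p hp0 hps hp1 using fun i => hPath (g i) (M i) lam hlam (hM i)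
  let M' : ℂ → ∀ i, Matrix (Ix (g i)) (Ix (g i)) ℂ :=
    fun s i => Matrix.of fun x y => (p i x y).eval s
  let f : VV g → Polynomial ℂ := fun v => v.elim (Polynomial.C lam) (fun u => p u.1 u.2.1 u.2.2)
  have hf : ∀ s : ℂ, (fun v => (f v).eval s) = tpt lam (M' s) := by
    intro s
    funext v
    match v with
    | none => exact Polynomial.eval_C
    | some ⟨i, x, y⟩ => rfl
  have hF : ∀ s : ℂ, (aeval f P).eval s = aeval (tpt lam (M' s)) P := by
    intro s
    rw [eval_path, hf]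
  have hM0 : M' 0 = M := by
    funext i
    ext x y
    exact hp0 i x y
  have hF0 : (aeval f P : Polynomial ℂ) ≠ 0 := by
    intro h0
    apply hne
    rw [← hM0, ← hF 0, h0, Polynomial.eval_zero]
  let G : Fin r → Polynomial ℂ := fun i =>
    (Matrix.of fun x y => p i (Sum.inl x) (Sum.inl y) :
      Matrix (Fin (g i)) (Fin (g i)) (Polynomial ℂ)).det
  have hG : ∀ i s, (G i).eval s = (M' s i).toBlocks₁₁.det := by
    intro i s
    have h := RingHom.map_det (Polynomial.evalRingHom s)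
      (Matrix.of fun x y => p i (Sum.inl x) (Sum.inl y) :
        Matrix (Fin (g i)) (Fin (g i)) (Polynomial ℂ))
    rw [Polynomial.coe_evalRingHom] at h
    show Polynomial.eval s _ = _
    rw [h]
    congr 1
  have hG0 : ∀ i, G i ≠ 0 := by
    intro i h0
    apply hp1 i
    have h := hG i 1
    rw [h0, Polynomial.eval_zero] at h
    exact h.symm
  have hprod : aeval f P * ∏ i, G i ≠ 0 :=
    mul_ne_zero hF0 (Finset.prod_ne_zero_iff.2 fun i _ => hG0 i)
  obtain ⟨s, hs⟩ : ∃ s : ℂ, (aeval f P * ∏ i, G i).eval s ≠ 0 := by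
    by_contra hcon
    push Not at hcon
    exact hprod (Polynomial.funext fun s => by rw [hcon s, Polynomial.eval_zero])
  rw [Polynomial.eval_mul, Polynomial.eval_prod] at hs
  refine ⟨M' s, fun i => hps i s, fun i => ?_, ?_⟩
  · rw [← hG i s]
    exact Finset.prod_ne_zero_iff.1 (right_ne_zero_of_mul hs) i (Finset.mem_univ i)
  · rw [← hF s]
    exact left_ne_zero_of_mul hs

end TRANS_

open TRANS_ in
theorem trans_proof (hCellA : Stmt_CellA) (hCellP : Stmt_CellP) (hHomog : Stmt_Homog)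
    (hVdm : Stmt_Vdm) (hRiem : Stmt_Riem) (hPath : Stmt_Path) : Stmt_Trans := by
  intro r g hg D A
  choose Δ q hΔq using fun i => hCellP (g i)
  obtain ⟨D1, C, hHom⟩ := hHomog (VV g) (WW g) (qt Δ q) (Dt Δ) D
  refine ⟨D1, C + A, fun H hH2 a t ha ht hbad => ?_⟩
  obtain ⟨P, hPs, ⟨lam, M, hlam, hM, hne⟩, hP0⟩ := hbad
  obtain ⟨P1, hP1s, hP1⟩ := hHom (H ^ A) P hPs
  -- the value of `P1` at a point of the big cell
  have key2 : ∀ (lam : ℂ) (M : ∀ i, Matrix (Ix (g i)) (Ix (g i)) ℂ), lam ≠ 0 →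
      (∀ i, Simil lam (M i)) → (∀ i, (M i).toBlocks₁₁.det ≠ 0) → ∃ c : ℂ, c ≠ 0 ∧
        aeval (opt lam (fun p : (Σ i : Fin r, Idx (g i)) => fvec (M p.1) p.2)) P1 =
          c * aeval (tpt lam M) P := by
    intro lam M hlam hM hdet
    set w : WW g → ℂ := opt lam (fun p : (Σ i : Fin r, Idx (g i)) => fvec (M p.1) p.2) with hw
    have hwi : ∀ i, (fun x => w (some ⟨i, x⟩)) = fvec (M i) := fun i => rfl
    have hwn : w none = lam := rfl
    obtain ⟨h1, h2⟩ := key Δ q hΔq w (fun i => by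
      rw [hwi, (hCellA (g i) (M i) lam hlam (hM i) (hdet i)).1]
      exact hdet i)
    refine ⟨(aeval w (Dt Δ)) ^ D, pow_ne_zero _ h1, ?_⟩
    have h3 : (fun i => mvec (fun x => w (some ⟨i, x⟩)) (w none)) = M := by
      funext i
      rw [hwi, hwn]
      exact (hCellA (g i) (M i) lam hlam (hM i) (hdet i)).2
    rw [hP1 w h1, h2, h3, hwn]
  intro hfree
  have hpi : (2 * Real.pi * Complex.I : ℂ) ≠ 0 := by
    simp [Real.pi_ne_zero]
  have hzero : P1 = 0 := by
    refine hfree P1 ⟨hP1s.1, fun m => (hP1s.2 m).trans ?_⟩ ?_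
    · rw [pow_add]
      refine Nat.mul_le_mul_right _ ?_
      calc C ≤ 2 ^ C := Nat.lt_two_pow_self.le
        _ ≤ H ^ C := Nat.pow_le_pow_left hH2 _
    · obtain ⟨c, _, hc⟩ := key2 (2 * Real.pi * Complex.I) (fun i => Per (g i) (a i) (t i)) hpi
        (fun i => hRiem (g i) (a i) (hg i) (ha i) (t i) (ht i))
        (fun i => hVdm (g i) (a i) (hg i) (ha i) (t i) (ht i))
      rw [hP0, mul_zero] at hc
      exact hc
  obtain ⟨M', hM', hdet', hne'⟩ := big_cell hPath P lam M hlam hM hne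
  obtain ⟨c, hc0, hc⟩ := key2 lam M' hlam hM' hdet'
  rw [hzero, map_zero] at hc
  exact (mul_ne_zero hc0 hne') hc.symm

end

end Pool.Agent.HGP
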