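import Pool.Agent.HGP.Stmts

/-!
# HGP: HOMOGC, clearing denominators in a polynomial expression of fractions
-/

namespace Pool.Agent.HGP

theorem homogc_proof : Stmt_HomogC := by
  intro V W q Δ P
  induction P using MvPolynomial.induction_on with
  | C a =>
    refine ⟨0, MvPolynomial.C a, fun w _ => ?_⟩
    simp
  | add p r hp hr =>
    obtain ⟨D1, P1, h1⟩ := hp
    obtain ⟨D2, P2, h2⟩ := hr
    refine ⟨D1 + D2, Δ ^ D2 * P1 + Δ ^ D1 * P2, fun w hw => ?_⟩
    simp only [map_add, map_mul, map_pow]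
    rw [h1 w hw, h2 w hw]
    ring
  | mul_X p v hp =>
    obtain ⟨D1, P1, h1⟩ := hp
    refine ⟨D1 + 1, P1 * q v, fun w hw => ?_⟩
    simp only [map_mul, MvPolynomial.eval_X]
    rw [h1 w hw]
    field_simp
    ring

end Pool.Agent.HGP
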