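import Pool.Agent.HGP.Stmts

/-!
# HGP, module GENB: the symplectic group is generated by transvections
-/

open scoped BigOperators
open Matrix

namespace Pool.Agent.HGP

namespace GENB_

variable {g : ℕ}

/-- The alternating form. -/
def B (v w : Ix g → ℂ) : ℂ := ((Matrix.J (Fin g) ℂ).mulVec v) ⬝ᵥ w

lemma B_add_left (v v' w : Ix g → ℂ) : B (v + v') w = B v w + B v' w := by
  unfold B; rw [Matrix.mulVec_add, add_dotProduct]

lemma B_sub_left (v v' w : Ix g → ℂ) : B (v - v') w = B v w - B v' w := by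
  unfold B; rw [Matrix.mulVec_sub, sub_dotProduct]

lemma B_smul_left (c : ℂ) (v w : Ix g → ℂ) : B (c • v) w = c * B v w := by
  unfold B; rw [Matrix.mulVec_smul, smul_dotProduct, smul_eq_mul]

lemma B_add_right (v w w' : Ix g → ℂ) : B v (w + w') = B v w + B v w' := by
  unfold B; rw [dotProduct_add]

lemma B_smul_right (c : ℂ) (v w : Ix g → ℂ) : B v (c • w) = c * B v w := by
  unfold B; rw [dotProduct_smul, smul_eq_mul]

lemma B_comm (v w : Ix g → ℂ) : B v w = - B w v := by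
  unfold B
  rw [dotProduct_comm, Matrix.dotProduct_mulVec, ← Matrix.mulVec_transpose, Matrix.J_transpose,
    Matrix.neg_mulVec, neg_dotProduct]

lemma B_self (v : Ix g → ℂ) : B v v = 0 := by
  have h := B_comm v v
  have h2 : (2 : ℂ) * B v v = 0 := by linear_combination h
  simpa using h2

/-- Preservation of the form. -/
def Pres (M : Matrix (Ix g) (Ix g) ℂ) : Prop :=
  ∀ v w : Ix g → ℂ, B (M.mulVec v) (M.mulVec w) = B v w

lemma pres_of_simil {M : Matrix (Ix g) (Ix g) ℂ} (h : Simil 1 M) : Pres M := by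
  intro v w
  unfold Simil at h
  rw [one_smul] at h
  unfold B
  rw [Matrix.dotProduct_mulVec, ← Matrix.mulVec_transpose, Matrix.mulVec_mulVec,
    Matrix.mulVec_mulVec, h]

lemma tv_mulVec (d : Ix g → ℂ) (c : ℂ) (v : Ix g → ℂ) :
    (tv d c).mulVec v = v + (c * B d v) • d := by
  unfold tv B
  rw [Matrix.add_mulVec, Matrix.one_mulVec, Matrix.smul_mulVec, Matrix.vecMulVec_mulVec]
  ext i
  simp
  ring

lemma pres_tv (d : Ix g → ℂ) (c : ℂ) : Pres (tv d c) := by
  intro v w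
  rw [tv_mulVec, tv_mulVec, B_add_left, B_add_right, B_smul_left, B_add_right, B_smul_right,
    B_smul_right, B_self, B_comm v d]
  ring

lemma pres_mul {M N : Matrix (Ix g) (Ix g) ℂ} (hM : Pres M) (hN : Pres N) : Pres (M * N) := by
  intro v w
  rw [← Matrix.mulVec_mulVec, ← Matrix.mulVec_mulVec, hM, hN]

lemma tv_mul_neg (d : Ix g → ℂ) (c : ℂ) : tv d (-c) * tv d c = 1 := by
  apply Matrix.ext_of_mulVec_single
  intro i
  rw [← Matrix.mulVec_mulVec, tv_mulVec, tv_mulVec, B_add_right, B_smul_right, B_self,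
    Matrix.one_mulVec]
  simp

/-- The monoid generated by the transvections. -/
def S (g : ℕ) : Submonoid (Matrix (Ix g) (Ix g) ℂ) :=
  Submonoid.closure {N : Matrix (Ix g) (Ix g) ℂ | ∃ (v : Ix g → ℂ) (c : ℂ), N = tv v c}

lemma tv_mem (d : Ix g → ℂ) (c : ℂ) : tv d c ∈ S g :=
  Submonoid.subset_closure ⟨d, c, rfl⟩

lemma mem_of_mul_mem {N : Matrix (Ix g) (Ix g) ℂ} (hN : N ∈ S g) :
    ∀ M : Matrix (Ix g) (Ix g) ℂ, N * M ∈ S g → M ∈ S g := by
  unfold S at hN
  induction hN using Submonoid.closure_induction with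
  | mem x hx =>
    obtain ⟨d, c, rfl⟩ := hx
    intro M hM
    have := (S g).mul_mem (tv_mem d (-c)) hM
    rwa [← Matrix.mul_assoc, tv_mul_neg, Matrix.one_mul] at this
  | one => intro M hM; simpa using hM
  | mul x y _ _ hx hy =>
    intro M hM
    rw [Matrix.mul_assoc] at hM
    exact hy M (hx _ hM)

/-- The basic step. -/
lemma stepA {M : Matrix (Ix g) (Ix g) ℂ} (hM : Pres M) (X : Set (Ix g → ℂ))
    (hX : ∀ x ∈ X, M.mulVec x = x) (u : Ix g → ℂ) (hu : B (M.mulVec u) u ≠ 0) :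
    ∃ T ∈ S g, Pres (T * M) ∧ (∀ x ∈ X, (T * M).mulVec x = x) ∧ (T * M).mulVec u = u := by
  refine ⟨tv (M.mulVec u - u) (-1 / B (M.mulVec u) u), tv_mem _ _, pres_mul (pres_tv _ _) hM,
    ?_, ?_⟩
  · intro x hx
    rw [← Matrix.mulVec_mulVec, tv_mulVec, hX x hx, B_sub_left]
    have : B (M.mulVec u) x = B u x := by
      conv_lhs => rw [← hX x hx]
      exact hM u x
    rw [this]
    simp
  · rw [← Matrix.mulVec_mulVec, tv_mulVec, B_sub_left, B_self, B_comm u]
    have : -1 / B (M.mulVec u) u * (0 - -B (M.mulVec u) u) = -1 := by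
      field_simp
      ring
    rw [this]
    simp

lemma stepB {M : Matrix (Ix g) (Ix g) ℂ} (hM : Pres M) (X : Set (Ix g → ℂ))
    (hX : ∀ x ∈ X, M.mulVec x = x) (u y : Ix g → ℂ) (hy : ∀ x ∈ X, B y x = 0)
    (hyu : B y u ≠ 0) (hyv : B y (M.mulVec u) ≠ 0) :
    ∃ T ∈ S g, Pres (T * M) ∧ (∀ x ∈ X, (T * M).mulVec x = x) ∧ (T * M).mulVec u = u := by
  set c : ℂ := (1 - B (M.mulVec u) u) / (B y (M.mulVec u) * B y u) with hc
  have h1 : Pres (tv y c * M) := pres_mul (pres_tv _ _) hM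
  have h2 : ∀ x ∈ X, (tv y c * M).mulVec x = x := by
    intro x hx
    rw [← Matrix.mulVec_mulVec, tv_mulVec, hX x hx, hy x hx]
    simp
  have h3 : B ((tv y c * M).mulVec u) u ≠ 0 := by
    rw [← Matrix.mulVec_mulVec, tv_mulVec, B_add_left, B_smul_left]
    have : B (M.mulVec u) u + c * B y (M.mulVec u) * B y u = 1 := by
      rw [hc]
      field_simp
      ring
    rw [this]
    exact one_ne_zero
  obtain ⟨T, hT, hp, hx, hu⟩ := stepA h1 X h2 u h3
  refine ⟨T * tv y c, (S g).mul_mem hT (tv_mem _ _), ?_, ?_, ?_⟩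
  · rwa [Matrix.mul_assoc]
  · rwa [Matrix.mul_assoc]
  · rwa [Matrix.mul_assoc]

lemma stepC {M : Matrix (Ix g) (Ix g) ℂ} (hM : Pres M) (X : Set (Ix g → ℂ))
    (hX : ∀ x ∈ X, M.mulVec x = x) (u u' : Ix g → ℂ) (hy : ∀ x ∈ X, B u' x = 0)
    (hyu : B u' u ≠ 0) :
    ∃ T ∈ S g, Pres (T * M) ∧ (∀ x ∈ X, (T * M).mulVec x = x) ∧ (T * M).mulVec u = u := by
  have k1 : ∀ x ∈ X, B (M.mulVec u') x = 0 := by
    intro x hx
    rw [← hX x hx, hM, hy x hx]
  have k2 : B (M.mulVec u') (M.mulVec u) ≠ 0 := by rw [hM]; exact hyu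
  by_cases h1 : B u' (M.mulVec u) = 0
  · by_cases h2 : B (M.mulVec u') u = 0
    · refine stepB hM X hX u (u' + M.mulVec u') ?_ ?_ ?_
      · intro x hx
        rw [B_add_left, hy x hx, k1 x hx, add_zero]
      · rw [B_add_left, h2, add_zero]; exact hyu
      · rw [B_add_left, h1, zero_add]; exact k2
    · exact stepB hM X hX u (M.mulVec u') k1 h2 k2
  · exact stepB hM X hX u u' hy hyu h1

/-- The basis vectors. -/
def ee (i : Fin g) : Ix g → ℂ := Pi.single (Sum.inl i) 1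

def ff (i : Fin g) : Ix g → ℂ := Pi.single (Sum.inr i) 1

lemma B_single (a b : Ix g) :
    B (Pi.single a 1) (Pi.single b 1) = Matrix.J (Fin g) ℂ b a := by
  unfold B
  rw [Matrix.mulVec_single_one, dotProduct_single, mul_one]
  rfl

lemma B_ee (i j : Fin g) : B (ee i) (ee j) = 0 := by
  unfold ee; rw [B_single]; simp [Matrix.J]

lemma B_ff (i j : Fin g) : B (ff i) (ff j) = 0 := by
  unfold ff; rw [B_single]; simp [Matrix.J]

lemma B_ef (i j : Fin g) : B (ee i) (ff j) = if j = i then 1 else 0 := by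
  unfold ee ff; rw [B_single]; simp [Matrix.J, Matrix.one_apply]

lemma B_fe (i j : Fin g) : B (ff i) (ee j) = if j = i then -1 else 0 := by
  unfold ee ff; rw [B_single]; simp [Matrix.J, Matrix.one_apply, apply_ite]

lemma main {M : Matrix (Ix g) (Ix g) ℂ} (hM : Pres M) (s : Finset (Fin g)) :
    ∃ T ∈ S g, Pres (T * M) ∧ ∀ i ∈ s, (T * M).mulVec (ee i) = ee i ∧
      (T * M).mulVec (ff i) = ff i := by
  classical
  induction s using Finset.induction_on with
  | empty => exact ⟨1, (S g).one_mem, by simpa using hM, by simp⟩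
  | insert k s hk ih =>
    obtain ⟨T, hT, hp, hf⟩ := ih
    have hX : ∀ x ∈ {x : Ix g → ℂ | ∃ i ∈ s, x = ee i ∨ x = ff i}, (T * M).mulVec x = x := by
      rintro x ⟨i, hi, rfl | rfl⟩
      · exact (hf i hi).1
      · exact (hf i hi).2
    obtain ⟨T1, hT1, hp1, hf1, hu1⟩ := stepC hp _ hX (ee k) (ff k) (by
      rintro x ⟨i, hi, rfl | rfl⟩
      · rw [B_fe, if_neg]
        rintro rfl
        exact hk hi
      · exact B_ff _ _) (by rw [B_fe, if_pos rfl]; norm_num)
    have hX2 : ∀ x ∈ {x : Ix g → ℂ | (∃ i ∈ s, x = ee i ∨ x = ff i) ∨ x = ee k},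
        (T1 * (T * M)).mulVec x = x := by
      rintro x (hx | rfl)
      · exact hf1 x hx
      · exact hu1
    obtain ⟨T2, hT2, hp2, hf2, hu2⟩ := stepC hp1 _ hX2 (ff k) (ee k) (by
      rintro x (⟨i, hi, rfl | rfl⟩ | rfl)
      · exact B_ee _ _
      · rw [B_ef, if_neg]
        rintro rfl
        exact hk hi
      · exact B_ee _ _) (by rw [B_ef, if_pos rfl]; norm_num)
    have e : T2 * T1 * T * M = T2 * (T1 * (T * M)) := by simp only [Matrix.mul_assoc]
    refine ⟨T2 * T1 * T, (S g).mul_mem ((S g).mul_mem hT2 hT1) hT, by rw [e]; exact hp2, ?_⟩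
    intro i hi
    rw [e]
    rcases Finset.mem_insert.mp hi with rfl | hi
    · exact ⟨hf2 _ (Or.inr rfl), hu2⟩
    · exact ⟨hf2 _ (Or.inl ⟨i, hi, Or.inl rfl⟩), hf2 _ (Or.inl ⟨i, hi, Or.inr rfl⟩)⟩

end GENB_

open GENB_ in
theorem genb_proof : Stmt_GenB := by
  intro g M hM
  obtain ⟨T, hT, -, hf⟩ := main (pres_of_simil hM) Finset.univ
  have h1 : T * M = 1 := by
    apply Matrix.ext_of_mulVec_single
    intro i
    rw [Matrix.one_mulVec]
    rcases i with i | i
    · exact (hf i (Finset.mem_univ _)).1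
    · exact (hf i (Finset.mem_univ _)).2
  have h2 : T * M ∈ S g := by rw [h1]; exact (S g).one_mem
  exact mem_of_mul_mem hT M h2

end Pool.Agent.HGP
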