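import Pool.Agent.HGP.Stmts

/-!
# HGP, module PATH: polynomial paths into the big cell
-/

open scoped BigOperators
open Matrix

namespace Pool.Agent.HGP

namespace PATH_

variable {g : ℕ}

/-- Evaluation of a matrix of polynomials. -/
noncomputable def ev (p : Matrix (Ix g) (Ix g) (Polynomial ℂ)) (s : ℂ) : Matrix (Ix g) (Ix g) ℂ :=
  (Polynomial.evalRingHom s).mapMatrix p

lemma ev_mul (p q : Matrix (Ix g) (Ix g) (Polynomial ℂ)) (s : ℂ) :
    ev (p * q) s = ev p s * ev q s := by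
  unfold ev; rw [map_mul]

lemma ev_one (s : ℂ) : ev (1 : Matrix (Ix g) (Ix g) (Polynomial ℂ)) s = 1 := by
  unfold ev; rw [map_one]

/-- The path of a transvection. -/
noncomputable def tvp (d : Ix g → ℂ) (c : ℂ) : Matrix (Ix g) (Ix g) (Polynomial ℂ) :=
  1 + Matrix.of fun i j => Polynomial.X * Polynomial.C (c * (d i * (J (Fin g) ℂ).mulVec d j))

lemma ev_tvp (d : Ix g → ℂ) (c s : ℂ) : ev (tvp d c) s = tv d (s * c) := by
  unfold tvp tv
  unfold ev
  rw [map_add, map_one]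
  congr 1
  ext i j
  simp [Matrix.vecMulVec_apply]
  ring

lemma J_anti (d : Ix g → ℂ) : ((J (Fin g) ℂ).mulVec d) ⬝ᵥ d = 0 := by
  have h : ((J (Fin g) ℂ).mulVec d) ⬝ᵥ d = -(((J (Fin g) ℂ).mulVec d) ⬝ᵥ d) := by
    conv_lhs => rw [dotProduct_comm, Matrix.dotProduct_mulVec, ← Matrix.mulVec_transpose,
      Matrix.J_transpose, Matrix.neg_mulVec, neg_dotProduct]
  have h2 : (2 : ℂ) * (((J (Fin g) ℂ).mulVec d) ⬝ᵥ d) = 0 := by linear_combination h
  simpa using h2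

lemma simil_tv (d : Ix g → ℂ) (c : ℂ) : Simil 1 (tv d c) := by
  unfold Simil tv
  set w := (J (Fin g) ℂ).mulVec d with hw
  have hJ : (J (Fin g) ℂ) * vecMulVec d w = vecMulVec w w := by
    rw [Matrix.mul_vecMulVec]
  have hJ2 : vecMulVec w d * (J (Fin g) ℂ) = - vecMulVec w w := by
    rw [Matrix.vecMulVec_mul, ← Matrix.mulVec_transpose, Matrix.J_transpose, Matrix.neg_mulVec,
      ← hw, Matrix.vecMulVec_neg]
  have hdw : w ⬝ᵥ d = 0 := J_anti d
  have hww : vecMulVec w w * vecMulVec d w = 0 := by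
    rw [Matrix.vecMulVec_mul_vecMulVec, hdw]
    simp
  rw [Matrix.transpose_add, Matrix.transpose_one, Matrix.transpose_smul,
    Matrix.transpose_vecMulVec]
  simp only [add_mul, mul_add, one_mul, mul_one, Matrix.smul_mul, Matrix.mul_smul, hJ, hJ2,
    neg_mul, hww, one_smul]
  simp

lemma simil_mul {lam : ℂ} {M N : Matrix (Ix g) (Ix g) ℂ} (hM : Simil lam M) (hN : Simil 1 N) :
    Simil lam (M * N) := by
  unfold Simil at *
  rw [Matrix.transpose_mul]
  calc Nᵀ * Mᵀ * J (Fin g) ℂ * (M * N) = Nᵀ * (Mᵀ * J (Fin g) ℂ * M) * N := by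
        simp only [Matrix.mul_assoc]
    _ = lam • (Nᵀ * J (Fin g) ℂ * N) := by
        rw [hM, Matrix.mul_smul, Matrix.smul_mul]
    _ = lam • J (Fin g) ℂ := by rw [hN, one_smul]

lemma path_of_mem {N : Matrix (Ix g) (Ix g) ℂ} (hN : N ∈ Submonoid.closure
    {N : Matrix (Ix g) (Ix g) ℂ | ∃ (v : Ix g → ℂ) (c : ℂ), N = tv v c}) :
    ∃ p : Matrix (Ix g) (Ix g) (Polynomial ℂ), ev p 0 = 1 ∧ (∀ s, Simil 1 (ev p s)) ∧
      ev p 1 = N := by
  induction hN using Submonoid.closure_induction with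
  | mem x hx =>
    obtain ⟨d, c, rfl⟩ := hx
    refine ⟨tvp d c, ?_, ?_, ?_⟩
    · rw [ev_tvp]; simp [tv]
    · intro s; rw [ev_tvp]; exact simil_tv _ _
    · rw [ev_tvp, one_mul]
  | one =>
    refine ⟨1, ev_one _, ?_, ev_one _⟩
    intro s
    rw [ev_one]
    unfold Simil
    simp
  | mul x y _ _ hx hy =>
    obtain ⟨p, hp0, hp, hp1⟩ := hx
    obtain ⟨q, hq0, hq, hq1⟩ := hy
    refine ⟨p * q, ?_, ?_, ?_⟩
    · rw [ev_mul, hp0, hq0, one_mul]
    · intro s; rw [ev_mul]; exact simil_mul (hp s) (hq s)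
    · rw [ev_mul, hp1, hq1]

/-- The constant matrix. -/
noncomputable def cst (M : Matrix (Ix g) (Ix g) ℂ) : Matrix (Ix g) (Ix g) (Polynomial ℂ) :=
  M.map Polynomial.C

lemma ev_cst (M : Matrix (Ix g) (Ix g) ℂ) (s : ℂ) : ev (cst M) s = M := by
  ext i j
  simp [ev, cst]

end PATH_

open PATH_ in
theorem path_proof (hG : Stmt_GenB) : Stmt_Path := by
  intro g M lam hlam hM
  set Dm : Matrix (Ix g) (Ix g) ℂ := fromBlocks 1 0 0 (lam • 1) with hD
  have hDD : Dmᵀ * J (Fin g) ℂ * Dm = lam • J (Fin g) ℂ := by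
    rw [hD, Matrix.J, Matrix.fromBlocks_transpose, Matrix.fromBlocks_multiply,
      Matrix.fromBlocks_multiply, Matrix.fromBlocks_smul]
    simp
  set W : Matrix (Ix g) (Ix g) ℂ := (-lam⁻¹) • (J (Fin g) ℂ * Mᵀ * J (Fin g) ℂ) with hW
  have hM' : Mᵀ * J (Fin g) ℂ * M = lam • J (Fin g) ℂ := hM
  have hWM : W * M = 1 := by
    calc W * M = (-lam⁻¹) • (J (Fin g) ℂ * (Mᵀ * J (Fin g) ℂ * M)) := by
          rw [hW, Matrix.smul_mul]; simp only [Matrix.mul_assoc]
      _ = 1 := by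
          rw [hM', Matrix.mul_smul, Matrix.J_squared, smul_smul, neg_mul, inv_mul_cancel₀ hlam]
          simp
  have hMW : M * W = 1 := mul_eq_one_comm.mp hWM
  clear_value W
  have hWW : Wᵀ * J (Fin g) ℂ * W = lam⁻¹ • J (Fin g) ℂ := by
    have h1 : Wᵀ * (Mᵀ * J (Fin g) ℂ * M) * W = J (Fin g) ℂ := by
      calc Wᵀ * (Mᵀ * J (Fin g) ℂ * M) * W = (M * W)ᵀ * J (Fin g) ℂ * (M * W) := by
            rw [Matrix.transpose_mul]; simp only [Matrix.mul_assoc]
        _ = J (Fin g) ℂ := by rw [hMW]; simp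
    rw [hM', Matrix.mul_smul, Matrix.smul_mul] at h1
    have h2 := congrArg (fun A => lam⁻¹ • A) h1
    simp only [smul_smul, inv_mul_cancel₀ hlam, one_smul] at h2
    exact h2
  have hN : Simil 1 (W * Dm) := by
    unfold Simil
    calc (W * Dm)ᵀ * J (Fin g) ℂ * (W * Dm) = Dmᵀ * (Wᵀ * J (Fin g) ℂ * W) * Dm := by
          rw [Matrix.transpose_mul]; simp only [Matrix.mul_assoc]
      _ = lam⁻¹ • (Dmᵀ * J (Fin g) ℂ * Dm) := by
          rw [hWW, Matrix.mul_smul, Matrix.smul_mul]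
      _ = (1 : ℂ) • J (Fin g) ℂ := by
          rw [hDD, smul_smul, inv_mul_cancel₀ hlam]
  obtain ⟨p, hp0, hp, hp1⟩ := path_of_mem (hG g _ hN)
  have key : ∀ s, (Matrix.of fun i j => ((cst M * p) i j).eval s : Matrix (Ix g) (Ix g) ℂ) =
      M * ev p s := by
    intro s
    have : ev (cst M * p) s = M * ev p s := by rw [ev_mul, ev_cst]
    rw [← this]
    rfl
  refine ⟨fun i j => (cst M * p) i j, ?_, ?_, ?_⟩
  · intro i j
    have := congrFun (congrFun (key 0) i) j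
    rw [hp0, mul_one] at this
    exact this
  · intro s
    rw [key]
    exact simil_mul hM (hp s)
  · rw [key, hp1, ← Matrix.mul_assoc, hMW, one_mul, hD, Matrix.toBlocks_fromBlocks₁₁]
    simp

end Pool.Agent.HGP
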