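import Pool.Agent.HGP.Stmts

/-!
HGP/CELLA (helper92): coordinates of the big cell.
-/

open Matrix

namespace Pool.Agent.HGP

namespace CELLAX

theorem symm_eq {g : ℕ} (X : Matrix (Fin g) (Fin g) ℂ) (hX : X.transpose = X) :
    symm (fun p => X p.1.1 p.1.2) = X := by
  ext i j
  unfold symm
  simp only [Matrix.of_apply]
  split_ifs with h
  · rfl
  · exact congrFun (congrFun hX i) j

theorem aof_fvec {g : ℕ} (M : Matrix (Ix g) (Ix g) ℂ) : Aof (fvec M) = M.toBlocks₁₁ := by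
  ext i j
  rfl

end CELLAX

open CELLAX in
theorem cella_proof : Stmt_CellA := by
  intro g M lam hlam hM hdet
  refine ⟨aof_fvec M, ?_⟩
  obtain ⟨A, B, C, D, rfl⟩ : ∃ A B C D, M = Matrix.fromBlocks A B C D :=
    ⟨M.toBlocks₁₁, M.toBlocks₁₂, M.toBlocks₂₁, M.toBlocks₂₂, (Matrix.fromBlocks_toBlocks M).symm⟩
  rw [Matrix.toBlocks_fromBlocks₁₁] at hdet
  have hu : IsUnit A.det := isUnit_iff_ne_zero.2 hdet
  have hA1 : A * A⁻¹ = 1 := Matrix.mul_nonsing_inv A hu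
  have hA2 : A⁻¹ * A = 1 := Matrix.nonsing_inv_mul A hu
  have hA3 : A⁻¹ᵀ * Aᵀ = 1 := by rw [← Matrix.transpose_mul, hA1, Matrix.transpose_one]
  have hA4 : Aᵀ * A⁻¹ᵀ = 1 := by rw [← Matrix.transpose_mul, hA2, Matrix.transpose_one]
  unfold Simil Matrix.J at hM
  rw [Matrix.fromBlocks_transpose, Matrix.fromBlocks_multiply, Matrix.fromBlocks_multiply,
    Matrix.fromBlocks_smul, Matrix.fromBlocks_inj] at hM
  obtain ⟨h11, h12, h21, h22⟩ := hM
  simp only [Matrix.mul_zero, Matrix.mul_one, Matrix.mul_neg, zero_add, add_zero, smul_zero,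
    smul_neg, Matrix.neg_mul] at h11 h12 h21 h22
  -- `h11 : Cᵀ * A + -(Aᵀ * C) = 0` and so on
  have e11 : Cᵀ * A = Aᵀ * C := by
    rw [← sub_eq_add_neg] at h11
    exact sub_eq_zero.1 h11
  have e22 : Dᵀ * B = Bᵀ * D := by
    rw [← sub_eq_add_neg] at h22
    exact sub_eq_zero.1 h22
  have e12 : Aᵀ * D = Cᵀ * B + lam • (1 : Matrix (Fin g) (Fin g) ℂ) := by
    have : Aᵀ * D = Cᵀ * B - (Cᵀ * B + -(Aᵀ * D)) := by abel
    rw [this, h12]
    abel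
  -- `S = C A⁻¹`
  have hS : (C * A⁻¹)ᵀ = C * A⁻¹ := by
    rw [Matrix.transpose_mul]
    calc A⁻¹ᵀ * Cᵀ = A⁻¹ᵀ * (Cᵀ * A) * A⁻¹ := by
          rw [Matrix.mul_assoc, Matrix.mul_assoc, hA1, Matrix.mul_one]
      _ = A⁻¹ᵀ * Aᵀ * (C * A⁻¹) := by rw [e11]; simp only [Matrix.mul_assoc]
      _ = C * A⁻¹ := by rw [hA3, Matrix.one_mul]
  have hD : D = C * A⁻¹ * B + lam • A⁻¹ᵀ := by
    calc D = A⁻¹ᵀ * (Aᵀ * D) := by rw [← Matrix.mul_assoc, hA3, Matrix.one_mul]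
      _ = (A⁻¹ᵀ * Cᵀ) * B + lam • A⁻¹ᵀ := by
          rw [e12, Matrix.mul_add, Matrix.mul_smul, Matrix.mul_one, Matrix.mul_assoc]
      _ = C * A⁻¹ * B + lam • A⁻¹ᵀ := by rw [← Matrix.transpose_mul, hS]
  have hT : (A⁻¹ * B)ᵀ = A⁻¹ * B := by
    have h1 : Dᵀ * B = Bᵀ * (C * A⁻¹) * B + lam • (A⁻¹ * B) := by
      rw [hD, Matrix.transpose_add, Matrix.transpose_smul, Matrix.transpose_transpose,
        Matrix.add_mul, Matrix.smul_mul, Matrix.transpose_mul, hS]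
    have h2 : Bᵀ * D = Bᵀ * (C * A⁻¹) * B + lam • (A⁻¹ * B)ᵀ := by
      conv_lhs => rw [hD]
      rw [Matrix.mul_add, Matrix.mul_smul, Matrix.transpose_mul, ← Matrix.mul_assoc,
        ← Matrix.mul_assoc]
    rw [h1, h2] at e22
    have h3 : lam • (A⁻¹ * B) = lam • (A⁻¹ * B)ᵀ := add_left_cancel e22
    exact (smul_right_injective _ hlam h3).symm
  unfold mvec
  rw [aof_fvec]
  have s1 : symm (fun p => fvec (Matrix.fromBlocks A B C D) (.inr (.inl p))) = C * A⁻¹ := by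
    have := symm_eq (C * A⁻¹) hS
    refine Eq.trans ?_ this
    congr 1
  have s2 : symm (fun p => fvec (Matrix.fromBlocks A B C D) (.inr (.inr p))) = A⁻¹ * B := by
    have := symm_eq (A⁻¹ * B) hT
    refine Eq.trans ?_ this
    congr 1
  simp only [s1, s2, Matrix.toBlocks_fromBlocks₁₁]
  have t1 : A * (A⁻¹ * B) = B := by rw [← Matrix.mul_assoc, hA1, Matrix.one_mul]
  have t2 : C * A⁻¹ * A = C := by rw [Matrix.mul_assoc, hA2, Matrix.mul_one]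
  rw [t1, t2]
  have t3 : C * (A⁻¹ * B) + lam • A⁻¹ᵀ = D := by
    rw [hD, Matrix.mul_assoc]
  rw [t3]

end Pool.Agent.HGP
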