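import Pool.Agent.HGP.Stmts

/-!
HGP/CELLQ (helper92): the coordinates of the big cell are fractions with denominator `det A`.
-/

open Matrix

namespace Pool.Agent.HGP

namespace CELLQX

theorem det_smul_inv {g : ℕ} (A : Matrix (Fin g) (Fin g) ℂ) (h : A.det ≠ 0) :
    A.adjugate = A.det • A⁻¹ := by
  rw [Matrix.inv_def, Ring.inverse_eq_inv', smul_smul, mul_inv_cancel₀ h, one_smul]

theorem eval_mat {V : Type} {g : ℕ} (x : V → ℂ) (X : Matrix (Ix g) (Ix g) (MvPolynomial V ℂ)) :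
    (X.map (MvPolynomial.eval x)).toBlocks₁₁ = X.toBlocks₁₁.map (MvPolynomial.eval x) := rfl

end CELLQX

open CELLQX in
theorem cellq_proof : Stmt_CellQ := by
  intro g
  let X : Matrix (Ix g) (Ix g) (MvPolynomial (Ix g × Ix g) ℂ) :=
    Matrix.of fun i j => MvPolynomial.X (i, j)
  let A := X.toBlocks₁₁
  let B := X.toBlocks₁₂
  let C := X.toBlocks₂₁
  refine ⟨A.det, fun x => match x with
    | .inl p => A.det * A p.1 p.2
    | .inr (.inl q) => (C * A.adjugate) q.1.1 q.1.2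
    | .inr (.inr q) => (A.adjugate * B) q.1.1 q.1.2, ?_⟩
  intro M
  let φ : MvPolynomial (Ix g × Ix g) ℂ →+* ℂ := MvPolynomial.eval (fun p => M p.1 p.2)
  have hA : A.map φ = M.toBlocks₁₁ := by
    ext i j
    exact MvPolynomial.eval_X _
  have hB : B.map φ = M.toBlocks₁₂ := by
    ext i j
    exact MvPolynomial.eval_X _
  have hC : C.map φ = M.toBlocks₂₁ := by
    ext i j
    exact MvPolynomial.eval_X _
  have hadj : A.adjugate.map φ = M.toBlocks₁₁.adjugate := by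
    rw [← hA]
    exact RingHom.map_adjugate φ A
  have hdet : φ A.det = M.toBlocks₁₁.det := by
    rw [← hA]
    exact RingHom.map_det φ A
  refine ⟨hdet, ?_⟩
  intro h x
  rcases x with p | q | q
  · show φ (A.det * A p.1 p.2) = M.toBlocks₁₁.det * M.toBlocks₁₁ p.1 p.2
    rw [map_mul, hdet, ← hA]
    rfl
  · show φ ((C * A.adjugate) q.1.1 q.1.2) =
      M.toBlocks₁₁.det * (M.toBlocks₂₁ * M.toBlocks₁₁⁻¹) q.1.1 q.1.2
    have h1 : (C * A.adjugate).map φ = M.toBlocks₁₁.det • (M.toBlocks₂₁ * M.toBlocks₁₁⁻¹) := by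
      rw [Matrix.map_mul, hC, hadj, det_smul_inv _ h, Matrix.mul_smul]
    exact congrFun (congrFun h1 q.1.1) q.1.2
  · show φ ((A.adjugate * B) q.1.1 q.1.2) =
      M.toBlocks₁₁.det * (M.toBlocks₁₁⁻¹ * M.toBlocks₁₂) q.1.1 q.1.2
    have h1 : (A.adjugate * B).map φ = M.toBlocks₁₁.det • (M.toBlocks₁₁⁻¹ * M.toBlocks₁₂) := by
      rw [Matrix.map_mul, hB, hadj, det_smul_inv _ h, Matrix.smul_mul]
    exact congrFun (congrFun h1 q.1.1) q.1.2

end Pool.Agent.HGP
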