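import Pool.Agent.HGP.Stmts
import Pool.Agent.Lib70.PiTranscendental

/-!
# HGP module INDUC: induction on the number of curves
-/

open scoped BigOperators Topology
open Metric Set MeasureTheory

namespace Pool.Agent.HGP

noncomputable section

namespace InducX

/-- Freeness does not depend on the names of the variables. -/
lemma free_rename {ι κ : Type} (e : ι ≃ κ) (D B : ℕ) (c : κ → ℂ)
    (h : GPC.Free D B (c ∘ e)) : GPC.Free D B c := by
  intro Q hQ h0
  have h1 : MvPolynomial.rename e.symm Q = 0 := by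
    apply h
    · constructor
      · exact (MvPolynomial.totalDegree_rename_le _ _).trans hQ.1
      · intro m
        have : m = Finsupp.mapDomain e.symm (Finsupp.mapDomain e m) := by
          rw [← Finsupp.mapDomain_comp]
          simp
        rw [this, MvPolynomial.coeff_rename_mapDomain _ e.symm.injective]
        exact hQ.2 _
    · rw [MvPolynomial.aeval_rename]
      have : (c ∘ e) ∘ e.symm = c := by
        funext x
        simp
      rw [this, h0]
  exact (MvPolynomial.rename_injective _ e.symm.injective) (by rw [h1, map_zero])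

/-- The equivalence of index sets for the step from `r` to `r + 1`. -/
def idx {r : ℕ} (g : Fin (r + 1) → ℕ) :
    Option (Σ i : Fin r, Idx (g i.castSucc)) ⊕ Idx (g (Fin.last r)) →
      Option (Σ i : Fin (r + 1), Idx (g i)) :=
  Sum.elim (fun o => o.elim none (fun p => some ⟨p.1.castSucc, p.2⟩))
    (fun j => some ⟨Fin.last r, j⟩)

lemma idx_bij {r : ℕ} (g : Fin (r + 1) → ℕ) : Function.Bijective (idx g) := by
  constructor
  · rintro (o | j) (o' | j') h
    · rcases o with _ | ⟨i, j⟩ <;> rcases o' with _ | ⟨i', j'⟩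
      · rfl
      · simp [idx] at h
      · simp [idx] at h
      · simp only [idx, Sum.elim_inl, Option.elim_some, Option.some.injEq] at h
        have h1 : i = i' := by
          have := congrArg Sigma.fst h
          simpa using this
        subst h1
        have h2 : j = j' := by
          have := (Sigma.mk.inj_iff.mp h).2
          exact eq_of_heq this
        rw [h2]
    · rcases o with _ | ⟨i, j⟩
      · simp [idx] at h
      · simp only [idx, Sum.elim_inl, Option.elim_some, Sum.elim_inr, Option.some.injEq] at h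
        have := congrArg Sigma.fst h
        exact absurd this (Fin.castSucc_lt_last i).ne
    · rcases o' with _ | ⟨i, j⟩
      · simp [idx] at h
      · simp only [idx, Sum.elim_inl, Option.elim_some, Sum.elim_inr, Option.some.injEq] at h
        have := congrArg Sigma.fst h
        exact absurd this (Fin.castSucc_lt_last i).ne'
    · simp only [idx, Sum.elim_inr, Option.some.injEq] at h
      have := eq_of_heq (Sigma.mk.inj_iff.mp h).2
      rw [this]
  · rintro (_ | ⟨i, j⟩)
    · exact ⟨Sum.inl none, rfl⟩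
    · revert j
      refine Fin.lastCases ?_ (fun i => ?_) i
      · exact fun j => ⟨Sum.inr j, rfl⟩
      · exact fun j => ⟨Sum.inl (some ⟨i, j⟩), rfl⟩

lemma free_snoc {r : ℕ} (g : Fin (r + 1) → ℕ) (a : Fin (r + 1) → ℕ → ℝ) (D B : ℕ)
    (t : Fin (r + 1) → ℝ)
    (h : GPC.Free D B (Sum.elim
      (cvec (fun i : Fin r => g i.castSucc) (fun i => a i.castSucc) (fun i => t i.castSucc))
      (fvec (Per (g (Fin.last r)) (a (Fin.last r)) (t (Fin.last r)))))) :
    GPC.Free D B (cvec g a t) := by
  apply free_rename (Equiv.ofBijective (idx g) (idx_bij g))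
  convert h using 1
  funext x
  rcases x with (_ | ⟨i, j⟩) | j
  · rfl
  · rfl
  · rfl

/-- `2 π i` is transcendental. -/
lemma base (D B : ℕ) (g : Fin 0 → ℕ) (a : Fin 0 → ℕ → ℝ) (t : Fin 0 → ℝ) :
    GPC.Free D B (cvec g a t) := by
  have hpi := Pool.Agent.Lib70.PiTr.transcendental_pi
  intro Q _ h0
  by_contra hQ
  have htr : Transcendental ℤ (2 * Real.pi * Complex.I : ℂ) := by
    have h1 : Transcendental ℚ (2 * Real.pi * Complex.I : ℂ) := by
      intro halg
      apply hpi
      have hI : IsAlgebraic ℚ Complex.I :=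
        ⟨Polynomial.X ^ 2 + 1, by
          intro h
          have := congrArg (Polynomial.eval 0) h
          simp at this, by simp⟩
      have h2 : IsAlgebraic ℚ ((2 * Real.pi * Complex.I) * Complex.I : ℂ) := halg.mul hI
      have h3 : ((2 * Real.pi * Complex.I) * Complex.I : ℂ) = -2 * (Real.pi : ℂ) := by
        have := Complex.I_mul_I
        linear_combination (2 * (Real.pi : ℂ)) * this
      rw [h3] at h2
      have h4 : IsAlgebraic ℚ ((-2 : ℂ)⁻¹ * (-2 * (Real.pi : ℂ))) := by
        refine IsAlgebraic.mul ?_ h2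
        have : ((-2 : ℂ)⁻¹) = algebraMap ℚ ℂ ((-2)⁻¹) := by simp
        rw [this]
        exact isAlgebraic_algebraMap _
      rw [inv_mul_cancel_left₀ (by norm_num)] at h4
      have h5 : ((Real.pi : ℝ) : ℂ) = algebraMap ℝ ℂ Real.pi := rfl
      rw [h5] at h4
      exact (isAlgebraic_algebraMap_iff (algebraMap ℝ ℂ).injective).mp h4
    intro h
    exact h1 ((IsFractionRing.isAlgebraic_iff ℤ ℚ ℂ).mp h)
  -- the polynomial in one variable
  let e : Option (Σ i : Fin 0, Idx (g i)) ≃ Unit :=
    { toFun := fun _ => (), invFun := fun _ => none,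
      left_inv := by rintro (_ | ⟨i, _⟩)
                     · rfl
                     · exact i.elim0
      right_inv := fun _ => rfl }
  have hQ' : MvPolynomial.uniqueAlgEquiv ℤ Unit (MvPolynomial.rename e Q) ≠ 0 := by
    intro h
    apply hQ
    have h1 := (MvPolynomial.uniqueAlgEquiv ℤ Unit).injective (by rw [h, map_zero] :
      MvPolynomial.uniqueAlgEquiv ℤ Unit (MvPolynomial.rename e Q) =
        MvPolynomial.uniqueAlgEquiv ℤ Unit 0)
    exact (MvPolynomial.rename_injective _ e.injective) (by rw [h1, map_zero])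
  apply htr
  refine ⟨_, hQ', ?_⟩
  have key : (Polynomial.aeval (2 * Real.pi * Complex.I : ℂ)).comp
      ((MvPolynomial.uniqueAlgEquiv ℤ Unit : MvPolynomial Unit ℤ →ₐ[ℤ] Polynomial ℤ).comp
        (MvPolynomial.rename e)) = MvPolynomial.aeval (cvec g a t) := by
    apply MvPolynomial.algHom_ext
    rintro (_ | ⟨i, _⟩)
    · have h1 : MvPolynomial.rename e (MvPolynomial.X none : MvPolynomial _ ℤ) =
          MvPolynomial.X () := MvPolynomial.rename_X _ _
      rw [AlgHom.comp_apply, AlgHom.comp_apply, h1, MvPolynomial.aeval_X]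
      change Polynomial.aeval (2 * Real.pi * Complex.I : ℂ)
        (MvPolynomial.eval₂ Polynomial.C (fun _ => Polynomial.X)
          (MvPolynomial.X () : MvPolynomial Unit ℤ)) = _
      rw [MvPolynomial.eval₂_X, Polynomial.aeval_X]
      rfl
    · exact i.elim0
  have := congrArg (fun φ => φ Q) key
  simpa [h0] using this

open Classical in
/-- The rational numbers of height at most `H`. -/
def bx (H : ℕ) : Finset ℚ :=
  ((Finset.Icc (-(H : ℤ)) H) ×ˢ (Finset.Icc 1 H)).image (fun p => (p.1 : ℚ) / (p.2 : ℚ))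

lemma mem_bx {H : ℕ} {q : ℚ} (h1 : q.num.natAbs ≤ H) (h2 : q.den ≤ H) : q ∈ bx H := by
  classical
  unfold bx
  rw [Finset.mem_image]
  refine ⟨(q.num, q.den), ?_, ?_⟩
  · rw [Finset.mem_product, Finset.mem_Icc, Finset.mem_Icc]
    refine ⟨?_, q.pos, h2⟩
    simp only
    omega
  · exact Rat.num_div_den q

lemma card_bx {H : ℕ} (hH : 1 ≤ H) : ((bx H).card : ℝ) ≤ 3 * (H : ℝ) ^ 2 := by
  classical
  have h1 : (bx H).card ≤ (2 * H + 1) * H := by
    unfold bx
    refine Finset.card_image_le.trans ?_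
    rw [Finset.card_product, Int.card_Icc, Nat.card_Icc]
    apply Nat.mul_le_mul
    · omega
    · omega
  have h2 : (bx H).card ≤ 3 * H ^ 2 := by
    refine h1.trans ?_
    nlinarith
  exact_mod_cast h2

open Classical in
/-- The counting step. -/
lemma count_step {r : ℕ} (BX : Finset ℚ) (P : (Fin (r + 1) → ℚ) → Prop)
    (P' : (Fin r → ℚ) → Prop) (S : (Fin r → ℚ) → ℚ → Prop) (C1 : ℝ)
    (hPB : ∀ t, P t → ∀ i, t i ∈ BX) (hPB' : ∀ t, P' t → ∀ i, t i ∈ BX)
    (hS : ∀ t', ∀ T : Finset ℚ, (∀ q ∈ T, S t' q) → (T.card : ℝ) ≤ C1)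
    (hP : ∀ t, P t → P' (fun i => t i.castSucc) ∨ S (fun i => t i.castSucc) (t (Fin.last r))) :
    (Nat.card {t : Fin (r + 1) → ℚ // P t} : ℝ) ≤
      (Nat.card {t : Fin r → ℚ // P' t} : ℝ) * BX.card + (BX.card : ℝ) ^ r * C1 := by
  set A : Finset (Fin r → ℚ) := Fintype.piFinset (fun _ : Fin r => BX) with hA
  have hAc : A.card = BX.card ^ r := by
    rw [hA, Fintype.card_piFinset]
    simp
  have e1 : Nat.card {t : Fin (r + 1) → ℚ // P t} =
      ((Fintype.piFinset (fun _ : Fin (r + 1) => BX)).filter P).card :=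
    Nat.subtype_card _ (fun p => by
      rw [Finset.mem_filter, Fintype.mem_piFinset]
      exact ⟨fun h => h.2, fun h => ⟨hPB p h, h⟩⟩)
  have e2 : Nat.card {t : Fin r → ℚ // P' t} = (A.filter P').card :=
    Nat.subtype_card _ (fun p => by
      rw [Finset.mem_filter, hA, Fintype.mem_piFinset]
      exact ⟨fun h => h.2, fun h => ⟨hPB' p h, h⟩⟩)
  rw [e1, e2]
  let U1 : Finset ((Fin r → ℚ) × ℚ) := (A.filter P') ×ˢ BX
  let U2 : Finset ((Fin r → ℚ) × ℚ) := A.biUnion fun t' =>
    ({t'} : Finset _) ×ˢ (BX.filter (S t'))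
  have hsub : ((Fintype.piFinset (fun _ : Fin (r + 1) => BX)).filter P).card ≤
      (U1 ∪ U2).card := by
    apply Finset.card_le_card_of_injOn
      (fun p => ((fun i : Fin r => p i.castSucc), p (Fin.last r)))
    · intro p hp
      have hp1 : ∀ i, p i ∈ BX := by
        have := (Finset.mem_filter.mp (Finset.mem_coe.mp hp)).1
        exact fun i => Fintype.mem_piFinset.mp this i
      have hp2 : P p := (Finset.mem_filter.mp (Finset.mem_coe.mp hp)).2
      have hpA : (fun i : Fin r => p i.castSucc) ∈ A :=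
        Fintype.mem_piFinset.mpr (fun i => hp1 _)
      rw [Finset.mem_coe, Finset.mem_union]
      rcases hP p hp2 with h | hSw
      · left
        exact Finset.mem_product.mpr ⟨Finset.mem_filter.mpr ⟨hpA, h⟩, hp1 _⟩
      · right
        exact Finset.mem_biUnion.mpr ⟨_, hpA, Finset.mem_product.mpr
          ⟨Finset.mem_singleton_self _, Finset.mem_filter.mpr ⟨hp1 _, hSw⟩⟩⟩
    · intro p _ p' _ h
      have h1 := congrArg Prod.fst h
      have h2 := congrArg Prod.snd h
      funext i
      refine Fin.lastCases ?_ (fun i => ?_) i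
      · exact h2
      · exact congrFun h1 i
  have hU1 : (U1.card : ℝ) = ((A.filter P').card : ℝ) * BX.card := by
    simp only [U1]
    rw [Finset.card_product]
    push_cast
    ring
  have hU2 : (U2.card : ℝ) ≤ (BX.card : ℝ) ^ r * C1 := by
    have h1 : U2.card ≤ ∑ t' ∈ A, (BX.filter (S t')).card := by
      refine Finset.card_biUnion_le.trans (Finset.sum_le_sum fun t' _ => ?_)
      rw [Finset.card_product, Finset.card_singleton, one_mul]
    calc (U2.card : ℝ) ≤ ∑ t' ∈ A, ((BX.filter (S t')).card : ℝ) := by exact_mod_cast h1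
      _ ≤ ∑ t' ∈ A, C1 := by
          refine Finset.sum_le_sum fun t' _ => ?_
          exact hS t' _ (fun q hq => (Finset.mem_filter.mp hq).2)
      _ = (BX.card : ℝ) ^ r * C1 := by
          rw [Finset.sum_const, nsmul_eq_mul, hAc]
          push_cast
          ring
  calc (((Fintype.piFinset (fun _ : Fin (r + 1) => BX)).filter P).card : ℝ)
      ≤ ((U1 ∪ U2).card : ℝ) := by exact_mod_cast hsub
    _ ≤ (U1.card : ℝ) + U2.card := by exact_mod_cast Finset.card_union_le _ _
    _ ≤ _ := by
        rw [hU1]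
        linarith

end InducX

open InducX in
/-- INDUC. -/
theorem induc_proof (hStep : Stmt_Step) : Stmt_Induc := by
  intro r
  induction r with
  | zero =>
    intro g a _ _ T0 T1 _ D A ε _
    refine ⟨0, fun H _ => ?_⟩
    have : IsEmpty {t : Fin 0 → ℚ // (∀ i, T0 i ≤ t i ∧ (t i : ℝ) ≤ T1 i ∧
        (t i).num.natAbs ≤ H ∧ (t i).den ≤ H) ∧
        ¬ GPC.Free D (H ^ A) (cvec g a (fun i => (t i : ℝ)))} := by
      constructor
      rintro ⟨t, _, h⟩
      exact h (base _ _ _ _ _)
    rw [Nat.card_of_isEmpty]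
    simp
  | succ r ih =>
    intro g a hg ha T0 T1 hT D A ε hε
    obtain ⟨C1, hC1⟩ := hStep (g (Fin.last r)) (a (Fin.last r)) (hg _) (ha _) (T0 (Fin.last r))
      (T1 (Fin.last r)) (hT _) ε hε (Option (Σ i : Fin r, Idx (g i.castSucc))) D A
    obtain ⟨C2, hC2⟩ := ih (fun i => g i.castSucc) (fun i => a i.castSucc) (fun i => hg _)
      (fun i => ha _) (fun i => T0 i.castSucc) (fun i => T1 i.castSucc) (fun i => hT _) D A ε hε
    refine ⟨3 * |C2| + 3 ^ r * |C1|, fun H hH => ?_⟩
    have hH1 : (1 : ℝ) ≤ H := by exact_mod_cast hH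
    have hH0 : (0 : ℝ) < H := by linarith
    have hbox := card_bx hH
    have key := count_step (r := r) (bx H)
      (fun t => (∀ i, T0 i ≤ t i ∧ (t i : ℝ) ≤ T1 i ∧ (t i).num.natAbs ≤ H ∧ (t i).den ≤ H) ∧
        ¬ GPC.Free D (H ^ A) (cvec g a (fun i => (t i : ℝ))))
      (fun t => (∀ i, T0 i.castSucc ≤ t i ∧ (t i : ℝ) ≤ T1 i.castSucc ∧
        (t i).num.natAbs ≤ H ∧ (t i).den ≤ H) ∧
        ¬ GPC.Free D (H ^ A) (cvec (fun i : Fin r => g i.castSucc) (fun i => a i.castSucc)
          (fun i => (t i : ℝ))))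
      (fun t q => GPC.Free D (H ^ A) (cvec (fun i : Fin r => g i.castSucc)
          (fun i => a i.castSucc) (fun i => (t i : ℝ))) ∧
        (T0 (Fin.last r) ≤ q ∧ (q : ℝ) ≤ T1 (Fin.last r) ∧ q.num.natAbs ≤ H ∧ q.den ≤ H ∧
        ¬ GPC.Free D (H ^ A) (Sum.elim (cvec (fun i : Fin r => g i.castSucc)
          (fun i => a i.castSucc) (fun i => (t i : ℝ)))
          (fvec (Per (g (Fin.last r)) (a (Fin.last r)) q)))))
      (|C1| * (H : ℝ) ^ ε)
      (fun t ht i => mem_bx (ht.1 i).2.2.1 (ht.1 i).2.2.2)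
      (fun t ht i => mem_bx (ht.1 i).2.2.1 (ht.1 i).2.2.2)
      (by
        intro t' T hTS
        rcases T.eq_empty_or_nonempty with rfl | ⟨q0, hq0⟩
        · simp only [Finset.card_empty, Nat.cast_zero]
          positivity
        · refine (hC1 H hH _ (hTS q0 hq0).1 T (fun q hq => (hTS q hq).2)).trans ?_
          exact mul_le_mul_of_nonneg_right (le_abs_self _) (by positivity))
      (by
        rintro t ⟨ht, hnf⟩
        by_cases hfr : GPC.Free D (H ^ A) (cvec (fun i : Fin r => g i.castSucc)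
          (fun i => a i.castSucc) (fun i => (t i.castSucc : ℝ)))
        · right
          exact ⟨hfr, (ht _).1, (ht _).2.1, (ht _).2.2.1, (ht _).2.2.2,
            fun hcon => hnf (free_snoc g a _ _ (fun i => (t i : ℝ)) hcon)⟩
        · left
          exact ⟨fun i => ht _, hfr⟩)
    refine key.trans ?_
    have h1 := hC2 H hH
    have h1' : C2 * (H : ℝ) ^ (2 * (r : ℝ) - 2 + ε) ≤ |C2| * (H : ℝ) ^ (2 * (r : ℝ) - 2 + ε) :=
      mul_le_mul_of_nonneg_right (le_abs_self _) (by positivity)
    have h2 : ((bx H).card : ℝ) ^ r ≤ (3 * (H : ℝ) ^ 2) ^ r :=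
      pow_le_pow_left₀ (by positivity) hbox r
    have e1 : (H : ℝ) ^ (2 * (r : ℝ) - 2 + ε) * (H : ℝ) ^ 2 =
        (H : ℝ) ^ (2 * ((r + 1 : ℕ) : ℝ) - 2 + ε) := by
      rw [← Real.rpow_natCast (H : ℝ) 2, ← Real.rpow_add hH0]
      congr 1
      push_cast
      ring
    have e2 : ((H : ℝ) ^ 2) ^ r * (H : ℝ) ^ ε = (H : ℝ) ^ (2 * ((r + 1 : ℕ) : ℝ) - 2 + ε) := by
      rw [← pow_mul, ← Real.rpow_natCast (H : ℝ) (2 * r), ← Real.rpow_add hH0]
      congr 1
      push_cast
      ring
    calc _ ≤ (|C2| * (H : ℝ) ^ (2 * (r : ℝ) - 2 + ε)) * (3 * (H : ℝ) ^ 2) +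
          (3 * (H : ℝ) ^ 2) ^ r * (|C1| * (H : ℝ) ^ ε) := by
          have := h1.trans h1'
          gcongr
      _ = 3 * |C2| * ((H : ℝ) ^ (2 * (r : ℝ) - 2 + ε) * (H : ℝ) ^ 2) +
          3 ^ r * |C1| * (((H : ℝ) ^ 2) ^ r * (H : ℝ) ^ ε) := by
          rw [mul_pow]
          ring
      _ = _ := by
          rw [e1, e2]
          ring

end

end Pool.Agent.HGP
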