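import Pool.Agent.HGP.Stmts

/-!
# HGP HOMOG: substitution of fractions in an integral polynomial, with bounds
-/

open scoped BigOperators Topology
open Metric Set MeasureTheory

namespace Pool.Agent.HGP

namespace HOMOG_

noncomputable section

/-- The value of the monomial `m` (with the denominators cleared). -/
def term {V W : Type} [Fintype V] (q : V → MvPolynomial W ℤ) (Δ : MvPolynomial W ℤ) (D : ℕ)
    (m : V →₀ ℕ) : MvPolynomial W ℤ :=
  Δ ^ (D - ∑ v, m v) * ∏ v, q v ^ m v

/-- The sum of the absolute values of the coefficients. -/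
def len {W : Type} (T : MvPolynomial W ℤ) : ℕ := ∑ n ∈ T.support, (T.coeff n).natAbs

lemma coeff_le_len {W : Type} (T : MvPolynomial W ℤ) (n : W →₀ ℕ) :
    (T.coeff n).natAbs ≤ len T := by
  by_cases h : n ∈ T.support
  · exact Finset.single_le_sum (f := fun n => (T.coeff n).natAbs) (fun _ _ => Nat.zero_le _) h
  · have : T.coeff n = 0 := by simpa [MvPolynomial.mem_support_iff] using h
    rw [this]
    simp

lemma sum_le_totalDegree {V : Type} [Fintype V] (P : MvPolynomial V ℤ) {m : V →₀ ℕ}
    (hm : m ∈ P.support) : ∑ v, m v ≤ P.totalDegree := by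
  have h := MvPolynomial.le_totalDegree hm
  rwa [Finsupp.sum_fintype _ _ (fun _ => rfl)] at h

lemma eval_term {V W : Type} [Fintype V] (q : V → MvPolynomial W ℤ) (Δ : MvPolynomial W ℤ)
    (D : ℕ) (m : V →₀ ℕ) (hm : ∑ v, m v ≤ D) (w : W → ℂ) (hw : MvPolynomial.aeval w Δ ≠ 0) :
    MvPolynomial.aeval w (term q Δ D m) = (MvPolynomial.aeval w Δ) ^ D *
      ∏ v, (MvPolynomial.aeval w (q v) / MvPolynomial.aeval w Δ) ^ m v := by
  unfold term
  rw [map_mul, map_pow, map_prod]
  simp only [map_pow, div_pow]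
  rw [Finset.prod_div_distrib, Finset.prod_pow_eq_pow_sum]
  rw [pow_sub₀ _ hw hm]
  field_simp

end

end HOMOG_

open HOMOG_ in
theorem homog_proof : Stmt_Homog := by
  classical
  intro V W _ _ q Δ D
  set S : Finset (V →₀ ℕ) := Finset.Iic (Finsupp.equivFunOnFinite.symm (fun _ => D)) with hS
  have hmem : ∀ m : V →₀ ℕ, ∑ v, m v ≤ D → m ∈ S := by
    intro m hm
    rw [hS, Finset.mem_Iic]
    intro v
    simp only [Finsupp.equivFunOnFinite_symm_apply_apply]
    exact (Finset.single_le_sum (f := fun v => m v) (fun _ _ => Nat.zero_le _)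
      (Finset.mem_univ v)).trans hm
  refine ⟨S.sup (fun m => (term q Δ D m).totalDegree), ∑ m ∈ S, len (term q Δ D m), ?_⟩
  intro B P hP
  obtain ⟨hD, hB⟩ := hP
  refine ⟨∑ m ∈ S, MvPolynomial.C (P.coeff m) * term q Δ D m, ⟨?_, ?_⟩, ?_⟩
  · refine MvPolynomial.totalDegree_finsetSum_le (fun m hm => ?_)
    refine (MvPolynomial.totalDegree_mul _ _).trans ?_
    rw [MvPolynomial.totalDegree_C, zero_add]
    exact Finset.le_sup (f := fun m => (term q Δ D m).totalDegree) hm
  · intro n
    rw [MvPolynomial.coeff_sum, Finset.sum_mul]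
    refine (Int.natAbs_sum_le _ _).trans (Finset.sum_le_sum fun m _ => ?_)
    rw [MvPolynomial.coeff_C_mul, Int.natAbs_mul, mul_comm]
    exact Nat.mul_le_mul (coeff_le_len _ _) (hB m)
  · intro w hw
    rw [map_sum]
    have h1 : MvPolynomial.aeval (fun v => MvPolynomial.aeval w (q v) / MvPolynomial.aeval w Δ) P =
        ∑ m ∈ S, ((P.coeff m : ℤ) : ℂ) *
          ∏ v, (MvPolynomial.aeval w (q v) / MvPolynomial.aeval w Δ) ^ m v := by
      rw [MvPolynomial.aeval_def, MvPolynomial.eval₂_eq']
      refine Finset.sum_subset_zero_on_sdiff ?_ ?_ ?_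
      · intro m hm
        exact hmem m ((sum_le_totalDegree P hm).trans hD)
      · intro m hm
        have : P.coeff m = 0 := by
          simpa [MvPolynomial.mem_support_iff] using (Finset.mem_sdiff.1 hm).2
        rw [this]
        simp
      · intro m _
        simp
    rw [h1, Finset.mul_sum]
    refine Finset.sum_congr rfl fun m _ => ?_
    rw [map_mul, MvPolynomial.aeval_C]
    by_cases hc : P.coeff m = 0
    · rw [hc]; simp
    · have hm : m ∈ P.support := by rwa [MvPolynomial.mem_support_iff]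
      rw [eval_term q Δ D m ((sum_le_totalDegree P hm).trans hD) w hw]
      simp only [algebraMap_int_eq, eq_intCast]
      ring

end Pool.Agent.HGP
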