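import Pool.Agent.HGP.Stmts

/-!
# HGP, module INTG: integrability of inverse square roots
-/

open scoped BigOperators Topology
open Metric Set MeasureTheory

namespace Pool.Agent.HGP

namespace INTG_

/-- `x ↦ (x - p) ^ (-1/2)` is interval integrable. -/
lemma intL (p q : ℝ) (hpq : p < q) :
    IntervalIntegrable (fun x => (x - p) ^ (-(1 / 2) : ℝ)) volume p q := by
  have h : IntervalIntegrable (fun x : ℝ => x ^ (-(1 / 2) : ℝ)) volume 0 (q - p) :=
    intervalIntegral.intervalIntegrable_rpow' (by norm_num)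
  have h2 := h.comp_sub_right p
  simpa using h2

/-- `x ↦ (q - x) ^ (-1/2)` is interval integrable. -/
lemma intR (p q : ℝ) (hpq : p < q) :
    IntervalIntegrable (fun x => (q - x) ^ (-(1 / 2) : ℝ)) volume p q := by
  have h : IntervalIntegrable (fun x : ℝ => x ^ (-(1 / 2) : ℝ)) volume (q - p) 0 :=
    intervalIntegral.intervalIntegrable_rpow' (by norm_num)
  have h2 := h.comp_sub_left q
  simpa using h2

lemma key (p q x m g : ℝ) (hpx : p < x) (hxq : x < q) (hm : 0 < m) (hg : m ≤ g) :
    1 / √(|(x - p) * (x - q)| * g) ≤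
      (1 / √(m * ((q - p) / 2))) * ((x - p) ^ (-(1 / 2) : ℝ) + (q - x) ^ (-(1 / 2) : ℝ)) := by
  have hA : 0 < x - p := by linarith
  have hB : 0 < q - x := by linarith
  have habs : |(x - p) * (x - q)| = (x - p) * (q - x) := by
    rw [abs_of_nonpos (by nlinarith)]; ring
  rw [habs]
  have hAr : (x - p) ^ (-(1 / 2) : ℝ) = 1 / √(x - p) := by
    rw [Real.rpow_neg hA.le, ← Real.sqrt_eq_rpow, one_div]
  have hBr : (q - x) ^ (-(1 / 2) : ℝ) = 1 / √(q - x) := by
    rw [Real.rpow_neg hB.le, ← Real.sqrt_eq_rpow, one_div]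
  rw [hAr, hBr]
  have hsA : 0 < √(x - p) := Real.sqrt_pos.mpr hA
  have hsB : 0 < √(q - x) := Real.sqrt_pos.mpr hB
  have hd : 0 < (q - p) / 2 := by linarith
  have hsm : 0 < √(m * ((q - p) / 2)) := Real.sqrt_pos.mpr (by positivity)
  rcases le_total (x - p) (q - x) with h | h
  · -- `q - x ≥ (q - p) / 2`
    have h1 : m * ((q - p) / 2) * (x - p) ≤ (x - p) * (q - x) * g := by
      have : (q - p) / 2 ≤ q - x := by linarith
      have h3 : m * ((q - p) / 2) ≤ g * (q - x) := mul_le_mul hg this hd.le (by linarith)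
      nlinarith
    have h2 : √(m * ((q - p) / 2)) * √(x - p) ≤ √((x - p) * (q - x) * g) := by
      rw [← Real.sqrt_mul (by positivity)]
      exact Real.sqrt_le_sqrt h1
    calc 1 / √((x - p) * (q - x) * g) ≤ 1 / (√(m * ((q - p) / 2)) * √(x - p)) :=
          one_div_le_one_div_of_le (by positivity) h2
      _ = (1 / √(m * ((q - p) / 2))) * (1 / √(x - p)) := by rw [one_div_mul_one_div]
      _ ≤ _ := by
          apply mul_le_mul_of_nonneg_left _ (by positivity)
          have : 0 ≤ 1 / √(q - x) := by positivity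
          linarith
  · have h1 : m * ((q - p) / 2) * (q - x) ≤ (x - p) * (q - x) * g := by
      have : (q - p) / 2 ≤ x - p := by linarith
      have h3 : m * ((q - p) / 2) ≤ g * (x - p) := mul_le_mul hg this hd.le (by linarith)
      nlinarith
    have h2 : √(m * ((q - p) / 2)) * √(q - x) ≤ √((x - p) * (q - x) * g) := by
      rw [← Real.sqrt_mul (by positivity)]
      exact Real.sqrt_le_sqrt h1
    calc 1 / √((x - p) * (q - x) * g) ≤ 1 / (√(m * ((q - p) / 2)) * √(q - x)) :=
          one_div_le_one_div_of_le (by positivity) h2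
      _ = (1 / √(m * ((q - p) / 2))) * (1 / √(q - x)) := by rw [one_div_mul_one_div]
      _ ≤ _ := by
          apply mul_le_mul_of_nonneg_left _ (by positivity)
          have : 0 ≤ 1 / √(x - p) := by positivity
          linarith

end INTG_

open INTG_ in
theorem intg_proof : Stmt_Intg := by
  intro p q G hpq hG hpos
  obtain ⟨x0, hx0, hmin⟩ := isCompact_Icc.exists_isMinOn (nonempty_Icc.mpr hpq.le) hG
  have hm : 0 < G x0 := hpos x0 hx0
  have hdom : IntervalIntegrable (fun x => (1 / √(G x0 * ((q - p) / 2))) *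
      ((x - p) ^ (-(1 / 2) : ℝ) + (q - x) ^ (-(1 / 2) : ℝ))) volume p q :=
    ((intL p q hpq).add (intR p q hpq)).const_mul _
  rw [intervalIntegrable_iff_integrableOn_Ioo_of_le hpq.le] at hdom ⊢
  refine Integrable.mono' hdom ?_ ?_
  · have hc : ContinuousOn (fun x => 1 / √(|(x - p) * (x - q)| * G x)) (Ioo p q) := by
      apply ContinuousOn.div continuousOn_const
      · apply ContinuousOn.sqrt
        apply ContinuousOn.mul
        · exact (by fun_prop : Continuous fun x : ℝ => |(x - p) * (x - q)|).continuousOn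
        · exact hG.mono Ioo_subset_Icc_self
      · intro x hx
        have h1 : 0 < G x := hpos x (Ioo_subset_Icc_self hx)
        have h2 : (x - p) * (x - q) ≠ 0 :=
          mul_ne_zero (by linarith [hx.1]) (by linarith [hx.2])
        have : 0 < |(x - p) * (x - q)| := abs_pos.mpr h2
        exact (Real.sqrt_pos.mpr (by positivity)).ne'
    exact hc.aestronglyMeasurable measurableSet_Ioo
  · refine (ae_restrict_iff' measurableSet_Ioo).mpr (Filter.Eventually.of_forall ?_)
    intro x hx
    rw [Real.norm_of_nonneg (by positivity)]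
    exact key p q x (G x0) (G x) hx.1 hx.2 hm (hmin (Ioo_subset_Icc_self hx))

end Pool.Agent.HGP
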