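import Pool.Agent.HGP.Stmts

/-!
# PINT: holomorphic dependence of an integral on a parameter
-/

open scoped BigOperators Topology Interval
open Metric Set MeasureTheory Filter

namespace Pool.Agent.HGP

noncomputable section

theorem pint_proof : Stmt_Pint := by
  intro p q φ V k hpq hφ hV hk hd t0 ht0
  obtain ⟨ε, hε, hball⟩ := Metric.isOpen_iff.1 hV t0 ht0
  obtain ⟨r, hr⟩ : ∃ r, r = ε / 3 := ⟨_, rfl⟩
  have hr0 : 0 < r := by rw [hr]; positivity
  have hsub : closedBall t0 (2 * r) ⊆ V :=
    (closedBall_subset_ball (by rw [hr]; linarith)).trans hball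
  have hsub1 : ∀ t ∈ ball t0 r, closedBall t r ⊆ closedBall t0 (2 * r) := by
    intro t ht s hs
    rw [mem_closedBall] at hs ⊢
    rw [mem_ball] at ht
    have := dist_triangle s t t0
    linarith
  -- the bound
  obtain ⟨B, hB⟩ := ((isCompact_closedBall t0 (2 * r)).prod
    (isCompact_Icc (a := p) (b := q))).exists_bound_of_continuousOn
      (hk.mono (Set.prod_mono hsub le_rfl))
  have hB' : ∀ t ∈ closedBall t0 (2 * r), ∀ x ∈ Icc p q, ‖k t x‖ ≤ B :=
    fun t ht x hx => hB (t, x) ⟨ht, hx⟩
  have hIoc : Ι p q ⊆ Icc p q := by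
    rw [uIoc_of_le hpq]
    exact Ioc_subset_Icc_self
  have hcont : ∀ t ∈ V, ContinuousOn (fun x => k t x) (Icc p q) := fun t ht =>
    hk.comp (by fun_prop : ContinuousOn (fun x : ℝ => (t, x)) (Icc p q)) (fun x hx => ⟨ht, hx⟩)
  have hφm : AEStronglyMeasurable φ (volume.restrict (Ι p q)) := hφ.def'.aestronglyMeasurable
  have hkm : ∀ t ∈ V, AEStronglyMeasurable (fun x => k t x) (volume.restrict (Ι p q)) :=
    fun t ht => ((hcont t ht).mono hIoc).aestronglyMeasurable measurableSet_uIoc
  have hV0 : ∀ᶠ t in 𝓝 t0, t ∈ V := hV.mem_nhds ht0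
  have hdiff : ∀ x ∈ Icc p q, ∀ t ∈ V, HasDerivAt (fun s => k s x) (deriv (fun s => k s x) t) t :=
    fun x hx t ht => ((hd x hx).differentiableAt (hV.mem_nhds ht)).hasDerivAt
  -- measurability of the derivative
  have hderm : AEStronglyMeasurable (fun x => deriv (fun s => k s x) t0)
      (volume.restrict (Ι p q)) := by
    set h : ℕ → ℂ := fun n => ((r / (n + 1) : ℝ) : ℂ) with hh
    have hh0 : ∀ n, h n ≠ 0 := fun n => by
      rw [hh]
      simp only [ne_eq, Complex.ofReal_eq_zero]
      positivity
    have hhV : ∀ n, t0 + h n ∈ V := fun n => by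
      apply hsub
      rw [mem_closedBall, dist_eq_norm, add_sub_cancel_left, hh]
      simp only [Complex.norm_real, Real.norm_eq_abs]
      rw [abs_of_nonneg (by positivity)]
      have h1 : r / (n + 1) ≤ r := div_le_self hr0.le (by
        have : (0 : ℝ) ≤ n := Nat.cast_nonneg n
        linarith)
      linarith
    have hhlim : Tendsto h atTop (𝓝[≠] 0) := by
      rw [tendsto_nhdsWithin_iff]
      refine ⟨?_, Eventually.of_forall hh0⟩
      have h2 : Tendsto (fun n : ℕ => r / ((n : ℝ) + 1)) atTop (𝓝 0) := by
        have := (tendsto_one_div_add_atTop_nhds_zero_nat (𝕜 := ℝ)).const_mul r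
        simp only [mul_one_div, mul_zero] at this
        exact this
      have h3 := (Complex.continuous_ofReal.tendsto 0).comp h2
      rw [Complex.ofReal_zero] at h3
      exact h3
    apply aestronglyMeasurable_of_tendsto_ae atTop
      (f := fun n x => (h n)⁻¹ • (k (t0 + h n) x - k t0 x))
    · intro n
      exact ((hkm _ (hhV n)).sub (hkm t0 ht0)).const_smul ((h n)⁻¹)
    · refine (ae_restrict_mem measurableSet_uIoc).mono fun x hx => ?_
      have h4 := (hdiff x (hIoc hx) t0 ht0)
      rw [hasDerivAt_iff_tendsto_slope_zero] at h4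
      exact h4.comp hhlim
  have key := intervalIntegral.hasDerivAt_integral_of_dominated_loc_of_deriv_le (μ := volume)
    (a := p) (b := q) (F := fun t x => φ x * k t x)
    (F' := fun t x => φ x * deriv (fun s => k s x) t) (x₀ := t0) (s := ball t0 r)
    (bound := fun x => ‖φ x‖ * (B / r)) (ball_mem_nhds t0 hr0)
    (hV0.mono fun t ht => hφm.mul (hkm t ht))
    (by
      refine hφ.mul_continuousOn ?_
      rw [uIcc_of_le hpq]
      exact hcont t0 ht0)
    (hφm.mul hderm)
    (Eventually.of_forall fun x hx t ht => by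
      rw [norm_mul]
      apply mul_le_mul_of_nonneg_left _ (norm_nonneg _)
      have hdc : DiffContOnCl ℂ (fun s => k s x) (ball t r) := by
        apply DifferentiableOn.diffContOnCl
        rw [closure_ball t hr0.ne']
        exact (hd x (hIoc hx)).mono ((hsub1 t ht).trans hsub)
      exact Complex.norm_deriv_le_of_forall_mem_sphere_norm_le hr0 hdc fun s hs =>
        hB' s (hsub1 t ht (sphere_subset_closedBall hs)) x (hIoc hx))
    (hφ.norm.mul_const _)
    (Eventually.of_forall fun x hx t ht => by
      have htV : t ∈ V := hsub (ball_subset_closedBall.trans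
        (closedBall_subset_closedBall (by linarith)) ht)
      exact (hdiff x (hIoc hx) t htV).const_mul _)
  exact key.2.differentiableAt.differentiableWithinAt

end

end Pool.Agent.HGP
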