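import Pool.Agent.HGP.Stmts

/-!
# HGP, module PLINK: the complex period matrix at real parameters
-/

open scoped BigOperators Topology
open Metric Set MeasureTheory

namespace Pool.Agent.HGP

namespace PLINKX

lemma fpolC_eq (g : ℕ) (a : ℕ → ℝ) (t : ℝ) :
    FpolC g a (t : ℂ) = (Fpol g a t).map Complex.ofRealHom := by
  unfold FpolC Fpol
  simp [Polynomial.map_mul, Polynomial.map_prod]

lemma fpolC_coeff (g : ℕ) (a : ℕ → ℝ) (t : ℝ) (n : ℕ) :
    (FpolC g a (t : ℂ)).coeff n = (((Fpol g a t).coeff n : ℝ) : ℂ) := by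
  rw [fpolC_eq, Polynomial.coeff_map]
  rfl

lemma fpol_natDegree_le (g : ℕ) (a : ℕ → ℝ) (t : ℝ) : (Fpol g a t).natDegree ≤ 2 * g + 1 := by
  unfold Fpol
  refine Polynomial.natDegree_mul_le.trans ?_
  refine add_le_add ?_ (Polynomial.natDegree_X_sub_C t).le
  refine (Polynomial.natDegree_prod_le _ _).trans ?_
  simp

/-- The real coefficient of `x ^ l` in the numerator number `k`. -/
noncomputable def th (g : ℕ) (a : ℕ → ℝ) (k : Ix g) (l : ℕ) (t : ℝ) : ℝ := match k with
  | .inl j => if l = (j : ℕ) then 1 else 0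
  | .inr j => if (j : ℕ) < l then
      (((l : ℝ) - (j : ℕ)) / 4) * (Fpol g a t).coeff (l + (j : ℕ) + 2) else 0

lemma Th_eq (g : ℕ) (a : ℕ → ℝ) (k : Ix g) (l : ℕ) (t : ℝ) :
    Th g a k l (t : ℂ) = ((th g a k l t : ℝ) : ℂ) := by
  rcases k with j | j
  · show (if l = (j : ℕ) then (1 : ℂ) else 0) = ((if l = (j : ℕ) then (1 : ℝ) else 0 : ℝ) : ℂ)
    split_ifs <;> simp
  · show (if (j : ℕ) < l then
      (((l : ℂ) - (j : ℕ)) / 4) * (FpolC g a t).coeff (l + (j : ℕ) + 2) else 0) =
      ((if (j : ℕ) < l then
      (((l : ℝ) - (j : ℕ)) / 4) * (Fpol g a t).coeff (l + (j : ℕ) + 2) else 0 : ℝ) : ℂ)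
    rw [fpolC_coeff]
    split_ifs
    · push_cast
      ring
    · simp

lemma num_eq (g : ℕ) (a : ℕ → ℝ) (k : Ix g) (t : ℝ) :
    num g a t k = ∑ l ∈ Finset.range (2 * g), Polynomial.C (th g a k l t) * Polynomial.X ^ l := by
  rcases k with j | j
  · unfold num th
    have hj : (j : ℕ) ∈ Finset.range (2 * g) := by
      have := j.2
      simp only [Finset.mem_range]
      omega
    rw [Finset.sum_eq_single_of_mem (j : ℕ) hj]
    · simp
    · intro l _ hl
      simp [hl]
  · have hj := j.2
    show (∑ n ∈ Finset.Ico (2 * (j : ℕ) + 3) (2 * g + 2),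
      Polynomial.C (((n : ℝ) - 2 * (j : ℕ) - 2) / 4 * (Fpol g a t).coeff n) *
        Polynomial.X ^ (n - 2 - (j : ℕ))) = _
    symm
    have h0 : ∀ l ∈ Finset.range (2 * g), l ∉ Finset.Ico ((j : ℕ) + 1) (2 * g - (j : ℕ)) →
        Polynomial.C (th g a (Sum.inr j) l t) * Polynomial.X ^ l = 0 := by
      intro l hl hl'
      simp only [Finset.mem_range] at hl
      simp only [Finset.mem_Ico, not_and, not_lt] at hl'
      have : th g a (Sum.inr j) l t = 0 := by
        unfold th
        show (if (j : ℕ) < l then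
          (((l : ℝ) - (j : ℕ)) / 4) * (Fpol g a t).coeff (l + (j : ℕ) + 2) else 0) = 0
        split_ifs with h
        · rw [Polynomial.coeff_eq_zero_of_natDegree_lt, mul_zero]
          refine lt_of_le_of_lt (fpol_natDegree_le g a t) ?_
          have := hl' h
          omega
        · rfl
      rw [this]
      simp
    rw [← Finset.sum_subset (s₁ := Finset.Ico ((j : ℕ) + 1) (2 * g - (j : ℕ))) ?_ h0]
    · refine Finset.sum_nbij' (fun l => l + (j : ℕ) + 2) (fun n => n - 2 - (j : ℕ)) ?_ ?_ ?_ ?_ ?_
      · intro l hl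
        simp only [Finset.mem_Ico] at hl ⊢
        omega
      · intro l hl
        simp only [Finset.mem_Ico] at hl ⊢
        omega
      · intro l hl
        simp only [Finset.mem_Ico] at hl
        show l + (j : ℕ) + 2 - 2 - (j : ℕ) = l
        omega
      · intro l hl
        simp only [Finset.mem_Ico] at hl
        show l - 2 - (j : ℕ) + (j : ℕ) + 2 = l
        omega
      · intro l hl
        simp only [Finset.mem_Ico] at hl
        have h1 : l + (j : ℕ) + 2 - 2 - (j : ℕ) = l := by omega
        have h2 : (j : ℕ) < l := by omega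
        rw [h1]
        congr 2
        unfold th
        show (if (j : ℕ) < l then
          (((l : ℝ) - (j : ℕ)) / 4) * (Fpol g a t).coeff (l + (j : ℕ) + 2) else 0) = _
        rw [if_pos h2]
        push_cast
        ring
    · intro l hl
      simp only [Finset.mem_Ico] at hl
      simp only [Finset.mem_range]
      omega

/-- Integrability of the inverse square root of `|F|`. -/
lemma integ (hI : Stmt_Intg) (g : ℕ) (a : ℕ → ℝ) (hg : 0 < g) (ha : StrictMono a) (t : ℝ)
    (ht : a (2 * g - 1) < t) (m : ℕ) (hm : m < 2 * g) :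
    IntervalIntegrable (fun x => 1 / √|(Fpol g a t).eval x|) volume (a m) (rend g a t m) := by
  by_cases h : m + 1 < 2 * g
  · have hr : rend g a t m = a (m + 1) := by unfold rend; rw [if_pos h]
    rw [hr]
    set S : Finset ℕ := ((Finset.range (2 * g)).erase m).erase (m + 1) with hS
    set G : ℝ → ℝ := fun x => |(∏ i ∈ S, (x - a i)) * (x - t)| with hG
    have key := hI (a m) (a (m + 1)) G (ha (Nat.lt_succ_self m)) ?_ ?_
    · refine (key).congr ?_
      intro x _
      show 1 / √(|(x - a m) * (x - a (m + 1))| * G x) = 1 / √|(Fpol g a t).eval x|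
      congr 2
      rw [hG]
      show |(x - a m) * (x - a (m + 1))| * |(∏ i ∈ S, (x - a i)) * (x - t)| = _
      rw [← abs_mul]
      congr 1
      unfold Fpol
      rw [Polynomial.eval_mul, Polynomial.eval_prod]
      simp only [Polynomial.eval_sub, Polynomial.eval_X, Polynomial.eval_C]
      have h1 : (m : ℕ) ∈ Finset.range (2 * g) := by simp; omega
      have h2 : (m + 1 : ℕ) ∈ (Finset.range (2 * g)).erase m := by simp; omega
      rw [← Finset.mul_prod_erase _ _ h1, ← Finset.mul_prod_erase _ _ h2]
      ring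
    · apply Continuous.continuousOn
      apply Continuous.abs
      apply Continuous.mul
      · exact continuous_finsetProd _ (fun i _ => by fun_prop)
      · fun_prop
    · intro x hx
      show 0 < |(∏ i ∈ S, (x - a i)) * (x - t)|
      rw [abs_pos]
      apply mul_ne_zero
      · rw [Finset.prod_ne_zero_iff]
        intro i hi
        simp only [hS, Finset.mem_erase, Finset.mem_range] at hi
        rcases lt_or_gt_of_ne hi.2.1 with h3 | h3
        · have : a i < a m := ha h3
          have := hx.1
          intro h4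
          linarith
        · have : a (m + 1) < a i := ha (by omega)
          have := hx.2
          intro h4
          linarith
      · have h3 : a (m + 1) ≤ a (2 * g - 1) := ha.monotone (by omega)
        have := hx.2
        intro h4
        linarith
  · have hm' : m = 2 * g - 1 := by omega
    have hr : rend g a t m = t := by unfold rend; rw [if_neg h]
    rw [hr]
    set S : Finset ℕ := (Finset.range (2 * g)).erase m with hS
    set G : ℝ → ℝ := fun x => |∏ i ∈ S, (x - a i)| with hG
    have key := hI (a m) t G (by rw [hm']; exact ht) ?_ ?_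
    · refine (key).congr ?_
      intro x _
      show 1 / √(|(x - a m) * (x - t)| * G x) = 1 / √|(Fpol g a t).eval x|
      congr 2
      rw [hG]
      show |(x - a m) * (x - t)| * |∏ i ∈ S, (x - a i)| = _
      rw [← abs_mul]
      congr 1
      unfold Fpol
      rw [Polynomial.eval_mul, Polynomial.eval_prod]
      simp only [Polynomial.eval_sub, Polynomial.eval_X, Polynomial.eval_C]
      have h1 : (m : ℕ) ∈ Finset.range (2 * g) := by simp; omega
      rw [← Finset.mul_prod_erase _ _ h1]
      ring
    · apply Continuous.continuousOn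
      apply Continuous.abs
      exact continuous_finsetProd _ (fun i _ => by fun_prop)
    · intro x hx
      show 0 < |∏ i ∈ S, (x - a i)|
      rw [abs_pos]
      rw [Finset.prod_ne_zero_iff]
      intro i hi
      simp only [hS, Finset.mem_erase, Finset.mem_range] at hi
      have : a i < a m := ha (by omega)
      have := hx.1
      intro h4
      linarith

lemma per_num (hI : Stmt_Intg) (g : ℕ) (a : ℕ → ℝ) (hg : 0 < g) (ha : StrictMono a) (t : ℝ)
    (ht : a (2 * g - 1) < t) (m : ℕ) (hm : m < 2 * g) (k : Ix g) :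
    per g a t m (num g a t k) =
      ∑ l ∈ Finset.range (2 * g), th g a k l t * per g a t m (Polynomial.X ^ l) := by
  unfold per
  have h1 : ∀ x, (num g a t k).eval x / √|(Fpol g a t).eval x| =
      ∑ l ∈ Finset.range (2 * g), th g a k l t * ((Polynomial.X ^ l : Polynomial ℝ).eval x /
        √|(Fpol g a t).eval x|) := by
    intro x
    rw [num_eq, Polynomial.eval_finsetSum, Finset.sum_div]
    refine Finset.sum_congr rfl fun l _ => ?_
    simp only [Polynomial.eval_mul, Polynomial.eval_C, Polynomial.eval_pow, Polynomial.eval_X]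
    ring
  simp_rw [h1]
  rw [intervalIntegral.integral_finsetSum]
  · refine Finset.sum_congr rfl fun l _ => ?_
    rw [intervalIntegral.integral_const_mul]
  · intro l _
    apply IntervalIntegrable.const_mul
    have h2 := (integ hI g a hg ha t ht m hm).continuousOn_mul
      (g := fun x => (Polynomial.X ^ l : Polynomial ℝ).eval x)
      ((Polynomial.X ^ l : Polynomial ℝ).continuous.continuousOn)
    refine h2.congr ?_
    intro x _
    show (Polynomial.X ^ l : Polynomial ℝ).eval x * (1 / √|(Fpol g a t).eval x|) = _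
    ring

end PLINKX

open PLINKX in
theorem plink_proof (hJ : Stmt_Jlink) (hI : Stmt_Intg) : Stmt_Plink := by
  intro g a hg ha t ht
  have hIpow : ∀ n : ℕ, Complex.I ^ (2 * n) = (-1) ^ n := by
    intro n
    rw [pow_mul, Complex.I_sq]
  have hsgn : ∀ n : ℕ, ((-1 : ℂ) ^ n) * ((-1 : ℂ) ^ n) = 1 := by
    intro n
    rw [← mul_pow]
    norm_num
  have main : ∀ (m : ℕ), m < 2 * g → ∀ k : Ix g,
      ∑ l ∈ Finset.range (2 * g), Th g a k l t * Jc g a m l t =
        ((per g a t m (num g a t k) : ℝ) : ℂ) := by
    intro m hm k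
    rw [per_num hI g a hg ha t ht m hm k]
    push_cast
    refine Finset.sum_congr rfl fun l _ => ?_
    rw [Th_eq, hJ g a hg ha t ht m hm l]
  ext k c
  rcases c with i | i
  · show 2 * (-1) ^ g * ∑ l ∈ Finset.range (2 * g), Th g a k l t * Yc g a (2 * (i : ℕ)) l t =
      2 * (-1) ^ (i : ℕ) * (per g a t (2 * (i : ℕ)) (num g a t k) : ℂ)
    have hi := i.2
    rw [← main (2 * (i : ℕ)) (by omega) k]
    unfold Yc
    rw [← mul_add, hIpow, Finset.mul_sum, Finset.mul_sum]
    refine Finset.sum_congr rfl fun l _ => ?_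
    rw [pow_add]
    linear_combination (2 * (-1) ^ (i : ℕ) * Th g a k l t * Jc g a (2 * (i : ℕ)) l t) * hsgn g
  · show 2 * (-1) ^ g * ∑ l ∈ Finset.range (2 * g),
        Th g a k l t * ∑ m ∈ Finset.Ico (i : ℕ) g, Yc g a (2 * m + 1) l t =
      2 * Complex.I *
        ∑ m ∈ Finset.Ico (i : ℕ) g, (-1) ^ m * (per g a t (2 * m + 1) (num g a t k) : ℂ)
    simp_rw [Finset.mul_sum]
    rw [Finset.sum_comm]
    refine Finset.sum_congr rfl fun m hm => ?_
    simp only [Finset.mem_Ico] at hm
    rw [← main (2 * m + 1) (by omega) k, Finset.mul_sum, Finset.mul_sum]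
    refine Finset.sum_congr rfl fun l _ => ?_
    unfold Yc
    have h3 : 2 * m + 1 + 2 * g = 2 * (m + g) + 1 := by ring
    rw [h3, pow_succ, hIpow, pow_add]
    linear_combination (2 * Complex.I * (-1) ^ m * Th g a k l t * Jc g a (2 * m + 1) l t) * hsgn g

end Pool.Agent.HGP
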