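import Pool.Agent.HGP.Stmts

/-!
HGP/CELLB (helper81): points of the big cell.
-/

open Matrix

namespace Pool.Agent.HGP

namespace CELLBX

theorem symm_transpose {g : ℕ} (σ : Up g → ℂ) : (symm σ)ᵀ = symm σ := by
  ext i j
  unfold symm
  simp only [Matrix.transpose_apply, Matrix.of_apply]
  by_cases h1 : i ≤ j
  · by_cases h2 : j ≤ i
    · have h3 : i = j := le_antisymm h1 h2
      subst h3
      rfl
    · rw [dif_neg h2, dif_pos h1]
  · have h2 : j ≤ i := le_of_not_ge h1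
    rw [dif_pos h2, dif_neg h1]

theorem symm_apply_le {g : ℕ} (σ : Up g → ℂ) (q : Up g) : symm σ q.1.1 q.1.2 = σ q := by
  unfold symm
  simp only [Matrix.of_apply]
  rw [dif_pos q.2]

end CELLBX

open CELLBX in
theorem cellb_proof : Stmt_CellB := by
  intro g w lam hdet
  have hu : IsUnit (Aof w).det := isUnit_iff_ne_zero.2 hdet
  obtain ⟨S, hSdef⟩ : ∃ S, S = symm (fun p => w (.inr (.inl p))) := ⟨_, rfl⟩
  obtain ⟨T, hTdef⟩ : ∃ T, T = symm (fun p => w (.inr (.inr p))) := ⟨_, rfl⟩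
  have hS : Sᵀ = S := by rw [hSdef]; exact symm_transpose _
  have hT : Tᵀ = T := by rw [hTdef]; exact symm_transpose _
  obtain ⟨A, hA⟩ : ∃ A, A = Aof w := ⟨_, rfl⟩
  rw [← hA] at hu
  have hA1 : A * A⁻¹ = 1 := Matrix.mul_nonsing_inv A hu
  have hA2 : A⁻¹ * A = 1 := Matrix.nonsing_inv_mul A hu
  have hA3 : A⁻¹ᵀ * Aᵀ = 1 := by rw [← Matrix.transpose_mul, hA1, Matrix.transpose_one]
  have hA4 : Aᵀ * A⁻¹ᵀ = 1 := by rw [← Matrix.transpose_mul, hA2, Matrix.transpose_one]
  have hM : mvec w lam =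
      Matrix.fromBlocks A (A * T) (S * A) (S * A * T + lam • (A⁻¹).transpose) := by
    rw [hSdef, hTdef, hA]
    rfl
  refine ⟨?_, ?_, ?_⟩
  · rw [hM]
    unfold Simil Matrix.J
    rw [Matrix.fromBlocks_transpose, Matrix.fromBlocks_multiply, Matrix.fromBlocks_multiply,
      Matrix.fromBlocks_smul, Matrix.fromBlocks_inj]
    simp only [Matrix.mul_zero, Matrix.mul_one, Matrix.mul_neg, zero_add, add_zero, smul_zero,
      smul_neg, Matrix.neg_mul, Matrix.transpose_mul, Matrix.transpose_add,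
      Matrix.transpose_smul, Matrix.transpose_transpose, hS, hT]
    refine ⟨?_, ?_, ?_, ?_⟩
    · simp only [Matrix.mul_assoc]
      exact add_neg_cancel _
    · rw [Matrix.mul_add, Matrix.mul_smul, hA4]
      simp only [Matrix.mul_assoc]
      abel
    · rw [Matrix.add_mul, Matrix.smul_mul, hA2]
      simp only [Matrix.mul_assoc]
      abel
    · have e1 : (T * (Aᵀ * S) + lam • A⁻¹) * (A * T) = T * (Aᵀ * (S * (A * T))) + lam • T := by
        rw [Matrix.add_mul, Matrix.smul_mul, ← Matrix.mul_assoc A⁻¹, hA2, Matrix.one_mul]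
        simp only [Matrix.mul_assoc]
      have e2 : T * Aᵀ * (S * A * T + lam • A⁻¹ᵀ) = T * (Aᵀ * (S * (A * T))) + lam • T := by
        rw [Matrix.mul_add, Matrix.mul_smul, Matrix.mul_assoc T Aᵀ A⁻¹ᵀ, hA4, Matrix.mul_one]
        simp only [Matrix.mul_assoc]
      rw [e1, e2]
      exact add_neg_cancel _
  · rw [hM, Matrix.toBlocks_fromBlocks₁₁, hA]
  · funext x
    have b11 : (mvec w lam).toBlocks₁₁ = A := by rw [hM, Matrix.toBlocks_fromBlocks₁₁]
    have b21 : (mvec w lam).toBlocks₂₁ = S * A := by rw [hM, Matrix.toBlocks_fromBlocks₂₁]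
    have b12 : (mvec w lam).toBlocks₁₂ = A * T := by rw [hM, Matrix.toBlocks_fromBlocks₁₂]
    rcases x with p | q | q
    · show (mvec w lam).toBlocks₁₁ p.1 p.2 = _
      rw [b11, hA]
      rfl
    · show ((mvec w lam).toBlocks₂₁ * (mvec w lam).toBlocks₁₁⁻¹) q.1.1 q.1.2 = _
      rw [b11, b21, Matrix.mul_assoc, hA1, Matrix.mul_one, hSdef]
      exact symm_apply_le _ q
    · show ((mvec w lam).toBlocks₁₁⁻¹ * (mvec w lam).toBlocks₁₂) q.1.1 q.1.2 = _
      rw [b11, b12, ← Matrix.mul_assoc, hA2, Matrix.one_mul, hTdef]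
      exact symm_apply_le _ q

end Pool.Agent.HGP
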