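import Pool.Agent.HGP.Stmts

/-!
HGP/CELLP (helper92): the points of the big cell are fractions with denominator `det A` in the
coordinates.
-/

open Matrix

namespace Pool.Agent.HGP

namespace CELLPX

/-- generic symmetric matrix -/
noncomputable def gsym {g : ℕ} (e : Up g → Idx g) :
    Matrix (Fin g) (Fin g) (MvPolynomial (Option (Idx g)) ℤ) :=
  Matrix.of fun i j => if h : i ≤ j then MvPolynomial.X (some (e ⟨(i, j), h⟩)) else
    MvPolynomial.X (some (e ⟨(j, i), le_of_not_ge h⟩))

theorem det_smul_inv {g : ℕ} (A : Matrix (Fin g) (Fin g) ℂ) (h : A.det ≠ 0) :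
    A.adjugate = A.det • A⁻¹ := by
  rw [Matrix.inv_def, Ring.inverse_eq_inv', smul_smul, mul_inv_cancel₀ h, one_smul]

theorem gsym_map {g : ℕ} (e : Up g → Idx g) (lam : ℂ) (w : Idx g → ℂ) :
    (gsym e).map (MvPolynomial.aeval (opt lam w) : MvPolynomial (Option (Idx g)) ℤ →ₐ[ℤ] ℂ) =
      symm (fun p => w (e p)) := by
  ext i j
  simp only [gsym, symm, Matrix.map_apply, Matrix.of_apply]
  split_ifs with h
  · rw [MvPolynomial.aeval_X]; rfl
  · rw [MvPolynomial.aeval_X]; rfl

end CELLPX

open CELLPX in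
theorem cellp_proof : Stmt_CellP := by
  intro g
  let A : Matrix (Fin g) (Fin g) (MvPolynomial (Option (Idx g)) ℤ) :=
    Matrix.of fun i j => MvPolynomial.X (some (.inl (i, j)))
  let S := gsym (g := g) (fun p => .inr (.inl p))
  let T := gsym (g := g) (fun p => .inr (.inr p))
  let L : MvPolynomial (Option (Idx g)) ℤ := MvPolynomial.X none
  refine ⟨A.det, fun p => (Matrix.fromBlocks (A.det • A) (A.det • (A * T)) (A.det • (S * A))
    (A.det • (S * A * T) + L • A.adjugateᵀ)) p.1 p.2, ?_⟩
  intro w lam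
  let φ : MvPolynomial (Option (Idx g)) ℤ →+* ℂ :=
    (MvPolynomial.aeval (opt lam w) : MvPolynomial (Option (Idx g)) ℤ →ₐ[ℤ] ℂ).toRingHom
  have hA : A.map φ = Aof w := by
    ext i j
    exact MvPolynomial.aeval_X _ _
  have hS : S.map φ = symm (fun p => w (.inr (.inl p))) := gsym_map _ lam w
  have hT : T.map φ = symm (fun p => w (.inr (.inr p))) := gsym_map _ lam w
  have hL : φ L = lam := MvPolynomial.aeval_X _ _
  have hadj : A.adjugate.map φ = (Aof w).adjugate := by
    rw [← hA]
    exact RingHom.map_adjugate φ A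
  have hdet : φ A.det = (Aof w).det := by
    rw [← hA]
    exact RingHom.map_det φ A
  refine ⟨hdet, ?_⟩
  intro h p
  have hsm : ∀ (c : MvPolynomial (Option (Idx g)) ℤ)
      (X : Matrix (Fin g) (Fin g) (MvPolynomial (Option (Idx g)) ℤ)),
      (c • X).map φ = φ c • X.map φ := by
    intro c X
    ext i j
    exact map_mul φ _ _
  have hadd : ∀ (X Y : Matrix (Fin g) (Fin g) (MvPolynomial (Option (Idx g)) ℤ)),
      (X + Y).map φ = X.map φ + Y.map φ := by
    intro X Y
    ext i j
    exact map_add φ _ _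
  have key : (Matrix.fromBlocks (A.det • A) (A.det • (A * T)) (A.det • (S * A))
      (A.det • (S * A * T) + L • A.adjugateᵀ)).map φ = (Aof w).det • mvec w lam := by
    rw [Matrix.fromBlocks_map, hsm, hsm, hsm, hadd, hsm, hsm, Matrix.map_mul, Matrix.map_mul,
      Matrix.map_mul, Matrix.map_mul, hA, hS, hT, hL, hdet]
    have h1 : A.adjugateᵀ.map φ = (Aof w).det • (Aof w)⁻¹ᵀ := by
      rw [Matrix.transpose_map, hadj, det_smul_inv _ h, Matrix.transpose_smul]
    rw [h1]
    unfold mvec
    simp only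
    rw [Matrix.fromBlocks_smul, smul_add, smul_comm lam]
  exact congrFun (congrFun key p.1) p.2

end Pool.Agent.HGP
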