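import Pool.Agent.HGP.Stmts

open scoped BigOperators Topology
open Metric Set MeasureTheory

namespace Pool.Agent.HGP

namespace FIBERX

lemma diff_eval {α : Type} {S : Set ℂ} (f : α → ℂ → ℂ) (hf : ∀ i, DifferentiableOn ℂ (f i) S)
    (P : MvPolynomial (Option α) ℂ) :
    DifferentiableOn ℂ (fun t => MvPolynomial.eval (opt t (fun p => f p t)) P) S := by
  induction P using MvPolynomial.induction_on with
  | C c => simp
  | add p q hp hq =>
    simp only [map_add]
    exact hp.add hq
  | mul_X p i hp =>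
    simp only [map_mul, MvPolynomial.eval_X]
    refine hp.mul ?_
    cases i with
    | none => exact differentiableOn_id
    | some i => exact hf i

/-- The right multiplication by `h`. -/
noncomputable def sub {g : ℕ} (h : Matrix (Ix g) (Ix g) ℂ) (o : Option (Ix g × Ix g)) :
    MvPolynomial (Option (Ix g × Ix g)) ℂ :=
  o.elim (MvPolynomial.X none)
    (fun p => ∑ k : Ix g, MvPolynomial.X (some (p.1, k)) * MvPolynomial.C (h k p.2))

lemma eval_sub {g : ℕ} (h M : Matrix (Ix g) (Ix g) ℂ) (t : ℂ)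
    (P : MvPolynomial (Option (Ix g × Ix g)) ℂ) :
    MvPolynomial.eval (opt t (fun p => M p.1 p.2)) (MvPolynomial.bind₁ (sub h) P) =
      MvPolynomial.eval (opt t (fun p => (M * h) p.1 p.2)) P := by
  have h1 := MvPolynomial.aeval_bind₁ (opt t (fun p : Ix g × Ix g => M p.1 p.2)) (sub h) P
  simp only [MvPolynomial.aeval_eq_eval] at h1
  rw [h1]
  congr 2
  funext o
  cases o with
  | none => simp [sub, opt]
  | some p =>
    simp [sub, opt, Matrix.mul_apply]

lemma inv_simil {g : ℕ} {lam : ℂ} (hlam : lam ≠ 0) (A M : Matrix (Ix g) (Ix g) ℂ)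
    (hA : Simil lam A) (hM : Simil lam M) : ∃ h, Simil 1 h ∧ M = A * h := by
  have hJ : (Matrix.J (Fin g) ℂ).det ≠ 0 := (Matrix.isUnit_det_J (Fin g) ℂ).ne_zero
  have hdet : IsUnit A.det := by
    rw [isUnit_iff_ne_zero]
    intro h0
    have h1 := congrArg Matrix.det hA
    rw [Matrix.det_mul, Matrix.det_mul, Matrix.det_smul, h0, mul_zero] at h1
    have h2 : lam ^ Fintype.card (Ix g) ≠ 0 := pow_ne_zero _ hlam
    exact (mul_ne_zero h2 hJ) h1.symm
  have hAi : A * A⁻¹ = 1 := Matrix.mul_nonsing_inv A hdet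
  have hAi' : (A⁻¹).transpose * A.transpose = 1 := by
    rw [← Matrix.transpose_mul, hAi, Matrix.transpose_one]
  have h3 : (A⁻¹).transpose * Matrix.J (Fin g) ℂ * A⁻¹ = lam⁻¹ • Matrix.J (Fin g) ℂ := by
    have h4 : lam • ((A⁻¹).transpose * Matrix.J (Fin g) ℂ * A⁻¹) = Matrix.J (Fin g) ℂ := by
      calc lam • ((A⁻¹).transpose * Matrix.J (Fin g) ℂ * A⁻¹)
          = (A⁻¹).transpose * (lam • Matrix.J (Fin g) ℂ) * A⁻¹ := by
            rw [Matrix.mul_smul, Matrix.smul_mul]
        _ = (A⁻¹).transpose * (A.transpose * Matrix.J (Fin g) ℂ * A) * A⁻¹ := by rw [hA]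
        _ = ((A⁻¹).transpose * A.transpose) * Matrix.J (Fin g) ℂ * (A * A⁻¹) := by
            simp only [Matrix.mul_assoc]
        _ = Matrix.J (Fin g) ℂ := by rw [hAi, hAi', Matrix.one_mul, Matrix.mul_one]
    have h5 : lam⁻¹ • (lam • ((A⁻¹).transpose * Matrix.J (Fin g) ℂ * A⁻¹)) =
        lam⁻¹ • Matrix.J (Fin g) ℂ := congrArg (fun X => lam⁻¹ • X) h4
    rw [smul_smul, inv_mul_cancel₀ hlam, one_smul] at h5
    exact h5
  refine ⟨A⁻¹ * M, ?_, ?_⟩
  · unfold Simil
    rw [Matrix.transpose_mul]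
    calc M.transpose * (A⁻¹).transpose * Matrix.J (Fin g) ℂ * (A⁻¹ * M)
        = M.transpose * ((A⁻¹).transpose * Matrix.J (Fin g) ℂ * A⁻¹) * M := by
          simp only [Matrix.mul_assoc]
      _ = lam⁻¹ • (M.transpose * Matrix.J (Fin g) ℂ * M) := by
          rw [h3, Matrix.mul_smul, Matrix.smul_mul]
      _ = (1 : ℂ) • Matrix.J (Fin g) ℂ := by
          rw [hM, smul_smul, inv_mul_cancel₀ hlam]
  · rw [← Matrix.mul_assoc, hAi, Matrix.one_mul]

end FIBERX

open FIBERX in
theorem fiber_proof (hunip : Stmt_Unip) (hgen : Stmt_Gen) (hriemc : Stmt_RiemC)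
    (hphol : Stmt_Phol) : Stmt_Fiber := by
  intro g a hg ha P z0 R hR hsub hP t ht M hM
  -- the relation holds on the whole of `U`
  have hP1 : ∀ t ∈ U g a, MvPolynomial.eval (opt t (fun p => PerC g a t p.1 p.2)) P = 0 := by
    have hd : DifferentiableOn ℂ (fun t => MvPolynomial.eval
        (opt t (fun p : Ix g × Ix g => PerC g a t p.1 p.2)) P) (U g a) :=
      diff_eval (fun (p : Ix g × Ix g) t => PerC g a t p.1 p.2)
        (fun p => hphol g a hg ha p.1 p.2) P
    have han := hd.analyticOnNhd (U_isOpen g a)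
    have hz0 : z0 ∈ U g a := hsub (mem_ball_self hR)
    have hev : (fun t => MvPolynomial.eval
        (opt t (fun p : Ix g × Ix g => PerC g a t p.1 p.2)) P) =ᶠ[𝓝 z0] 0 := by
      filter_upwards [ball_mem_nhds z0 hR] with t ht
      exact hP t ht
    have := han.eqOn_zero_of_preconnected_of_eventuallyEq_zero (U_isPreconnected g a) hz0 hev
    intro t ht
    exact this ht
  -- invariance under the closure of the transvections
  have hP2 : ∀ h ∈ Submonoid.closure {N : Matrix (Ix g) (Ix g) ℂ | ∃ j < 2 * g, ∃ c : ℂ,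
      N = tv (dvec g j) c}, ∀ P : MvPolynomial (Option (Ix g × Ix g)) ℂ,
      (∀ t ∈ U g a, MvPolynomial.eval (opt t (fun p => PerC g a t p.1 p.2)) P = 0) →
      ∀ t ∈ U g a, MvPolynomial.eval (opt t (fun p => (PerC g a t * h) p.1 p.2)) P = 0 := by
    intro h hh
    induction hh using Submonoid.closure_induction with
    | mem x hx =>
      obtain ⟨j, hj, c, rfl⟩ := hx
      intro P hP t ht
      exact hunip g a hg ha P hP j hj c t ht
    | one =>
      intro P hP t ht
      rw [Matrix.mul_one]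
      exact hP t ht
    | mul x y _ _ hx hy =>
      intro P hP t ht
      have h1 : ∀ t ∈ U g a, MvPolynomial.eval (opt t (fun p => PerC g a t p.1 p.2))
          (MvPolynomial.bind₁ (sub y) P) = 0 := by
        intro t ht
        rw [eval_sub]
        exact hy P hP t ht
      have h2 := hx _ h1 t ht
      rw [eval_sub, Matrix.mul_assoc] at h2
      exact h2
  have hlam : (2 * Real.pi * Complex.I : ℂ) ≠ 0 := by
    simp [Real.pi_ne_zero]
  obtain ⟨h, hh, rfl⟩ := inv_simil hlam (PerC g a t) M (hriemc g a hg ha t ht) hM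
  exact hP2 h (hgen g hg h hh) P hP1 t ht

end Pool.Agent.HGP
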