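import Pool.Agent.HGP.Stmts

/-!
# HGP: module FINAL
-/

open scoped BigOperators Topology
open Metric Set

namespace Pool.Agent.HGP

namespace FINAL_

lemma finite_rat (H : ℕ) : {q : ℚ | q.num.natAbs ≤ H ∧ q.den ≤ H}.Finite := by
  have hinj : Set.InjOn (fun q : ℚ => (q.num, q.den)) {q : ℚ | q.num.natAbs ≤ H ∧ q.den ≤ H} := by
    intro x _ y _ hxy
    simp only [Prod.mk.injEq] at hxy
    exact Rat.ext hxy.1 hxy.2
  apply Set.Finite.of_finite_image _ hinj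
  apply Set.Finite.subset ((Set.finite_Icc (-(H : ℤ)) (H : ℤ)).prod (Set.finite_Icc 0 H))
  rintro ⟨x, y⟩ ⟨q, hq, hxy⟩
  simp only [Prod.mk.injEq] at hxy
  obtain ⟨rfl, rfl⟩ := hxy
  simp only [Set.mem_setOf_eq] at hq
  simp only [Set.mem_prod, Set.mem_Icc]
  refine ⟨?_, ?_⟩
  · constructor <;> omega
  · exact ⟨Nat.zero_le _, hq.2⟩

lemma finite_tup {r : ℕ} (H : ℕ) (P : (Fin r → ℚ) → Prop)
    (hP : ∀ t, P t → ∀ i, (t i).num.natAbs ≤ H ∧ (t i).den ≤ H) :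
    Finite {t : Fin r → ℚ // P t} := by
  have h : (Set.pi Set.univ (fun _ : Fin r => {q : ℚ | q.num.natAbs ≤ H ∧ q.den ≤ H})).Finite :=
    Set.Finite.pi' (fun _ => finite_rat H) |>.subset (by
      intro t ht i
      exact ht i (Set.mem_univ i))
  have h2 : {t : Fin r → ℚ | P t}.Finite := h.subset (by
    intro t ht i _
    exact hP t ht i)
  exact h2.to_subtype

end FINAL_

open FINAL_ in
theorem final_proof (hRiem : Stmt_Riem) (hTrans : Stmt_Trans) (hInduc : Stmt_Induc) :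
    Stmt_Final := by
  intro r g a hg ha
  refine ⟨fun i t ht => hRiem (g i) (a i) (hg i) (ha i) t ht, ?_⟩
  intro T0 T1 hT0 D A ε hε
  obtain ⟨D1, A1, h1⟩ := hTrans r g hg D A
  obtain ⟨C, hC⟩ := hInduc r g a hg ha T0 T1 hT0 D1 A1 ε hε
  let N1 : ℕ := Nat.card {t : Fin r → ℚ // (∀ i, T0 i ≤ t i ∧ (t i : ℝ) ≤ T1 i ∧
    (t i).num.natAbs ≤ 1 ∧ (t i).den ≤ 1) ∧ Bad g a D (1 ^ A) (fun i => (t i : ℝ))}
  refine ⟨max C N1, ?_⟩
  intro H hH
  rcases Nat.eq_or_lt_of_le hH with h | h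
  · subst h
    have h3 : ((1 : ℕ) : ℝ) ^ (2 * (r : ℝ) - 2 + ε) = 1 := by
      rw [Nat.cast_one, Real.one_rpow]
    rw [h3, mul_one]
    exact le_max_right _ _
  · have hpow : 0 ≤ (H : ℝ) ^ (2 * (r : ℝ) - 2 + ε) :=
      Real.rpow_nonneg (Nat.cast_nonneg H) _
    have h4 := hC H hH
    refine le_trans ?_ (le_trans h4 (mul_le_mul_of_nonneg_right (le_max_left _ _) hpow))
    have hfin : Finite {t : Fin r → ℚ // (∀ i, T0 i ≤ t i ∧ (t i : ℝ) ≤ T1 i ∧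
        (t i).num.natAbs ≤ H ∧ (t i).den ≤ H) ∧
        ¬ GPC.Free D1 (H ^ A1) (cvec g a (fun i => (t i : ℝ)))} := by
      apply finite_tup H
      intro t ht i
      exact ⟨(ht.1 i).2.2.1, (ht.1 i).2.2.2⟩
    have himp : ∀ t : Fin r → ℚ, ((∀ i, T0 i ≤ t i ∧ (t i : ℝ) ≤ T1 i ∧
        (t i).num.natAbs ≤ H ∧ (t i).den ≤ H) ∧ Bad g a D (H ^ A) (fun i => (t i : ℝ))) →
        ((∀ i, T0 i ≤ t i ∧ (t i : ℝ) ≤ T1 i ∧
        (t i).num.natAbs ≤ H ∧ (t i).den ≤ H) ∧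
        ¬ GPC.Free D1 (H ^ A1) (cvec g a (fun i => (t i : ℝ)))) := by
      intro t ht
      refine ⟨ht.1, ?_⟩
      apply h1 H h a (fun i => (t i : ℝ)) ha _ ht.2
      intro i
      exact lt_of_lt_of_le (hT0 i) (ht.1 i).1
    exact_mod_cast Nat.card_le_card_of_injective
      (Subtype.map id himp) (Subtype.map_injective _ Function.injective_id)

end Pool.Agent.HGP
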