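import Pool.Agent.HGP.Stmts

/-!
# HGP, module GEN: the symplectic group is generated by the transvections of the `dvec g j`
-/

open scoped BigOperators
open Matrix

namespace Pool.Agent.HGP

noncomputable section

namespace GEN_

variable {g : ℕ}

theorem dot_J (d : Ix g → ℂ) : ((Matrix.J (Fin g) ℂ).mulVec d) ⬝ᵥ d = 0 := by
  have h1 : ((Matrix.J (Fin g) ℂ).mulVec d) ⬝ᵥ d = -(((Matrix.J (Fin g) ℂ).mulVec d) ⬝ᵥ d) := by
    conv_lhs => rw [dotProduct_comm, Matrix.dotProduct_mulVec, ← Matrix.mulVec_transpose,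
      Matrix.J_transpose, Matrix.neg_mulVec, neg_dotProduct]
  have h2 : (2 : ℂ) * (((Matrix.J (Fin g) ℂ).mulVec d) ⬝ᵥ d) = 0 := by linear_combination h1
  simpa using h2

theorem vecMul_J (d : Ix g → ℂ) :
    d ᵥ* (Matrix.J (Fin g) ℂ) = -((Matrix.J (Fin g) ℂ).mulVec d) := by
  rw [← Matrix.mulVec_transpose, Matrix.J_transpose, Matrix.neg_mulVec]

theorem tv_mul (d : Ix g → ℂ) (c c' : ℂ) : tv d c * tv d c' = tv d (c + c') := by
  unfold tv
  rw [add_mul, one_mul, mul_add, mul_one, smul_mul_smul_comm, vecMulVec_mul_vecMulVec, dot_J]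
  rw [zero_smul, add_smul]
  have : vecMulVec d (0 : Ix g → ℂ) = 0 := by ext i j; simp [vecMulVec_apply]
  rw [this, smul_zero, add_zero]
  abel

theorem tv_zero (d : Ix g → ℂ) : tv d 0 = 1 := by
  unfold tv; rw [zero_smul, add_zero]

theorem simil_tv (d : Ix g → ℂ) (c : ℂ) : Simil 1 (tv d c) := by
  unfold Simil tv
  set J := Matrix.J (Fin g) ℂ with hJ
  set w := J.mulVec d with hw
  have h1 : (1 + c • vecMulVec d w).transpose = 1 + c • vecMulVec w d := by
    rw [transpose_add, transpose_one, transpose_smul, transpose_vecMulVec]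
  rw [h1, add_mul, one_mul, smul_mul_assoc, vecMulVec_mul, vecMul_J, ← hJ, ← hw]
  rw [add_mul, mul_add, mul_add, mul_one, mul_one, mul_smul_comm, mul_vecMulVec, ← hw]
  rw [smul_mul_smul_comm, vecMulVec_mul_vecMulVec, neg_dotProduct, hw, dot_J, neg_zero,
    zero_smul]
  have h2 : vecMulVec (J.mulVec d) (0 : Ix g → ℂ) = 0 := by ext i j; simp [vecMulVec_apply]
  have h3 : vecMulVec (J.mulVec d) (-(J.mulVec d)) = -vecMulVec (J.mulVec d) (J.mulVec d) := by
    ext i j; simp [vecMulVec_apply]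
  rw [h2, h3, smul_zero, add_zero, one_smul, smul_neg]
  abel

theorem simil_mul {A B : Matrix (Ix g) (Ix g) ℂ} (hA : Simil 1 A) (hB : Simil 1 B) :
    Simil 1 (A * B) := by
  unfold Simil at *
  rw [one_smul] at *
  calc (A * B).transpose * Matrix.J (Fin g) ℂ * (A * B)
      = B.transpose * (A.transpose * Matrix.J (Fin g) ℂ * A) * B := by
        rw [transpose_mul]; simp only [Matrix.mul_assoc]
    _ = _ := by rw [hA, hB]

/-- The generators. -/
def S (g : ℕ) : Set (Matrix (Ix g) (Ix g) ℂ) := {N | ∃ j < 2 * g, ∃ c : ℂ, N = tv (dvec g j) c}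

theorem closure_aux (h : Matrix (Ix g) (Ix g) ℂ) (hh : h ∈ Submonoid.closure (S g)) :
    Simil 1 h ∧ ∃ h' ∈ Submonoid.closure (S g), h * h' = 1 ∧ h' * h = 1 := by
  induction hh using Submonoid.closure_induction with
  | mem x hx =>
    obtain ⟨j, hj, c, rfl⟩ := hx
    refine ⟨simil_tv _ _, tv (dvec g j) (-c), Submonoid.subset_closure ⟨j, hj, -c, rfl⟩, ?_, ?_⟩
    · rw [tv_mul, add_neg_cancel, tv_zero]
    · rw [tv_mul, neg_add_cancel, tv_zero]
  | one =>
    refine ⟨by unfold Simil; simp, 1, one_mem _, by simp, by simp⟩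
  | mul x y _ _ hx hy =>
    obtain ⟨hx1, x', hx2, hx3, hx4⟩ := hx
    obtain ⟨hy1, y', hy2, hy3, hy4⟩ := hy
    refine ⟨simil_mul hx1 hy1, y' * x', mul_mem hy2 hx2, ?_, ?_⟩
    · calc x * y * (y' * x') = x * (y * y') * x' := by simp only [Matrix.mul_assoc]
        _ = 1 := by rw [hy3, Matrix.mul_one, hx3]
    · calc y' * x' * (x * y) = y' * (x' * x) * y := by simp only [Matrix.mul_assoc]
        _ = 1 := by rw [hx4, Matrix.mul_one, hy4]

theorem conj (h : Matrix (Ix g) (Ix g) ℂ) (hh : Simil 1 h) (d : Ix g → ℂ) (c : ℂ) :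
    tv (h.mulVec d) c * h = h * tv d c := by
  unfold tv
  unfold Simil at hh
  rw [one_smul] at hh
  rw [add_mul, one_mul, mul_add, mul_one, smul_mul_assoc, mul_smul_comm, mul_vecMulVec,
    vecMulVec_mul]
  have : ((Matrix.J (Fin g) ℂ).mulVec (h.mulVec d)) ᵥ* h = (Matrix.J (Fin g) ℂ).mulVec d := by
    rw [← mulVec_transpose, mulVec_mulVec, mulVec_mulVec, hh]
  rw [this]

theorem dvec_ne (hg : 0 < g) : dvec g 0 ≠ 0 := by
  intro h
  have h1 := congrFun h (Sum.inl ⟨0, hg⟩)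
  simp [dvec] at h1

end GEN_

theorem gen_proof (hA : Stmt_GenA) (hB : Stmt_GenB) : Stmt_Gen := by
  intro g hg M hM
  have h1 := hB g M hM
  refine (Submonoid.closure_le.mpr ?_) h1
  rintro N ⟨v, c, rfl⟩
  change tv v c ∈ Submonoid.closure (GEN_.S g)
  by_cases hv : v = 0
  · subst hv
    have : tv (0 : Ix g → ℂ) c = 1 := by
      unfold tv
      have : vecMulVec (0 : Ix g → ℂ) ((Matrix.J (Fin g) ℂ).mulVec 0) = 0 := by
        ext i j; simp [vecMulVec_apply]
      rw [this, smul_zero, add_zero]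
    rw [this]
    exact one_mem _
  · obtain ⟨h, hh, hd⟩ := hA g hg (dvec g 0) v (GEN_.dvec_ne hg) hv
    change h ∈ Submonoid.closure (GEN_.S g) at hh
    obtain ⟨hs, h', hh', e1, e2⟩ := GEN_.closure_aux h hh
    have e3 : tv v c = h * tv (dvec g 0) c * h' := by
      rw [← GEN_.conj h hs, hd, Matrix.mul_assoc, e1, Matrix.mul_one]
    rw [e3]
    exact mul_mem (mul_mem hh (Submonoid.subset_closure ⟨0, by omega, c, rfl⟩)) hh'

end

end Pool.Agent.HGP
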