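import Pool.Agent.HGP.Stmts

/-!
# HGP: module GENA
-/

open scoped BigOperators Topology
open Metric Set

namespace Pool.Agent.HGP

namespace GENAX

noncomputable section

/-- The pairing with `dvec g j`. -/
def L (g j : ℕ) (v : Ix g → ℂ) : ℂ := (Matrix.J (Fin g) ℂ).mulVec (dvec g j) ⬝ᵥ v

lemma L_add (g j : ℕ) (v w : Ix g → ℂ) : L g j (v + w) = L g j v + L g j w := by
  unfold L
  rw [dotProduct_add]

lemma L_smul (g j : ℕ) (c : ℂ) (v : Ix g → ℂ) : L g j (c • v) = c * L g j v := by
  unfold L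
  rw [dotProduct_smul, smul_eq_mul]

lemma tv_mulVec (g j : ℕ) (c : ℂ) (v : Ix g → ℂ) :
    (tv (dvec g j) c).mulVec v = v + (c * L g j v) • dvec g j := by
  unfold tv L
  rw [Matrix.add_mulVec, Matrix.one_mulVec, Matrix.smul_mulVec, Matrix.vecMulVec_mulVec]
  congr 1
  ext i
  simp only [Pi.smul_apply, smul_eq_mul, MulOpposite.smul_eq_mul_unop, MulOpposite.unop_op]
  ring

lemma L_eq (g j : ℕ) (hj : j < 2 * g) (v : Ix g → ℂ) :
    L g j v = - v (.inl ⟨j / 2, by omega⟩) +
      ∑ k : Fin g, if j ≤ 2 * (k : ℕ) then v (.inr k) else 0 := by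
  unfold L
  rw [Matrix.J, dotProduct, Fintype.sum_sum_type]
  congr 1
  · have h : ∀ x : Fin g, (Matrix.fromBlocks (0 : Matrix (Fin g) (Fin g) ℂ)
        (-1 : Matrix (Fin g) (Fin g) ℂ) (1 : Matrix (Fin g) (Fin g) ℂ)
        (0 : Matrix (Fin g) (Fin g) ℂ)).mulVec
        (dvec g j) (.inl x) = - (if (x : ℕ) = j / 2 then (1 : ℂ) else 0) := by
      intro x
      rw [Matrix.fromBlocks_mulVec]
      simp [Matrix.neg_mulVec, dvec]
    simp only [h]
    rw [Finset.sum_eq_single ⟨j / 2, by omega⟩]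
    · simp
    · intro b _ hb
      have : (b : ℕ) ≠ j / 2 := fun h => hb (Fin.ext h)
      simp [this]
    · simp
  · apply Finset.sum_congr rfl
    intro x _
    rw [Matrix.fromBlocks_mulVec]
    simp [dvec]

lemma exists_L_ne {g : ℕ} {v : Ix g → ℂ} (hv : v ≠ 0) : ∃ j < 2 * g, L g j v ≠ 0 := by
  by_contra hcon
  push Not at hcon
  apply hv
  have h1 : ∀ i : Fin g, v (.inr i) = 0 := by
    intro i
    have ha := hcon (2 * (i : ℕ)) (by have := i.2; omega)
    have hb := hcon (2 * (i : ℕ) + 1) (by have := i.2; omega)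
    rw [L_eq _ _ (by have := i.2; omega)] at ha hb
    have e1 : (⟨(2 * (i : ℕ)) / 2, by have := i.2; omega⟩ : Fin g) = i := by
      apply Fin.ext; simp
    have e2 : (⟨(2 * (i : ℕ) + 1) / 2, by have := i.2; omega⟩ : Fin g) = i := by
      apply Fin.ext; simp; omega
    rw [e1] at ha
    rw [e2] at hb
    have h3 : (∑ k : Fin g, if 2 * (i : ℕ) ≤ 2 * (k : ℕ) then v (.inr k) else 0) =
        v (.inr i) + ∑ k : Fin g, if 2 * (i : ℕ) + 1 ≤ 2 * (k : ℕ) then v (.inr k) else 0 := by
      rw [← Finset.add_sum_erase _ _ (Finset.mem_univ i),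
        ← Finset.add_sum_erase _ (fun k : Fin g => if 2 * (i : ℕ) + 1 ≤ 2 * (k : ℕ) then
          v (.inr k) else 0) (Finset.mem_univ i)]
      simp only [le_refl, if_true]
      rw [if_neg (by omega), zero_add]
      congr 1
      apply Finset.sum_congr rfl
      intro k hk
      have hne : (k : ℕ) ≠ (i : ℕ) := fun h => (Finset.ne_of_mem_erase hk) (Fin.ext h)
      have : (2 * (i : ℕ) ≤ 2 * (k : ℕ)) ↔ (2 * (i : ℕ) + 1 ≤ 2 * (k : ℕ)) := by omega
      simp only [this]
    rw [h3] at ha
    linear_combination ha - hb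
  have h2 : ∀ i : Fin g, v (.inl i) = 0 := by
    intro i
    have ha := hcon (2 * (i : ℕ)) (by have := i.2; omega)
    rw [L_eq _ _ (by have := i.2; omega)] at ha
    have e1 : (⟨(2 * (i : ℕ)) / 2, by have := i.2; omega⟩ : Fin g) = i := by
      apply Fin.ext; simp
    rw [e1] at ha
    simp only [h1, ite_self, Finset.sum_const_zero, add_zero, neg_eq_zero] at ha
    exact ha
  funext i
  rcases i with i | i
  · exact h2 i
  · exact h1 i

lemma L_dvec (g i j : ℕ) (hi : i < 2 * g) (hj : j < 2 * g) :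
    L g j (dvec g i) = if i < j then -1 else if j < i then 1 else 0 := by
  rw [L_eq g j hj]
  have h1 : (∑ k : Fin g, if j ≤ 2 * (k : ℕ) then dvec g i (.inr k) else 0) =
      if j ≤ 2 * (i / 2) then 1 else 0 := by
    rw [Finset.sum_eq_single ⟨i / 2, by omega⟩]
    · simp [dvec]
    · intro b _ hb
      have : (b : ℕ) ≠ i / 2 := fun h => hb (Fin.ext h)
      simp [dvec, this]
    · simp
  rw [h1]
  simp only [dvec]
  rcases lt_trichotomy i j with h | h | h
  · rw [if_pos h, if_pos (by omega), if_neg (by omega)]; simp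
  · subst h
    simp
  · have h2 : ¬ (i < j) := by omega
    have h3 : ¬ (i ≤ 2 * (j / 2)) := by omega
    have h4 : j ≤ 2 * (i / 2) := by omega
    simp [h, h2, h3, h4]

lemma sum_range_two (f : ℕ → ℂ) (g : ℕ) :
    ∑ k ∈ Finset.range (2 * g), f k = ∑ i ∈ Finset.range g, (f (2 * i) + f (2 * i + 1)) := by
  induction g with
  | zero => simp
  | succ n ih =>
    rw [Finset.sum_range_succ, ← ih, show 2 * (n + 1) = 2 * n + 1 + 1 by ring,
      Finset.sum_range_succ, Finset.sum_range_succ]
    ring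

/-- Coordinates in the basis `dvec g j`. -/
lemma exists_coord (g : ℕ) (v : Ix g → ℂ) :
    ∃ x : ℕ → ℂ, v = ∑ k ∈ Finset.range (2 * g), x k • dvec g k := by
  classical
  let vl : ℕ → ℂ := fun i => if h : i < g then v (.inl ⟨i, h⟩) else 0
  let vr : ℕ → ℂ := fun i => if h : i < g then v (.inr ⟨i, h⟩) else 0
  let x : ℕ → ℂ := fun k => if k % 2 = 0 then vl (k / 2) - ∑ j ∈ Finset.range (k / 2), vr j
    else vr (k / 2) - (vl (k / 2) - ∑ j ∈ Finset.range (k / 2), vr j)
  have hx0 : ∀ i, x (2 * i) = vl i - ∑ j ∈ Finset.range i, vr j := by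
    intro i
    simp only [x]
    rw [if_pos (by omega), show 2 * i / 2 = i by omega]
  have hx1 : ∀ i, x (2 * i + 1) = vr i - (vl i - ∑ j ∈ Finset.range i, vr j) := by
    intro i
    simp only [x]
    rw [if_neg (by omega), show (2 * i + 1) / 2 = i by omega]
  refine ⟨x, ?_⟩
  funext c
  rw [Finset.sum_apply]
  simp only [Pi.smul_apply, smul_eq_mul]
  rcases c with i | i
  · have h1 : ∀ k, x k * dvec g k (.inl i) = if k ≤ 2 * (i : ℕ) then x k else 0 := by
      intro k
      simp [dvec]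
    simp only [h1]
    rw [sum_range_two]
    have h2 : ∀ j ∈ Finset.range g, ((if 2 * j ≤ 2 * (i : ℕ) then x (2 * j) else 0) +
        (if 2 * j + 1 ≤ 2 * (i : ℕ) then x (2 * j + 1) else 0)) =
        (if j < (i : ℕ) then vr j else 0) + (if j = (i : ℕ) then x (2 * (i : ℕ)) else 0) := by
      intro j _
      rcases lt_trichotomy j (i : ℕ) with h | h | h
      · rw [if_pos (by omega), if_pos (by omega), if_pos h, if_neg (by omega), hx0, hx1]
        ring
      · rw [if_pos (by omega), if_neg (by omega), if_neg (by omega), if_pos h, h]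
        ring
      · rw [if_neg (by omega), if_neg (by omega), if_neg (by omega), if_neg (by omega)]
    rw [Finset.sum_congr rfl h2, Finset.sum_add_distrib, Finset.sum_ite_eq',
      if_pos (Finset.mem_range.mpr i.2), hx0, ← Finset.sum_filter]
    have h3 : (Finset.range g).filter (fun j => j < (i : ℕ)) = Finset.range (i : ℕ) := by
      ext j
      simp only [Finset.mem_filter, Finset.mem_range]
      have := i.2
      omega
    rw [h3]
    simp only [vl]
    rw [dif_pos i.2]
    simp
  · have h1 : ∀ k, x k * dvec g k (.inr i) = if (i : ℕ) = k / 2 then x k else 0 := by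
      intro k
      simp [dvec]
    simp only [h1]
    rw [sum_range_two]
    have h2 : ∀ j ∈ Finset.range g, ((if (i : ℕ) = 2 * j / 2 then x (2 * j) else 0) +
        (if (i : ℕ) = (2 * j + 1) / 2 then x (2 * j + 1) else 0)) =
        (if j = (i : ℕ) then vr (i : ℕ) else 0) := by
      intro j _
      rw [show 2 * j / 2 = j by omega, show (2 * j + 1) / 2 = j by omega]
      by_cases h : j = (i : ℕ)
      · rw [if_pos h.symm, if_pos h.symm, if_pos h, h, hx0, hx1]
        ring
      · rw [if_neg (Ne.symm h), if_neg (Ne.symm h), if_neg h]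
        ring
    rw [Finset.sum_congr rfl h2, Finset.sum_ite_eq', if_pos (Finset.mem_range.mpr i.2)]
    simp only [vr]
    rw [dif_pos i.2]

/-- The set of generators. -/
def Gens (g : ℕ) : Set (Matrix (Ix g) (Ix g) ℂ) :=
  {M : Matrix (Ix g) (Ix g) ℂ | ∃ j < 2 * g, ∃ c : ℂ, M = tv (dvec g j) c}

/-- Reachability. -/
def R {g : ℕ} (v w : Ix g → ℂ) : Prop := ∃ h ∈ Submonoid.closure (Gens g), h.mulVec v = w

lemma R_trans {g : ℕ} {u v w : Ix g → ℂ} (h1 : R u v) (h2 : R v w) : R u w := by
  obtain ⟨a, ha, rfl⟩ := h1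
  obtain ⟨b, hb, rfl⟩ := h2
  exact ⟨b * a, Submonoid.mul_mem _ hb ha, by rw [Matrix.mulVec_mulVec]⟩

lemma L_self (g j : ℕ) (hj : j < 2 * g) : L g j (dvec g j) = 0 := by
  rw [L_dvec g j j hj hj]
  simp

lemma R_step {g : ℕ} (j : ℕ) (hj : j < 2 * g) (v : Ix g → ℂ) (h : L g j v ≠ 0) (s : ℂ) :
    R v (v + s • dvec g j) := by
  refine ⟨tv (dvec g j) (s / L g j v), Submonoid.subset_closure ⟨j, hj, _, rfl⟩, ?_⟩
  rw [tv_mulVec, div_mul_cancel₀ _ h]

lemma inv_gen {g : ℕ} {h : Matrix (Ix g) (Ix g) ℂ} (hh : h ∈ Submonoid.closure (Gens g)) :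
    ∃ h' ∈ Submonoid.closure (Gens g), ∀ v, h'.mulVec (h.mulVec v) = v := by
  induction hh using Submonoid.closure_induction with
  | mem x hx =>
    obtain ⟨j, hj, c, rfl⟩ := hx
    refine ⟨tv (dvec g j) (-c), Submonoid.subset_closure ⟨j, hj, _, rfl⟩, fun v => ?_⟩
    rw [tv_mulVec, tv_mulVec, L_add, L_smul, L_self g j hj]
    rw [mul_zero, add_zero, add_assoc, ← add_smul]
    have : c * L g j v + -c * L g j v = 0 := by ring
    rw [this, zero_smul, add_zero]
  | one => exact ⟨1, Submonoid.one_mem _, fun v => by simp⟩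
  | mul x y _ _ hx hy =>
    obtain ⟨x', hx', hx2⟩ := hx
    obtain ⟨y', hy', hy2⟩ := hy
    refine ⟨y' * x', Submonoid.mul_mem _ hy' hx', fun v => ?_⟩
    rw [← Matrix.mulVec_mulVec, ← Matrix.mulVec_mulVec, hx2, hy2]

lemma R_symm {g : ℕ} {v w : Ix g → ℂ} (h : R v w) : R w v := by
  obtain ⟨a, ha, rfl⟩ := h
  obtain ⟨b, hb, hb2⟩ := inv_gen ha
  exact ⟨b, hb, hb2 v⟩

/-- Avoidance of finitely many affine conditions. -/
lemma avoid (s : Finset ℕ) (a b : ℕ → ℂ) (hb : ∀ i ∈ s, a i ≠ 0 ∨ b i ≠ 0) :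
    {x : ℂ | ∃ i ∈ s, a i + x * b i = 0}.Finite := by
  have : {x : ℂ | ∃ i ∈ s, a i + x * b i = 0} ⊆ ((fun i => - a i / b i) '' (s : Set ℕ)) := by
    rintro x ⟨i, hi, hx⟩
    refine ⟨i, hi, ?_⟩
    have hbi : b i ≠ 0 := by
      intro h0
      rw [h0, mul_zero, add_zero] at hx
      rcases hb i hi with h | h
      · exact h hx
      · exact h h0
    field_simp
    linear_combination (-1 : ℂ) * hx
  exact (s.finite_toSet.image _).subset this

lemma L_sum (g j : ℕ) (s : Finset ℕ) (x : ℕ → ℂ) :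
    L g j (∑ k ∈ s, x k • dvec g k) = ∑ k ∈ s, x k * L g j (dvec g k) := by
  unfold L
  rw [dotProduct_sum]
  simp [dotProduct_smul]

/-- From a vector with all pairings nonzero one reaches `X d_0` for almost all `X`. -/
lemma reach0 {g : ℕ} (hg : 0 < g) (v : Ix g → ℂ) (hv : ∀ j < 2 * g, L g j v ≠ 0) :
    {X : ℂ | ¬ R v (X • dvec g 0)}.Finite := by
  obtain ⟨x, hx⟩ := exists_coord g v
  have hfin := avoid (Finset.range (2 * g))
    (fun i => if i = 0 then 1 else ∑ k ∈ Finset.Ico i (2 * g), x k * L g i (dvec g k))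
    (fun i => L g i (dvec g 0)) (by
      intro i hi
      rw [Finset.mem_range] at hi
      by_cases h0 : i = 0
      · left; simp [h0]
      · right
        rw [L_dvec g 0 i (by omega) hi, if_pos (by omega)]
        norm_num)
  apply hfin.subset
  intro X hX
  by_contra hcon
  apply hX
  have hgood : ∀ i < 2 * g, i ≠ 0 →
      (∑ k ∈ Finset.Ico i (2 * g), x k * L g i (dvec g k)) + X * L g i (dvec g 0) ≠ 0 := by
    intro i hi h0 h
    apply hcon
    refine ⟨i, Finset.mem_range.mpr hi, ?_⟩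
    simp only [h0, if_false]
    exact h
  have key : ∀ i, i + 1 ≤ 2 * g →
      R v (X • dvec g 0 + ∑ k ∈ Finset.Ico (i + 1) (2 * g), x k • dvec g k) := by
    intro i
    induction i with
    | zero =>
      intro _
      have h1 := R_step 0 (by omega) v (hv 0 (by omega)) (X - x 0)
      have h2 : v + (X - x 0) • dvec g 0 =
          X • dvec g 0 + ∑ k ∈ Finset.Ico (0 + 1) (2 * g), x k • dvec g k := by
        conv_lhs => rw [hx]
        rw [Finset.range_eq_Ico, Finset.sum_eq_sum_Ico_succ_bot (by omega : 0 < 2 * g), sub_smul]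
        abel
      rw [h2] at h1
      exact h1
    | succ n ih =>
      intro hn
      have h0 := ih (by omega)
      have hL : L g (n + 1) (X • dvec g 0 +
          ∑ k ∈ Finset.Ico (n + 1) (2 * g), x k • dvec g k) ≠ 0 := by
        rw [L_add, L_smul, L_sum]
        have := hgood (n + 1) (by omega) (by omega)
        intro h
        apply this
        rw [← h]
        ring
      have h1 := R_step (n + 1) (by omega) _ hL (- x (n + 1))
      refine R_trans h0 ?_
      have h2 : X • dvec g 0 + ∑ k ∈ Finset.Ico (n + 1) (2 * g), x k • dvec g k +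
          - x (n + 1) • dvec g (n + 1) =
          X • dvec g 0 + ∑ k ∈ Finset.Ico (n + 1 + 1) (2 * g), x k • dvec g k := by
        rw [Finset.sum_eq_sum_Ico_succ_bot (by omega : n + 1 < 2 * g), neg_smul]
        abel
      rw [h2] at h1
      exact h1
  have h := key (2 * g - 1) (by omega)
  rw [show 2 * g - 1 + 1 = 2 * g by omega, Finset.Ico_self, Finset.sum_empty, add_zero] at h
  exact h

lemma reach {g : ℕ} (hg : 0 < g) (v : Ix g → ℂ) (hv : v ≠ 0) :
    {X : ℂ | ¬ R v (X • dvec g 0)}.Finite := by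
  obtain ⟨j, hj, hLj⟩ := exists_L_ne hv
  have hfin := avoid (Finset.range (2 * g)) (fun i => L g i v) (fun i => L g i (dvec g j)) (by
    intro i hi
    rw [Finset.mem_range] at hi
    by_cases h : i = j
    · left; rw [h]; exact hLj
    · right
      rw [L_dvec g j i hj hi]
      rcases lt_trichotomy j i with h1 | h1 | h1
      · rw [if_pos h1]; norm_num
      · exact absurd h1.symm h
      · rw [if_neg (by omega), if_pos h1]; norm_num)
  obtain ⟨s, hs⟩ := hfin.infinite_compl.nonempty
  have h1 : R v (v + s • dvec g j) := R_step j hj v hLj s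
  have h2 : ∀ i < 2 * g, L g i (v + s • dvec g j) ≠ 0 := by
    intro i hi h
    apply hs
    refine ⟨i, Finset.mem_range.mpr hi, ?_⟩
    rw [L_add, L_smul] at h
    exact h
  apply (reach0 hg _ h2).subset
  intro X hX h
  exact hX (R_trans h1 h)

end

end GENAX

open GENAX in
/-- GENA -/
theorem gena_proof : Stmt_GenA := by
  intro g hg v w hv hw
  obtain ⟨X, hX⟩ := ((reach hg v hv).union (reach hg w hw)).infinite_compl.nonempty
  simp only [mem_compl_iff, mem_union, Set.mem_ofPred_eq, not_or, not_not] at hX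
  exact R_trans hX.1 (R_symm hX.2)

end Pool.Agent.HGP
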