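import Pool.Agent.HGP.JHOL

/-!
# HGP: module IEXT
-/

open scoped BigOperators Topology
open Metric Set MeasureTheory

namespace Pool.Agent.HGP

namespace IX

lemma gap (a : ℕ → ℝ) (ha : StrictMono a) (j : ℕ) :
    ∃ ρ : ℝ, 0 < ρ ∧ (∀ i < j, ρ ≤ a j - a i) ∧ (∀ i, j < i → ρ ≤ a i - a j) := by
  rcases j with _ | k
  · refine ⟨a 1 - a 0, by have := ha (show 0 < 1 by omega); linarith, by intro i hi; omega, ?_⟩
    intro i hi
    have := ha.monotone (show 1 ≤ i by omega)
    linarith
  · refine ⟨min (a (k + 1) - a k) (a (k + 2) - a (k + 1)), ?_, ?_, ?_⟩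
    · rw [lt_min_iff]
      have h1 := ha (show k < k + 1 by omega)
      have h2 := ha (show k + 1 < k + 2 by omega)
      constructor <;> linarith
    · intro i hi
      have := ha.monotone (show i ≤ k by omega)
      have h3 := min_le_left (a (k + 1) - a k) (a (k + 2) - a (k + 1))
      linarith
    · intro i hi
      have := ha.monotone (show k + 2 ≤ i by omega)
      have h3 := min_le_right (a (k + 1) - a k) (a (k + 2) - a (k + 1))
      linarith

/-- the factor number `i` of the analytic continuation. -/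
noncomputable def fac (a : ℕ → ℝ) (j i : ℕ) (t : ℂ) (s : ℝ) : ℂ :=
  if i < j then (csq (pth (a j) s t - a i))⁻¹ else
    Complex.I⁻¹ * (csq ((a i : ℂ) - pth (a j) s t))⁻¹

lemma re_bound {b ρ : ℝ} {t : ℂ} (ht : t ∈ ball (b : ℂ) ρ) {s : ℝ}
    (hs : s ∈ Icc (0 : ℝ) 1) : |(pth b s t).re - b| < ρ := by
  rw [mem_ball, dist_eq_norm] at ht
  have h2 := (Complex.abs_re_le_norm (t - (b : ℂ))).trans_lt ht
  unfold pth
  simp only [Complex.sub_re, Complex.ofReal_re, Complex.add_re, Complex.mul_re,
    Complex.ofReal_im, zero_mul, sub_zero] at h2 ⊢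
  rw [add_sub_cancel_left, abs_mul, abs_of_nonneg hs.1]
  calc s * |t.re - b| ≤ 1 * |t.re - b| :=
        mul_le_mul_of_nonneg_right hs.2 (abs_nonneg _)
    _ < ρ := by rw [one_mul]; exact h2

end IX

open JH IX in
theorem iext_proof (hP : Stmt_Pint) (hI : Stmt_Intg) : Stmt_Iext := by
  intro g a hg ha j hj l
  obtain ⟨ρ, hρ, h1, h2⟩ := gap a ha j
  have hsl : ∀ i < j, ∀ t ∈ ball ((a j : ℝ) : ℂ) ρ, ∀ s ∈ Icc (0 : ℝ) 1,
      pth (a j) s t - (a i : ℂ) ∈ Complex.slitPlane := by
    intro i hi t ht s hs
    rw [Complex.mem_slitPlane_iff]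
    left
    have h3 := re_bound ht hs
    rw [abs_lt] at h3
    simp only [Complex.sub_re, Complex.ofReal_re]
    linarith [h3.1, h1 i hi]
  have hsr : ∀ i, j < i → ∀ t ∈ ball ((a j : ℝ) : ℂ) ρ, ∀ s ∈ Icc (0 : ℝ) 1,
      (a i : ℂ) - pth (a j) s t ∈ Complex.slitPlane := by
    intro i hi t ht s hs
    rw [Complex.mem_slitPlane_iff]
    left
    have h3 := re_bound ht hs
    rw [abs_lt] at h3
    simp only [Complex.sub_re, Complex.ofReal_re]
    linarith [h3.2, h2 i hi]
  have hpc : ∀ i : ℕ, Continuous (fun z : ℂ × ℝ => pth (a j) z.2 z.1 - (a i : ℂ)) := by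
    intro i; unfold pth; fun_prop
  have hpc' : ∀ i : ℕ, Continuous (fun z : ℂ × ℝ => (a i : ℂ) - pth (a j) z.2 z.1) := by
    intro i; unfold pth; fun_prop
  have h := hP 0 1 (fun s => (((√(s * (1 - s)) : ℝ) : ℂ))⁻¹)
    (ball ((a j : ℝ) : ℂ) ρ) (fun t s => pth (a j) s t ^ l *
      ∏ i ∈ (Finset.range (2 * g)).erase j, fac a j i t s) zero_le_one
    (unit_int hI) isOpen_ball
    (by
      refine ContinuousOn.mul ?_ ?_
      · refine Continuous.continuousOn ?_
        unfold pth; fun_prop
      · refine continuousOn_finsetProd _ (fun i hi => ?_)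
        unfold fac
        by_cases hij : i < j
        · simp only [if_pos hij]
          exact csqinv_cont (hpc i).continuousOn (fun z hz => hsl i hij z.1 hz.1 z.2 hz.2)
        · simp only [if_neg hij]
          have hji : j < i := by
            have := Finset.ne_of_mem_erase hi
            omega
          exact continuousOn_const.mul
            (csqinv_cont (hpc' i).continuousOn (fun z hz => hsr i hji z.1 hz.1 z.2 hz.2)))
    (by
      intro s hs
      refine DifferentiableOn.mul ?_ ?_
      · unfold pth; fun_prop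
      · refine DifferentiableOn.fun_finsetProd (fun i hi => ?_)
        unfold fac
        by_cases hij : i < j
        · simp only [if_pos hij]
          refine csqinv_diff ?_ (fun t ht => hsl i hij t ht s hs)
          unfold pth; fun_prop
        · simp only [if_neg hij]
          have hji : j < i := by
            have := Finset.ne_of_mem_erase hi
            omega
          refine DifferentiableOn.const_mul
            (csqinv_diff ?_ (fun t ht => hsr i hji t ht s hs)) _
          unfold pth; fun_prop)
  refine ⟨ρ, _, hρ, h.const_mul (-Complex.I), ?_⟩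
  intro t ht him
  unfold Ic
  congr 1
  refine intervalIntegral.integral_congr (fun s hs => ?_)
  rw [uIcc_of_le zero_le_one] at hs
  rcases hs.1.eq_or_lt with h0 | h0
  · rw [← h0]; simp
  have hfac : ∏ i ∈ (Finset.range (2 * g)).erase j, fac a j i t s =
      (∏ i ∈ (Finset.range (2 * g)).erase j, csq (pth (a j) s t - a i))⁻¹ := by
    rw [← Finset.prod_inv_distrib]
    refine Finset.prod_congr rfl (fun i hi => ?_)
    unfold fac
    by_cases hij : i < j
    · rw [if_pos hij]
    · rw [if_neg hij]
      have him2 : 0 < (pth (a j) s t - (a i : ℂ)).im := by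
        unfold pth
        simp only [Complex.sub_im, Complex.ofReal_im, Complex.add_im, Complex.mul_im,
          Complex.ofReal_re, zero_mul, sub_zero, zero_add, add_zero]
        exact mul_pos h0 him
      rw [csq_eq_I_mul him2, neg_sub, mul_inv]
  rw [hfac, div_eq_mul_inv, mul_inv]
  ring

end Pool.Agent.HGP
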