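import Pool.Agent.HGP.Stmts

/-!
# HGP, module IND
-/

open scoped BigOperators Topology
open Metric Set

namespace Pool.Agent.HGP

namespace IND_

lemma opt_some {α : Type} (x : ℂ) (f : α → ℂ) : (opt x f) ∘ some = f := rfl

/-- The determinant of the block `A` as a polynomial. -/
noncomputable def detp (g : ℕ) : MvPolynomial (Option (Idx g)) ℂ :=
  (Matrix.of fun i j : Fin g =>
    (MvPolynomial.X (some (Sum.inl (i, j))) : MvPolynomial (Option (Idx g)) ℂ)).det

lemma eval_detp (g : ℕ) (x : Option (Idx g) → ℂ) :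
    MvPolynomial.eval x (detp g) = (Aof (fun p => x (some p))).det := by
  unfold detp Aof
  rw [RingHom.map_det]
  congr 1
  ext i j
  simp

lemma detp_ne_zero (g : ℕ) : detp g ≠ 0 := by
  intro h
  have h1 := eval_detp g (fun o => o.elim 0 (fun p => Sum.elim
    (fun ij : Fin g × Fin g => if ij.1 = ij.2 then (1 : ℂ) else 0) (fun _ => 0) p))
  rw [h] at h1
  have h2 : Aof (fun p : Idx g => (fun o : Option (Idx g) => o.elim (0 : ℂ)
      (fun p => Sum.elim (fun ij : Fin g × Fin g => if ij.1 = ij.2 then (1 : ℂ) else 0)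
        (fun _ => 0) p)) (some p)) = (1 : Matrix (Fin g) (Fin g) ℂ) := by
    ext i j
    simp [Aof, Matrix.one_apply]
  rw [h2] at h1
  simp at h1

lemma U_infinite (g : ℕ) (a : ℕ → ℝ) : (U g a).Infinite := by
  have h : (fun t : ℝ => (t : ℂ)) '' (Ioi (a (2 * g - 1))) ⊆ U g a := by
    rintro _ ⟨t, ht, rfl⟩
    exact U_ofReal ht
  refine Set.Infinite.mono h ?_
  exact (Set.Ioi_infinite _).image (Complex.ofReal_injective.injOn)

end IND_

open IND_

theorem ind_proof (hHC : Stmt_HomogC) (hCQ : Stmt_CellQ) (hF : Stmt_Fiber)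
    (hCB : Stmt_CellB) : Stmt_Ind := by
  intro g a hg ha z0 R hR hz Q hQ
  obtain ⟨Δ0, q0, h0⟩ := hCQ g
  obtain ⟨D, P1, hP1⟩ := hHC (Option (Idx g)) (Option (Ix g × Ix g))
    (fun v => v.elim (MvPolynomial.X none * MvPolynomial.rename some Δ0)
      (fun x => MvPolynomial.rename some (q0 x))) (MvPolynomial.rename some Δ0) Q
  have key : ∀ (t : ℂ) (M : Matrix (Ix g) (Ix g) ℂ), M.toBlocks₁₁.det ≠ 0 →
      MvPolynomial.eval (opt t (fun p => M p.1 p.2)) P1 =
        M.toBlocks₁₁.det ^ D * MvPolynomial.eval (opt t (fvec M)) Q := by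
    intro t M hM
    have hd : MvPolynomial.eval (opt t (fun p : Ix g × Ix g => M p.1 p.2))
        (MvPolynomial.rename some Δ0) = M.toBlocks₁₁.det := by
      rw [MvPolynomial.eval_rename, opt_some]
      exact (h0 M).1
    have h1 := hP1 (opt t (fun p => M p.1 p.2)) (by rw [hd]; exact hM)
    rw [h1, hd]
    congr 2
    congr 1
    funext v
    have hM' : M.toBlocks₁₁.det ≠ 0 := hM
    cases v with
    | none =>
      show MvPolynomial.eval (opt t (fun p : Ix g × Ix g => M p.1 p.2))
          (MvPolynomial.X none * MvPolynomial.rename some Δ0) / M.toBlocks₁₁.det = t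
      rw [map_mul, hd, MvPolynomial.eval_X]
      show t * M.toBlocks₁₁.det / M.toBlocks₁₁.det = t
      exact mul_div_cancel_right₀ t hM'
    | some x =>
      have h2 := (h0 M).2 hM x
      have h3 : MvPolynomial.eval (opt t (fun p : Ix g × Ix g => M p.1 p.2))
          (MvPolynomial.rename some (q0 x)) = M.toBlocks₁₁.det * fvec M x := by
        rw [MvPolynomial.eval_rename, opt_some]
        exact h2
      show MvPolynomial.eval (opt t (fun p : Ix g × Ix g => M p.1 p.2))
          (MvPolynomial.rename some (q0 x)) / M.toBlocks₁₁.det = fvec M x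
      rw [h3]
      exact mul_div_cancel_left₀ _ hM'
  have hfib := hF g a hg ha P1 z0 R hR (fun z hzz => (hz z hzz).1) (fun z hzz => by
    rw [key z (PerC g a z) (hz z hzz).2, hQ z hzz, mul_zero])
  have hall : ∀ t ∈ U g a, ∀ w : Idx g → ℂ, (Aof w).det ≠ 0 →
      MvPolynomial.eval (opt t w) Q = 0 := by
    intro t ht w hw
    obtain ⟨hs, hb, hf⟩ := hCB g w (2 * Real.pi * Complex.I) hw
    have h1 := hfib t ht (mvec w (2 * Real.pi * Complex.I)) hs
    rw [key t _ (by rw [hb]; exact hw), hb, hf] at h1
    rcases mul_eq_zero.mp h1 with h | h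
    · exact absurd h (pow_ne_zero _ hw)
    · exact h
  have hQD : Q * detp g = 0 := by
    refine MvPolynomial.funext_set (fun o : Option (Idx g) => o.elim (U g a) (fun _ => Set.univ))
      ?_ ?_
    · intro o
      cases o with
      | none => exact U_infinite g a
      | some x => exact Set.infinite_univ
    · intro x hx
      rw [map_mul, eval_detp, map_zero]
      by_cases hd : (Aof (fun p => x (some p))).det = 0
      · rw [hd, mul_zero]
      · have hx0 : x none ∈ U g a := hx none (Set.mem_univ _)
        have h1 := hall (x none) hx0 (fun p => x (some p)) hd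
        have h2 : opt (x none) (fun p => x (some p)) = x := by
          funext o
          cases o <;> rfl
        rw [h2] at h1
        rw [h1, zero_mul]
  rcases mul_eq_zero.mp hQD with h | h
  · exact h
  · exact absurd h (detp_ne_zero g)

end Pool.Agent.HGP
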