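import Pool.Agent.HGP.Stmts

/-!
# HGP: modules JHOL, JMID, IEXT
-/

open scoped BigOperators Topology
open Metric Set MeasureTheory

namespace Pool.Agent.HGP

namespace JH

lemma csqinv_cont {X : Type*} [TopologicalSpace X] {s : Set X} {u : X → ℂ}
    (hu : ContinuousOn u s) (h : ∀ x ∈ s, u x ∈ Complex.slitPlane) :
    ContinuousOn (fun x => (csq (u x))⁻¹) s := by
  refine ContinuousOn.inv₀ ?_ ?_
  · exact csq_continuousOn.comp hu h
  · intro x hx
    exact csq_ne_zero (Complex.slitPlane_ne_zero (h x hx))

lemma csqinv_diff {s : Set ℂ} {u : ℂ → ℂ}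
    (hu : DifferentiableOn ℂ u s) (h : ∀ x ∈ s, u x ∈ Complex.slitPlane) :
    DifferentiableOn ℂ (fun x => (csq (u x))⁻¹) s := by
  refine DifferentiableOn.inv ?_ ?_
  · exact csq_differentiableOn.comp hu h
  · intro x hx
    exact csq_ne_zero (Complex.slitPlane_ne_zero (h x hx))

/-- integrability of the weight on the interval number `m`. -/
lemma phi_int (hI : Stmt_Intg) (g : ℕ) (a : ℕ → ℝ) (ha : StrictMono a) (m : ℕ)
    (hm : m + 1 < 2 * g) (f : ℝ → ℂ) (hf : Continuous f) :
    IntervalIntegrable (fun x => f x *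
      (((√|∏ i ∈ Finset.range (2 * g), (x - a i)| : ℝ) : ℂ))⁻¹) volume (a m) (a (m + 1)) := by
  have hlt : a m < a (m + 1) := ha (Nat.lt_succ_self m)
  have h := hI (a m) (a (m + 1))
    (fun x => |∏ i ∈ ((Finset.range (2 * g)).erase m).erase (m + 1), (x - a i)|) hlt
    (by
      refine Continuous.continuousOn ?_
      refine Continuous.abs ?_
      exact continuous_finsetProd _ (fun i _ => continuous_id.sub continuous_const))
    (by
      intro x hx
      refine abs_pos.mpr (Finset.prod_ne_zero_iff.mpr ?_)
      intro i hi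
      simp only [Finset.mem_erase, Finset.mem_range] at hi
      obtain ⟨h1, h2, _⟩ := hi
      rcases lt_or_gt_of_ne h2 with h3 | h3
      · have := ha h3
        have := hx.1
        intro h0; linarith
      · have h4 : m + 1 < i := by omega
        have := ha h4
        have := hx.2
        intro h0; linarith)
  have h2 : IntervalIntegrable (fun x : ℝ =>
      ((1 / √(|(x - a m) * (x - a (m + 1))| *
        |∏ i ∈ ((Finset.range (2 * g)).erase m).erase (m + 1), (x - a i)|) : ℝ) : ℂ))
      volume (a m) (a (m + 1)) := by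
    rw [intervalIntegrable_iff] at h ⊢
    exact h.ofReal
  have h3 := h2.continuousOn_mul (hf.continuousOn (s := uIcc (a m) (a (m + 1))))
  refine h3.congr ?_
  intro x _
  simp only
  congr 1
  have he : ∏ i ∈ Finset.range (2 * g), (x - a i) = (x - a m) * (x - a (m + 1)) *
      ∏ i ∈ ((Finset.range (2 * g)).erase m).erase (m + 1), (x - a i) := by
    rw [← Finset.mul_prod_erase (Finset.range (2 * g)) (fun i => x - a i)
      (Finset.mem_range.mpr (by omega : m < 2 * g)),
      ← Finset.mul_prod_erase ((Finset.range (2 * g)).erase m) (fun i => x - a i)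
      (Finset.mem_erase.mpr ⟨by omega, Finset.mem_range.mpr hm⟩), mul_assoc]
  rw [he, abs_mul ((x - a m) * (x - a (m + 1)))]
  push_cast
  rw [one_div]

lemma unit_int (hI : Stmt_Intg) :
    IntervalIntegrable (fun s : ℝ => (((√(s * (1 - s)) : ℝ) : ℂ))⁻¹) volume 0 1 := by
  have h := hI 0 1 (fun _ => 1) one_pos continuousOn_const (fun _ _ => one_pos)
  have h2 : IntervalIntegrable (fun x : ℝ =>
      ((1 / √(|(x - 0) * (x - 1)| * 1) : ℝ) : ℂ)) volume 0 1 := by
    rw [intervalIntegrable_iff] at h ⊢
    exact h.ofReal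
  refine h2.congr ?_
  intro x hx
  rw [uIoc_of_le zero_le_one] at hx
  simp only
  have : |(x - 0) * (x - 1)| * 1 = x * (1 - x) := by
    rw [mul_one, sub_zero, abs_mul, abs_of_nonneg hx.1.le, abs_of_nonpos (by linarith [hx.2])]
    ring
  rw [this]
  push_cast
  rw [one_div]

end JH

open JH in
theorem jhol_proof (hP : Stmt_Pint) (hI : Stmt_Intg) : Stmt_Jhol := by
  intro g a hg ha m hm l
  by_cases hm1 : m + 1 < 2 * g
  · have hlt : a m < a (m + 1) := ha (Nat.lt_succ_self m)
    have hsl : ∀ t ∈ U g a, ∀ x ∈ Icc (a m) (a (m + 1)), t - (x : ℂ) ∈ Complex.slitPlane := by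
      intro t ht x hx
      exact sub_mem_slit ht (hx.2.trans (ha.monotone (by omega)))
    have h := hP (a m) (a (m + 1))
      (fun x => (x : ℂ) ^ l * (((√|∏ i ∈ Finset.range (2 * g), (x - a i)| : ℝ) : ℂ))⁻¹)
      (U g a) (fun t x => (csq (t - x))⁻¹) hlt.le
      (phi_int hI g a ha m hm1 (fun x => (x : ℂ) ^ l) (by fun_prop))
      (U_isOpen g a)
      (csqinv_cont (u := fun z : ℂ × ℝ => z.1 - (z.2 : ℂ)) (by fun_prop)
        (fun z hz => hsl z.1 hz.1 z.2 hz.2))
      (fun x hx => csqinv_diff (by fun_prop) (fun t ht => hsl t ht x hx))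
    refine h.congr ?_
    intro t _
    unfold Jc
    rw [if_pos hm1]
    refine intervalIntegral.integral_congr ?_
    intro x _
    simp only
    rw [div_eq_mul_inv, mul_inv, mul_assoc]
  · have hm2 : m = 2 * g - 1 := by omega
    have hsl : ∀ t ∈ U g a, ∀ s ∈ Icc (0 : ℝ) 1, ∀ i ∈ Finset.range (2 * g - 1),
        pth (a m) s t - (a i : ℂ) ∈ Complex.slitPlane := by
      intro t ht s hs i hi
      have hi' : a i < a m := ha (by rw [Finset.mem_range] at hi; omega)
      have ht' : t - (a (2 * g - 1) : ℂ) ∈ Complex.slitPlane := ht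
      rw [← hm2, Complex.mem_slitPlane_iff] at ht'
      rw [Complex.mem_slitPlane_iff]
      unfold pth
      simp only [Complex.sub_re, Complex.ofReal_re, Complex.sub_im, Complex.ofReal_im, sub_zero,
        Complex.add_re, Complex.add_im, Complex.mul_re, Complex.mul_im, zero_mul, zero_add,
        add_zero] at ht' ⊢
      by_cases him : t.im = 0
      · left
        rcases ht' with h | h
        · have := mul_nonneg hs.1 h.le
          linarith
        · exact absurd him h
      · rcases hs.1.eq_or_lt with h0 | h0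
        · left
          rw [← h0]; linarith
        · right
          exact mul_ne_zero h0.ne' him
    have h := hP 0 1 (fun s => (((√(s * (1 - s)) : ℝ) : ℂ))⁻¹)
      (U g a) (fun t s => pth (a m) s t ^ l *
        ∏ i ∈ Finset.range (2 * g - 1), (csq (pth (a m) s t - a i))⁻¹) zero_le_one
      (unit_int hI) (U_isOpen g a)
      (by
        refine ContinuousOn.mul ?_ ?_
        · refine Continuous.continuousOn ?_
          unfold pth; fun_prop
        · refine continuousOn_finsetProd _ (fun i hi => ?_)
          refine csqinv_cont (u := fun z : ℂ × ℝ => pth (a m) z.2 z.1 - (a i : ℂ)) ?_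
            (fun z hz => hsl z.1 hz.1 z.2 hz.2 i hi)
          refine Continuous.continuousOn ?_
          unfold pth; fun_prop)
      (by
        intro s hs
        refine DifferentiableOn.mul ?_ ?_
        · unfold pth; fun_prop
        · refine DifferentiableOn.fun_finsetProd (fun i hi => ?_)
          refine csqinv_diff ?_ (fun t ht => hsl t ht s hs i hi)
          unfold pth; fun_prop)
    refine h.congr ?_
    intro t _
    unfold Jc
    rw [if_neg hm1]
    refine intervalIntegral.integral_congr ?_
    intro s _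
    simp only
    rw [div_eq_mul_inv, mul_inv, Finset.prod_inv_distrib]
    ring

end Pool.Agent.HGP
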