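import Pool.Agent.HGP.Stmts

/-!
# HGP: module JLEFT
-/

open scoped BigOperators Topology
open Metric Set MeasureTheory

namespace Pool.Agent.HGP

namespace JLeft

noncomputable section

/-- The product of the other factors. -/
def Gf (g : ℕ) (a : ℕ → ℝ) (m : ℕ) (x : ℝ) : ℝ :=
  |∏ i ∈ ((Finset.range (2 * g)).erase m).erase (m + 1), (x - a i)|

lemma F_eq {g : ℕ} {a : ℕ → ℝ} {m : ℕ} (hm : m + 1 < 2 * g) (x : ℝ) :
    |∏ i ∈ Finset.range (2 * g), (x - a i)| = |(x - a m) * (x - a (m + 1))| * Gf g a m x := by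
  unfold Gf
  rw [← abs_mul]
  congr 1
  rw [← Finset.mul_prod_erase (Finset.range (2 * g)) _
    (Finset.mem_range.mpr (show m < 2 * g by omega))]
  rw [← Finset.mul_prod_erase ((Finset.range (2 * g)).erase m) _
    (show m + 1 ∈ (Finset.range (2 * g)).erase m by simp; omega)]
  ring

lemma Gf_cont (g : ℕ) (a : ℕ → ℝ) (m : ℕ) : Continuous (Gf g a m) := by
  unfold Gf
  exact (continuous_finsetProd _ (fun i _ => continuous_id.sub continuous_const)).abs

lemma Gf_pos {g : ℕ} {a : ℕ → ℝ} (ha : StrictMono a) {m : ℕ} {x : ℝ}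
    (hx : x ∈ Icc (a m) (a (m + 1))) : 0 < Gf g a m x := by
  unfold Gf
  rw [abs_pos, Finset.prod_ne_zero_iff]
  intro i hi
  simp only [Finset.mem_erase, Finset.mem_range] at hi
  rw [sub_ne_zero]
  rcases lt_or_ge i m with h | h
  · exact ((ha h).trans_le hx.1).ne'
  · have : m + 1 < i := by omega
    exact (hx.2.trans_lt (ha this)).ne

/-- The holomorphic function in the local form of the integral. -/
def phi (g : ℕ) (a : ℕ → ℝ) (m l : ℕ) (v : ℂ) : ℂ :=
  ((a (m + 1) : ℂ) - v) ^ l /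
    ((∏ i ∈ Finset.range (m + 1), csq ((a (m + 1) : ℂ) - v - a i)) *
      ∏ i ∈ Finset.Ico (m + 2) (2 * g), csq ((a i : ℂ) - a (m + 1) + v))

lemma slit1 {a : ℕ → ℝ} (ha : StrictMono a) {m i : ℕ} (hi : i < m + 1) {v : ℂ} {R : ℝ}
    (hR : R ≤ a (m + 1) - a m) (hv : v ∈ ball (0 : ℂ) R) :
    (a (m + 1) : ℂ) - v - a i ∈ Complex.slitPlane := by
  left
  have h1 : |v.re| < R := lt_of_le_of_lt (Complex.abs_re_le_norm v) (by simpa using hv)
  have h2 : a i ≤ a m := ha.monotone (by omega)
  simp only [Complex.sub_re, Complex.ofReal_re]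
  have := (abs_lt.mp h1).2
  linarith

lemma slit2 {a : ℕ → ℝ} (ha : StrictMono a) {m i : ℕ} (hi : m + 2 ≤ i) {v : ℂ} {R : ℝ}
    (hR : R ≤ a (m + 2) - a (m + 1)) (hv : v ∈ ball (0 : ℂ) R) :
    (a i : ℂ) - a (m + 1) + v ∈ Complex.slitPlane := by
  left
  have h1 : |v.re| < R := lt_of_le_of_lt (Complex.abs_re_le_norm v) (by simpa using hv)
  have h2 : a (m + 2) ≤ a i := ha.monotone hi
  simp only [Complex.sub_re, Complex.add_re, Complex.ofReal_re]
  have := (abs_lt.mp h1).1
  linarith

lemma phi_diff {g : ℕ} {a : ℕ → ℝ} (ha : StrictMono a) (m l : ℕ) {R : ℝ}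
    (hR1 : R ≤ a (m + 1) - a m) (hR2 : R ≤ a (m + 2) - a (m + 1)) :
    DifferentiableOn ℂ (phi g a m l) (ball 0 R) := by
  have hne1 : ∀ v ∈ ball (0 : ℂ) R, ∏ i ∈ Finset.range (m + 1),
      csq ((a (m + 1) : ℂ) - v - a i) ≠ 0 := by
    intro v hv
    rw [Finset.prod_ne_zero_iff]
    intro i hi
    exact csq_ne_zero (Complex.slitPlane_ne_zero (slit1 ha (Finset.mem_range.mp hi) hR1 hv))
  have hne2 : ∀ v ∈ ball (0 : ℂ) R, ∏ i ∈ Finset.Ico (m + 2) (2 * g),
      csq ((a i : ℂ) - a (m + 1) + v) ≠ 0 := by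
    intro v hv
    rw [Finset.prod_ne_zero_iff]
    intro i hi
    exact csq_ne_zero (Complex.slitPlane_ne_zero (slit2 ha (Finset.mem_Ico.mp hi).1 hR2 hv))
  unfold phi
  refine DifferentiableOn.div ?_ ?_ (fun v hv => mul_ne_zero (hne1 v hv) (hne2 v hv))
  · exact ((differentiableOn_const _).sub differentiableOn_id).pow _
  · refine DifferentiableOn.mul ?_ ?_
    · refine DifferentiableOn.fun_finsetProd (fun i hi => ?_)
      refine csq_differentiableOn.comp
        (((differentiableOn_const _).sub differentiableOn_id).sub (differentiableOn_const _)) ?_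
      intro v hv
      exact slit1 ha (Finset.mem_range.mp hi) hR1 hv
    · refine DifferentiableOn.fun_finsetProd (fun i hi => ?_)
      refine csq_differentiableOn.comp ((differentiableOn_const _).add differentiableOn_id) ?_
      intro v hv
      exact slit2 ha (Finset.mem_Ico.mp hi).1 hR2 hv

lemma sqrt_abs_prod (s : Finset ℕ) (f : ℕ → ℝ) :
    √|∏ i ∈ s, f i| = ∏ i ∈ s, √|f i| := by
  classical
  induction s using Finset.induction_on with
  | empty => simp
  | insert i s hi ih =>
    rw [Finset.prod_insert hi, Finset.prod_insert hi, abs_mul, Real.sqrt_mul (abs_nonneg _), ih]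

lemma split_range {M : Type} [CommMonoid M] {g m : ℕ} (hm : m + 1 < 2 * g) (f : ℕ → M) :
    ∏ i ∈ Finset.range (2 * g), f i = (∏ i ∈ Finset.range (m + 1), f i) * f (m + 1) *
      ∏ i ∈ Finset.Ico (m + 2) (2 * g), f i := by
  rw [← Finset.prod_range_succ, Finset.prod_range_mul_prod_Ico _ (by omega)]

lemma split_erase {M : Type} [CommMonoid M] {g m : ℕ} (hm : m + 1 < 2 * g) (f : ℕ → M) :
    ∏ i ∈ (Finset.range (2 * g)).erase (m + 1), f i = (∏ i ∈ Finset.range (m + 1), f i) *
      ∏ i ∈ Finset.Ico (m + 2) (2 * g), f i := by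
  have h : (Finset.range (2 * g)).erase (m + 1) =
      Finset.range (m + 1) ∪ Finset.Ico (m + 2) (2 * g) := by
    ext i
    simp only [Finset.mem_erase, Finset.mem_range, Finset.mem_union, Finset.mem_Ico]
    omega
  rw [h, Finset.prod_union]
  rw [Finset.disjoint_left]
  intro i hi hi'
  simp only [Finset.mem_range, Finset.mem_Ico] at hi hi'
  omega

/-- The integrand after the change of variable. -/
lemma integrand_eq {g : ℕ} {a : ℕ → ℝ} (ha : StrictMono a) {m : ℕ} (hm : m + 1 < 2 * g) (l : ℕ)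
    {v : ℝ} (hv0 : 0 ≤ v) (hv1 : v ≤ a (m + 1) - a m) (t : ℂ) :
    (((a (m + 1) - v : ℝ) : ℂ)) ^ l /
      (((√|∏ i ∈ Finset.range (2 * g), ((a (m + 1) - v) - a i)| : ℝ) : ℂ) *
        csq (t - ((a (m + 1) - v : ℝ) : ℂ))) =
    phi g a m l v / (((√v : ℝ) : ℂ) * csq ((v : ℂ) + (t - a (m + 1)))) := by
  have h1 : ∏ i ∈ Finset.range (m + 1), csq ((a (m + 1) : ℂ) - v - a i) =
      ((∏ i ∈ Finset.range (m + 1), √|(a (m + 1) - v) - a i| : ℝ) : ℂ) := by
    rw [Complex.ofReal_prod]
    refine Finset.prod_congr rfl (fun i hi => ?_)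
    have h2 : a i ≤ a m := ha.monotone (by have := Finset.mem_range.mp hi; omega)
    have h3 : 0 ≤ a (m + 1) - v - a i := by linarith
    rw [abs_of_nonneg h3, ← csq_ofReal h3]
    push_cast
    rfl
  have h2 : ∏ i ∈ Finset.Ico (m + 2) (2 * g), csq ((a i : ℂ) - a (m + 1) + v) =
      ((∏ i ∈ Finset.Ico (m + 2) (2 * g), √|(a (m + 1) - v) - a i| : ℝ) : ℂ) := by
    rw [Complex.ofReal_prod]
    refine Finset.prod_congr rfl (fun i hi => ?_)
    have h2 : a (m + 1) ≤ a i := ha.monotone (by have := (Finset.mem_Ico.mp hi).1; omega)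
    have h3 : 0 ≤ a i - a (m + 1) + v := by linarith
    have h4 : |(a (m + 1) - v) - a i| = a i - a (m + 1) + v := by
      rw [abs_of_nonpos (by linarith)]; ring
    rw [h4, ← csq_ofReal h3]
    push_cast
    rfl
  have h3 : √|∏ i ∈ Finset.range (2 * g), ((a (m + 1) - v) - a i)| =
      (∏ i ∈ Finset.range (m + 1), √|(a (m + 1) - v) - a i|) * √v *
        ∏ i ∈ Finset.Ico (m + 2) (2 * g), √|(a (m + 1) - v) - a i| := by
    rw [sqrt_abs_prod, split_range hm]
    congr 2
    have : |(a (m + 1) - v) - a (m + 1)| = v := by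
      rw [abs_of_nonpos (by linarith)]; ring
    rw [this]
  unfold phi
  rw [h1, h2, h3]
  have h4 : t - ((a (m + 1) - v : ℝ) : ℂ) = (v : ℂ) + (t - a (m + 1)) := by
    push_cast; ring
  rw [h4]
  push_cast
  rw [div_div]
  congr 1
  ring

/-- The integral in the logarithmic term. -/
lemma log_term {g : ℕ} {a : ℕ → ℝ} {m : ℕ} (hm : m + 1 < 2 * g) (l : ℕ) {t : ℂ}
    (ht : 0 < t.im) :
    (∫ s in (0 : ℝ)..1, phi g a m l (-(s * (t - a (m + 1)))) / ((√(s * (1 - s)) : ℝ) : ℂ)) =
      Complex.I ^ (2 * g - (m + 2)) * (Complex.I * Ic g a (m + 1) l t) := by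
  have h0 : Complex.I * Ic g a (m + 1) l t = ∫ s in (0 : ℝ)..1, (pth (a (m + 1)) s t) ^ l /
    (((√(s * (1 - s)) : ℝ) : ℂ) *
      ∏ i ∈ (Finset.range (2 * g)).erase (m + 1), csq (pth (a (m + 1)) s t - a i)) := by
    unfold Ic
    rw [← mul_assoc, mul_neg, Complex.I_mul_I, neg_neg, one_mul]
  rw [h0, ← intervalIntegral.integral_const_mul]
  refine intervalIntegral.integral_congr_ae (Filter.Eventually.of_forall (fun s hs => ?_))
  rw [uIoc_of_le zero_le_one] at hs
  have hp : (a (m + 1) : ℂ) - -(s * (t - a (m + 1))) = pth (a (m + 1)) s t := by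
    unfold pth; ring
  have hp2 : ∀ i, (a i : ℂ) - a (m + 1) + -(s * (t - a (m + 1))) =
      -(pth (a (m + 1)) s t - a i) := by
    intro i; unfold pth; ring
  have him : ∀ i, 0 < (pth (a (m + 1)) s t - a i).im := by
    intro i
    unfold pth
    simp only [Complex.sub_im, Complex.add_im, Complex.ofReal_im, Complex.mul_im,
      Complex.ofReal_re, Complex.sub_re, zero_mul, add_zero, zero_add, sub_zero]
    exact mul_pos hs.1 ht
  have h1 : ∏ i ∈ (Finset.range (2 * g)).erase (m + 1), csq (pth (a (m + 1)) s t - a i) =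
      Complex.I ^ (2 * g - (m + 2)) * ((∏ i ∈ Finset.range (m + 1),
        csq (pth (a (m + 1)) s t - a i)) * ∏ i ∈ Finset.Ico (m + 2) (2 * g),
          csq (-(pth (a (m + 1)) s t - a i))) := by
    rw [split_erase hm]
    have : ∏ i ∈ Finset.Ico (m + 2) (2 * g), csq (pth (a (m + 1)) s t - a i) =
        Complex.I ^ (2 * g - (m + 2)) * ∏ i ∈ Finset.Ico (m + 2) (2 * g),
          csq (-(pth (a (m + 1)) s t - a i)) := by
      rw [← Nat.card_Ico, ← Finset.prod_const, ← Finset.prod_mul_distrib]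
      refine Finset.prod_congr rfl (fun i _ => csq_eq_I_mul (him i))
    rw [this]
    ring
  rw [h1]
  unfold phi
  simp only [hp, hp2]
  have hI : Complex.I ^ (2 * g - (m + 2)) ≠ 0 := pow_ne_zero _ Complex.I_ne_zero
  rw [div_div, mul_div_assoc']
  rw [mul_left_comm (((√(s * (1 - s)) : ℝ) : ℂ)) (Complex.I ^ (2 * g - (m + 2)))]
  rw [mul_div_mul_left _ _ hI]
  congr 1
  ring

end

end JLeft

theorem jleft_proof (hP : Stmt_Pint) (hI : Stmt_Intg) (hL : Stmt_Loc) : Stmt_Jleft := by
  intro g a hg ha m l hm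
  have hab : a m < a (m + 1) := ha (by omega)
  have hbc : a (m + 1) < a (m + 2) := ha (by omega)
  set b : ℝ := a (m + 1) with hb
  obtain ⟨R, hR0, hR1, hR2⟩ : ∃ R : ℝ, 0 < R ∧ R ≤ b - a m ∧ R ≤ a (m + 2) - b :=
    ⟨min (b - a m) (a (m + 2) - b), lt_min (by linarith) (by linarith), min_le_left _ _,
      min_le_right _ _⟩
  have hρ0 : 0 < R / 2 := by linarith
  obtain ⟨r, h1, hr, hh1, hloc⟩ := hL R (R / 2) (JLeft.phi g a m l) hρ0 (by linarith)
    (JLeft.phi_diff ha m l hR1 hR2)
  -- integrability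
  have hint : IntervalIntegrable (fun x : ℝ => ((x : ℂ) ^ l) *
      (((1 / √|∏ i ∈ Finset.range (2 * g), (x - a i)| : ℝ)) : ℂ)) volume (a m) b := by
    have h := hI (a m) b (JLeft.Gf g a m) hab (JLeft.Gf_cont g a m).continuousOn
      (fun x hx => JLeft.Gf_pos ha hx)
    have h2 : IntervalIntegrable (fun x : ℝ => 1 / √|∏ i ∈ Finset.range (2 * g),
        (x - a i)|) volume (a m) b := by
      refine h.congr ?_
      intro x _
      simp only [JLeft.F_eq hm x]
      rfl
    have h' : IntervalIntegrable (fun x : ℝ => (((1 / √|∏ i ∈ Finset.range (2 * g),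
        (x - a i)| : ℝ)) : ℂ)) volume (a m) b := ⟨h2.1.ofReal, h2.2.ofReal⟩
    exact h'.continuousOn_mul (by fun_prop)
  have hsub : IntervalIntegrable (fun x : ℝ => ((x : ℂ) ^ l) *
      (((1 / √|∏ i ∈ Finset.range (2 * g), (x - a i)| : ℝ)) : ℂ)) volume (a m) (b - R / 2) :=
    hint.mono_set (by
      rw [uIcc_of_le (by linarith), uIcc_of_le hab.le]
      exact Icc_subset_Icc_right (by linarith))
  have hslit : ∀ t ∈ ball (b : ℂ) (R / 2), ∀ x ∈ Icc (a m) (b - R / 2),
      t - (x : ℂ) ∈ Complex.slitPlane := by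
    intro t ht x hx
    left
    have h1 : |(t - b).re| < R / 2 :=
      lt_of_le_of_lt (Complex.abs_re_le_norm _) (by simpa [dist_eq_norm] using ht)
    simp only [Complex.sub_re, Complex.ofReal_re] at h1 ⊢
    have := (abs_lt.mp h1).1
    linarith [hx.2]
  have hcont : ContinuousOn (fun z : ℂ × ℝ => 1 / csq (z.1 - z.2))
      (ball (b : ℂ) (R / 2) ×ˢ Icc (a m) (b - R / 2)) := by
    refine ContinuousOn.div continuousOn_const ?_ ?_
    · refine csq_continuousOn.comp (by fun_prop) ?_
      intro z hz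
      exact hslit z.1 hz.1 z.2 hz.2
    · intro z hz
      exact csq_ne_zero (Complex.slitPlane_ne_zero (hslit z.1 hz.1 z.2 hz.2))
  have hdiff : ∀ x ∈ Icc (a m) (b - R / 2), DifferentiableOn ℂ (fun t => 1 / csq (t - (x : ℂ)))
      (ball (b : ℂ) (R / 2)) := by
    intro x hx
    refine DifferentiableOn.div (differentiableOn_const _) ?_ ?_
    · refine csq_differentiableOn.comp (differentiableOn_id.sub (differentiableOn_const _)) ?_
      intro t ht
      exact hslit t ht x hx
    · intro t ht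
      exact csq_ne_zero (Complex.slitPlane_ne_zero (hslit t ht x hx))
  have hh2 := hP (a m) (b - R / 2) _ (ball (b : ℂ) (R / 2)) (fun t x => 1 / csq (t - (x : ℂ)))
    (by linarith) hsub isOpen_ball hcont hdiff
  set h2 : ℂ → ℂ := fun t => ∫ x in (a m)..(b - R / 2), ((x : ℂ) ^ l) *
      (((1 / √|∏ i ∈ Finset.range (2 * g), (x - a i)| : ℝ)) : ℂ) * (1 / csq (t - (x : ℂ)))
    with hh2def
  refine ⟨min r (R / 2), fun t => Complex.I ^ (m + 2 * g) * (h1 (t - b) + h2 t),
    lt_min hr hρ0, ?_, ?_⟩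
  · refine (differentiableOn_const _).mul (DifferentiableOn.add ?_ ?_)
    · refine hh1.comp (differentiableOn_id.sub (differentiableOn_const _)) ?_
      intro t ht
      have ht' : dist t (b : ℂ) < min r (R / 2) := ht
      show dist (t - b) 0 < r
      rw [dist_zero_right, ← dist_eq_norm]
      exact ht'.trans_le (min_le_left _ _)
    · exact hh2.mono (ball_subset_ball (min_le_right _ _))
  · intro t ht him
    have ht' : dist t (b : ℂ) < min r (R / 2) := ht
    have htr : t - b ∈ ball (0 : ℂ) r := by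
      show dist (t - b) 0 < r
      rw [dist_zero_right, ← dist_eq_norm]
      exact ht'.trans_le (min_le_left _ _)
    have hts : t - b ∈ Complex.slitPlane := by
      right
      simp only [Complex.sub_im, Complex.ofReal_im, sub_zero]
      exact him.ne'
    have e1 := hloc (t - b) htr hts
    rw [hb, JLeft.log_term hm l him, ← hb] at e1
    -- integrability of the full integrand
    have hfull : IntervalIntegrable (fun x : ℝ => ((x : ℂ) ^ l) *
        (((1 / √|∏ i ∈ Finset.range (2 * g), (x - a i)| : ℝ)) : ℂ) *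
        (1 / csq (t - (x : ℂ)))) volume (a m) b := by
      refine hint.mul_continuousOn ?_
      have hs : ∀ x : ℝ, t - (x : ℂ) ∈ Complex.slitPlane := by
        intro x
        right
        simp only [Complex.sub_im, Complex.ofReal_im, sub_zero]
        exact him.ne'
      refine ContinuousOn.div continuousOn_const ?_ ?_
      · exact csq_continuousOn.comp (by fun_prop) (fun x _ => hs x)
      · exact fun x _ => csq_ne_zero (Complex.slitPlane_ne_zero (hs x))
    have hJ : Jc g a m l t = ∫ x in (a m)..b, ((x : ℂ) ^ l) *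
        (((1 / √|∏ i ∈ Finset.range (2 * g), (x - a i)| : ℝ)) : ℂ) *
        (1 / csq (t - (x : ℂ))) := by
      unfold Jc
      rw [if_pos hm, ← hb]
      refine intervalIntegral.integral_congr (fun x _ => ?_)
      push_cast
      rw [mul_one_div, mul_one_div, div_div]
    have hs1 : IntervalIntegrable (fun x : ℝ => ((x : ℂ) ^ l) *
        (((1 / √|∏ i ∈ Finset.range (2 * g), (x - a i)| : ℝ)) : ℂ) *
        (1 / csq (t - (x : ℂ)))) volume (a m) (b - R / 2) := hfull.mono_set (by
      rw [uIcc_of_le (by linarith), uIcc_of_le hab.le]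
      exact Icc_subset_Icc_right (by linarith))
    have hs2 : IntervalIntegrable (fun x : ℝ => ((x : ℂ) ^ l) *
        (((1 / √|∏ i ∈ Finset.range (2 * g), (x - a i)| : ℝ)) : ℂ) *
        (1 / csq (t - (x : ℂ)))) volume (b - R / 2) b := hfull.mono_set (by
      rw [uIcc_of_le (by linarith), uIcc_of_le hab.le]
      exact Icc_subset_Icc_left (by linarith))
    rw [← intervalIntegral.integral_add_adjacent_intervals hs1 hs2] at hJ
    have e2 : ∫ x in (b - R / 2)..b, ((x : ℂ) ^ l) *
        (((1 / √|∏ i ∈ Finset.range (2 * g), (x - a i)| : ℝ)) : ℂ) *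
        (1 / csq (t - (x : ℂ))) =
        ∫ v in (0 : ℝ)..(R / 2), JLeft.phi g a m l v / (((√v : ℝ) : ℂ) *
          csq (v + (t - b))) := by
      have e3 := intervalIntegral.integral_comp_sub_left (a := 0) (b := R / 2)
        (fun x : ℝ => ((x : ℂ) ^ l) *
        (((1 / √|∏ i ∈ Finset.range (2 * g), (x - a i)| : ℝ)) : ℂ) *
        (1 / csq (t - (x : ℂ)))) b
      rw [sub_zero] at e3
      rw [← e3]
      refine intervalIntegral.integral_congr (fun v hv => ?_)
      rw [uIcc_of_le hρ0.le] at hv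
      rw [hb, ← JLeft.integrand_eq ha hm l hv.1 (by linarith [hv.2]) t]
      push_cast
      rw [mul_one_div, mul_one_div, div_div]
    have hYc : Yc g a m l t = Complex.I ^ (m + 2 * g) * Jc g a m l t := rfl
    rw [hYc, hJ, e2, e1]
    have hI1 : Complex.I ^ (m + 2 * g) * (Complex.I ^ (2 * g - (m + 2)) * Complex.I) =
        -Complex.I := by
      rw [← pow_succ, ← pow_add]
      have : m + 2 * g + (2 * g - (m + 2) + 1) = 4 * (g - 1) + 3 := by omega
      rw [this, pow_add, pow_mul, Complex.I_pow_four, one_pow, one_mul, pow_succ, Complex.I_sq]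
      ring
    show _ = Complex.I ^ (m + 2 * g) * (h1 (t - b) + h2 t) + _
    rw [hh2def]
    simp only
    linear_combination (-(1 / (Real.pi : ℂ)) * Complex.log (t - b) *
      Ic g a (m + 1) l t) * hI1

end Pool.Agent.HGP
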