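import Pool.Agent.HGP.JHOL

/-!
# HGP: module JMID
-/

open scoped BigOperators Topology
open Metric Set MeasureTheory

namespace Pool.Agent.HGP

open JH in
theorem jmid_proof (hP : Stmt_Pint) (hI : Stmt_Intg) : Stmt_Jmid := by
  intro g a hg ha j hj m l hm hmj hmj'
  have hlt : a m < a (m + 1) := ha (Nat.lt_succ_self m)
  rcases lt_or_gt_of_ne hmj with hlt2 | hgt
  · -- `m < j`, hence `m + 1 < j`
    have h1 : m + 1 < j := by omega
    have hρ : a (m + 1) < a j := ha h1
    have hsl : ∀ t ∈ ball ((a j : ℝ) : ℂ) (a j - a (m + 1)), ∀ x ∈ Icc (a m) (a (m + 1)),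
        t - (x : ℂ) ∈ Complex.slitPlane := by
      intro t ht x hx
      rw [Complex.mem_slitPlane_iff]
      left
      rw [mem_ball, dist_eq_norm] at ht
      have h2 := (Complex.abs_re_le_norm (t - (a j : ℂ))).trans_lt ht
      simp only [Complex.sub_re, Complex.ofReal_re] at h2 ⊢
      rw [abs_lt] at h2
      linarith [h2.1, hx.2]
    have h := hP (a m) (a (m + 1))
      (fun x => (x : ℂ) ^ l * (((√|∏ i ∈ Finset.range (2 * g), (x - a i)| : ℝ) : ℂ))⁻¹)
      (ball ((a j : ℝ) : ℂ) (a j - a (m + 1))) (fun t x => (csq (t - x))⁻¹) hlt.le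
      (phi_int hI g a ha m hm (fun x => (x : ℂ) ^ l) (by fun_prop))
      isOpen_ball
      (csqinv_cont (u := fun z : ℂ × ℝ => z.1 - (z.2 : ℂ)) (by fun_prop)
        (fun z hz => hsl z.1 hz.1 z.2 hz.2))
      (fun x hx => csqinv_diff (by fun_prop) (fun t ht => hsl t ht x hx))
    refine ⟨a j - a (m + 1), _, by linarith, h.const_mul (Complex.I ^ (m + 2 * g)), ?_⟩
    intro t _ _
    unfold Yc Jc
    rw [if_pos hm]
    congr 1
    refine intervalIntegral.integral_congr ?_
    intro x _
    simp only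
    rw [div_eq_mul_inv, mul_inv, mul_assoc]
  · -- `j < m`
    have hρ : a j < a m := ha hgt
    have hsl : ∀ t ∈ ball ((a j : ℝ) : ℂ) (a m - a j), ∀ x ∈ Icc (a m) (a (m + 1)),
        (x : ℂ) - t ∈ Complex.slitPlane := by
      intro t ht x hx
      rw [Complex.mem_slitPlane_iff]
      left
      rw [mem_ball, dist_eq_norm] at ht
      have h2 := (Complex.abs_re_le_norm (t - (a j : ℂ))).trans_lt ht
      simp only [Complex.sub_re, Complex.ofReal_re] at h2 ⊢
      rw [abs_lt] at h2
      linarith [h2.2, hx.1]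
    have h := hP (a m) (a (m + 1))
      (fun x => (x : ℂ) ^ l * (((√|∏ i ∈ Finset.range (2 * g), (x - a i)| : ℝ) : ℂ))⁻¹)
      (ball ((a j : ℝ) : ℂ) (a m - a j)) (fun t x => (csq (x - t))⁻¹) hlt.le
      (phi_int hI g a ha m hm (fun x => (x : ℂ) ^ l) (by fun_prop))
      isOpen_ball
      (csqinv_cont (u := fun z : ℂ × ℝ => (z.2 : ℂ) - z.1) (by fun_prop)
        (fun z hz => hsl z.1 hz.1 z.2 hz.2))
      (fun x hx => csqinv_diff (by fun_prop) (fun t ht => hsl t ht x hx))
    refine ⟨a m - a j, _, by linarith,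
      h.const_mul (Complex.I ^ (m + 2 * g) * (Complex.I)⁻¹), ?_⟩
    intro t _ him
    unfold Yc Jc
    rw [if_pos hm, mul_assoc]
    refine congrArg (fun z => Complex.I ^ (m + 2 * g) * z) ?_
    rw [← intervalIntegral.integral_const_mul]
    refine intervalIntegral.integral_congr (fun x _ => ?_)
    have h3 : csq (t - x) = Complex.I * csq ((x : ℂ) - t) := by
      rw [csq_eq_I_mul (z := t - x) (by simpa using him), neg_sub]
    rw [h3, div_eq_mul_inv, mul_inv, mul_inv]
    ring

end Pool.Agent.HGP
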