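import Pool.Agent.HGP.Stmts

/-!
# HGP: the integral over the interval right of a branch point
-/

open scoped BigOperators Topology
open Metric Set MeasureTheory

namespace Pool.Agent.HGP

namespace JRIGHTX

lemma exists_gap (a : ℕ → ℝ) (ha : StrictMono a) (m : ℕ) :
    ∃ R : ℝ, 0 < R ∧ (∀ i < m, R ≤ a m - a i) ∧ (∀ i, m < i → R ≤ a i - a m) := by
  rcases Nat.eq_zero_or_pos m with rfl | hm
  · refine ⟨a 1 - a 0, sub_pos.2 (ha one_pos), by simp, fun i hi => ?_⟩
    have := ha.monotone (Nat.succ_le_of_lt hi)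
    linarith
  · refine ⟨min (a (m + 1) - a m) (a m - a (m - 1)),
      lt_min (sub_pos.2 (ha (Nat.lt_succ_self m))) (sub_pos.2 (ha (by omega))),
      fun i hi => ?_, fun i hi => ?_⟩
    · have := ha.monotone (show i ≤ m - 1 by omega)
      exact (min_le_right _ _).trans (by linarith)
    · have := ha.monotone (show m + 1 ≤ i from hi)
      exact (min_le_left _ _).trans (by linarith)

lemma prod_split {β : Type} [CommMonoid β] (f : ℕ → β) {m n : ℕ} (h : m < n) :
    ∏ i ∈ Finset.range n, f i =
      f m * ((∏ i ∈ Finset.range m, f i) * ∏ i ∈ Finset.Ico (m + 1) n, f i) := by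
  rw [← Finset.prod_range_mul_prod_Ico f h.le, Finset.prod_eq_prod_Ico_succ_bot h]
  rw [← mul_assoc, mul_comm (∏ i ∈ Finset.range m, f i) (f m), mul_assoc]

lemma prod_erase' {β : Type} [CommMonoid β] (f : ℕ → β) {m n : ℕ} (h : m < n) :
    ∏ i ∈ (Finset.range n).erase m, f i =
      (∏ i ∈ Finset.range m, f i) * ∏ i ∈ Finset.Ico (m + 1) n, f i := by
  have : (Finset.range n).erase m = Finset.range m ∪ Finset.Ico (m + 1) n := by
    ext i
    simp only [Finset.mem_erase, Finset.mem_range, Finset.mem_union, Finset.mem_Ico]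
    omega
  rw [this, Finset.prod_union]
  rw [Finset.disjoint_left]
  intro i
  simp only [Finset.mem_range, Finset.mem_Ico]
  omega

lemma sqrt_prod (s : Finset ℕ) (f : ℕ → ℝ) (hf : ∀ i ∈ s, 0 ≤ f i) :
    √(∏ i ∈ s, f i) = ∏ i ∈ s, √(f i) := by
  classical
  induction s using Finset.induction_on with
  | empty => simp
  | insert i s hi ih =>
    rw [Finset.prod_insert hi, Finset.prod_insert hi,
      Real.sqrt_mul (hf i (Finset.mem_insert_self i s)),
      ih (fun j hj => hf j (Finset.mem_insert_of_mem hj))]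

noncomputable def den (g : ℕ) (a : ℕ → ℝ) (m : ℕ) (z : ℂ) : ℂ :=
  (∏ i ∈ Finset.range m, csq ((a m : ℂ) + z - (a i : ℂ))) *
    ∏ i ∈ Finset.Ico (m + 1) (2 * g), csq ((a i : ℂ) - (a m : ℂ) - z)

noncomputable def phi (g : ℕ) (a : ℕ → ℝ) (m l : ℕ) (z : ℂ) : ℂ :=
  ((a m : ℂ) + z) ^ l / den g a m z

lemma slit_of_re {z : ℂ} (h : 0 < z.re) : z ∈ Complex.slitPlane := Or.inl h

lemma abs_re_lt {z : ℂ} {R : ℝ} (hz : z ∈ ball (0 : ℂ) R) : |z.re| < R := by
  rw [mem_ball_zero_iff] at hz
  exact (Complex.abs_re_le_norm z).trans_lt hz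

section

variable {g : ℕ} {a : ℕ → ℝ} {m : ℕ} {R : ℝ} (hR1 : ∀ i < m, R ≤ a m - a i)
  (hR2 : ∀ i, m < i → R ≤ a i - a m)

include hR1 in
lemma slit1 {z : ℂ} (hz : z ∈ ball (0 : ℂ) R) {i : ℕ} (hi : i < m) :
    (a m : ℂ) + z - (a i : ℂ) ∈ Complex.slitPlane := by
  apply slit_of_re
  have h1 := abs_lt.1 (abs_re_lt hz)
  have h2 := hR1 i hi
  simp only [Complex.sub_re, Complex.add_re, Complex.ofReal_re]
  linarith [h1.1]

include hR2 in
lemma slit2 {z : ℂ} (hz : z ∈ ball (0 : ℂ) R) {i : ℕ} (hi : m < i) :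
    (a i : ℂ) - (a m : ℂ) - z ∈ Complex.slitPlane := by
  apply slit_of_re
  have h1 := abs_lt.1 (abs_re_lt hz)
  have h2 := hR2 i hi
  simp only [Complex.sub_re, Complex.ofReal_re]
  linarith [h1.2]

include hR1 hR2 in
lemma den_ne {z : ℂ} (hz : z ∈ ball (0 : ℂ) R) : den g a m z ≠ 0 := by
  unfold den
  refine mul_ne_zero (Finset.prod_ne_zero_iff.2 fun i hi => ?_)
    (Finset.prod_ne_zero_iff.2 fun i hi => ?_)
  · exact csq_ne_zero (Complex.slitPlane_ne_zero (slit1 hR1 hz (Finset.mem_range.1 hi)))
  · exact csq_ne_zero (Complex.slitPlane_ne_zero (slit2 hR2 hz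
      (by have := (Finset.mem_Ico.1 hi).1; omega)))

include hR1 hR2 in
lemma phi_holo (l : ℕ) : DifferentiableOn ℂ (phi g a m l) (ball 0 R) := by
  intro z hz
  apply DifferentiableAt.differentiableWithinAt
  unfold phi
  refine DifferentiableAt.div (((differentiableAt_const _).add differentiableAt_id).pow l) ?_
    (den_ne hR1 hR2 hz)
  unfold den
  refine DifferentiableAt.mul (DifferentiableAt.fun_finsetProd fun i hi => ?_)
    (DifferentiableAt.fun_finsetProd fun i hi => ?_)
  · exact (csq_differentiableAt (slit1 hR1 hz (Finset.mem_range.1 hi))).comp z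
      (((differentiableAt_const _).add differentiableAt_id).sub (differentiableAt_const _))
  · exact (csq_differentiableAt (slit2 hR2 hz
      (by have := (Finset.mem_Ico.1 hi).1; omega))).comp z
      ((differentiableAt_const _).sub differentiableAt_id)

include hR1 hR2 in
lemma sqrt_eq (hm : m < 2 * g) {v : ℝ} (hv0 : 0 ≤ v) (hvR : v < R) :
    ((√|∏ i ∈ Finset.range (2 * g), (v + a m - a i)| : ℝ) : ℂ) =
      ((√v : ℝ) : ℂ) * den g a m (v : ℂ) := by
  rw [Finset.abs_prod, sqrt_prod _ _ (fun i _ => abs_nonneg _), prod_split _ hm]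
  unfold den
  push_cast
  congr 1
  · rw [add_sub_cancel_right, abs_of_nonneg hv0]
  · congr 1
    · apply Finset.prod_congr rfl
      intro i hi
      have h := hR1 i (Finset.mem_range.1 hi)
      have h0 : 0 ≤ v + a m - a i := by linarith
      rw [abs_of_nonneg h0, ← csq_ofReal h0]
      congr 1
      push_cast
      ring
    · apply Finset.prod_congr rfl
      intro i hi
      have h := hR2 i (by have := (Finset.mem_Ico.1 hi).1; omega)
      have h0 : v + a m - a i ≤ 0 := by linarith
      rw [abs_of_nonpos h0, ← csq_ofReal (by linarith)]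
      congr 1
      push_cast
      ring

end

lemma I_pow {g m : ℕ} (hm : m < 2 * g) :
    Complex.I ^ (m + 2 * g) * Complex.I ^ (2 * g - 1 - m) = -Complex.I := by
  rw [← pow_add]
  have : m + 2 * g + (2 * g - 1 - m) = 4 * (g - 1) + 3 := by omega
  rw [this, pow_add, pow_mul, Complex.I_pow_four, one_pow, one_mul, Complex.I_pow_three]

/-- the vanishing cycle -/
lemma Ic_eq {g : ℕ} {a : ℕ → ℝ} {m l : ℕ} (hm : m < 2 * g) {t : ℂ} (ht : 0 < t.im) :
    Ic g a m l t = Complex.I ^ (m + 2 * g) *
      ∫ s in (0 : ℝ)..1, phi g a m l (s * (t - a m)) / ((√(s * (1 - s)) : ℝ) : ℂ) := by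
  unfold Ic
  rw [← intervalIntegral.integral_const_mul, ← intervalIntegral.integral_const_mul]
  rw [intervalIntegral.integral_of_le zero_le_one, intervalIntegral.integral_of_le zero_le_one]
  apply setIntegral_congr_fun measurableSet_Ioc
  intro s hs
  have hs0 : 0 < s := hs.1
  simp only
  rw [prod_erase' _ hm]
  unfold phi den pth
  have h1 : ∏ i ∈ Finset.Ico (m + 1) (2 * g), csq ((a m : ℂ) + s * (t - a m) - a i) =
      Complex.I ^ (2 * g - 1 - m) *
        ∏ i ∈ Finset.Ico (m + 1) (2 * g), csq ((a i : ℂ) - a m - s * (t - a m)) := by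
    have e : Complex.I ^ (2 * g - 1 - m) = ∏ _i ∈ Finset.Ico (m + 1) (2 * g), Complex.I := by
      rw [Finset.prod_const, Nat.card_Ico]
      congr 1
      omega
    rw [e, ← Finset.prod_mul_distrib]
    apply Finset.prod_congr rfl
    intro i _
    rw [csq_eq_I_mul]
    · congr 2
      ring
    · simp only [Complex.sub_im, Complex.add_im, Complex.mul_im, Complex.ofReal_im,
        Complex.ofReal_re, Complex.sub_re]
      have := mul_pos hs0 ht
      linarith
  rw [h1]
  have hI := I_pow hm
  have hIk : Complex.I ^ (2 * g - 1 - m) ≠ 0 := pow_ne_zero _ Complex.I_ne_zero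
  rw [← hI]
  field_simp

end JRIGHTX

open JRIGHTX in
theorem jright_proof (hPint : Stmt_Pint) (hIntg : Stmt_Intg) (hLoc : Stmt_Loc)
    (hIext : Stmt_Iext) : Stmt_Jright := by
  intro g a hg ha m l hm
  have hm' : m < 2 * g := by omega
  obtain ⟨R, hR, hR1, hR2⟩ := exists_gap a ha m
  set ρ0 : ℝ := R / 2 with hρ0
  have hρpos : 0 < ρ0 := by positivity
  have hρR : ρ0 < R := by rw [hρ0]; linarith
  obtain ⟨r, h, hr, hh, hloc⟩ := hLoc R ρ0 (phi g a m l) hρpos hρR (phi_holo hR1 hR2 l)
  obtain ⟨ρe, e, hρe, he, hIe⟩ := hIext g a hg ha m hm' l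
  have hgap : a m < a (m + 1) := ha (Nat.lt_succ_self m)
  have hL : ρ0 < a (m + 1) - a m := hρR.trans_le (hR2 (m + 1) (Nat.lt_succ_self m))
  -- integrability
  set fx : ℝ → ℂ := fun x => (x : ℂ) ^ l /
    ((√|∏ i ∈ Finset.range (2 * g), (x - a i)| : ℝ) : ℂ) with hfx
  have hint : IntervalIntegrable fx volume (a m) (a (m + 1)) := by
    set G : ℝ → ℝ := fun x => ∏ i ∈ (Finset.range (2 * g)).erase m |>.erase (m + 1),
      |x - a i| with hG
    have hGc : Continuous G := by
      rw [hG]
      exact continuous_finsetProd _ fun i _ => (continuous_id.sub continuous_const).abs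
    have hGpos : ∀ x ∈ Icc (a m) (a (m + 1)), 0 < G x := by
      intro x hx
      apply Finset.prod_pos
      intro i hi
      rw [Finset.mem_erase, Finset.mem_erase] at hi
      apply abs_pos.2
      intro h0
      rcases Nat.lt_or_ge i m with h | h
      · have := ha h
        linarith [hx.1]
      · have h2 : m + 1 < i := by omega
        have := ha h2
        linarith [hx.2]
    have h1 := hIntg (a m) (a (m + 1)) G hgap hGc.continuousOn hGpos
    have h2 : IntervalIntegrable (fun x => ((1 / √(|(x - a m) * (x - a (m + 1))| * G x) : ℝ) : ℂ))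
        volume (a m) (a (m + 1)) := ⟨h1.1.ofReal, h1.2.ofReal⟩
    have h3 : IntervalIntegrable (fun x : ℝ => (x : ℂ) ^ l *
        ((1 / √(|(x - a m) * (x - a (m + 1))| * G x) : ℝ) : ℂ)) volume (a m) (a (m + 1)) :=
      h2.continuousOn_mul (Complex.continuous_ofReal.pow l).continuousOn
    refine h3.congr (fun x _ => ?_)
    rw [hfx]
    simp only
    have h4 : |∏ i ∈ Finset.range (2 * g), (x - a i)| =
        |(x - a m) * (x - a (m + 1))| * G x := by
      rw [Finset.abs_prod, hG, abs_mul, ← Finset.mul_prod_erase _ _ (Finset.mem_range.2 hm')]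
      rw [← Finset.mul_prod_erase ((Finset.range (2 * g)).erase m) _
        (Finset.mem_erase.2 ⟨by omega, Finset.mem_range.2 hm⟩)]
      ring
    rw [h4]
    push_cast
    rw [mul_one_div]
  -- the far part
  set S : ℂ → ℂ := fun t => ∫ x in (a m + ρ0)..(a (m + 1)),
    fx x * (1 / (Complex.I * csq ((x : ℂ) - t))) with hS
  have hslit : ∀ t ∈ ball ((a m : ℝ) : ℂ) ρ0, ∀ x ∈ Icc (a m + ρ0) (a (m + 1)),
      (x : ℂ) - t ∈ Complex.slitPlane := by
    intro t ht x hx
    apply slit_of_re
    rw [mem_ball, dist_eq_norm] at ht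
    have h1 := (Complex.abs_re_le_norm (t - (a m : ℂ))).trans_lt ht
    simp only [Complex.sub_re, Complex.ofReal_re] at h1 ⊢
    have h2 := (abs_lt.1 h1).2
    linarith [hx.1]
  have hSd : DifferentiableOn ℂ S (ball ((a m : ℝ) : ℂ) ρ0) := by
    apply hPint _ _ fx _ (fun t x => 1 / (Complex.I * csq ((x : ℂ) - t))) (by linarith)
      (hint.mono_set (by
        rw [uIcc_of_le (by linarith), uIcc_of_le hgap.le]
        exact Icc_subset_Icc_left (by linarith))) isOpen_ball
    · intro p hp
      apply ContinuousAt.continuousWithinAt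
      have h1 := hslit p.1 hp.1 p.2 hp.2
      refine ContinuousAt.div continuousAt_const (continuousAt_const.mul ?_)
        (mul_ne_zero Complex.I_ne_zero (csq_ne_zero (Complex.slitPlane_ne_zero h1)))
      exact ContinuousAt.comp (f := fun p : ℂ × ℝ => (p.2 : ℂ) - p.1) (csq_continuousAt h1)
        ((Complex.continuous_ofReal.comp continuous_snd).sub continuous_fst).continuousAt
    · intro x hx t ht
      have h1 := hslit t ht x hx
      apply DifferentiableAt.differentiableWithinAt
      refine DifferentiableAt.div (differentiableAt_const _) ?_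
        (mul_ne_zero Complex.I_ne_zero (csq_ne_zero (Complex.slitPlane_ne_zero h1)))
      exact ((csq_differentiableAt h1).comp t
        ((differentiableAt_const _).sub differentiableAt_id)).const_mul _
  refine ⟨min (min r ρ0) ρe, fun t => -Complex.I * Complex.I ^ (m + 2 * g) * h (-(t - a m)) +
    e t + Complex.I ^ (m + 2 * g) * S t, lt_min (lt_min hr hρpos) hρe, ?_, ?_⟩
  · refine DifferentiableOn.add (DifferentiableOn.add (DifferentiableOn.const_mul ?_ _)
      (he.mono (ball_subset_ball (min_le_right _ _)))) (DifferentiableOn.const_mul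
      (hSd.mono (ball_subset_ball ((min_le_left _ _).trans (min_le_right _ _)))) _)
    refine hh.comp (((differentiableOn_id.sub (differentiableOn_const _)).neg)) ?_
    intro t ht
    have h1 := ball_subset_ball ((min_le_left (min r ρ0) ρe).trans (min_le_left _ _)) ht
    rw [mem_ball, dist_eq_norm] at h1
    rw [mem_ball_zero_iff, norm_neg]
    exact h1
  · intro t ht htim
    have ht1 := ball_subset_ball ((min_le_left (min r ρ0) ρe).trans (min_le_left _ _)) ht
    have ht2 := ball_subset_ball ((min_le_left (min r ρ0) ρe).trans (min_le_right _ _)) ht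
    have ht3 := ball_subset_ball (min_le_right (min r ρ0) ρe) ht
    have hw : 0 < (t - (a m : ℂ)).im := by simpa using htim
    -- the local part
    have hl := hloc (-(t - a m)) (by
      rw [mem_ball_zero_iff, norm_neg, ← dist_eq_norm]
      exact ht1) (Or.inr (by
        rw [Complex.neg_im]
        exact neg_ne_zero.2 hw.ne'))
    rw [log_neg hw] at hl
    have hl2 : ∫ s in (0 : ℝ)..1, phi g a m l (-(s * -(t - a m))) / ((√(s * (1 - s)) : ℝ) : ℂ) =
        ∫ s in (0 : ℝ)..1, phi g a m l (s * (t - a m)) / ((√(s * (1 - s)) : ℝ) : ℂ) := by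
      congr 1
      funext s
      congr 2
      ring
    rw [hl2] at hl
    have hIc := Ic_eq (a := a) (l := l) hm' htim
    have heq := hIe t ht3 htim
    -- splitting
    have hslt : ∀ x : ℝ, t - (x : ℂ) ∈ Complex.slitPlane := fun x => Or.inr (by
      simpa using htim.ne')
    have hI2 : ∀ x : ℝ, csq (t - x) = Complex.I * csq ((x : ℂ) - t) := by
      intro x
      rw [csq_eq_I_mul (by simpa using htim), neg_sub]
    have hci : Continuous (fun x : ℝ => 1 / csq (t - x)) := by
      rw [continuous_iff_continuousAt]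
      intro x
      refine ContinuousAt.div continuousAt_const ?_
        (csq_ne_zero (Complex.slitPlane_ne_zero (hslt x)))
      exact ContinuousAt.comp (f := fun x : ℝ => t - (x : ℂ)) (csq_continuousAt (hslt x))
        (continuous_const.sub Complex.continuous_ofReal).continuousAt
    have hintt : IntervalIntegrable (fun x => fx x * (1 / csq (t - x))) volume (a m) (a (m + 1)) :=
      hint.mul_continuousOn hci.continuousOn
    have hJ : Jc g a m l t = ∫ x in (a m)..(a (m + 1)), fx x * (1 / csq (t - x)) := by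
      unfold Jc
      rw [if_pos hm]
      congr 1
      funext x
      rw [hfx]
      simp only
      rw [div_mul_div_comm, mul_one]
    have hsplit := intervalIntegral.integral_add_adjacent_intervals
      (hintt.mono_set (show uIcc (a m) (a m + ρ0) ⊆ _ by
        rw [uIcc_of_le (by linarith), uIcc_of_le hgap.le]
        exact Icc_subset_Icc_right (by linarith)))
      (hintt.mono_set (show uIcc (a m + ρ0) (a (m + 1)) ⊆ _ by
        rw [uIcc_of_le (by linarith), uIcc_of_le hgap.le]
        exact Icc_subset_Icc_left (by linarith)))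
    have hfar : ∫ x in (a m + ρ0)..(a (m + 1)), fx x * (1 / csq (t - x)) = S t := by
      rw [hS]
      simp only
      congr 1
      funext x
      rw [hI2]
    have hnear : ∫ x in (a m)..(a m + ρ0), fx x * (1 / csq (t - x)) =
        -Complex.I * ∫ v in (0 : ℝ)..ρ0, phi g a m l v /
          (((√v : ℝ) : ℂ) * csq (v + -(t - a m))) := by
      have h1 := intervalIntegral.integral_comp_add_right (a := 0) (b := ρ0)
        (fun x => fx x * (1 / csq (t - x))) (a m)
      rw [zero_add, add_comm ρ0] at h1
      rw [← h1, ← intervalIntegral.integral_const_mul]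
      rw [intervalIntegral.integral_of_le hρpos.le, intervalIntegral.integral_of_le hρpos.le]
      apply setIntegral_congr_fun measurableSet_Ioc
      intro v hv
      simp only
      rw [hfx]
      simp only
      rw [sqrt_eq hR1 hR2 hm' hv.1.le (hv.2.trans_lt hρR), hI2]
      unfold phi
      have e1 : ((v + a m : ℝ) : ℂ) - t = (v : ℂ) + -(t - a m) := by push_cast; ring
      have e2 : ((v + a m : ℝ) : ℂ) = (a m : ℂ) + v := by push_cast; ring
      rw [e1, e2]
      have hII : (Complex.I)⁻¹ = -Complex.I := Complex.inv_I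
      rw [div_div, mul_one_div, div_div, ← hII]
      rw [← div_eq_inv_mul, div_div]
      congr 1
      ring
    unfold Yc
    rw [hJ, ← hsplit, hfar, hnear, hl]
    have hfin : Complex.I ^ (m + 2 * g) * ∫ s in (0 : ℝ)..1,
        phi g a m l (s * (t - a m)) / ((√(s * (1 - s)) : ℝ) : ℂ) = Ic g a m l t := hIc.symm
    set Φ := ∫ s in (0 : ℝ)..1, phi g a m l (s * (t - a m)) / ((√(s * (1 - s)) : ℝ) : ℂ)
    simp only
    rw [← heq, ← hfin]
    have hpi : (Real.pi : ℂ) ≠ 0 := by exact_mod_cast Real.pi_ne_zero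
    field_simp
    ring_nf
    simp only [Complex.I_sq]
    ring

end Pool.Agent.HGP
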