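import Pool.Agent.HGP.Stmts

/-!
# HGP, module LIMPI: an approximate identity
-/

open scoped BigOperators Topology
open Metric Set MeasureTheory

namespace Pool.Agent.HGP

lemma limpi_arctan (L ε : ℝ) (hL : 0 < L) (hε : 0 < ε) :
    IntervalIntegrable (fun y => √ε / (√y * (y + ε))) volume 0 L ∧
    ∫ y in (0 : ℝ)..L, √ε / (√y * (y + ε)) = 2 * Real.arctan √(L / ε) := by
  have hcont : ContinuousOn (fun y : ℝ => 2 * Real.arctan √(y / ε)) (Icc 0 L) := by
    apply Continuous.continuousOn
    exact continuous_const.mul (Real.continuous_arctan.comp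
      (Real.continuous_sqrt.comp (continuous_id.div_const ε)))
  have hderiv : ∀ y ∈ Ioo (0 : ℝ) L,
      HasDerivAt (fun y : ℝ => 2 * Real.arctan √(y / ε)) (√ε / (√y * (y + ε))) y := by
    intro y hy
    have hy0 : 0 < y := hy.1
    have h1 : HasDerivAt (fun y : ℝ => y / ε) (1 / ε) y := (hasDerivAt_id y).div_const ε
    have h2 : HasDerivAt (fun y : ℝ => √(y / ε)) (1 / ε / (2 * √(y / ε))) y :=
      h1.sqrt (by positivity)
    have h3 := (h2.arctan).const_mul 2
    refine h3.congr_deriv ?_
    rw [Real.sq_sqrt (by positivity), Real.sqrt_div hy0.le]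
    have hsy : 0 < √y := Real.sqrt_pos.2 hy0
    have hse : 0 < √ε := Real.sqrt_pos.2 hε
    have hsy2 : √y ^ 2 = y := Real.sq_sqrt hy0.le
    have hse2 : √ε ^ 2 = ε := Real.sq_sqrt hε.le
    field_simp
    nlinarith [hsy2, hse2]
  have hint : IntervalIntegrable (fun y => √ε / (√y * (y + ε))) volume 0 L := by
    apply intervalIntegral.intervalIntegrable_deriv_of_nonneg (g := fun y : ℝ =>
      2 * Real.arctan √(y / ε))
    · rwa [uIcc_of_le hL.le]
    · intro y hy
      rw [min_eq_left hL.le, max_eq_right hL.le] at hy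
      exact hderiv y hy
    · intro y hy
      rw [min_eq_left hL.le, max_eq_right hL.le] at hy
      have hy0 : 0 < y := hy.1
      positivity
  refine ⟨hint, ?_⟩
  rw [intervalIntegral.integral_eq_sub_of_hasDerivAt_of_le hL.le hcont hderiv hint]
  simp

theorem LIMPI_proof : Stmt_LimPi := by
  intro L q hL hq hint
  have hsqrt_int : IntervalIntegrable (fun y : ℝ => 1 / √y) volume 0 L := by
    apply intervalIntegral.intervalIntegrable_deriv_of_nonneg (g := fun y : ℝ => 2 * √y)
    · exact (continuous_const.mul Real.continuous_sqrt).continuousOn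
    · intro y hy
      rw [min_eq_left hL.le, max_eq_right hL.le] at hy
      have h := (Real.hasDerivAt_sqrt hy.1.ne').const_mul 2
      refine h.congr_deriv ?_
      have hsy : 0 < √y := Real.sqrt_pos.2 hy.1
      field_simp
    · intro y hy
      positivity
  have hg_int : IntervalIntegrable (fun y : ℝ => (q y - q 0) / √y) volume 0 L := by
    have h := hint.sub (hsqrt_int.const_mul (q 0))
    refine h.congr ?_
    intro y _
    simp only
    ring
  set M : ℝ := ∫ y in (0 : ℝ)..L, |(q y - q 0) / √y| with hM
  have hgabs : IntervalIntegrable (fun y : ℝ => |(q y - q 0) / √y|) volume 0 L := hg_int.norm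
  -- splitting
  have hsplit : ∀ ε : ℝ, 0 < ε → √ε * ∫ y in (0 : ℝ)..L, q y / (√y * (y + ε)) =
      √ε * (∫ y in (0 : ℝ)..L, (q y - q 0) / √y * (1 / (y + ε))) +
        q 0 * (2 * Real.arctan √(L / ε)) := by
    intro ε hε
    obtain ⟨hk, hk'⟩ := limpi_arctan L ε hL hε
    rw [← hk', ← intervalIntegral.integral_const_mul, ← intervalIntegral.integral_const_mul,
      ← intervalIntegral.integral_const_mul, ← intervalIntegral.integral_add]
    · apply intervalIntegral.integral_congr
      intro y hy
      show √ε * (q y / (√y * (y + ε))) = √ε * ((q y - q 0) / √y * (1 / (y + ε))) +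
        q 0 * (√ε / (√y * (y + ε)))
      rw [div_mul_eq_div_div, div_mul_eq_div_div]
      ring
    · apply IntervalIntegrable.const_mul
      apply hg_int.mul_continuousOn
      rw [uIcc_of_le hL.le]
      apply ContinuousOn.div continuousOn_const (continuousOn_id.add continuousOn_const)
      intro y hy
      have := hy.1
      show y + ε ≠ 0
      positivity
    · exact hk.const_mul (q 0)
  -- the main term
  have hmain : Filter.Tendsto (fun ε : ℝ => q 0 * (2 * Real.arctan √(L / ε))) (𝓝[>] 0)
      (𝓝 (Real.pi * q 0)) := by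
    have h1 : Filter.Tendsto (fun ε : ℝ => √(L / ε)) (𝓝[>] 0) Filter.atTop := by
      have h0 : Filter.Tendsto (fun ε : ℝ => L * ε⁻¹) (𝓝[>] 0) Filter.atTop :=
        Filter.Tendsto.const_mul_atTop hL tendsto_inv_nhdsGT_zero
      exact Real.tendsto_sqrt_atTop.comp h0
    have h2 : Filter.Tendsto (fun ε : ℝ => Real.arctan √(L / ε)) (𝓝[>] 0) (𝓝 (Real.pi / 2)) :=
      (Real.tendsto_arctan_atTop.mono_right nhdsWithin_le_nhds).comp h1
    have h3 := (h2.const_mul 2).const_mul (q 0)
    have h4 : q 0 * (2 * (Real.pi / 2)) = Real.pi * q 0 := by ring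
    rwa [h4] at h3
  -- the error term
  have herr : Filter.Tendsto (fun ε : ℝ =>
      √ε * (∫ y in (0 : ℝ)..L, (q y - q 0) / √y * (1 / (y + ε)))) (𝓝[>] 0) (𝓝 0) := by
    rw [Metric.tendsto_nhds]
    intro η hη
    have hη' : 0 < η / (2 * Real.pi) := by have := Real.pi_pos; positivity
    obtain ⟨δ, hδ, hδq⟩ := Metric.continuousWithinAt_iff.1 hq _ hη'
    have hlim : Filter.Tendsto (fun ε : ℝ => √ε * (M / (δ / 2))) (𝓝[>] 0) (𝓝 0) := by
      have h0 : Filter.Tendsto (fun ε : ℝ => √ε * (M / (δ / 2))) (𝓝 0) (𝓝 (√0 * (M / (δ / 2)))) :=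
        (Real.continuous_sqrt.tendsto 0).mul_const _
      simp only [Real.sqrt_zero, zero_mul] at h0
      exact h0.mono_left nhdsWithin_le_nhds
    have hev : ∀ᶠ ε : ℝ in 𝓝[>] 0, √ε * (M / (δ / 2)) < η / 2 :=
      (hlim.eventually (gt_mem_nhds (half_pos hη)))
    filter_upwards [hev, self_mem_nhdsWithin] with ε hε1 hε0
    have hε : 0 < ε := hε0
    obtain ⟨hk, hk'⟩ := limpi_arctan L ε hL hε
    rw [dist_zero_right, ← intervalIntegral.integral_const_mul]
    have hb : IntervalIntegrable (fun y : ℝ => η / (2 * Real.pi) * (√ε / (√y * (y + ε))) +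
        √ε / (δ / 2) * |(q y - q 0) / √y|) volume 0 L :=
      (hk.const_mul _).add (hgabs.const_mul _)
    have hle := intervalIntegral.norm_integral_le_of_norm_le (f := fun y : ℝ =>
      √ε * ((q y - q 0) / √y * (1 / (y + ε)))) hL.le (by
        refine Filter.Eventually.of_forall ?_
        intro y hy
        have hy0 : 0 < y := hy.1
        have hsy : 0 < √y := Real.sqrt_pos.2 hy0
        have hse : 0 < √ε := Real.sqrt_pos.2 hε
        show ‖√ε * ((q y - q 0) / √y * (1 / (y + ε)))‖ ≤
          η / (2 * Real.pi) * (√ε / (√y * (y + ε))) + √ε / (δ / 2) * |(q y - q 0) / √y|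
        rw [Real.norm_eq_abs, abs_mul, abs_mul, abs_of_pos hse,
          abs_of_pos (show 0 < 1 / (y + ε) by positivity)]
        rcases le_or_gt δ y with h | h
        · have h1 : 1 / (y + ε) ≤ 1 / (δ / 2) := by
            apply one_div_le_one_div_of_le (by positivity)
            linarith
          have h2 : √ε * (|(q y - q 0) / √y| * (1 / (y + ε))) ≤
              √ε * (|(q y - q 0) / √y| * (1 / (δ / 2))) := by gcongr
          have h3 : 0 ≤ η / (2 * Real.pi) * (√ε / (√y * (y + ε))) := by positivity
          have h4 : √ε * (|(q y - q 0) / √y| * (1 / (δ / 2))) =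
              √ε / (δ / 2) * |(q y - q 0) / √y| := by ring
          linarith
        · have h1 : |q y - q 0| ≤ η / (2 * Real.pi) := by
            have := hδq (show y ∈ Ici (0 : ℝ) from hy0.le) (by
              rw [dist_zero_right, Real.norm_eq_abs, abs_of_pos hy0]; exact h)
            rw [Real.dist_eq] at this
            exact this.le
          have h2 : |(q y - q 0) / √y| ≤ η / (2 * Real.pi) / √y := by
            rw [abs_div, abs_of_pos hsy]
            gcongr
          have h3 : √ε * (|(q y - q 0) / √y| * (1 / (y + ε))) ≤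
              √ε * (η / (2 * Real.pi) / √y * (1 / (y + ε))) := by gcongr
          have h4 : √ε * (η / (2 * Real.pi) / √y * (1 / (y + ε))) =
              η / (2 * Real.pi) * (√ε / (√y * (y + ε))) := by
            field_simp
          have h5 : 0 ≤ √ε / (δ / 2) * |(q y - q 0) / √y| := by positivity
          linarith) hb
    refine lt_of_le_of_lt hle ?_
    rw [intervalIntegral.integral_add (hk.const_mul _) (hgabs.const_mul _),
      intervalIntegral.integral_const_mul, intervalIntegral.integral_const_mul, hk', ← hM]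
    have h1 : η / (2 * Real.pi) * (2 * Real.arctan √(L / ε)) ≤ η / 2 := by
      have h2 := (Real.arctan_lt_pi_div_two √(L / ε)).le
      have hpi := Real.pi_pos
      calc η / (2 * Real.pi) * (2 * Real.arctan √(L / ε))
          ≤ η / (2 * Real.pi) * (2 * (Real.pi / 2)) := by gcongr
        _ = η / 2 := by field_simp
    have h2 : √ε / (δ / 2) * M = √ε * (M / (δ / 2)) := by ring
    linarith
  have hfin := herr.add hmain
  rw [zero_add] at hfin
  refine hfin.congr' ?_
  filter_upwards [self_mem_nhdsWithin] with ε hε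
  exact (hsplit ε hε).symm

end Pool.Agent.HGP
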