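import Pool.Agent.HGP.Stmts

/-!
# LOC: the local structure of the integrals at a branch point
-/

open scoped BigOperators Topology
open Metric Set MeasureTheory

namespace Pool.Agent.HGP

namespace LocX

/-! ### power series -/

theorem series (R R' : ℝ) (φ : ℂ → ℂ) (h0 : 0 < R') (hR : R' < R)
    (hφ : DifferentiableOn ℂ φ (ball 0 R)) :
    ∃ (c : ℕ → ℂ) (M : ℝ), 0 ≤ M ∧ (∀ n, ‖c n‖ * R' ^ n ≤ M) ∧
      ∀ z ∈ ball (0 : ℂ) R, HasSum (fun n => c n * z ^ n) (φ z) := by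
  have hs : ∀ z ∈ ball (0 : ℂ) R,
      HasSum (fun n : ℕ => ((n.factorial : ℂ)⁻¹ * iteratedDeriv n φ 0) * z ^ n) (φ z) := by
    intro z hz
    have h := Complex.hasSum_taylorSeries_on_ball hφ hz
    refine h.congr_fun ?_
    intro n
    simp only [sub_zero, smul_eq_mul]
    ring
  set c : ℕ → ℂ := fun n => (n.factorial : ℂ)⁻¹ * iteratedDeriv n φ 0 with hc
  have hR' : ((R' : ℝ) : ℂ) ∈ ball (0 : ℂ) R := by
    rw [mem_ball_zero_iff, Complex.norm_real, Real.norm_eq_abs, abs_of_pos h0]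
    exact hR
  have h1 := (hs _ hR').summable.tendsto_atTop_zero
  obtain ⟨M, hM⟩ := (h1.norm.bddAbove_range)
  refine ⟨c, M, ?_, ?_, hs⟩
  · exact le_trans (norm_nonneg _) (hM ⟨0, rfl⟩)
  · intro n
    have := hM ⟨n, rfl⟩
    simp only [norm_mul, norm_pow, Complex.norm_real, Real.norm_eq_abs, abs_of_pos h0] at this
    simpa [hc] using this

/-- exchange of sum and integral -/
theorem exch (R ρ b : ℝ) (φ : ℂ → ℂ) (c : ℕ → ℂ) (ζ : ℂ) (k : ℝ → ℂ) (hb : 0 ≤ b) (_hρ : 0 < ρ)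
    (hρR : ρ < R) (hsum : Summable fun n => ‖c n‖ * ρ ^ n)
    (hs : ∀ z ∈ ball (0 : ℂ) R, HasSum (fun n => c n * z ^ n) (φ z))
    (hk : IntervalIntegrable k volume 0 b) (hζ : ‖ζ‖ * b ≤ ρ) :
    HasSum (fun n => c n * ζ ^ n * ∫ t in (0 : ℝ)..b, (t : ℂ) ^ n * k t)
      (∫ t in (0 : ℝ)..b, φ (t * ζ) * k t) := by
  have hn : ∀ t ∈ uIoc (0 : ℝ) b, ‖(t : ℂ) * ζ‖ ≤ ρ := by
    intro t ht
    rw [uIoc_of_le hb] at ht
    rw [norm_mul, Complex.norm_real, Real.norm_eq_abs, abs_of_pos ht.1]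
    have := norm_nonneg ζ
    nlinarith [ht.1, ht.2]
  have h := intervalIntegral.hasSum_integral_of_dominated_convergence (μ := volume) (a := 0)
    (b := b) (F := fun n t => c n * ζ ^ n * ((t : ℂ) ^ n * k t)) (f := fun t => φ (t * ζ) * k t)
    (fun n t => ‖c n‖ * ρ ^ n * ‖k t‖) ?_ ?_ ?_ ?_ ?_
  · refine h.congr_fun ?_
    intro n
    rw [intervalIntegral.integral_const_mul]
  · intro n
    refine AEStronglyMeasurable.const_mul ?_ _
    refine AEStronglyMeasurable.mul ?_ ?_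
    · exact (Continuous.aestronglyMeasurable (by fun_prop))
    · rw [uIoc_of_le hb]
      exact hk.1.aestronglyMeasurable
  · intro n
    refine Filter.Eventually.of_forall ?_
    intro t ht
    have h1 := hn t ht
    have h2 : c n * ζ ^ n * ((t : ℂ) ^ n * k t) = c n * ((t : ℂ) * ζ) ^ n * k t := by ring
    rw [h2, norm_mul, norm_mul, norm_pow]
    gcongr
  · refine Filter.Eventually.of_forall ?_
    intro t _
    exact hsum.mul_right _
  · have e : (fun t => ∑' n, ‖c n‖ * ρ ^ n * ‖k t‖) = fun t => (∑' n, ‖c n‖ * ρ ^ n) * ‖k t‖ := by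
      funext t
      exact tsum_mul_right
    rw [e]
    exact hk.norm.const_mul _
  · refine Filter.Eventually.of_forall ?_
    intro t ht
    have h1 := hn t ht
    have h2 : (t : ℂ) * ζ ∈ ball (0 : ℂ) R := by
      rw [mem_ball_zero_iff]
      linarith
    have h3 := (hs _ h2).mul_right (k t)
    refine h3.congr_fun ?_
    intro n
    ring

/-! ### integrability -/

theorem ii_inv_sqrt (ρ : ℝ) (h : 0 ≤ ρ) :
    IntervalIntegrable (fun v : ℝ => (((√v : ℝ) : ℂ))⁻¹) volume 0 ρ := by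
  have h1 : IntervalIntegrable (fun x : ℝ => x ^ (-(1 / 2) : ℝ)) volume 0 ρ :=
    intervalIntegral.intervalIntegrable_rpow' (by norm_num)
  have h2 : IntervalIntegrable (fun x : ℝ => ((x ^ (-(1 / 2) : ℝ) : ℝ) : ℂ)) volume 0 ρ :=
    ⟨h1.1.ofReal, h1.2.ofReal⟩
  refine h2.congr ?_
  intro x hx
  rw [uIoc_of_le h] at hx
  simp only
  rw [Real.rpow_neg hx.1.le, ← Real.sqrt_eq_rpow]
  push_cast
  rfl

theorem add_mem_slit {w : ℂ} (hw : w ∈ Complex.slitPlane) {v : ℝ} (hv : 0 ≤ v) :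
    (v : ℂ) + w ∈ Complex.slitPlane := by
  rw [Complex.mem_slitPlane_iff] at hw ⊢
  simp only [Complex.add_re, Complex.ofReal_re, Complex.add_im, Complex.ofReal_im, zero_add]
  rcases hw with h | h
  · left; linarith
  · right; exact h

theorem slit_ne {w : ℂ} (hw : w ∈ Complex.slitPlane) : w ≠ 0 := Complex.slitPlane_ne_zero hw

theorem csq_re_pos {w : ℂ} (hw : w ∈ Complex.slitPlane) : 0 < (csq w).re := by
  unfold csq
  rw [Complex.cpow_def_of_ne_zero (slit_ne hw), Complex.exp_re]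
  have him : (Complex.log w * (1 / 2)).im = Complex.arg w / 2 := by
    rw [show (1 / 2 : ℂ) = ((1 / 2 : ℝ) : ℂ) by push_cast; rfl, Complex.im_mul_ofReal,
      Complex.log_im]
    ring
  rw [him]
  apply mul_pos (Real.exp_pos _)
  apply Real.cos_pos_of_mem_Ioo
  have h1 := Complex.neg_pi_lt_arg w
  have h2 := Complex.arg_le_pi w
  have h3 : Complex.arg w ≠ Real.pi := (Complex.mem_slitPlane_iff_arg.mp hw).1
  have h4 : Complex.arg w < Real.pi := lt_of_le_of_ne h2 h3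
  constructor <;> linarith

theorem cont_k {w : ℂ} (hw : w ∈ Complex.slitPlane) (ρ : ℝ) :
    ContinuousOn (fun v : ℝ => (csq ((v : ℂ) + w))⁻¹) (Icc 0 ρ) := by
  refine ContinuousOn.inv₀ ?_ ?_
  · refine csq_continuousOn.comp (by fun_prop) ?_
    intro v hv
    exact add_mem_slit hw hv.1
  · intro v hv
    exact csq_ne_zero (slit_ne (add_mem_slit hw hv.1))

theorem ii_k {w : ℂ} (hw : w ∈ Complex.slitPlane) (ρ : ℝ) (h : 0 ≤ ρ) :
    IntervalIntegrable (fun v : ℝ => (((√v : ℝ) : ℂ) * csq ((v : ℂ) + w))⁻¹) volume 0 ρ := by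
  have h1 := (ii_inv_sqrt ρ h).mul_continuousOn
    (g := fun v : ℝ => (csq ((v : ℂ) + w))⁻¹) (by rw [uIcc_of_le h]; exact cont_k hw ρ)
  refine h1.congr ?_
  intro v _
  simp only
  rw [mul_inv]

/-! ### derivatives -/

theorem csq_hasDerivAt {z : ℂ} (hz : z ∈ Complex.slitPlane) :
    HasDerivAt csq (1 / (2 * csq z)) z := by
  have h := (csq_differentiableAt hz).hasDerivAt
  have h2 := h.mul h
  have e : (csq * csq) = id := by
    funext x
    exact csq_mul_self x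
  rw [e] at h2
  have h3 := h2.unique (hasDerivAt_id z)
  have h4 : csq z ≠ 0 := csq_ne_zero (slit_ne hz)
  have h5 : deriv csq z = 1 / (2 * csq z) := by
    field_simp
    linear_combination h3
  rw [← h5]
  exact h

theorem csq_path {w : ℂ} (hw : w ∈ Complex.slitPlane) {v : ℝ} (hv : 0 ≤ v) :
    HasDerivAt (fun v : ℝ => csq ((v : ℂ) + w)) (1 / (2 * csq ((v : ℂ) + w))) v := by
  have h := csq_hasDerivAt (add_mem_slit hw hv)
  exact (h.comp_add_const (v : ℂ) w).comp_ofReal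

theorem sqrt_path {v : ℝ} (hv : 0 < v) :
    HasDerivAt (fun v : ℝ => ((√v : ℝ) : ℂ)) (1 / (2 * ((√v : ℝ) : ℂ))) v := by
  have h := (Real.hasDerivAt_sqrt hv.ne').ofReal_comp
  push_cast at h
  exact h

theorem log_csq {w : ℂ} (hw : w ∈ Complex.slitPlane) :
    2 * Complex.log (csq w) = Complex.log w := by
  unfold csq
  rw [Complex.cpow_def_of_ne_zero (slit_ne hw)]
  have him : (Complex.log w * (1 / 2)).im = Complex.arg w / 2 := by
    rw [show (1 / 2 : ℂ) = ((1 / 2 : ℝ) : ℂ) by push_cast; rfl, Complex.im_mul_ofReal,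
      Complex.log_im]
    ring
  have h1 := Complex.neg_pi_lt_arg w
  have h2 := Complex.arg_le_pi w
  have h3 := Real.pi_pos
  rw [Complex.log_exp]
  · ring
  · rw [him]
    linarith
  · rw [him]
    linarith

theorem sum_mem_slit {w : ℂ} (hw : w ∈ Complex.slitPlane) {v : ℝ} (hv : 0 ≤ v) :
    ((√v : ℝ) : ℂ) + csq ((v : ℂ) + w) ∈ Complex.slitPlane := by
  rw [Complex.mem_slitPlane_iff]
  left
  have h := csq_re_pos (add_mem_slit hw hv)
  rw [Complex.add_re, Complex.ofReal_re]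
  have := Real.sqrt_nonneg v
  linarith

/-- the integrals of the monomials -/
noncomputable def K (ρ : ℝ) (n : ℕ) (w : ℂ) : ℂ :=
  ∫ v in (0 : ℝ)..ρ, (v : ℂ) ^ n * (((√v : ℝ) : ℂ) * csq ((v : ℂ) + w))⁻¹

theorem ii_mono {w : ℂ} (hw : w ∈ Complex.slitPlane) (ρ : ℝ) (h : 0 ≤ ρ) (n : ℕ) :
    IntervalIntegrable (fun v : ℝ => (v : ℂ) ^ n * (((√v : ℝ) : ℂ) * csq ((v : ℂ) + w))⁻¹)
      volume 0 ρ :=
  (ii_k hw ρ h).continuousOn_mul (by fun_prop)

theorem K_zero {ρ : ℝ} {w : ℂ} (hρ : 0 < ρ) (hw : w ∈ Complex.slitPlane) :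
    K ρ 0 w = 2 * Complex.log (((√ρ : ℝ) : ℂ) + csq ((ρ : ℂ) + w)) - Complex.log w := by
  have hF := intervalIntegral.integral_eq_sub_of_hasDerivAt_of_le hρ.le
    (f := fun v : ℝ => 2 * Complex.log (((√v : ℝ) : ℂ) + csq ((v : ℂ) + w)))
    (f' := fun v : ℝ => (v : ℂ) ^ 0 * (((√v : ℝ) : ℂ) * csq ((v : ℂ) + w))⁻¹) ?_ ?_
    (ii_mono hw ρ hρ.le 0)
  · unfold K
    rw [hF]
    simp only [Real.sqrt_zero, Complex.ofReal_zero, zero_add]
    rw [log_csq hw]
  · refine ContinuousOn.mul continuousOn_const ?_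
    refine ContinuousOn.clog ?_ ?_
    · refine ContinuousOn.add ?_ ?_
      · exact (Complex.continuous_ofReal.comp Real.continuous_sqrt).continuousOn
      · exact fun v hv => (csq_path hw hv.1).continuousAt.continuousWithinAt
    · intro v hv
      exact sum_mem_slit hw hv.1
  · intro v hv
    have h1 := (sqrt_path hv.1).add (csq_path hw hv.1.le)
    have h2 := (h1.clog_real (sum_mem_slit hw hv.1.le)).const_mul (2 : ℂ)
    have e1 : ((√v : ℝ) : ℂ) ≠ 0 := by exact_mod_cast (Real.sqrt_pos.mpr hv.1).ne'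
    have e2 : csq ((v : ℂ) + w) ≠ 0 := csq_ne_zero (slit_ne (add_mem_slit hw hv.1.le))
    have e3 : ((√v : ℝ) : ℂ) + csq ((v : ℂ) + w) ≠ 0 := slit_ne (sum_mem_slit hw hv.1.le)
    refine h2.congr_deriv ?_
    simp only [Pi.add_apply]
    field_simp
    ring

theorem K_succ {ρ : ℝ} {w : ℂ} (hρ : 0 < ρ) (hw : w ∈ Complex.slitPlane) (n : ℕ) :
    ((n : ℂ) + 1) * K ρ (n + 1) w + ((n : ℂ) + 1 / 2) * w * K ρ n w =
      (ρ : ℂ) ^ n * ((√ρ : ℝ) : ℂ) * csq ((ρ : ℂ) + w) := by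
  have hi : IntervalIntegrable (fun v : ℝ =>
      ((n : ℂ) + 1) * ((v : ℂ) ^ (n + 1) * (((√v : ℝ) : ℂ) * csq ((v : ℂ) + w))⁻¹) +
      ((n : ℂ) + 1 / 2) * w * ((v : ℂ) ^ n * (((√v : ℝ) : ℂ) * csq ((v : ℂ) + w))⁻¹))
      volume 0 ρ :=
    ((ii_mono hw ρ hρ.le (n + 1)).const_mul _).add ((ii_mono hw ρ hρ.le n).const_mul _)
  have hF := intervalIntegral.integral_eq_sub_of_hasDerivAt_of_le hρ.le
    (f := fun v : ℝ => (v : ℂ) ^ n * ((√v : ℝ) : ℂ) * csq ((v : ℂ) + w)) ?_ ?_ hi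
  · rw [intervalIntegral.integral_add ((ii_mono hw ρ hρ.le (n + 1)).const_mul _)
      ((ii_mono hw ρ hρ.le n).const_mul _), intervalIntegral.integral_const_mul,
      intervalIntegral.integral_const_mul] at hF
    unfold K
    rw [hF]
    simp
  · refine ContinuousOn.mul (ContinuousOn.mul ?_ ?_) ?_
    · fun_prop
    · exact (Complex.continuous_ofReal.comp Real.continuous_sqrt).continuousOn
    · exact fun v hv => (csq_path hw hv.1).continuousAt.continuousWithinAt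
  · intro v hv
    have h0 : HasDerivAt (fun v : ℝ => (v : ℂ) ^ n) ((n : ℂ) * (v : ℂ) ^ (n - 1)) v := by
      have := (hasDerivAt_pow n (v : ℂ)).comp_ofReal
      exact this
    have h2 := (h0.mul (sqrt_path hv.1)).mul (csq_path hw hv.1.le)
    have e1 : ((√v : ℝ) : ℂ) ≠ 0 := by exact_mod_cast (Real.sqrt_pos.mpr hv.1).ne'
    have e2 : csq ((v : ℂ) + w) ≠ 0 := csq_ne_zero (slit_ne (add_mem_slit hw hv.1.le))
    have e3 : csq ((v : ℂ) + w) * csq ((v : ℂ) + w) = (v : ℂ) + w := csq_mul_self _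
    have e4 : ((√v : ℝ) : ℂ) * ((√v : ℝ) : ℂ) = (v : ℂ) := by
      exact_mod_cast Real.mul_self_sqrt hv.1.le
    have e5 : (n : ℂ) * (v : ℂ) ^ (n - 1) * (v : ℂ) = n * (v : ℂ) ^ n := by
      rcases n with _ | m
      · simp
      · rw [Nat.add_sub_cancel]
        ring
    refine h2.congr_deriv ?_
    simp only [Pi.mul_apply]
    rw [mul_inv]
    have e6 : ((n : ℂ) * (v : ℂ) ^ (n - 1) * ((√v : ℝ) : ℂ) + (v : ℂ) ^ n *
        (1 / (2 * ((√v : ℝ) : ℂ)))) * csq ((v : ℂ) + w) + (v : ℂ) ^ n * ((√v : ℝ) : ℂ) *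
        (1 / (2 * csq ((v : ℂ) + w))) =
        (((n : ℂ) * (v : ℂ) ^ (n - 1) * (((√v : ℝ) : ℂ) * ((√v : ℝ) : ℂ)) + (v : ℂ) ^ n / 2) *
          (csq ((v : ℂ) + w) * csq ((v : ℂ) + w)) +
          (v : ℂ) ^ n * (((√v : ℝ) : ℂ) * ((√v : ℝ) : ℂ)) / 2) *
          ((((√v : ℝ) : ℂ))⁻¹ * (csq ((v : ℂ) + w))⁻¹) := by
      field_simp
    rw [e6, e3, e4, e5]
    ring

/-- the regular part -/
noncomputable def hh (ρ : ℝ) : ℕ → ℂ → ℂ
  | 0, w => 2 * Complex.log (((√ρ : ℝ) : ℂ) + csq ((ρ : ℂ) + w))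
  | (n + 1), w => ((ρ : ℂ) ^ n * ((√ρ : ℝ) : ℂ) * csq ((ρ : ℂ) + w) -
      ((n : ℂ) + 1 / 2) * w * hh ρ n w) / ((n : ℂ) + 1)

/-- the normalised Beta values -/
noncomputable def be : ℕ → ℂ
  | 0 => 1
  | (n + 1) => ((n : ℂ) + 1 / 2) / ((n : ℂ) + 1) * be n

theorem K_eq {ρ : ℝ} {w : ℂ} (hρ : 0 < ρ) (hw : w ∈ Complex.slitPlane) (n : ℕ) :
    K ρ n w = hh ρ n w - be n * (-w) ^ n * Complex.log w := by
  induction n with
  | zero => rw [K_zero hρ hw]; simp [hh, be]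
  | succ n ih =>
    have h := K_succ hρ hw n
    rw [ih] at h
    have hn : (n : ℂ) + 1 ≠ 0 := by exact_mod_cast n.succ_ne_zero
    have h2 : K ρ (n + 1) w = ((ρ : ℂ) ^ n * ((√ρ : ℝ) : ℂ) * csq ((ρ : ℂ) + w) -
        ((n : ℂ) + 1 / 2) * w * (hh ρ n w - be n * (-w) ^ n * Complex.log w)) /
        ((n : ℂ) + 1) := by
      rw [eq_div_iff hn]
      linear_combination h
    rw [h2]
    simp only [hh, be]
    field_simp
    ring

/-! ### the Beta integrals -/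

theorem beta_congr (n : ℕ) {s : ℝ} (h0 : 0 < s) (h1 : s < 1) :
    (s : ℂ) ^ ((n : ℂ) + 1 / 2 - 1) * (1 - (s : ℂ)) ^ ((1 / 2 : ℂ) - 1) =
      (s : ℂ) ^ n * (((√(s * (1 - s)) : ℝ) : ℂ))⁻¹ := by
  have hs : (s : ℂ) ≠ 0 := by exact_mod_cast h0.ne'
  have e1 : (n : ℂ) + 1 / 2 - 1 = (n : ℂ) + (-(1 / 2 : ℂ)) := by ring
  have e2 : ((1 / 2 : ℂ) - 1) = -(1 / 2 : ℂ) := by ring
  have e3 : ∀ x : ℝ, 0 < x → (x : ℂ) ^ (-(1 / 2 : ℂ)) = (((√x : ℝ) : ℂ))⁻¹ := by
    intro x hx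
    rw [Complex.cpow_neg, ← csq_ofReal hx.le]
    rfl
  have e4 : (1 - (s : ℂ)) = ((1 - s : ℝ) : ℂ) := by push_cast; rfl
  rw [e1, e2, Complex.cpow_add _ _ hs, Complex.cpow_natCast, e3 s h0, e4, e3 (1 - s) (by linarith),
    Real.sqrt_mul h0.le, Complex.ofReal_mul, mul_inv]
  ring

theorem ii_beta : IntervalIntegrable (fun s : ℝ => (((√(s * (1 - s)) : ℝ) : ℂ))⁻¹)
    volume 0 1 := by
  have h := Complex.betaIntegral_convergent (u := ((0 : ℕ) : ℂ) + 1 / 2) (v := 1 / 2)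
    (by simp) (by simp)
  rw [intervalIntegrable_iff_integrableOn_Ioo_of_le zero_le_one] at h ⊢
  refine h.congr_fun ?_ measurableSet_Ioo
  intro s hs
  simp only
  rw [beta_congr 0 hs.1 hs.2, pow_zero, one_mul]

theorem beta_eq (n : ℕ) : ∫ s in (0 : ℝ)..1, (s : ℂ) ^ n * (((√(s * (1 - s)) : ℝ) : ℂ))⁻¹ =
    Complex.betaIntegral ((n : ℂ) + 1 / 2) (1 / 2) := by
  unfold Complex.betaIntegral
  rw [intervalIntegral.integral_of_le zero_le_one, intervalIntegral.integral_of_le zero_le_one,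
    integral_Ioc_eq_integral_Ioo, integral_Ioc_eq_integral_Ioo]
  apply setIntegral_congr_fun measurableSet_Ioo
  intro s hs
  simp only
  rw [beta_congr n hs.1 hs.2]

theorem beta_val (n : ℕ) :
    Complex.betaIntegral ((n : ℂ) + 1 / 2) (1 / 2) = Real.pi * be n := by
  have hre : ∀ n : ℕ, 0 < ((n : ℂ) + 1 / 2).re := by
    intro n
    have : ((n : ℂ) + 1 / 2).re = (n : ℝ) + 1 / 2 := by simp
    rw [this]
    positivity
  have hG : ∀ n : ℕ, Complex.Gamma ((n : ℂ) + 1 / 2) * Complex.Gamma (1 / 2) =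
      (n.factorial : ℂ) * Complex.betaIntegral ((n : ℂ) + 1 / 2) (1 / 2) := by
    intro n
    have h := Complex.Gamma_mul_Gamma_eq_betaIntegral (hre n) (t := 1 / 2) (by simp)
    have e : (n : ℂ) + 1 / 2 + 1 / 2 = (n : ℂ) + 1 := by ring
    rw [e, Complex.Gamma_nat_eq_factorial] at h
    exact h
  induction n with
  | zero =>
    have h := hG 0
    simp only [Nat.cast_zero, zero_add, Nat.factorial_zero, Nat.cast_one, one_mul] at h ⊢
    rw [← h, be, mul_one, Complex.Gamma_one_half_eq]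
    rw [← Complex.cpow_add _ _ (by exact_mod_cast Real.pi_pos.ne')]
    norm_num
  | succ n ih =>
    have h1 := hG (n + 1)
    have h0 := hG n
    have e : (((n + 1 : ℕ) : ℂ) + 1 / 2) = ((n : ℂ) + 1 / 2) + 1 := by push_cast; ring
    have hne : ((n : ℂ) + 1 / 2) ≠ 0 := by
      intro h
      have := hre n
      rw [h] at this
      simp at this
    rw [e, Complex.Gamma_add_one _ hne, Nat.factorial_succ] at h1
    push_cast at h1 ⊢
    have hf : (n.factorial : ℂ) ≠ 0 := by exact_mod_cast n.factorial_ne_zero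
    have hn : (n : ℂ) + 1 ≠ 0 := by exact_mod_cast n.succ_ne_zero
    have e' : ((n : ℂ) + 1 + 1 / 2) = ((n : ℂ) + 1 / 2) + 1 := by ring
    rw [e', be]
    have h2 : ((n : ℂ) + 1) * (n.factorial : ℂ) *
        Complex.betaIntegral ((n : ℂ) + 1 / 2 + 1) (1 / 2) =
        ((n : ℂ) + 1 / 2) * ((n.factorial : ℂ) * (Real.pi * be n)) := by
      rw [← h1, ← ih, ← h0]
      ring
    have h3 : (n.factorial : ℂ) * (((n : ℂ) + 1) *
        Complex.betaIntegral ((n : ℂ) + 1 / 2 + 1) (1 / 2)) =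
        (n.factorial : ℂ) * (((n : ℂ) + 1 / 2) * (Real.pi * be n)) := by
      linear_combination h2
    have h4 := mul_left_cancel₀ hf h3
    have h5 : Complex.betaIntegral ((n : ℂ) + 1 / 2 + 1) (1 / 2) =
        ((n : ℂ) + 1 / 2) * (Real.pi * be n) / ((n : ℂ) + 1) := by
      rw [eq_div_iff hn]
      linear_combination h4
    rw [h5]
    ring

/-! ### the regular part is holomorphic and bounded -/

theorem ball_re {ρ : ℝ} {w : ℂ} (hw : w ∈ closedBall (0 : ℂ) (ρ / 2)) (hρ : 0 < ρ) :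
    (ρ : ℂ) + w ∈ Complex.slitPlane := by
  rw [Complex.mem_slitPlane_iff]
  left
  rw [mem_closedBall_zero_iff] at hw
  have := (abs_le.mp (le_trans (Complex.abs_re_le_norm w) hw)).1
  rw [Complex.add_re, Complex.ofReal_re]
  linarith

theorem ball_sum {ρ : ℝ} {w : ℂ} (hw : w ∈ closedBall (0 : ℂ) (ρ / 2)) (hρ : 0 < ρ) :
    ((√ρ : ℝ) : ℂ) + csq ((ρ : ℂ) + w) ∈ Complex.slitPlane := by
  rw [Complex.mem_slitPlane_iff]
  left
  have h := csq_re_pos (ball_re hw hρ)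
  rw [Complex.add_re, Complex.ofReal_re]
  have := Real.sqrt_nonneg ρ
  linarith

theorem hh_diff {ρ : ℝ} (hρ : 0 < ρ) (n : ℕ) : DifferentiableOn ℂ (hh ρ n) (ball 0 (ρ / 2)) := by
  have hc : ∀ w ∈ ball (0 : ℂ) (ρ / 2), DifferentiableAt ℂ (fun w => csq ((ρ : ℂ) + w)) w := by
    intro w hw
    have h := csq_differentiableAt (ball_re (ball_subset_closedBall hw) hρ)
    exact h.comp w (by fun_prop)
  induction n with
  | zero =>
    intro w hw
    apply DifferentiableAt.differentiableWithinAt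
    have h : DifferentiableAt ℂ (fun w => 2 * Complex.log (((√ρ : ℝ) : ℂ) +
        csq ((ρ : ℂ) + w))) w := by
      refine DifferentiableAt.const_mul ?_ _
      refine DifferentiableAt.clog ?_ (ball_sum (ball_subset_closedBall hw) hρ)
      exact (hc w hw).const_add _
    exact h
  | succ n ih =>
    intro w hw
    have h1 := (hc w hw).differentiableWithinAt (s := ball (0 : ℂ) (ρ / 2))
    have h2 := ih w hw
    have h : DifferentiableWithinAt ℂ (fun w => ((ρ : ℂ) ^ n * ((√ρ : ℝ) : ℂ) * csq ((ρ : ℂ) + w) -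
      ((n : ℂ) + 1 / 2) * w * hh ρ n w) / ((n : ℂ) + 1)) (ball 0 (ρ / 2)) w := by
      refine DifferentiableWithinAt.div_const ?_ _
      refine DifferentiableWithinAt.sub (h1.const_mul _) ?_
      exact DifferentiableWithinAt.mul (by fun_prop) h2
    exact h

theorem hh_bound {ρ : ℝ} (hρ : 0 < ρ) :
    ∃ C : ℝ, ∀ (n : ℕ) (w : ℂ), w ∈ ball (0 : ℂ) (ρ / 2) → ‖hh ρ n w‖ ≤ C * ρ ^ n := by
  have hcont : ContinuousOn (fun w : ℂ => 2 * Complex.log (((√ρ : ℝ) : ℂ) +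
      csq ((ρ : ℂ) + w))) (closedBall 0 (ρ / 2)) := by
    refine ContinuousOn.mul continuousOn_const ?_
    refine ContinuousOn.clog ?_ (fun w hw => ball_sum hw hρ)
    refine ContinuousOn.add continuousOn_const ?_
    exact csq_continuousOn.comp (by fun_prop) (fun w hw => ball_re hw hρ)
  obtain ⟨C, hC⟩ := (isCompact_closedBall (0 : ℂ) (ρ / 2)).exists_bound_of_continuousOn hcont
  refine ⟨max C 4, ?_⟩
  intro n
  induction n with
  | zero =>
    intro w hw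
    rw [pow_zero, mul_one]
    exact le_trans (hC w (ball_subset_closedBall hw)) (le_max_left _ _)
  | succ n ih =>
    intro w hw
    have h1 := ih w hw
    have hw' : ‖w‖ ≤ ρ / 2 := by
      rw [mem_ball_zero_iff] at hw
      exact hw.le
    have hs : ‖csq ((ρ : ℂ) + w)‖ ≤ 2 * √ρ := by
      rw [csq_norm]
      have e : 2 * √ρ = √(4 * ρ) := by
        rw [Real.sqrt_mul (by norm_num), show (4 : ℝ) = 2 ^ 2 by norm_num,
          Real.sqrt_sq (by norm_num)]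
      rw [e]
      apply Real.sqrt_le_sqrt
      calc ‖(ρ : ℂ) + w‖ ≤ ‖(ρ : ℂ)‖ + ‖w‖ := norm_add_le _ _
        _ ≤ ρ + ρ / 2 := by
            rw [Complex.norm_real, Real.norm_eq_abs, abs_of_pos hρ]
            linarith
        _ ≤ 4 * ρ := by linarith
    have hn : ‖(n : ℂ) + 1‖ = (n : ℝ) + 1 := by
      have : (n : ℂ) + 1 = ((n + 1 : ℕ) : ℂ) := by push_cast; rfl
      rw [this, Complex.norm_natCast]
      push_cast
      rfl
    have hn2 : ‖(n : ℂ) + 1 / 2‖ ≤ (n : ℝ) + 1 := by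
      calc ‖(n : ℂ) + 1 / 2‖ ≤ ‖(n : ℂ)‖ + ‖(1 / 2 : ℂ)‖ := norm_add_le _ _
        _ ≤ (n : ℝ) + 1 := by
            rw [Complex.norm_natCast]
            norm_num
    have hn0 : (0 : ℝ) ≤ n := Nat.cast_nonneg _
    simp only [hh]
    rw [norm_div, hn, div_le_iff₀ (by positivity)]
    have hC4 : (4 : ℝ) ≤ max C 4 := le_max_right _ _
    have hsq : √ρ * √ρ = ρ := Real.mul_self_sqrt hρ.le
    have hA : ‖(ρ : ℂ) ^ n * ((√ρ : ℝ) : ℂ) * csq ((ρ : ℂ) + w)‖ ≤ 2 * ρ ^ (n + 1) := by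
      rw [norm_mul, norm_mul, norm_pow, Complex.norm_real, Complex.norm_real, Real.norm_eq_abs,
        Real.norm_eq_abs, abs_of_pos hρ, abs_of_nonneg (Real.sqrt_nonneg ρ)]
      calc ρ ^ n * √ρ * ‖csq ((ρ : ℂ) + w)‖ ≤ ρ ^ n * √ρ * (2 * √ρ) := by gcongr
        _ = 2 * ρ ^ n * (√ρ * √ρ) := by ring
        _ = 2 * ρ ^ (n + 1) := by rw [hsq]; ring
    have hB : ‖((n : ℂ) + 1 / 2) * w * hh ρ n w‖ ≤
        ((n : ℝ) + 1) * (ρ / 2) * (max C 4 * ρ ^ n) := by
      rw [norm_mul, norm_mul]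
      gcongr
    have hD : 2 * ρ ^ (n + 1) ≤ (max C 4 / 2) * ρ ^ (n + 1) * ((n : ℝ) + 1) := by
      have hp : 0 ≤ ρ ^ (n + 1) := by positivity
      have h5 : 2 * ρ ^ (n + 1) ≤ (max C 4 / 2) * ρ ^ (n + 1) := by
        apply mul_le_mul_of_nonneg_right _ hp
        linarith
      have h6 : (max C 4 / 2) * ρ ^ (n + 1) * 1 ≤ (max C 4 / 2) * ρ ^ (n + 1) * ((n : ℝ) + 1) := by
        apply mul_le_mul_of_nonneg_left _ (by positivity)
        linarith
      linarith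
    calc _ ≤ ‖(ρ : ℂ) ^ n * ((√ρ : ℝ) : ℂ) * csq ((ρ : ℂ) + w)‖ +
          ‖((n : ℂ) + 1 / 2) * w * hh ρ n w‖ := norm_sub_le _ _
      _ ≤ 2 * ρ ^ (n + 1) + ((n : ℝ) + 1) * (ρ / 2) * (max C 4 * ρ ^ n) := add_le_add hA hB
      _ ≤ (max C 4 / 2) * ρ ^ (n + 1) * ((n : ℝ) + 1) +
          ((n : ℝ) + 1) * (ρ / 2) * (max C 4 * ρ ^ n) := by linarith
      _ = max C 4 * ρ ^ (n + 1) * ((n : ℝ) + 1) := by ring

end LocX

open LocX in
theorem loc_proof : Stmt_Loc := by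
  intro R ρ φ hρ hρR hφ
  obtain ⟨c, M, hM0, hM, hs⟩ := series R ((ρ + R) / 2) φ (by linarith) (by linarith) hφ
  have hR' : 0 < (ρ + R) / 2 := by linarith
  have hq : ρ / ((ρ + R) / 2) < 1 := by
    rw [div_lt_one hR']
    linarith
  have hq0 : 0 ≤ ρ / ((ρ + R) / 2) := by positivity
  have hcb : ∀ n, ‖c n‖ * ρ ^ n ≤ M * (ρ / ((ρ + R) / 2)) ^ n := by
    intro n
    have h1 := hM n
    have h2 : 0 < ((ρ + R) / 2) ^ n := by positivity
    rw [div_pow, mul_div_assoc', le_div_iff₀ h2]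
    calc ‖c n‖ * ρ ^ n * ((ρ + R) / 2) ^ n = (‖c n‖ * ((ρ + R) / 2) ^ n) * ρ ^ n := by ring
      _ ≤ M * ρ ^ n := by gcongr
  have hgeo : Summable fun n => M * (ρ / ((ρ + R) / 2)) ^ n :=
    (summable_geometric_of_lt_one hq0 hq).mul_left M
  have hsum : Summable fun n => ‖c n‖ * ρ ^ n :=
    Summable.of_nonneg_of_le (fun n => by positivity) hcb hgeo
  obtain ⟨C, hC⟩ := hh_bound hρ
  have hC0 : 0 ≤ C := by
    have := hC 0 0 (by rw [mem_ball_zero_iff, norm_zero]; linarith)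
    rw [pow_zero, mul_one] at this
    exact le_trans (norm_nonneg _) this
  have hbd : ∀ (n : ℕ) (w : ℂ), w ∈ ball (0 : ℂ) (ρ / 2) →
      ‖c n * hh ρ n w‖ ≤ C * (‖c n‖ * ρ ^ n) := by
    intro n w hw
    rw [norm_mul]
    calc ‖c n‖ * ‖hh ρ n w‖ ≤ ‖c n‖ * (C * ρ ^ n) := by
          gcongr
          exact hC n w hw
      _ = C * (‖c n‖ * ρ ^ n) := by ring
  refine ⟨ρ / 2, fun w => ∑' n, c n * hh ρ n w, by linarith, ?_, ?_⟩
  · exact Complex.differentiableOn_tsum_of_summable_norm (hsum.mul_left C)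
      (fun n => (hh_diff hρ n).const_mul (c n)) isOpen_ball hbd
  · intro w hw hws
    have h1 := exch R ρ ρ φ c 1 (fun v => (((√v : ℝ) : ℂ) * csq ((v : ℂ) + w))⁻¹) hρ.le hρ hρR
      hsum hs (ii_k hws ρ hρ.le) (by simp)
    have hw2 : ‖w‖ < ρ / 2 := by
      rw [mem_ball_zero_iff] at hw
      exact hw
    have h2 := exch R ρ 1 φ c (-w) (fun s => (((√(s * (1 - s)) : ℝ) : ℂ))⁻¹) zero_le_one hρ hρR
      hsum hs ii_beta (by rw [norm_neg]; linarith)
    have e1 : ∫ v in (0 : ℝ)..ρ, φ v / (((√v : ℝ) : ℂ) * csq (v + w)) =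
        ∫ t in (0 : ℝ)..ρ, φ (t * 1) * (((√t : ℝ) : ℂ) * csq ((t : ℂ) + w))⁻¹ := by
      congr 1
      funext t
      rw [mul_one, div_eq_mul_inv]
    have e2 : ∫ s in (0 : ℝ)..1, φ (-(s * w)) / ((√(s * (1 - s)) : ℝ) : ℂ) =
        ∫ t in (0 : ℝ)..1, φ (t * -w) * (((√(t * (1 - t)) : ℝ) : ℂ))⁻¹ := by
      congr 1
      funext t
      rw [div_eq_mul_inv, mul_neg]
    rw [e1, e2]
    have h3 : Summable fun n => c n * hh ρ n w :=
      Summable.of_norm_bounded (hsum.mul_left C) (fun n => hbd n w hw)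
    have h4 := h3.hasSum.sub (h2.mul_left ((1 / (Real.pi : ℂ)) * Complex.log w))
    refine h1.unique ?_
    refine h4.congr_fun ?_
    intro n
    have e3 : ∫ t in (0 : ℝ)..ρ, (t : ℂ) ^ n * (((√t : ℝ) : ℂ) * csq ((t : ℂ) + w))⁻¹ =
        K ρ n w := rfl
    rw [e3, beta_eq, beta_val, K_eq hρ hws]
    have hpi : (Real.pi : ℂ) ≠ 0 := by exact_mod_cast Real.pi_pos.ne'
    field_simp
    ring

end Pool.Agent.HGP
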