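import Pool.Agent.HGP.Stmts

/-!
# HGP: module LOGSH
-/

open scoped BigOperators Topology
open Metric Set Filter

namespace Pool.Agent.HGP

namespace LOGSH_

/-- The point `b + i y` on the vertical half line. -/
lemma norm_log_tendsto :
    Tendsto (fun y : ℝ => ‖Complex.log (Complex.I * y)‖) (𝓝[>] 0) atTop := by
  have h1 : ∀ y : ℝ, -Real.log y ≤ ‖Complex.log (Complex.I * y)‖ := by
    intro y
    have h2 : (Complex.log (Complex.I * y)).re = Real.log |y| := by
      rw [Complex.log_re]
      simp
    have h3 := Complex.abs_re_le_norm (Complex.log (Complex.I * y))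
    rw [h2, Real.log_abs] at h3
    exact (neg_le_abs _).trans h3
  refine tendsto_atTop_mono h1 ?_
  exact tendsto_neg_atBot_atTop.comp Real.tendsto_log_nhdsGT_zero

lemma mul_log_pow (k : ℕ) :
    Tendsto (fun y : ℝ => (y : ℝ) * ‖Complex.log (Complex.I * y)‖ ^ k) (𝓝[>] 0) (𝓝 0) := by
  -- `‖log (i y)‖ ≤ |log y| + π`
  have h1 : ∀ y : ℝ, 0 < y → ‖Complex.log (Complex.I * y)‖ ≤ |Real.log y| + Real.pi := by
    intro y hy
    have h3 := Complex.norm_le_abs_re_add_abs_im (Complex.log (Complex.I * y))
    have h2 : (Complex.log (Complex.I * y)).re = Real.log |y| := by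
      rw [Complex.log_re]
      simp
    rw [h2, Real.log_abs, Complex.log_im] at h3
    have h4 := Complex.abs_arg_le_pi (Complex.I * y)
    linarith
  -- `y ^ (1/(k+1))`-trick: use `y * (|log y| + π)^k → 0`
  have h5 : Tendsto (fun y : ℝ => y * (|Real.log y| + Real.pi) ^ k) (𝓝[>] 0) (𝓝 0) := by
    have h6 : Tendsto (fun x : ℝ => (x + Real.pi) ^ k / Real.exp x) atTop (𝓝 0) := by
      have h7 := (Polynomial.tendsto_div_exp_atTop
        (((Polynomial.X + Polynomial.C Real.pi) ^ k : Polynomial ℝ)))
      simpa using h7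
    have h8 : Tendsto (fun y : ℝ => -Real.log y) (𝓝[>] 0) atTop :=
      tendsto_neg_atBot_atTop.comp Real.tendsto_log_nhdsGT_zero
    have h9 := h6.comp h8
    refine h9.congr' ?_
    have h10 : ∀ᶠ y : ℝ in 𝓝[>] 0, y < 1 :=
      mem_of_superset (Ioo_mem_nhdsGT (show (0 : ℝ) < 1 by norm_num)) (fun y hy => hy.2)
    filter_upwards [h10, self_mem_nhdsWithin] with y hy1 hy0
    have hy0' : (0 : ℝ) < y := hy0
    have h11 : Real.log y < 0 := Real.log_neg hy0' hy1
    simp only [Function.comp]
    rw [abs_of_neg h11, Real.exp_neg, Real.exp_log hy0']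
    field_simp
  refine squeeze_zero' ?_ ?_ h5
  · filter_upwards [self_mem_nhdsWithin] with y hy
    have hy' : (0 : ℝ) < y := hy
    positivity
  · filter_upwards [self_mem_nhdsWithin] with y hy
    have hy' : (0 : ℝ) < y := hy
    gcongr
    exact h1 y hy'

lemma path_tendsto (b : ℝ) : Tendsto (fun y : ℝ => (b : ℂ) + Complex.I * y) (𝓝[>] 0)
    (𝓝 (b : ℂ)) := by
  have h : Continuous (fun y : ℝ => (b : ℂ) + Complex.I * y) := by fun_prop
  have h2 := h.tendsto 0
  simp only [Complex.ofReal_zero, mul_zero, add_zero] at h2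
  exact h2.mono_left nhdsWithin_le_nhds

/-- Lemma B. -/
lemma lemB (b : ℝ) (K : ℕ) (r : ℕ → ℂ → ℂ) (hr : ∀ k, k ≤ K → AnalyticAt ℂ (r k) b)
    (h0 : ∀ᶠ y : ℝ in 𝓝[>] 0, ∑ k ∈ Finset.range (K + 1),
      r k (b + Complex.I * y) * (Complex.log (Complex.I * y)) ^ k = 0) :
    ∀ k, k ≤ K → r k b = 0 := by
  classical
  set R : Polynomial ℂ := ∑ k ∈ Finset.range (K + 1),
    Polynomial.C (r k b) * Polynomial.X ^ k with hR
  have hcoeff : ∀ k, k ≤ K → R.coeff k = r k b := by
    intro k hk
    rw [hR, Polynomial.finsetSum_coeff]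
    simp only [Polynomial.coeff_C_mul, Polynomial.coeff_X_pow]
    rw [Finset.sum_eq_single k]
    · simp
    · intro j _ hj
      rw [if_neg (Ne.symm hj), mul_zero]
    · intro hk'
      exact absurd (Finset.mem_range.mpr (by omega)) hk'
  -- the values of `R` along the path tend to `0`
  have hdiff : ∀ k, k ≤ K → Tendsto (fun y : ℝ => (r k (b + Complex.I * y) - r k b) *
      (Complex.log (Complex.I * y)) ^ k) (𝓝[>] 0) (𝓝 0) := by
    intro k hk
    have hd : DifferentiableAt ℂ (r k) b := (hr k hk).differentiableAt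
    have hO := hd.isBigO_sub
    obtain ⟨c, hc⟩ := hO.bound
    have hc' := (path_tendsto b).eventually hc
    rw [tendsto_zero_iff_norm_tendsto_zero]
    have h1 := (mul_log_pow k).const_mul c
    rw [mul_zero] at h1
    refine squeeze_zero' (Eventually.of_forall fun y => norm_nonneg _) ?_ h1
    filter_upwards [hc', self_mem_nhdsWithin] with y hy hy0
    have hy0' : (0 : ℝ) < y := hy0
    rw [norm_mul, norm_pow]
    have h2 : ‖(b : ℂ) + Complex.I * y - b‖ = y := by
      rw [add_sub_cancel_left, norm_mul, Complex.norm_I, one_mul, Complex.norm_real,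
        Real.norm_of_nonneg hy0'.le]
    rw [h2] at hy
    calc ‖r k (b + Complex.I * y) - r k b‖ * ‖Complex.log (Complex.I * y)‖ ^ k
        ≤ (c * y) * ‖Complex.log (Complex.I * y)‖ ^ k := by gcongr
      _ = c * (y * ‖Complex.log (Complex.I * y)‖ ^ k) := by ring
  have hsum : Tendsto (fun y : ℝ => ∑ k ∈ Finset.range (K + 1),
      (r k (b + Complex.I * y) - r k b) * (Complex.log (Complex.I * y)) ^ k) (𝓝[>] 0)
      (𝓝 0) := by
    have := tendsto_finsetSum (Finset.range (K + 1))
      (fun k hk => hdiff k (by have := Finset.mem_range.mp hk; omega))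
    simpa using this
  have hRt : Tendsto (fun y : ℝ => R.eval (Complex.log (Complex.I * y))) (𝓝[>] 0) (𝓝 0) := by
    have h1 := hsum.neg
    rw [neg_zero] at h1
    refine h1.congr' ?_
    filter_upwards [h0] with y hy
    rw [hR, Polynomial.eval_finsetSum]
    simp only [Polynomial.eval_mul, Polynomial.eval_C, Polynomial.eval_pow, Polynomial.eval_X]
    rw [← zero_sub, ← hy, ← Finset.sum_sub_distrib]
    refine Finset.sum_congr rfl fun k _ => ?_
    ring
  -- so `R = 0`
  have hR0 : R = 0 := by
    by_contra hne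
    by_cases hdeg : 0 < R.degree
    · have h1 := Polynomial.tendsto_norm_atTop R hdeg norm_log_tendsto
      have h2 := hRt.norm
      rw [norm_zero] at h2
      exact not_tendsto_nhds_of_tendsto_atTop h1 0 h2
    · have h1 : R = Polynomial.C (R.coeff 0) :=
        Polynomial.eq_C_of_degree_le_zero (not_lt.mp hdeg)
      have h2 : (fun y : ℝ => R.eval (Complex.log (Complex.I * y))) = fun _ => R.coeff 0 := by
        funext y
        rw [h1]
        simp
      rw [h2] at hRt
      have h3 := tendsto_nhds_unique hRt tendsto_const_nhds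
      rw [← h3] at h1
      exact hne (by rw [h1]; simp)
  intro k hk
  rw [← hcoeff k hk, hR0]
  simp

/-- Lemma A. -/
lemma lemA (b : ℝ) (K : ℕ) (p : ℕ → ℂ → ℂ) (hp : ∀ k, k ≤ K → AnalyticAt ℂ (p k) b)
    (h0 : ∀ᶠ y : ℝ in 𝓝[>] 0, ∑ k ∈ Finset.range (K + 1),
      p k (b + Complex.I * y) * (Complex.log (Complex.I * y)) ^ k = 0) :
    ∀ k, k ≤ K → ∀ᶠ z in 𝓝 (b : ℂ), p k z = 0 := by
  classical
  have key : ∀ N : ℕ, ∀ k, k ≤ K → ∃ g : ℂ → ℂ, AnalyticAt ℂ g b ∧
      ∀ᶠ z in 𝓝 (b : ℂ), p k z = (z - b) ^ N • g z := by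
    intro N
    induction N with
    | zero =>
      intro k hk
      exact ⟨p k, hp k hk, by simp⟩
    | succ N ih =>
      have hex : ∃ r : ℕ → ℂ → ℂ, ∀ k, k ≤ K → AnalyticAt ℂ (r k) b ∧
          ∀ᶠ z in 𝓝 (b : ℂ), p k z = (z - b) ^ N • r k z := by
        refine ⟨fun k => if hk : k ≤ K then (ih k hk).choose else 0, fun k hk => ?_⟩
        simp only [dif_pos hk]
        exact (ih k hk).choose_spec
      obtain ⟨r, hr⟩ := hex
      have hall : ∀ᶠ z in 𝓝 (b : ℂ), ∀ k ∈ Finset.range (K + 1),
          p k z = (z - b) ^ N • r k z := by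
        rw [Filter.eventually_all_finset]
        intro k hk
        exact (hr k (by have := Finset.mem_range.mp hk; omega)).2
      have h1 := (path_tendsto b).eventually hall
      have h2 : ∀ᶠ y : ℝ in 𝓝[>] 0, ∑ k ∈ Finset.range (K + 1),
          r k (b + Complex.I * y) * (Complex.log (Complex.I * y)) ^ k = 0 := by
        filter_upwards [h0, h1, self_mem_nhdsWithin] with y hy hy1 hy0
        have hy0' : (0 : ℝ) < y := hy0
        have hne : (Complex.I * (y : ℂ)) ^ N ≠ 0 := by
          refine pow_ne_zero _ (mul_ne_zero Complex.I_ne_zero ?_)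
          exact_mod_cast hy0'.ne'
        have h3 : (Complex.I * (y : ℂ)) ^ N * ∑ k ∈ Finset.range (K + 1),
            r k (b + Complex.I * y) * (Complex.log (Complex.I * y)) ^ k = 0 := by
          rw [← hy, Finset.mul_sum]
          refine Finset.sum_congr rfl fun k hk => ?_
          rw [hy1 k hk, add_sub_cancel_left, smul_eq_mul]
          ring
        exact (mul_eq_zero.mp h3).resolve_left hne
      have h3 := lemB b K r (fun k hk => (hr k hk).1) h2
      intro k hk
      have h4 : 1 ≤ analyticOrderAt (r k) b := by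
        rw [Order.one_le_iff_ne_zero]
        exact (hr k hk).1.analyticOrderAt_ne_zero.mpr (h3 k hk)
      have h5 := (natCast_le_analyticOrderAt (n := 1) (hr k hk).1).mp (by exact_mod_cast h4)
      obtain ⟨g, hg, hg2⟩ := h5
      refine ⟨g, hg, ?_⟩
      filter_upwards [(hr k hk).2, hg2] with z hz1 hz2
      rw [hz1, hz2]
      simp only [smul_eq_mul]
      ring
  intro k hk
  rw [← analyticOrderAt_eq_top]
  rw [ENat.eq_top_iff_forall_ge]
  intro N
  exact (natCast_le_analyticOrderAt (hp k hk)).mpr (key N k hk)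

/-- Families of polynomials with holomorphic coefficients and bounded degree. -/
def Good (S : Set ℂ) (Q : ℂ → Polynomial ℂ) : Prop :=
  (∃ K : ℕ, ∀ t, (Q t).natDegree ≤ K) ∧ ∀ k, DifferentiableOn ℂ (fun t => (Q t).coeff k) S

lemma good_C (S : Set ℂ) (f : ℂ → ℂ) (hf : DifferentiableOn ℂ f S) :
    Good S (fun t => Polynomial.C (f t)) := by
  refine ⟨⟨0, fun t => by simp⟩, fun k => ?_⟩
  by_cases hk : k = 0
  · subst hk
    simpa using hf
  · simp only [Polynomial.coeff_C, if_neg hk]
    exact differentiableOn_const _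

lemma good_X (S : Set ℂ) : Good S (fun _ => Polynomial.X) := by
  refine ⟨⟨1, fun t => by simp⟩, fun k => ?_⟩
  exact differentiableOn_const _

lemma good_add (S : Set ℂ) (Q R : ℂ → Polynomial ℂ) (hQ : Good S Q) (hR : Good S R) :
    Good S (fun t => Q t + R t) := by
  obtain ⟨⟨K1, h1⟩, h2⟩ := hQ
  obtain ⟨⟨K2, h3⟩, h4⟩ := hR
  refine ⟨⟨max K1 K2, fun t => ?_⟩, fun k => ?_⟩
  · exact (Polynomial.natDegree_add_le _ _).trans (max_le_max (h1 t) (h3 t))
  · simp only [Polynomial.coeff_add]
    exact (h2 k).add (h4 k)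

lemma good_mul (S : Set ℂ) (Q R : ℂ → Polynomial ℂ) (hQ : Good S Q) (hR : Good S R) :
    Good S (fun t => Q t * R t) := by
  obtain ⟨⟨K1, h1⟩, h2⟩ := hQ
  obtain ⟨⟨K2, h3⟩, h4⟩ := hR
  refine ⟨⟨K1 + K2, fun t => ?_⟩, fun k => ?_⟩
  · exact Polynomial.natDegree_mul_le.trans (add_le_add (h1 t) (h3 t))
  · simp only [Polynomial.coeff_mul]
    refine DifferentiableOn.fun_sum fun x _ => ?_
    exact (h2 x.1).mul (h4 x.2)

end LOGSH_

open LOGSH_ in
theorem logsh_proof : Stmt_LogSh := by
  intro V _ b ρ h e hρ hh he P hP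
  classical
  set S : Set ℂ := ball (b : ℂ) ρ with hS
  set Q : MvPolynomial (Option V) ℂ → ℂ → Polynomial ℂ := fun P t =>
    MvPolynomial.aeval (R := ℂ) (fun o : Option V => (o.elim (Polynomial.C t)
      (fun v => Polynomial.C (h v t) + Polynomial.X * Polynomial.C (e v t)) :
        Polynomial ℂ)) P with hQ
  have hgood : ∀ P : MvPolynomial (Option V) ℂ, Good S (Q P) := by
    intro P
    induction P using MvPolynomial.induction_on with
    | C a =>
      have h1 : Q (MvPolynomial.C a) = fun _ => Polynomial.C a := by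
        funext t
        simp [hQ]
      rw [h1]
      exact good_C S (fun _ => a) (differentiableOn_const _)
    | add p q hp hq =>
      have h1 : Q (p + q) = fun t => Q p t + Q q t := by
        funext t
        simp [hQ]
      rw [h1]
      exact good_add S _ _ hp hq
    | mul_X p o hp =>
      have h1 : Q (p * MvPolynomial.X o) = fun t => Q p t * (o.elim (Polynomial.C t)
          (fun v => Polynomial.C (h v t) + Polynomial.X * Polynomial.C (e v t)) :
            Polynomial ℂ) := by
        funext t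
        simp [hQ]
      rw [h1]
      refine good_mul S _ _ hp ?_
      cases o with
      | none =>
        simp only [Option.elim_none]
        exact good_C S (fun t => t) differentiableOn_id
      | some v =>
        simp only [Option.elim_some]
        exact good_add S _ _ (good_C S _ (hh v)) (good_mul S _ _ (good_X S)
          (good_C S _ (he v)))
  obtain ⟨⟨K, hK⟩, hcoeff⟩ := hgood P
  have heval : ∀ t c : ℂ, MvPolynomial.eval (opt t (fun v => h v t + c * e v t)) P =
      ∑ k ∈ Finset.range (K + 1), (Q P t).coeff k * c ^ k := by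
    intro t c
    rw [← Polynomial.eval_eq_sum_range' (Nat.lt_succ_of_le (hK t)) c]
    clear hK hP hcoeff
    induction P using MvPolynomial.induction_on with
    | C a => simp [hQ]
    | add p q hp hq =>
      have h1 : Q (p + q) t = Q p t + Q q t := by simp [hQ]
      rw [h1, Polynomial.eval_add, ← hp, ← hq, map_add]
    | mul_X p o hp =>
      have h1 : Q (p * MvPolynomial.X o) t = Q p t * (o.elim (Polynomial.C t)
          (fun v => Polynomial.C (h v t) + Polynomial.X * Polynomial.C (e v t)) :
            Polynomial ℂ) := by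
        simp [hQ]
      rw [h1, Polynomial.eval_mul, ← hp, map_mul, MvPolynomial.eval_X]
      cases o with
      | none => simp [opt]
      | some v =>
        simp [opt]
        left
        ring
  have hper : ∀ k, k ≤ K → ∀ᶠ z in 𝓝 (b : ℂ), (Q P z).coeff k = 0 := by
    refine lemA b K (fun k z => (Q P z).coeff k) (fun k _ => ?_) ?_
    · exact (hcoeff k).analyticAt (isOpen_ball.mem_nhds (mem_ball_self hρ))
    · have h1 : ∀ᶠ y : ℝ in 𝓝[>] 0, (b : ℂ) + Complex.I * y ∈ ball (b : ℂ) ρ :=
        (path_tendsto b).eventually (isOpen_ball.mem_nhds (mem_ball_self hρ))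
      filter_upwards [h1, self_mem_nhdsWithin] with y hy hy0
      have hy0' : (0 : ℝ) < y := hy0
      rw [← heval]
      have h2 := hP _ hy (by simpa using hy0')
      rw [add_sub_cancel_left] at h2
      exact h2
  intro c t ht
  rw [heval]
  refine Finset.sum_eq_zero fun k hk => ?_
  have hk' : k ≤ K := by
    have := Finset.mem_range.mp hk
    omega
  have h1 : AnalyticOnNhd ℂ (fun z => (Q P z).coeff k) (ball (b : ℂ) ρ) :=
    (hcoeff k).analyticOnNhd isOpen_ball
  have h2 := h1.eqOn_zero_of_preconnected_of_eventuallyEq_zero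
    (convex_ball _ _).isPreconnected (mem_ball_self hρ) (hper k hk')
  have h3 := h2 ht
  simp only [Pi.zero_apply] at h3
  rw [h3, zero_mul]

end Pool.Agent.HGP
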