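import Pool.Agent.HGP.Stmts

/-! # Module LS: the local structure of all the integrals near a branch point -/

open scoped BigOperators Topology
open Metric Set MeasureTheory

namespace Pool.Agent.HGP.LSX

/-- `f` extends holomorphically from the upper half plane to a neighbourhood of `b`. -/
def Ext (b : ℝ) (f : ℂ → ℂ) : Prop := ∃ (ρ : ℝ) (h : ℂ → ℂ), 0 < ρ ∧
  DifferentiableOn ℂ h (ball (b : ℂ) ρ) ∧ ∀ t ∈ ball (b : ℂ) ρ, 0 < t.im → f t = h t

theorem Ext.sub {b : ℝ} {f f' : ℂ → ℂ} (h1 : Ext b f) (h2 : Ext b f') :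
    Ext b (fun t => f t - f' t) := by
  obtain ⟨ρ, h, hρ, hd, he⟩ := h1
  obtain ⟨ρ', h', hρ', hd', he'⟩ := h2
  refine ⟨min ρ ρ', fun t => h t - h' t, lt_min hρ hρ', ?_, fun t ht him => ?_⟩
  · exact (hd.mono (ball_subset_ball (min_le_left _ _))).sub
      (hd'.mono (ball_subset_ball (min_le_right _ _)))
  · beta_reduce
    rw [he t (ball_subset_ball (min_le_left _ _) ht) him,
      he' t (ball_subset_ball (min_le_right _ _) ht) him]

theorem Ext.add {b : ℝ} {f f' : ℂ → ℂ} (h1 : Ext b f) (h2 : Ext b f') :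
    Ext b (fun t => f t + f' t) := by
  obtain ⟨ρ, h, hρ, hd, he⟩ := h1
  obtain ⟨ρ', h', hρ', hd', he'⟩ := h2
  refine ⟨min ρ ρ', fun t => h t + h' t, lt_min hρ hρ', ?_, fun t ht him => ?_⟩
  · exact (hd.mono (ball_subset_ball (min_le_left _ _))).add
      (hd'.mono (ball_subset_ball (min_le_right _ _)))
  · beta_reduce
    rw [he t (ball_subset_ball (min_le_left _ _) ht) him,
      he' t (ball_subset_ball (min_le_right _ _) ht) him]

theorem Ext.zero (b : ℝ) : Ext b (fun _ => 0) :=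
  ⟨1, fun _ => 0, one_pos, differentiableOn_const _, fun _ _ _ => rfl⟩

theorem Ext.sum {b : ℝ} (s : Finset ℕ) (f : ℕ → ℂ → ℂ) (h : ∀ i ∈ s, Ext b (f i)) :
    Ext b (fun t => ∑ i ∈ s, f i t) := by
  classical
  induction s using Finset.induction_on with
  | empty => simpa using Ext.zero b
  | insert i s hi ih =>
    simp only [Finset.sum_insert hi]
    exact (h i (Finset.mem_insert_self i s)).add
      (ih fun k hk => h k (Finset.mem_insert_of_mem hk))

theorem Ext.congr {b : ℝ} {f f' : ℂ → ℂ} (h1 : Ext b f) (h : ∀ t : ℂ, 0 < t.im → f' t = f t) :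
    Ext b f' := by
  obtain ⟨ρ, e, hρ, hd, he⟩ := h1
  exact ⟨ρ, e, hρ, hd, fun t ht him => (h t him).trans (he t ht him)⟩

/-- The last integral. -/
theorem last (g : ℕ) (hg : 0 < g) (a : ℕ → ℝ) (l : ℕ) (t : ℂ) :
    Yc g a (2 * g - 1) l t = Ic g a (2 * g - 1) l t := by
  have h1 : (Finset.range (2 * g)).erase (2 * g - 1) = Finset.range (2 * g - 1) := by
    ext i
    simp only [Finset.mem_erase, Finset.mem_range]
    omega
  have h2 : Complex.I ^ (2 * g - 1 + 2 * g) = -Complex.I := by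
    have h3 : 2 * g - 1 + 2 * g = 4 * (g - 1) + 3 := by omega
    rw [h3, pow_add, pow_mul, Complex.I_pow_four, one_pow, one_mul, Complex.I_pow_three]
  rw [Yc, Ic, h1, h2, Jc, if_neg (by omega)]

/-- Telescoping. -/
theorem tele (hTri : Stmt_Tri) (g : ℕ) (a : ℕ → ℝ) (hg : 0 < g) (ha : StrictMono a)
    (l : ℕ) (t : ℂ) (ht : 0 < t.im) (k : ℕ) : ∀ j, j + k + 1 = 2 * g →
    ∑ m ∈ Finset.Ico j (2 * g), Yc g a m l t = Ic g a j l t := by
  induction k with
  | zero =>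
    intro j hj
    have h1 : j = 2 * g - 1 := by omega
    have h2 : Finset.Ico j (2 * g) = {j} := by
      ext i; simp only [Finset.mem_Ico, Finset.mem_singleton]; omega
    rw [h2, Finset.sum_singleton, h1, last g hg]
  | succ k ih =>
    intro j hj
    have h1 := ih (j + 1) (by omega)
    rw [Finset.sum_eq_sum_Ico_succ_bot (by omega), h1, ← hTri g a hg ha j l (by omega) t ht]
    ring

/-- All the integrals. -/
theorem key (hTri : Stmt_Tri) (hIext : Stmt_Iext) (hJmid : Stmt_Jmid) (hJleft : Stmt_Jleft)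
    (hJright : Stmt_Jright) (g : ℕ) (a : ℕ → ℝ) (hg : 0 < g) (ha : StrictMono a) (j : ℕ)
    (hj : j < 2 * g) (m : ℕ) (hm : m < 2 * g) (l : ℕ) :
    Ext (a j) (fun t => Yc g a m l t -
      chi g m j * (Complex.I / Real.pi) * Complex.log (t - a j) * Ic g a j l t) := by
  have hI : Ext (a j) (fun t => Ic g a j l t) := by
    obtain ⟨ρ, e, h1, h2, h3⟩ := hIext g a hg ha j hj l
    exact ⟨ρ, e, h1, h2, h3⟩
  have hmid : ∀ n, n + 1 < 2 * g → n ≠ j → n + 1 ≠ j → Ext (a j) (fun t => Yc g a n l t) := by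
    intro n h1 h2 h3
    obtain ⟨ρ, e, h4, h5, h6⟩ := hJmid g a hg ha j hj n l h1 h2 h3
    exact ⟨ρ, e, h4, h5, h6⟩
  have hright : j + 1 < 2 * g → Ext (a j) (fun t => Yc g a j l t -
      Complex.I / Real.pi * Complex.log (t - a j) * Ic g a j l t) := by
    intro h1
    obtain ⟨ρ, e, h4, h5, h6⟩ := hJright g a hg ha j l h1
    refine ⟨ρ, e, h4, h5, fun t ht him => ?_⟩
    beta_reduce
    rw [h6 t ht him]; ring
  by_cases h1 : m + 1 = j
  · subst h1
    obtain ⟨ρ, e, h4, h5, h6⟩ := hJleft g a hg ha m l hj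
    refine ⟨ρ, e, h4, h5, fun t ht him => ?_⟩
    simp only [chi, if_true]
    rw [h6 t ht him]; ring
  by_cases h2 : m = j
  · subst h2
    by_cases h3 : m + 1 < 2 * g
    · refine (hright h3).congr fun t _ => ?_
      simp only [chi, if_neg h1, if_true, if_pos h3]
      ring
    · have h4 : m = 2 * g - 1 := by omega
      refine hI.congr fun t _ => ?_
      simp only [chi, if_neg h1, if_true, if_neg h3]
      rw [h4, last g hg]
      ring
  by_cases h3 : m + 1 < 2 * g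
  · refine (hmid m h3 h2 h1).congr fun t _ => ?_
    simp only [chi, if_neg h1, if_neg h2, if_neg (show ¬ (m + 1 = 2 * g) by omega)]
    ring
  · have h4 : m + 1 = 2 * g := by omega
    have h5 : j < m := by omega
    have h6 : Ext (a j) (fun t => ∑ n ∈ Finset.Ico (j + 1) m, Yc g a n l t) := by
      refine Ext.sum _ _ fun n hn => ?_
      rw [Finset.mem_Ico] at hn
      exact hmid n (by omega) (by omega) (by omega)
    refine ((hI.sub (hright (by omega))).sub h6).congr fun t him => ?_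
    have h7 := tele hTri g a hg ha l t him (2 * g - 1 - j) j (by omega)
    rw [Finset.sum_eq_sum_Ico_succ_bot hj, ← h4, Finset.sum_Ico_succ_top (by omega)] at h7
    simp only [chi, if_neg h1, if_neg h2, if_pos h4, if_pos h5]
    linear_combination h7

/-- A common radius. -/
theorem common (n : ℕ) (P : ℕ → ℝ → Prop) (hP : ∀ i < n, ∃ ρ > 0, P i ρ)
    (hmono : ∀ i, ∀ ρ ρ' : ℝ, 0 < ρ' → ρ' ≤ ρ → P i ρ → P i ρ') : ∃ ρ > 0, ∀ i < n, P i ρ := by
  induction n with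
  | zero => exact ⟨1, one_pos, fun i hi => absurd hi (Nat.not_lt_zero i)⟩
  | succ n ih =>
    obtain ⟨ρ, h1, h2⟩ := ih fun i hi => hP i (by omega)
    obtain ⟨ρ', h3, h4⟩ := hP n (by omega)
    refine ⟨min ρ ρ', lt_min h1 h3, fun i hi => ?_⟩
    rcases Nat.lt_succ_iff_lt_or_eq.mp hi with h | rfl
    · exact hmono i ρ _ (lt_min h1 h3) (min_le_left _ _) (h2 i h)
    · exact hmono i ρ' _ (lt_min h1 h3) (min_le_right _ _) h4

/-- `f` extends to the ball of radius `ρ`. -/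
def ExtR (b ρ : ℝ) (f : ℂ → ℂ) : Prop := ∃ h : ℂ → ℂ,
  DifferentiableOn ℂ h (ball (b : ℂ) ρ) ∧ ∀ t ∈ ball (b : ℂ) ρ, 0 < t.im → f t = h t

theorem ExtR.mono {b ρ ρ' : ℝ} {f : ℂ → ℂ} (hr : ρ' ≤ ρ) (h : ExtR b ρ f) : ExtR b ρ' f := by
  obtain ⟨e, h1, h2⟩ := h
  exact ⟨e, h1.mono (ball_subset_ball hr), fun t ht => h2 t (ball_subset_ball hr ht)⟩

end Pool.Agent.HGP.LSX

namespace Pool.Agent.HGP

open LSX in
theorem ls_proof (hTri : Stmt_Tri) (hIext : Stmt_Iext) (hJmid : Stmt_Jmid) (hJleft : Stmt_Jleft)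
    (hJright : Stmt_Jright) : Stmt_LS := by
  intro g a hg ha j hj
  obtain ⟨ρ1, hρ1, hE⟩ := common (2 * g) (fun l ρ => ExtR (a j) ρ (fun t => Ic g a j l t))
    (fun l _ => by
      obtain ⟨ρ, e, h1, h2, h3⟩ := hIext g a hg ha j hj l
      exact ⟨ρ, h1, e, h2, h3⟩)
    (fun l ρ ρ' _ hr h => ExtR.mono hr h)
  obtain ⟨ρ2, hρ2, hH⟩ := common (2 * g) (fun m ρ => ∀ l < 2 * g, ExtR (a j) ρ
      (fun t => Yc g a m l t -
        chi g m j * (Complex.I / Real.pi) * Complex.log (t - a j) * Ic g a j l t))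
    (fun m hm => by
      refine common (2 * g) (fun l ρ => ExtR (a j) ρ (fun t => Yc g a m l t -
        chi g m j * (Complex.I / Real.pi) * Complex.log (t - a j) * Ic g a j l t)) ?_
        (fun l ρ ρ' _ hr h => ExtR.mono hr h)
      intro l _
      obtain ⟨ρ, e, h1, h2, h3⟩ := key hTri hIext hJmid hJleft hJright g a hg ha j hj m hm l
      exact ⟨ρ, h1, e, h2, h3⟩)
    (fun l ρ ρ' _ hr h k hk => ExtR.mono hr (h k hk))
  have hE' : ∀ l : ℕ, ∃ e : ℂ → ℂ, l < 2 * g → DifferentiableOn ℂ e (ball ((a j : ℝ) : ℂ) ρ1) ∧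
      ∀ t ∈ ball ((a j : ℝ) : ℂ) ρ1, 0 < t.im → Ic g a j l t = e t := by
    intro l
    by_cases hl : l < 2 * g
    · obtain ⟨e, h1, h2⟩ := hE l hl
      exact ⟨e, fun _ => ⟨h1, h2⟩⟩
    · exact ⟨fun _ => 0, fun h => absurd h hl⟩
  choose e he using hE'
  have hH' : ∀ m l : ℕ, ∃ h : ℂ → ℂ, m < 2 * g → l < 2 * g →
      DifferentiableOn ℂ h (ball ((a j : ℝ) : ℂ) ρ2) ∧
      ∀ t ∈ ball ((a j : ℝ) : ℂ) ρ2, 0 < t.im → Yc g a m l t -
        chi g m j * (Complex.I / Real.pi) * Complex.log (t - a j) * Ic g a j l t = h t := by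
    intro m l
    by_cases hl : m < 2 * g ∧ l < 2 * g
    · obtain ⟨h, h1, h2⟩ := hH m hl.1 l hl.2
      exact ⟨h, fun _ _ => ⟨h1, h2⟩⟩
    · exact ⟨fun _ => 0, fun h h' => absurd ⟨h, h'⟩ hl⟩
  choose h hh using hH'
  have hs1 : ball ((a j : ℝ) : ℂ) (min ρ1 ρ2) ⊆ ball ((a j : ℝ) : ℂ) ρ1 :=
    ball_subset_ball (min_le_left _ _)
  have hs2 : ball ((a j : ℝ) : ℂ) (min ρ1 ρ2) ⊆ ball ((a j : ℝ) : ℂ) ρ2 :=
    ball_subset_ball (min_le_right _ _)
  refine ⟨min ρ1 ρ2, e, h, lt_min hρ1 hρ2, fun l hl => ((he l hl).1).mono hs1,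
    fun m hm l hl => ((hh m l hm hl).1).mono hs2, fun t ht him => ⟨fun l hl => ?_, ?_⟩⟩
  · rw [tele hTri g a hg ha l t him (2 * g - 1 - j) j (by omega)]
    exact (he l hl).2 t (hs1 ht) him
  · intro m hm l hl
    have h1 := (he l hl).2 t (hs1 ht) him
    have h2 := (hh m l hm hl).2 t (hs2 ht) him
    rw [← h1]
    linear_combination h2

end Pool.Agent.HGP
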