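import Pool.Agent.HGP.Stmts

/-!
# HGP, module PHOL: the complex period matrix is holomorphic
-/

open scoped BigOperators Topology
open Metric Set

namespace Pool.Agent.HGP

noncomputable section

namespace PHOL_

lemma th_diff (g : ℕ) (a : ℕ → ℝ) (k : Ix g) (l : ℕ) :
    Differentiable ℂ (fun t => Th g a k l t) := by
  cases k with
  | inl j => exact differentiable_const _
  | inr j =>
    show Differentiable ℂ (fun t => if (j : ℕ) < l then
      (((l : ℂ) - (j : ℕ)) / 4) * (FpolC g a t).coeff (l + (j : ℕ) + 2) else 0)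
    by_cases h : (j : ℕ) < l
    · simp only [h, if_true]
      have h1 : (fun t => (((l : ℂ) - (j : ℕ)) / 4) * (FpolC g a t).coeff (l + (j : ℕ) + 2)) =
          fun t => (((l : ℂ) - (j : ℕ)) / 4) *
            ((∏ i ∈ Finset.range (2 * g),
              (Polynomial.X - Polynomial.C ((a i : ℝ) : ℂ))).coeff (l + (j : ℕ) + 1) -
            (∏ i ∈ Finset.range (2 * g),
              (Polynomial.X - Polynomial.C ((a i : ℝ) : ℂ))).coeff (l + (j : ℕ) + 2) * t) := by
        funext t
        unfold FpolC
        rw [show l + (j : ℕ) + 2 = (l + (j : ℕ) + 1) + 1 from rfl, Polynomial.coeff_mul_X_sub_C]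
      rw [h1]
      exact (differentiable_const _).mul
        ((differentiable_const _).sub ((differentiable_const _).mul differentiable_id))
    · simp only [h, if_false]
      exact differentiable_const _

lemma yc_diff (h : Stmt_Jhol) (g : ℕ) (a : ℕ → ℝ) (hg : 0 < g) (ha : StrictMono a) (m : ℕ)
    (hm : m < 2 * g) (l : ℕ) : DifferentiableOn ℂ (fun t => Yc g a m l t) (U g a) := by
  unfold Yc
  exact (differentiableOn_const _).mul (h g a hg ha m hm l)

end PHOL_

open PHOL_ in
theorem phol_proof (h : Stmt_Jhol) : Stmt_Phol := by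
  intro g a hg ha k c
  cases c with
  | inl i =>
    show DifferentiableOn ℂ (fun t => 2 * (-1) ^ g * ∑ l ∈ Finset.range (2 * g),
      Th g a k l t * Yc g a (2 * (i : ℕ)) l t) (U g a)
    refine (differentiableOn_const _).mul (DifferentiableOn.fun_sum fun l _ => ?_)
    exact (th_diff g a k l).differentiableOn.mul
      (yc_diff h g a hg ha _ (by have := i.isLt; omega) l)
  | inr i =>
    show DifferentiableOn ℂ (fun t => 2 * (-1) ^ g * ∑ l ∈ Finset.range (2 * g),
      Th g a k l t * ∑ m ∈ Finset.Ico (i : ℕ) g, Yc g a (2 * m + 1) l t) (U g a)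
    refine (differentiableOn_const _).mul (DifferentiableOn.fun_sum fun l _ => ?_)
    refine (th_diff g a k l).differentiableOn.mul (DifferentiableOn.fun_sum fun m hm => ?_)
    have := (Finset.mem_Ico.1 hm).2
    exact yc_diff h g a hg ha _ (by omega) l

end

end Pool.Agent.HGP
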