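import Pool.Agent.HGP.Stmts

/-! # Module RADJ: the bilinear form of two adjacent intervals -/

open scoped BigOperators Topology
open Metric Set MeasureTheory

namespace Pool.Agent.HGP.RADJX

theorem lt_rend {g : ℕ} {a : ℕ → ℝ} (ha : StrictMono a) {t : ℝ} (ht : a (2 * g - 1) < t) {m : ℕ}
    (hm : m < 2 * g) : a m < rend g a t m := by
  unfold rend
  split_ifs with h
  · exact ha (by omega)
  · have : m = 2 * g - 1 := by omega
    rw [this]; exact ht

/-- factorisation of `|F_t|` on an interval -/
theorem exG {g : ℕ} {a : ℕ → ℝ} (ha : StrictMono a) {t : ℝ} (ht : a (2 * g - 1) < t) {m : ℕ}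
    (hm : m < 2 * g) : ∃ G : ℝ → ℝ, Continuous G ∧
      (∀ x ∈ Icc (a m) (rend g a t m), 0 < G x) ∧
      ∀ x, |(Fpol g a t).eval x| = |(x - a m) * (x - rend g a t m)| * G x := by
  by_cases h : m + 1 < 2 * g
  · have hr : rend g a t m = a (m + 1) := by rw [rend, if_pos h]
    let S : Finset ℕ := ((Finset.range (2 * g)).erase m).erase (m + 1)
    refine ⟨fun x => (∏ j ∈ S, |x - a j|) * |x - t|, ?_, ?_, ?_⟩
    · refine Continuous.mul (continuous_finsetProd _ fun j _ => ?_) ?_
      · exact (continuous_id.sub continuous_const).abs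
      · exact (continuous_id.sub continuous_const).abs
    · intro x hx
      rw [hr] at hx
      refine mul_pos (Finset.prod_pos fun j hj => ?_) ?_
      · rw [abs_pos, sub_ne_zero]
        simp only [S, Finset.mem_erase, Finset.mem_range] at hj
        rcases Nat.lt_or_ge j m with h | h
        · have := ha h
          have := hx.1
          linarith
        · have := ha (show m + 1 < j by omega)
          have := hx.2
          intro h'
          linarith
      · rw [abs_pos, sub_ne_zero]
        have h1 : a (m + 1) ≤ a (2 * g - 1) := ha.monotone (by omega)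
        have := hx.2
        linarith
    · intro x
      rw [hr]
      simp only [Fpol, Polynomial.eval_mul, Polynomial.eval_prod, Polynomial.eval_sub,
        Polynomial.eval_X, Polynomial.eval_C]
      rw [← Finset.mul_prod_erase (Finset.range (2 * g)) _ (Finset.mem_range.mpr hm),
        ← Finset.mul_prod_erase ((Finset.range (2 * g)).erase m) _
        (show m + 1 ∈ _ by simp; omega)]
      rw [abs_mul, abs_mul, abs_mul, Finset.abs_prod, abs_mul]
      ring
  · have hr : rend g a t m = t := by rw [rend, if_neg h]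
    let S : Finset ℕ := (Finset.range (2 * g)).erase m
    refine ⟨fun x => ∏ j ∈ S, |x - a j|, ?_, ?_, ?_⟩
    · refine continuous_finsetProd _ fun j _ => ?_
      exact (continuous_id.sub continuous_const).abs
    · intro x hx
      refine Finset.prod_pos fun j hj => ?_
      rw [abs_pos, sub_ne_zero]
      simp only [S, Finset.mem_erase, Finset.mem_range] at hj
      have := ha (show j < m by omega)
      have := hx.1
      linarith
    · intro x
      rw [hr]
      simp only [Fpol, Polynomial.eval_mul, Polynomial.eval_prod, Polynomial.eval_sub,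
        Polynomial.eval_X, Polynomial.eval_C]
      rw [← Finset.mul_prod_erase (Finset.range (2 * g)) _ (Finset.mem_range.mpr hm)]
      rw [abs_mul, abs_mul, Finset.abs_prod, abs_mul]
      ring

theorem integrable (hIntg : Stmt_Intg) {g : ℕ} {a : ℕ → ℝ} (ha : StrictMono a)
    {t : ℝ} (ht : a (2 * g - 1) < t) {m : ℕ} (hm : m < 2 * g) (p : Polynomial ℝ) :
    IntervalIntegrable (fun x => p.eval x / √|(Fpol g a t).eval x|) volume (a m)
      (rend g a t m) := by
  obtain ⟨G, hGc, hGpos, hF⟩ := exG ha ht hm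
  have h1 := hIntg (a m) (rend g a t m) G (lt_rend ha ht hm) hGc.continuousOn hGpos
  have h2 := h1.continuousOn_mul (g := fun x => p.eval x) (p.continuous.continuousOn)
  refine h2.congr ?_
  intro x _
  simp only [hF x]
  ring

/-- the cut integrals converge -/
theorem cut_tendsto {f : ℝ → ℝ} {p b : ℝ} (hpb : p < b) (hf : IntervalIntegrable f volume p b) :
    Filter.Tendsto (fun ε : ℝ => ∫ x in p..(b - ε), f x) (𝓝[>] 0) (𝓝 (∫ x in p..b, f x)) := by
  have h1 : IntegrableOn f (uIcc p b) := by
    rw [uIcc_of_le hpb.le, integrableOn_Icc_iff_integrableOn_Ioc]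
    exact (intervalIntegrable_iff_integrableOn_Ioc_of_le hpb.le).1 hf
  have h2 := intervalIntegral.continuousOn_primitive_interval h1
  have h3 : ContinuousWithinAt (fun x => ∫ t in p..x, f t) (uIcc p b) b := h2 b right_mem_uIcc
  have h4 : Filter.Tendsto (fun ε : ℝ => b - ε) (𝓝[>] 0) (𝓝[uIcc p b] b) := by
    rw [tendsto_nhdsWithin_iff]
    constructor
    · have : Filter.Tendsto (fun ε : ℝ => b - ε) (𝓝 0) (𝓝 (b - 0)) :=
        (continuous_const.sub continuous_id).tendsto 0
      rw [sub_zero] at this
      exact this.mono_left nhdsWithin_le_nhds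
    · have h5 : ∀ᶠ ε : ℝ in 𝓝[>] 0, ε < b - p :=
        (eventually_lt_nhds (by linarith)).filter_mono nhdsWithin_le_nhds
      filter_upwards [h5, self_mem_nhdsWithin] with ε h6 h7
      rw [uIcc_of_le hpb.le]
      rw [mem_Ioi] at h7
      exact ⟨by linarith, by linarith⟩
  exact h3.tendsto.comp h4

end Pool.Agent.HGP.RADJX

namespace Pool.Agent.HGP

open RADJX

theorem radj_proof (hRcut : Stmt_RCut) (hLim : Stmt_LimPi) (hIntg : Stmt_Intg) : Stmt_RAdj := by
  intro g a hg ha t ht m hm
  have hm0 : m < 2 * g := by omega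
  have hrm : rend g a t m = a (m + 1) := by rw [rend, if_pos hm]
  set b := a (m + 1) with hb
  have hab : a m < b := ha (Nat.lt_succ_self m)
  set Rr := rend g a t (m + 1) with hRr
  have hbR : b < Rr := lt_rend ha ht hm
  obtain ⟨G, hGc, hGpos, hF⟩ := exG ha ht hm
  rw [← hb, ← hRr] at hGpos
  have hF' : ∀ x, |(Fpol g a t).eval x| = |(x - b) * (x - Rr)| * G x := hF
  set L := Rr - b with hL
  have hLpos : 0 < L := by rw [hL]; linarith
  have hGb : 0 < G b := hGpos b ⟨le_refl _, hbR.le⟩
  let q : ℝ → ℝ := fun v => 1 / √(|v - L| * G (b + v))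
  have hFv : ∀ v : ℝ, 0 ≤ v → √|(Fpol g a t).eval (b + v)| = √v * √(|v - L| * G (b + v)) := by
    intro v hv
    rw [hF', show (b + v - b) * (b + v - Rr) = v * (v - L) by rw [hL]; ring, abs_mul,
      abs_of_nonneg hv, mul_assoc, Real.sqrt_mul hv]
  -- continuity of q at 0
  have hqc : ContinuousWithinAt q (Ici 0) 0 := by
    apply ContinuousAt.continuousWithinAt
    apply ContinuousAt.div continuousAt_const
    · exact (Real.continuous_sqrt.comp ((continuous_id.sub continuous_const).abs.mul
        (hGc.comp (continuous_const.add continuous_id)))).continuousAt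
    · have : 0 < |(0 : ℝ) - L| * G (b + 0) := by
        rw [add_zero]
        exact mul_pos (abs_pos.2 (by linarith)) hGb
      exact (Real.sqrt_pos.2 this).ne'
  -- integrability
  have hint1 := integrable hIntg ha ht hm (Polynomial.C 1)
  rw [← hb, ← hRr] at hint1
  have hint : IntervalIntegrable (fun y => q y / √y) volume 0 L := by
    have h1 := hint1.comp_add_left b
    rw [sub_self] at h1
    refine h1.congr ?_
    intro v hv
    rw [uIoc_of_le hLpos.le] at hv
    simp only [Polynomial.eval_C]
    rw [hFv v hv.1.le]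
    simp only [q]
    rw [div_div, mul_comm (√v)]
  have hlim := hLim L q hLpos hqc hint
  -- the right hand side
  have hRHS : ∀ᶠ ε : ℝ in 𝓝[>] 0, (-1 : ℝ) ^ m / 2 * (√|(Fpol g a t).eval (b - ε)| *
      ∫ y in b..Rr, 1 / ((y - (b - ε)) * √|(Fpol g a t).eval y|)) =
      (-1) ^ m / 2 * (√(|-ε - L| * G (b - ε)) * (√ε * ∫ y in (0 : ℝ)..L, q y / (√y * (y + ε)))) := by
    filter_upwards [self_mem_nhdsWithin] with ε hε
    rw [mem_Ioi] at hε
    have e1 : √|(Fpol g a t).eval (b - ε)| = √ε * √(|-ε - L| * G (b - ε)) := by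
      rw [hF', show (b - ε - b) * (b - ε - Rr) = (-ε) * (-ε - L) by rw [hL]; ring, abs_mul, abs_neg,
        abs_of_pos hε, mul_assoc, Real.sqrt_mul hε.le]
    have e2 : ∫ y in b..Rr, 1 / ((y - (b - ε)) * √|(Fpol g a t).eval y|) =
        ∫ y in (0 : ℝ)..L, q y / (√y * (y + ε)) := by
      have h1 := intervalIntegral.integral_comp_add_left
        (fun y => 1 / ((y - (b - ε)) * √|(Fpol g a t).eval y|)) b (a := 0) (b := L)
      rw [add_zero, show b + L = Rr by rw [hL]; ring] at h1
      rw [← h1]
      apply intervalIntegral.integral_congr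
      intro v hv
      rw [uIcc_of_le hLpos.le] at hv
      simp only
      rw [hFv v hv.1]
      simp only [q]
      rw [div_div]
      congr 1
      ring
    rw [e1, e2]
    ring
  have hc2 : Filter.Tendsto (fun ε : ℝ => √(|-ε - L| * G (b - ε))) (𝓝[>] 0)
      (𝓝 (√(L * G b))) := by
    have hc : Continuous fun ε : ℝ => √(|-ε - L| * G (b - ε)) := by
      exact Real.continuous_sqrt.comp ((continuous_neg.sub continuous_const).abs.mul
        (hGc.comp (continuous_const.sub continuous_id)))
    have h1 := hc.tendsto 0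
    rw [neg_zero, zero_sub, abs_neg, abs_of_pos hLpos, sub_zero] at h1
    exact h1.mono_left nhdsWithin_le_nhds
  have hq0 : √(L * G b) * (Real.pi * q 0) = Real.pi := by
    simp only [q]
    rw [zero_sub, abs_neg, abs_of_pos hLpos, add_zero]
    have : √(L * G b) ≠ 0 := (Real.sqrt_pos.2 (mul_pos hLpos hGb)).ne'
    field_simp
  have hR : Filter.Tendsto (fun ε : ℝ => (-1 : ℝ) ^ m / 2 * (√|(Fpol g a t).eval (b - ε)| *
      ∫ y in b..Rr, 1 / ((y - (b - ε)) * √|(Fpol g a t).eval y|))) (𝓝[>] 0)
      (𝓝 ((-1) ^ m / 2 * Real.pi)) := by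
    have h1 := (hc2.mul hlim).const_mul ((-1 : ℝ) ^ m / 2)
    rw [hq0] at h1
    exact h1.congr' (hRHS.mono fun ε h => h.symm)
  -- the left hand side
  have hLHS : Filter.Tendsto (fun ε : ℝ => ∑ j : Fin g,
      ((∫ x in (a m)..(b - ε), (num g a t (.inl j)).eval x / √|(Fpol g a t).eval x|) *
          per g a t (m + 1) (num g a t (.inr j)) -
        (∫ x in (a m)..(b - ε), (num g a t (.inr j)).eval x / √|(Fpol g a t).eval x|) *
          per g a t (m + 1) (num g a t (.inl j)))) (𝓝[>] 0) (𝓝 (bil g a t m (m + 1))) := by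
    have hcut : ∀ p : Polynomial ℝ, Filter.Tendsto
        (fun ε : ℝ => ∫ x in (a m)..(b - ε), p.eval x / √|(Fpol g a t).eval x|) (𝓝[>] 0)
        (𝓝 (per g a t m p)) := by
      intro p
      have h1 := integrable hIntg ha ht hm0 p
      rw [hrm] at h1
      have h2 := cut_tendsto hab h1
      rw [per, hrm]
      exact h2
    unfold bil
    refine tendsto_finsetSum _ fun j _ => ?_
    exact ((hcut _).mul_const _).sub ((hcut _).mul_const _)
  have hev : ∀ᶠ ε : ℝ in 𝓝[>] 0, ∑ j : Fin g,
      ((∫ x in (a m)..(b - ε), (num g a t (.inl j)).eval x / √|(Fpol g a t).eval x|) *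
          per g a t (m + 1) (num g a t (.inr j)) -
        (∫ x in (a m)..(b - ε), (num g a t (.inr j)).eval x / √|(Fpol g a t).eval x|) *
          per g a t (m + 1) (num g a t (.inl j))) = (-1 : ℝ) ^ m / 2 *
      (√|(Fpol g a t).eval (b - ε)| *
      ∫ y in b..Rr, 1 / ((y - (b - ε)) * √|(Fpol g a t).eval y|)) := by
    have h5 : ∀ᶠ ε : ℝ in 𝓝[>] 0, ε < b - a m :=
      (eventually_lt_nhds (by linarith)).filter_mono nhdsWithin_le_nhds
    filter_upwards [h5, self_mem_nhdsWithin] with ε h6 h7
    rw [mem_Ioi] at h7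
    exact hRcut g a hg ha t ht m (m + 1) (Nat.lt_succ_self m) hm (b - ε) (by linarith)
      (by linarith) (by linarith)
  have := tendsto_nhds_unique (hLHS.congr' hev) hR
  rw [this]
  ring

end Pool.Agent.HGP
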