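import Pool.Agent.HGP.Stmts

/-!
# HGP: the algebraic identity behind the bilinear relations
-/

open scoped BigOperators Topology
open Metric Set

namespace Pool.Agent.HGP

namespace RALG_

/-- The sum for the monomial `X ^ n`. -/
noncomputable def Sm (x y : ℝ) (n : ℕ) : ℝ := ∑ j ∈ Finset.range ((n - 1) / 2),
  ((n : ℝ) - 2 * j - 2) / 4 * (x ^ j * y ^ (n - 2 - j) - x ^ (n - 2 - j) * y ^ j)

lemma Sm_succ (x y : ℝ) (n : ℕ) (hn : 1 ≤ n) :
    Sm x y (n + 2) = (n : ℝ) / 4 * (y ^ n - x ^ n) + x * y * Sm x y n := by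
  unfold Sm
  have h1 : (n + 2 - 1) / 2 = (n - 1) / 2 + 1 := by omega
  rw [h1, Finset.sum_range_succ', Finset.mul_sum, add_comm]
  congr 1
  · push_cast
    simp
  · refine Finset.sum_congr rfl fun j hj => ?_
    rw [Finset.mem_range] at hj
    have h2 : n + 2 - 2 - (j + 1) = (n - 2 - j) + 1 := by omega
    rw [h2]
    push_cast
    ring

lemma mono_id (x y : ℝ) : ∀ n : ℕ, -2 * (x - y) ^ 2 * Sm x y n =
    (x - y) * ((n : ℝ) * x ^ (n - 1) + n * y ^ (n - 1)) / 2 - (x ^ n - y ^ n)
  | 0 => by simp [Sm]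
  | 1 => by simp [Sm]; ring
  | 2 => by simp [Sm]; ring
  | n + 3 => by
    have ih := mono_id x y (n + 1)
    rw [show n + 3 = n + 1 + 2 from rfl, Sm_succ x y (n + 1) (by omega)]
    simp only [Nat.add_sub_cancel] at ih ⊢
    have e : n + 1 + 2 - 1 = n + 2 := by omega
    rw [e]
    push_cast at ih ⊢
    linear_combination (x * y) * ih

lemma fpol_natDegree (g : ℕ) (a : ℕ → ℝ) (t : ℝ) : (Fpol g a t).natDegree < 2 * g + 2 := by
  unfold Fpol
  refine lt_of_le_of_lt Polynomial.natDegree_mul_le ?_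
  have h1 : (∏ i ∈ Finset.range (2 * g),
      (Polynomial.X - Polynomial.C (a i))).natDegree ≤ 2 * g := by
    refine (Polynomial.natDegree_prod_le _ _).trans ?_
    refine (Finset.sum_le_sum (fun i _ => Polynomial.natDegree_X_sub_C_le (a i))).trans ?_
    simp
  have h2 : (Polynomial.X - Polynomial.C t).natDegree ≤ 1 := Polynomial.natDegree_X_sub_C_le t
  omega

end RALG_

open RALG_ in
theorem ralg_proof : Stmt_RAlg := by
  intro g a t x y
  set F := Fpol g a t with hF
  have hd : F.natDegree < 2 * g + 2 := fpol_natDegree g a t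
  have e1 : ∀ z, F.eval z = ∑ n ∈ Finset.range (2 * g + 2), F.coeff n * z ^ n := fun z =>
    Polynomial.eval_eq_sum_range' hd z
  have e2 : ∀ z, F.derivative.eval z =
      ∑ n ∈ Finset.range (2 * g + 2), F.coeff n * ((n : ℝ) * z ^ (n - 1)) := by
    intro z
    rw [Polynomial.derivative_eval, Polynomial.sum_over_range' _ _ _ hd]
    · refine Finset.sum_congr rfl fun n _ => ?_
      ring
    · intro n; simp
  have e3 : ∑ j : Fin g,
      ((num g a t (.inl j)).eval x * (num g a t (.inr j)).eval y -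
        (num g a t (.inr j)).eval x * (num g a t (.inl j)).eval y) =
      ∑ n ∈ Finset.range (2 * g + 2), F.coeff n * Sm x y n := by
    have e4 : ∀ j : Fin g, ((num g a t (.inl j)).eval x * (num g a t (.inr j)).eval y -
        (num g a t (.inr j)).eval x * (num g a t (.inl j)).eval y) =
        ∑ n ∈ Finset.range (2 * g + 2), if 2 * (j : ℕ) + 3 ≤ n then F.coeff n *
          (((n : ℝ) - 2 * (j : ℕ) - 2) / 4 * (x ^ (j : ℕ) * y ^ (n - 2 - (j : ℕ)) -
            x ^ (n - 2 - (j : ℕ)) * y ^ (j : ℕ))) else 0 := by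
      intro j
      rw [← Finset.sum_filter]
      have h5 : (Finset.range (2 * g + 2)).filter (fun n => 2 * (j : ℕ) + 3 ≤ n) =
          Finset.Ico (2 * (j : ℕ) + 3) (2 * g + 2) := by
        ext n
        simp only [Finset.mem_filter, Finset.mem_range, Finset.mem_Ico]
        tauto
      rw [h5]
      simp only [num, Polynomial.eval_pow, Polynomial.eval_X, Polynomial.eval_finsetSum,
        Polynomial.eval_mul, Polynomial.eval_C]
      rw [Finset.mul_sum, Finset.sum_mul, ← Finset.sum_sub_distrib]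
      refine Finset.sum_congr rfl fun n _ => ?_
      rw [← hF]
      ring
    rw [Finset.sum_congr rfl fun j _ => e4 j, Finset.sum_comm]
    refine Finset.sum_congr rfl fun n hn => ?_
    rw [Finset.mem_range] at hn
    unfold Sm
    rw [Finset.mul_sum]
    rw [Fin.sum_univ_eq_sum_range (fun j => if 2 * j + 3 ≤ n then F.coeff n *
          (((n : ℝ) - 2 * j - 2) / 4 * (x ^ j * y ^ (n - 2 - j) -
            x ^ (n - 2 - j) * y ^ j)) else 0) g]
    rw [← Finset.sum_filter]
    have h6 : (Finset.range g).filter (fun j => 2 * j + 3 ≤ n) = Finset.range ((n - 1) / 2) := by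
      ext j
      simp only [Finset.mem_filter, Finset.mem_range]
      omega
    rw [h6]
  rw [e3, e1 x, e1 y, e2 x, e2 y, Finset.mul_sum, ← Finset.sum_add_distrib,
    ← Finset.sum_sub_distrib, Finset.mul_sum, Finset.sum_div, ← Finset.sum_sub_distrib]
  refine Finset.sum_congr rfl fun n _ => ?_
  have := mono_id x y n
  linear_combination F.coeff n * this

end Pool.Agent.HGP
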