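import Pool.Agent.HGP.Stmts

/-!
# HGP: RCUT, the bilinear form of a cut interval and an interval
-/

open scoped BigOperators Topology
open Metric Set MeasureTheory

namespace Pool.Agent.HGP

namespace RCut_

/-- Integrability of a continuous kernel times a product of integrable functions. -/
lemma integrable_kernel {p q b c : ℝ} {k : ℝ → ℝ → ℝ} {u v : ℝ → ℝ}
    (hk : ContinuousOn (fun z : ℝ × ℝ => k z.1 z.2) (Icc p q ×ˢ Icc b c))
    (hu : IntegrableOn u (Ioc p q)) (hv : IntegrableOn v (Ioc b c)) :
    Integrable (fun z : ℝ × ℝ => k z.1 z.2 * (u z.1 * v z.2))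
      ((volume.restrict (Ioc p q)).prod (volume.restrict (Ioc b c))) := by
  have h1 : Integrable (fun z : ℝ × ℝ => u z.1 * v z.2)
      ((volume.restrict (Ioc p q)).prod (volume.restrict (Ioc b c))) :=
    Integrable.mul_prod hu hv
  obtain ⟨C, hC⟩ := (isCompact_Icc.prod isCompact_Icc).exists_bound_of_continuousOn hk
  have hsub : Ioc p q ×ˢ Ioc b c ⊆ Icc p q ×ˢ Icc b c :=
    prod_mono Ioc_subset_Icc_self Ioc_subset_Icc_self
  rw [Measure.prod_restrict] at h1 ⊢
  have hmeas : MeasurableSet (Ioc p q ×ˢ Ioc b c) := measurableSet_Ioc.prod measurableSet_Ioc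
  refine Integrable.bdd_mul (c := C) h1 ?_ ?_
  · exact (hk.mono hsub).aestronglyMeasurable hmeas
  · filter_upwards [ae_restrict_mem hmeas] with z hz
    exact hC z (hsub hz)

lemma core {F : Polynomial ℝ} {p q b c s s' : ℝ} {β : ℝ → ℝ → ℝ} (hpq : p < q) (hqb : q < b)
    (hbc : b < c) (hs : s * s = 1) (hs' : s' * s' = 1)
    (hsx : ∀ x ∈ Ioo p q, 0 < s * F.eval x) (hsy : ∀ y ∈ Ioo b c, 0 < s' * F.eval y)
    (hFp : F.eval p = 0) (hFb : F.eval b = 0) (hFc : F.eval c = 0)
    (hu : IntervalIntegrable (fun x => 1 / √(s * F.eval x)) volume p q)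
    (hv : IntervalIntegrable (fun y => 1 / √(s' * F.eval y)) volume b c)
    (hβ : ∀ x y, -2 * (x - y) ^ 2 * β x y =
      (x - y) * (F.derivative.eval x + F.derivative.eval y) / 2 - (F.eval x - F.eval y)) :
    ∫ y in b..c, ∫ x in p..q, β x y * (1 / √(s * F.eval x) * (1 / √(s' * F.eval y))) =
      s / 2 * (√(s * F.eval q) * ∫ y in b..c, 1 / ((y - q) * √(s' * F.eval y))) := by
  set u : ℝ → ℝ := fun x => 1 / √(s * F.eval x) with hudef
  set v : ℝ → ℝ := fun y => 1 / √(s' * F.eval y) with hvdef
  set k1 : ℝ → ℝ → ℝ := fun x y =>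
    (F.derivative.eval x * (x - y) / 2 - F.eval x) / (x - y) ^ 2 with hk1
  set k2 : ℝ → ℝ → ℝ := fun x y =>
    (F.derivative.eval y * (x - y) / 2 + F.eval y) / (x - y) ^ 2 with hk2
  have hne : ∀ x ∈ Icc p q, ∀ y ∈ Icc b c, x - y ≠ 0 := by
    intro x hx y hy
    have h1 := hx.2
    have h2 := hy.1
    have : x - y < 0 := by linarith
    exact this.ne
  have hc1 : ContinuousOn (fun z : ℝ × ℝ => k1 z.1 z.2) (Icc p q ×ˢ Icc b c) := by
    refine ContinuousOn.div ?_ ?_ ?_
    · have := F.continuous
      have := F.derivative.continuous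
      fun_prop
    · fun_prop
    · intro z hz
      exact pow_ne_zero _ (hne z.1 hz.1 z.2 hz.2)
  have hc2 : ContinuousOn (fun z : ℝ × ℝ => k2 z.1 z.2) (Icc p q ×ˢ Icc b c) := by
    refine ContinuousOn.div ?_ ?_ ?_
    · have := F.continuous
      have := F.derivative.continuous
      fun_prop
    · fun_prop
    · intro z hz
      exact pow_ne_zero _ (hne z.1 hz.1 z.2 hz.2)
  have hu' : IntegrableOn u (Ioc p q) := (intervalIntegrable_iff_integrableOn_Ioc_of_le hpq.le).mp hu
  have hv' : IntegrableOn v (Ioc b c) := (intervalIntegrable_iff_integrableOn_Ioc_of_le hbc.le).mp hv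
  have hi1 := integrable_kernel (k := k1) hc1 hu' hv'
  have hi2 := integrable_kernel (k := k2) hc2 hu' hv'
  have hβk : ∀ x ∈ Icc p q, ∀ y ∈ Icc b c, β x y = (-1 / 2) * (k1 x y + k2 x y) := by
    intro x hx y hy
    have h0 := hne x hx y hy
    have h1 := hβ x y
    have h2 : β x y = ((x - y) * (F.derivative.eval x + F.derivative.eval y) / 2 -
        (F.eval x - F.eval y)) / (-2 * (x - y) ^ 2) := by
      rw [← h1]
      field_simp
    rw [h2]
    simp only [hk1, hk2]
    field_simp
    ring
  -- the inner integrals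
  have hin1 : ∀ y ∈ Ioo b c, ∫ x in p..q, k1 x y * (u x * v y) =
      s * √(s * F.eval q) / (q - y) * v y := by
    intro y hy
    have hy' : y ∈ Icc b c := Ioo_subset_Icc_self hy
    have hint : IntervalIntegrable (fun x => k1 x y * (u x * v y)) volume p q := by
      have hcc : ContinuousOn (fun x => k1 x y) (uIcc p q) := by
        rw [uIcc_of_le hpq.le]
        exact hc1.comp (f := fun x : ℝ => (x, y)) (by fun_prop) (fun x hx => ⟨hx, hy'⟩)
      have := (hu.continuousOn_mul hcc).mul_const (v y)
      refine this.congr ?_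
      intro x _
      simp only [hudef]
      ring
    have hder : ∀ x ∈ Ioo p q, HasDerivAt (fun x => s * √(s * F.eval x) / (x - y) * v y)
        (k1 x y * (u x * v y)) x := by
      intro x hx
      have hpos := hsx x hx
      have hxy := hne x (Ioo_subset_Icc_self hx) y hy'
      have hd1 : HasDerivAt (fun x => s * F.eval x) (s * F.derivative.eval x) x :=
        (F.hasDerivAt x).const_mul s
      have hd2 := hd1.sqrt hpos.ne'
      have hd3 := (hd2.const_mul s).div ((hasDerivAt_id x).sub_const y) hxy
      have hd4 := hd3.mul_const (v y)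
      refine hd4.congr_deriv ?_
      have hsq : √(s * F.eval x) ^ 2 = s * F.eval x := Real.sq_sqrt hpos.le
      have hsq0 : √(s * F.eval x) ≠ 0 := (Real.sqrt_pos.mpr hpos).ne'
      simp only [hk1, hudef, id]
      rw [← mul_assoc]
      congr 1
      have hFx : F.eval x = s * √(s * F.eval x) ^ 2 := by
        rw [hsq, ← mul_assoc, hs, one_mul]
      field_simp
      have e1 : √(s * F.eval x) ^ 2 = s * F.eval x := hsq
      linear_combination (F.derivative.eval x * (x - y)) * hs - 2 * s * e1
        - 2 * (F.eval x) * hs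
    have hcont : ContinuousOn (fun x => s * √(s * F.eval x) / (x - y) * v y) (Icc p q) := by
      have hF := F.continuous
      refine ContinuousOn.mul (ContinuousOn.div ?_ ?_ ?_) continuousOn_const
      · exact (continuous_const.mul ((continuous_const.mul hF).sqrt)).continuousOn
      · fun_prop
      · intro x hx
        exact hne x hx y hy'
    rw [intervalIntegral.integral_eq_sub_of_hasDerivAt_of_le hpq.le hcont hder hint]
    simp [hFp]
  have hin2 : ∀ x ∈ Ioc p q, ∫ y in b..c, k2 x y * (u x * v y) = 0 := by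
    intro x hx
    have hx' : x ∈ Icc p q := Ioc_subset_Icc_self hx
    have hint : IntervalIntegrable (fun y => k2 x y * (u x * v y)) volume b c := by
      have hcc : ContinuousOn (fun y => k2 x y) (uIcc b c) := by
        rw [uIcc_of_le hbc.le]
        exact hc2.comp (f := fun y : ℝ => (x, y)) (by fun_prop) (fun y hy => ⟨hx', hy⟩)
      have := (hv.continuousOn_mul hcc).mul_const (u x)
      refine this.congr ?_
      intro y _
      simp only [hvdef]
      ring
    have hder : ∀ y ∈ Ioo b c, HasDerivAt (fun y => s' * √(s' * F.eval y) / (x - y) * u x)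
        (k2 x y * (u x * v y)) y := by
      intro y hy
      have hpos := hsy y hy
      have hxy := hne x hx' y (Ioo_subset_Icc_self hy)
      have hd1 : HasDerivAt (fun y => s' * F.eval y) (s' * F.derivative.eval y) y :=
        (F.hasDerivAt y).const_mul s'
      have hd2 := hd1.sqrt hpos.ne'
      have hd3 := (hd2.const_mul s').div ((hasDerivAt_id y).const_sub x) hxy
      have hd4 := hd3.mul_const (u x)
      refine hd4.congr_deriv ?_
      have hsq : √(s' * F.eval y) ^ 2 = s' * F.eval y := Real.sq_sqrt hpos.le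
      have hsq0 : √(s' * F.eval y) ≠ 0 := (Real.sqrt_pos.mpr hpos).ne'
      simp only [hk2, hvdef, id]
      rw [mul_comm (u x), ← mul_assoc]
      congr 1
      field_simp
      linear_combination (F.derivative.eval y * (x - y)) * hs' + 2 * s' * hsq
        + 2 * (F.eval y) * hs'
    have hcont : ContinuousOn (fun y => s' * √(s' * F.eval y) / (x - y) * u x) (Icc b c) := by
      have hF := F.continuous
      refine ContinuousOn.mul (ContinuousOn.div ?_ ?_ ?_) continuousOn_const
      · exact (continuous_const.mul ((continuous_const.mul hF).sqrt)).continuousOn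
      · fun_prop
      · intro y hy
        exact hne x hx' y hy
    rw [intervalIntegral.integral_eq_sub_of_hasDerivAt_of_le hbc.le hcont hder hint]
    simp [hFb, hFc]
  -- assembling
  have hL : ∫ y in b..c, ∫ x in p..q, β x y * (u x * v y) =
      ∫ z : ℝ × ℝ, (-1 / 2) * (k1 z.1 z.2 * (u z.1 * v z.2) + k2 z.1 z.2 * (u z.1 * v z.2))
        ∂((volume.restrict (Ioc p q)).prod (volume.restrict (Ioc b c))) := by
    have hi12 : Integrable (fun z : ℝ × ℝ => (-1 / 2) * (k1 z.1 z.2 * (u z.1 * v z.2) +
        k2 z.1 z.2 * (u z.1 * v z.2)))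
        ((volume.restrict (Ioc p q)).prod (volume.restrict (Ioc b c))) :=
      (hi1.add hi2).const_mul (-1 / 2)
    rw [integral_prod_symm _ hi12]
    rw [intervalIntegral.integral_of_le hbc.le]
    refine setIntegral_congr_fun measurableSet_Ioc ?_
    intro y hy
    show ∫ x in p..q, β x y * (u x * v y) = _
    rw [intervalIntegral.integral_of_le hpq.le]
    refine setIntegral_congr_fun measurableSet_Ioc ?_
    intro x hx
    show β x y * (u x * v y) = _
    rw [hβk x (Ioc_subset_Icc_self hx) y (Ioc_subset_Icc_self hy)]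
    ring
  rw [hL, integral_const_mul, integral_add hi1 hi2, integral_prod_symm _ hi1, integral_prod _ hi2]
  have e2 : ∫ x in Ioc p q, ∫ y in Ioc b c, k2 x y * (u x * v y) = 0 := by
    rw [setIntegral_congr_fun (g := fun _ => (0 : ℝ)) measurableSet_Ioc]
    · simp
    · intro x hx
      have := hin2 x hx
      rw [intervalIntegral.integral_of_le hbc.le] at this
      exact this
  have e1 : ∫ y in Ioc b c, ∫ x in Ioc p q, k1 x y * (u x * v y) =
      ∫ y in b..c, (-(s * √(s * F.eval q))) * (1 / ((y - q) * √(s' * F.eval y))) := by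
    rw [intervalIntegral.integral_of_le hbc.le, integral_Ioc_eq_integral_Ioo,
      integral_Ioc_eq_integral_Ioo]
    refine setIntegral_congr_fun measurableSet_Ioo ?_
    intro y hy
    have h1 := hin1 y hy
    rw [intervalIntegral.integral_of_le hpq.le] at h1
    show ∫ x in Ioc p q, k1 x y * (u x * v y) = _
    rw [h1]
    have h2 : q - y ≠ 0 := by
      have := hy.1
      have h3 : q - y < 0 := by linarith
      exact h3.ne
    have h3 : y - q ≠ 0 := by
      intro h
      apply h2
      linarith
    have h4 : √(s' * F.eval y) ≠ 0 := (Real.sqrt_pos.mpr (hsy y hy)).ne'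
    simp only [hvdef]
    field_simp
    ring
  rw [e1, e2, intervalIntegral.integral_const_mul]
  ring

lemma evalF (g : ℕ) (a : ℕ → ℝ) (t x : ℝ) :
    (Fpol g a t).eval x = (∏ i ∈ Finset.range (2 * g), (x - a i)) * (x - t) := by
  simp [Fpol, Polynomial.eval_prod]

lemma lt_rend {g : ℕ} {a : ℕ → ℝ} {t : ℝ} (ha : StrictMono a) (ht : a (2 * g - 1) < t) {n : ℕ}
    (hn : n < 2 * g) : a n < rend g a t n := by
  unfold rend
  split_ifs with h
  · exact ha (Nat.lt_succ_self n)
  · have : n = 2 * g - 1 := by omega
    rw [this]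
    exact ht

lemma rend_le {g : ℕ} {a : ℕ → ℝ} {t : ℝ} (ha : StrictMono a) (ht : a (2 * g - 1) < t) {n : ℕ}
    (hn : n < 2 * g) : rend g a t n ≤ t := by
  unfold rend
  split_ifs with h
  · have h2 : a (n + 1) ≤ a (2 * g - 1) := ha.monotone (by omega)
    linarith
  · exact le_rfl

lemma sgn {g : ℕ} {a : ℕ → ℝ} {t : ℝ} (ha : StrictMono a) (ht : a (2 * g - 1) < t) {n : ℕ}
    (hn : n < 2 * g) {x : ℝ} (hx : x ∈ Ioo (a n) (rend g a t n)) :
    0 < (-1 : ℝ) ^ n * (Fpol g a t).eval x := by
  have hxt : x < t := lt_of_lt_of_le hx.2 (rend_le ha ht hn)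
  have hxr : ∀ i ∈ Finset.Ico (n + 1) (2 * g), 0 < a i - x := by
    intro i hi
    rw [Finset.mem_Ico] at hi
    have h := hx.2
    unfold rend at h
    rw [if_pos (by omega)] at h
    have h2 : a (n + 1) ≤ a i := ha.monotone hi.1
    linarith
  have hxl : ∀ i ∈ Finset.range (n + 1), 0 < x - a i := by
    intro i hi
    rw [Finset.mem_range] at hi
    have h2 : a i ≤ a n := ha.monotone (by omega)
    have := hx.1
    linarith
  rw [evalF, ← Finset.prod_range_mul_prod_Ico _ (show n + 1 ≤ 2 * g by omega)]
  have e1 : ∏ i ∈ Finset.Ico (n + 1) (2 * g), (x - a i) =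
      (-1) ^ (2 * g - (n + 1)) * ∏ i ∈ Finset.Ico (n + 1) (2 * g), (a i - x) := by
    have : ∀ i, x - a i = (-1) * (a i - x) := by intro i; ring
    simp_rw [this]
    rw [Finset.prod_mul_distrib, Finset.prod_const, Nat.card_Ico]
  rw [e1]
  have h1 := Finset.prod_pos hxl
  have h2 := Finset.prod_pos hxr
  have h3 : (-1 : ℝ) ^ n * (-1) ^ (2 * g - (n + 1)) * (-1) = 1 := by
    rw [← pow_add, ← pow_succ]
    have : n + (2 * g - (n + 1)) + 1 = 2 * g := by omega
    rw [this, pow_mul]
    simp
  have h4 : 0 < t - x := by linarith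
  have h5 := mul_pos (mul_pos h1 h2) h4
  calc (0 : ℝ) < _ := h5
    _ = ((∏ i ∈ Finset.range (n + 1), (x - a i)) *
        (∏ i ∈ Finset.Ico (n + 1) (2 * g), (a i - x)) * (t - x)) *
        ((-1 : ℝ) ^ n * (-1) ^ (2 * g - (n + 1)) * (-1)) := by rw [h3, mul_one]
    _ = _ := by ring

lemma F_left {g : ℕ} {a : ℕ → ℝ} {t : ℝ} {n : ℕ} (hn : n < 2 * g) :
    (Fpol g a t).eval (a n) = 0 := by
  rw [evalF, Finset.prod_eq_zero (Finset.mem_range.mpr hn) (by simp), zero_mul]

lemma F_rend {g : ℕ} {a : ℕ → ℝ} {t : ℝ} {n : ℕ} :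
    (Fpol g a t).eval (rend g a t n) = 0 := by
  unfold rend
  split_ifs with h
  · exact F_left h
  · rw [evalF]; simp

lemma abs_eq {g : ℕ} {a : ℕ → ℝ} {t : ℝ} (ha : StrictMono a) (ht : a (2 * g - 1) < t) {n : ℕ}
    (hn : n < 2 * g) {x : ℝ} (hx : x ∈ Icc (a n) (rend g a t n)) :
    |(Fpol g a t).eval x| = (-1 : ℝ) ^ n * (Fpol g a t).eval x := by
  rcases eq_or_lt_of_le hx.1 with h | h
  · rw [← h, F_left hn]; simp
  rcases eq_or_lt_of_le hx.2 with h' | h'
  · rw [h', F_rend]; simp
  have h1 := sgn ha ht hn ⟨h, h'⟩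
  have h2 : |(-1 : ℝ) ^ n * (Fpol g a t).eval x| = |(Fpol g a t).eval x| := by
    rw [abs_mul]; simp
  rw [← h2, abs_of_pos h1]

/-- Integrability on a whole interval. -/
lemma int1 (h : Stmt_Intg) {g : ℕ} {a : ℕ → ℝ} {t : ℝ} (ha : StrictMono a)
    (ht : a (2 * g - 1) < t) {n : ℕ} (hn : n < 2 * g) :
    IntervalIntegrable (fun x => 1 / √|(Fpol g a t).eval x|) volume (a n) (rend g a t n) := by
  have hfac : ∃ R : Polynomial ℝ, (∀ x, (Fpol g a t).eval x =
      ((x - a n) * (x - rend g a t n)) * R.eval x) ∧ R.eval (a n) ≠ 0 ∧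
      R.eval (rend g a t n) ≠ 0 := by
    by_cases hc : n + 1 < 2 * g
    · refine ⟨(∏ i ∈ ((Finset.range (2 * g)).erase n).erase (n + 1),
        (Polynomial.X - Polynomial.C (a i))) * (Polynomial.X - Polynomial.C t), ?_, ?_, ?_⟩
      · intro x
        rw [evalF]
        have h1 : n ∈ Finset.range (2 * g) := Finset.mem_range.mpr hn
        have h2 : n + 1 ∈ (Finset.range (2 * g)).erase n :=
          Finset.mem_erase.mpr ⟨by omega, Finset.mem_range.mpr hc⟩
        rw [← Finset.mul_prod_erase _ _ h1, ← Finset.mul_prod_erase _ _ h2]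
        simp only [rend, if_pos hc, Polynomial.eval_mul, Polynomial.eval_prod,
          Polynomial.eval_sub, Polynomial.eval_X, Polynomial.eval_C]
        ring
      · simp only [Polynomial.eval_mul, Polynomial.eval_prod,
          Polynomial.eval_sub, Polynomial.eval_X, Polynomial.eval_C]
        refine mul_ne_zero (Finset.prod_ne_zero_iff.mpr ?_) ?_
        · intro i hi
          have hi' : i ≠ n := by
            simp only [Finset.mem_erase] at hi
            exact hi.2.1
          exact sub_ne_zero.mpr (fun h => hi' (ha.injective h.symm))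
        · have h2 : a n ≤ a (2 * g - 1) := ha.monotone (by omega)
          intro h3
          linarith
      · simp only [rend, if_pos hc, Polynomial.eval_mul, Polynomial.eval_prod,
          Polynomial.eval_sub, Polynomial.eval_X, Polynomial.eval_C]
        refine mul_ne_zero (Finset.prod_ne_zero_iff.mpr ?_) ?_
        · intro i hi
          have hi' : i ≠ n + 1 := by
            simp only [Finset.mem_erase] at hi
            exact hi.1
          exact sub_ne_zero.mpr (fun h => hi' (ha.injective h.symm))
        · have h2 : a (n + 1) ≤ a (2 * g - 1) := ha.monotone (by omega)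
          intro h3
          linarith
    · refine ⟨∏ i ∈ (Finset.range (2 * g)).erase n, (Polynomial.X - Polynomial.C (a i)),
        ?_, ?_, ?_⟩
      · intro x
        rw [evalF]
        have h1 : n ∈ Finset.range (2 * g) := Finset.mem_range.mpr hn
        rw [← Finset.mul_prod_erase _ _ h1]
        simp only [rend, if_neg hc, Polynomial.eval_prod,
          Polynomial.eval_sub, Polynomial.eval_X, Polynomial.eval_C]
        ring
      · simp only [Polynomial.eval_prod,
          Polynomial.eval_sub, Polynomial.eval_X, Polynomial.eval_C]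
        refine (Finset.prod_ne_zero_iff.mpr ?_)
        intro i hi
        have hi' : i ≠ n := by
          simp only [Finset.mem_erase] at hi
          exact hi.1
        exact sub_ne_zero.mpr (fun h => hi' (ha.injective h.symm))
      · simp only [rend, if_neg hc, Polynomial.eval_prod,
          Polynomial.eval_sub, Polynomial.eval_X, Polynomial.eval_C]
        refine (Finset.prod_ne_zero_iff.mpr ?_)
        intro i hi
        have hi' : i < 2 * g := by
          simp only [Finset.mem_erase, Finset.mem_range] at hi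
          exact hi.2
        have h2 : a i ≤ a (2 * g - 1) := ha.monotone (by omega)
        intro h3
        linarith
  obtain ⟨R, hR, hR1, hR2⟩ := hfac
  have hlt := lt_rend ha ht hn
  have hpos : ∀ x ∈ Icc (a n) (rend g a t n), 0 < |R.eval x| := by
    intro x hx
    rw [abs_pos]
    rcases eq_or_lt_of_le hx.1 with h1 | h1
    · rw [← h1]; exact hR1
    rcases eq_or_lt_of_le hx.2 with h2 | h2
    · rw [h2]; exact hR2
    intro h3
    have h4 := sgn ha ht hn ⟨h1, h2⟩
    rw [hR, h3] at h4
    simp at h4
  have := h (a n) (rend g a t n) (fun x => |R.eval x|) hlt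
    (R.continuous.abs.continuousOn) hpos
  refine this.congr ?_
  intro x _
  show 1 / √(|(x - a n) * (x - rend g a t n)| * |R.eval x|) = 1 / √|(Fpol g a t).eval x|
  rw [← abs_mul, ← hR]

end RCut_

open RCut_ in
theorem rcut_proof (hA : Stmt_RAlg) (hI : Stmt_Intg) : Stmt_RCut := by
  intro g a hg ha t ht m n hmn hn q hq1 hq2 hqn
  have hm : m < 2 * g := by omega
  have hmr : rend g a t m = a (m + 1) := by
    unfold rend
    rw [if_pos (by omega)]
  set F := Fpol g a t with hF
  set β : ℝ → ℝ → ℝ := fun x y => ∑ j : Fin g,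
    ((num g a t (.inl j)).eval x * (num g a t (.inr j)).eval y -
      (num g a t (.inr j)).eval x * (num g a t (.inl j)).eval y) with hβ
  have habs1 : ∀ x ∈ Icc (a m) q, |F.eval x| = (-1 : ℝ) ^ m * F.eval x := by
    intro x hx
    exact abs_eq ha ht hm ⟨hx.1, by rw [hmr]; linarith [hx.2]⟩
  have habs2 : ∀ y ∈ Icc (a n) (rend g a t n), |F.eval y| = (-1 : ℝ) ^ n * F.eval y := by
    intro y hy
    exact abs_eq ha ht hn hy
  have hnr := lt_rend ha ht hn
  have hu0 : IntervalIntegrable (fun x => 1 / √|F.eval x|) volume (a m) q := by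
    refine (int1 hI ha ht hm).mono_set ?_
    rw [uIcc_of_le hq1.le, uIcc_of_le (lt_rend ha ht hm).le, hmr]
    exact Icc_subset_Icc le_rfl hq2
  have hv0 : IntervalIntegrable (fun x => 1 / √|F.eval x|) volume (a n) (rend g a t n) :=
    int1 hI ha ht hn
  have hu : IntervalIntegrable (fun x => 1 / √((-1 : ℝ) ^ m * F.eval x)) volume (a m) q := by
    refine hu0.congr ?_
    intro x hx
    rw [uIoc_of_le hq1.le] at hx
    simp only
    rw [habs1 x (Ioc_subset_Icc_self hx)]
  have hv : IntervalIntegrable (fun x => 1 / √((-1 : ℝ) ^ n * F.eval x)) volume (a n)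
      (rend g a t n) := by
    refine hv0.congr ?_
    intro x hx
    rw [uIoc_of_le hnr.le] at hx
    simp only
    rw [habs2 x (Ioc_subset_Icc_self hx)]
  have key := core (F := F) (p := a m) (q := q) (b := a n) (c := rend g a t n)
    (s := (-1) ^ m) (s' := (-1) ^ n) (β := β) hq1 hqn hnr
    (by rw [← pow_add, ← two_mul, pow_mul]; simp)
    (by rw [← pow_add, ← two_mul, pow_mul]; simp)
    (fun x hx => sgn ha ht hm ⟨hx.1, by rw [hmr]; linarith [hx.2]⟩)
    (fun y hy => sgn ha ht hn hy)
    (F_left hm) (F_left hn) F_rend hu hv (fun x y => hA g a t x y)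
  have hR : √|F.eval q| * ∫ y in (a n)..(rend g a t n), 1 / ((y - q) * √|F.eval y|) =
      √((-1 : ℝ) ^ m * F.eval q) *
        ∫ y in (a n)..(rend g a t n), 1 / ((y - q) * √((-1 : ℝ) ^ n * F.eval y)) := by
    rw [habs1 q ⟨hq1.le, le_rfl⟩]
    congr 1
    refine intervalIntegral.integral_congr ?_
    intro y hy
    rw [uIcc_of_le hnr.le] at hy
    simp only
    rw [habs2 y hy]
  rw [hR, ← key]
  have hL : ∀ y, ∫ x in (a m)..q, β x y * (1 / √((-1 : ℝ) ^ m * F.eval x) *
      (1 / √((-1 : ℝ) ^ n * F.eval y))) = ∑ j : Fin g,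
      ((∫ x in (a m)..q, (num g a t (.inl j)).eval x / √|F.eval x|) *
        ((num g a t (.inr j)).eval y / √((-1 : ℝ) ^ n * F.eval y)) -
      (∫ x in (a m)..q, (num g a t (.inr j)).eval x / √|F.eval x|) *
        ((num g a t (.inl j)).eval y / √((-1 : ℝ) ^ n * F.eval y))) := by
    intro y
    have hi : ∀ p : Polynomial ℝ, IntervalIntegrable (fun x => p.eval x / √|F.eval x|) volume
        (a m) q := by
      intro p
      have := hu0.continuousOn_mul (p.continuous.continuousOn (s := uIcc (a m) q))
      refine this.congr ?_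
      intro x _
      simp only
      ring
    simp_rw [← intervalIntegral.integral_mul_const]
    rw [← Finset.sum_congr rfl (fun j _ => intervalIntegral.integral_sub
      ((hi (num g a t (.inl j))).mul_const _) ((hi (num g a t (.inr j))).mul_const _))]
    rw [← intervalIntegral.integral_finset_sum]
    · refine intervalIntegral.integral_congr ?_
      intro x hx
      rw [uIcc_of_le hq1.le] at hx
      simp only [hβ]
      rw [habs1 x hx, Finset.sum_mul]
      refine Finset.sum_congr rfl (fun j _ => ?_)
      ring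
    · intro j _
      exact ((hi (num g a t (.inl j))).mul_const _).sub ((hi (num g a t (.inr j))).mul_const _)
  simp_rw [hL]
  have hi : ∀ p : Polynomial ℝ, IntervalIntegrable
      (fun y => p.eval y / √((-1 : ℝ) ^ n * F.eval y)) volume (a n) (rend g a t n) := by
    intro p
    have := hv.continuousOn_mul (p.continuous.continuousOn (s := uIcc (a n) (rend g a t n)))
    refine this.congr ?_
    intro x _
    simp only
    ring
  rw [intervalIntegral.integral_finset_sum]
  · refine Finset.sum_congr rfl (fun j _ => ?_)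
    rw [intervalIntegral.integral_sub ((hi _).const_mul _) ((hi _).const_mul _),
      intervalIntegral.integral_const_mul, intervalIntegral.integral_const_mul]
    have hp : ∀ p : Polynomial ℝ, per g a t n p =
        ∫ y in (a n)..(rend g a t n), p.eval y / √((-1 : ℝ) ^ n * F.eval y) := by
      intro p
      unfold per
      refine intervalIntegral.integral_congr ?_
      intro y hy
      rw [uIcc_of_le hnr.le] at hy
      simp only
      rw [← habs2 y hy]
    rw [hp, hp]
  · intro j _
    exact ((hi _).const_mul _).sub ((hi _).const_mul _)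

end Pool.Agent.HGP
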