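import Pool.Agent.HGP.Stmts

/-!
# HGP: far intervals are orthogonal
-/

open scoped BigOperators Topology
open Metric Set MeasureTheory

namespace Pool.Agent.HGP

theorem rfar_proof (h : Stmt_RCut) : Stmt_RFar := by
  intro g a hg ha t ht m n hmn hn
  have hm : m + 1 < 2 * g := by omega
  have h1 := h g a hg ha t ht m n (by omega) hn (a (m + 1)) (ha (Nat.lt_succ_self m)) le_rfl
    (ha hmn)
  have hF : (Fpol g a t).eval (a (m + 1)) = 0 := by
    unfold Fpol
    rw [Polynomial.eval_mul, Polynomial.eval_prod]
    rw [Finset.prod_eq_zero (Finset.mem_range.mpr hm) (by simp), zero_mul]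
  rw [hF] at h1
  simp only [abs_zero, Real.sqrt_zero, zero_mul, mul_zero] at h1
  unfold bil
  have hr : rend g a t m = a (m + 1) := by
    unfold rend
    rw [if_pos hm]
  rw [← h1]
  apply Finset.sum_congr rfl
  intro j _
  unfold per
  rw [hr]

end Pool.Agent.HGP
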