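import Pool.Agent.HGP.Stmts

/-!
# HGP: Riemann's bilinear relations
-/

open scoped BigOperators Topology
open Metric Set

namespace Pool.Agent.HGP

noncomputable section

namespace RIEM_

variable {g : ℕ}

lemma entry (P : Matrix (Ix g) (Ix g) ℂ) (c c' : Ix g) :
    (P.transpose * Matrix.J (Fin g) ℂ * P) c c' =
      ∑ l : Fin g, (P (.inr l) c * P (.inl l) c' - P (.inl l) c * P (.inr l) c') := by
  rw [Matrix.mul_apply, Fintype.sum_sum_type, Finset.sum_sub_distrib, sub_eq_add_neg]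
  congr 1
  · refine Finset.sum_congr rfl fun l _ => ?_
    rw [Matrix.mul_apply, Fintype.sum_sum_type]
    simp [Matrix.J, Matrix.one_apply]
  · rw [← Finset.sum_neg_distrib]
    refine Finset.sum_congr rfl fun l _ => ?_
    rw [Matrix.mul_apply, Fintype.sum_sum_type]
    simp [Matrix.J, Matrix.one_apply]

lemma key (pr : ℕ → Ix g → ℂ) (S S' : Finset ℕ) (u v : ℕ → ℂ) (φ ψ : ℕ → ℕ) :
    ∑ l : Fin g, ((∑ m ∈ S, u m * pr (φ m) (.inr l)) * (∑ n ∈ S', v n * pr (ψ n) (.inl l)) -
      (∑ m ∈ S, u m * pr (φ m) (.inl l)) * (∑ n ∈ S', v n * pr (ψ n) (.inr l))) =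
    -∑ m ∈ S, ∑ n ∈ S', u m * v n * ∑ l : Fin g, (pr (φ m) (.inl l) * pr (ψ n) (.inr l) -
      pr (φ m) (.inr l) * pr (ψ n) (.inl l)) := by
  have h1 : ∀ l : Fin g, ((∑ m ∈ S, u m * pr (φ m) (.inr l)) *
      (∑ n ∈ S', v n * pr (ψ n) (.inl l)) -
      (∑ m ∈ S, u m * pr (φ m) (.inl l)) * (∑ n ∈ S', v n * pr (ψ n) (.inr l))) =
      ∑ m ∈ S, ∑ n ∈ S', -(u m * v n * (pr (φ m) (.inl l) * pr (ψ n) (.inr l) -
        pr (φ m) (.inr l) * pr (ψ n) (.inl l))) := by
    intro l
    rw [Finset.sum_mul_sum, Finset.sum_mul_sum, ← Finset.sum_sub_distrib]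
    refine Finset.sum_congr rfl fun m _ => ?_
    rw [← Finset.sum_sub_distrib]
    refine Finset.sum_congr rfl fun n _ => ?_
    ring
  simp_rw [h1]
  rw [Finset.sum_comm, ← Finset.sum_neg_distrib]
  refine Finset.sum_congr rfl fun m _ => ?_
  rw [Finset.sum_comm, ← Finset.sum_neg_distrib]
  refine Finset.sum_congr rfl fun n _ => ?_
  rw [Finset.mul_sum, ← Finset.sum_neg_distrib]

lemma sgn_sum (i j : ℕ) (hi : i < g) :
    ∑ n ∈ Finset.Ico j g, ((if n = i then (-1 : ℂ) ^ n else 0) +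
      (if n + 1 = i then (-1 : ℂ) ^ n else 0)) = if i = j then (-1) ^ i else 0 := by
  rw [Finset.sum_add_distrib]
  have h1 : ∑ n ∈ Finset.Ico j g, (if n = i then (-1 : ℂ) ^ n else 0) =
      if j ≤ i then (-1) ^ i else 0 := by
    rw [Finset.sum_ite_eq' (Finset.Ico j g) i (fun n => (-1 : ℂ) ^ n)]
    simp [Finset.mem_Ico, hi]
  rw [h1]
  cases i with
  | zero =>
    have h2 : ∑ n ∈ Finset.Ico j g, (if n + 1 = 0 then (-1 : ℂ) ^ n else 0) = 0 :=
      Finset.sum_eq_zero fun n _ => by simp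
    rw [h2, add_zero]
    by_cases hj : j = 0
    · subst hj; simp
    · rw [if_neg (by omega), if_neg (by omega)]
  | succ i =>
    have h2 : ∑ n ∈ Finset.Ico j g, (if n + 1 = i + 1 then (-1 : ℂ) ^ n else 0) =
        if j ≤ i then (-1) ^ i else 0 := by
      have : ∀ n ∈ Finset.Ico j g, (if n + 1 = i + 1 then (-1 : ℂ) ^ n else 0) =
          (if n = i then (-1 : ℂ) ^ n else 0) := by
        intro n _
        by_cases h : n = i
        · subst h; simp
        · rw [if_neg (by omega), if_neg h]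
      rw [Finset.sum_congr rfl this, Finset.sum_ite_eq' (Finset.Ico j g) i (fun n => (-1 : ℂ) ^ n)]
      have hi' : i < g := by omega
      simp [Finset.mem_Ico, hi']
    rw [h2]
    by_cases hj : j ≤ i
    · rw [if_pos (by omega), if_pos hj, if_neg (by omega), pow_succ]; ring
    · by_cases hj' : i + 1 = j
      · rw [if_pos (by omega), if_neg hj, if_pos hj', add_zero]
      · rw [if_neg (by omega), if_neg hj, if_neg hj', add_zero]

end RIEM_

open RIEM_ in
theorem riem_proof (hF : Stmt_RFar) (hA : Stmt_RAdj) : Stmt_Riem := by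
  intro g a hg ha t ht
  have anti : ∀ m n, bil g a t m n = -bil g a t n m := by
    intro m n
    unfold bil
    rw [← Finset.sum_neg_distrib]
    refine Finset.sum_congr rfl fun j _ => ?_
    ring
  have self : ∀ m, bil g a t m m = 0 := by
    intro m
    have := anti m m
    linarith
  have heven : ∀ i j : ℕ, i < g → j < g → bil g a t (2 * i) (2 * j) = 0 := by
    intro i j hi hj
    rcases lt_trichotomy i j with h | h | h
    · exact hF g a hg ha t ht _ _ (by omega) (by omega)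
    · subst h; exact self _
    · rw [anti, hF g a hg ha t ht _ _ (by omega) (by omega), neg_zero]
  have hodd : ∀ i j : ℕ, i < g → j < g → bil g a t (2 * i + 1) (2 * j + 1) = 0 := by
    intro i j hi hj
    rcases lt_trichotomy i j with h | h | h
    · exact hF g a hg ha t ht _ _ (by omega) (by omega)
    · subst h; exact self _
    · rw [anti, hF g a hg ha t ht _ _ (by omega) (by omega), neg_zero]
  have hmix : ∀ i n : ℕ, i < g → n < g → bil g a t (2 * i) (2 * n + 1) =
      Real.pi / 2 * ((if n = i then 1 else 0) + (if n + 1 = i then 1 else 0)) := by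
    intro i n hi hn
    by_cases h1 : n = i
    · subst h1
      rw [hA g a hg ha t ht _ (by omega), if_pos rfl, if_neg (by omega), pow_mul]
      norm_num
    · by_cases h2 : n + 1 = i
      · subst h2
        have h3 := hA g a hg ha t ht (2 * n + 1) (by omega)
        rw [anti, show 2 * (n + 1) = 2 * n + 1 + 1 by ring, h3, if_neg (by omega), if_pos rfl,
          pow_succ, pow_mul]
        norm_num
      · rw [if_neg h1, if_neg h2, add_zero, mul_zero]
        rcases lt_or_ge (2 * i) (2 * n + 1) with h | h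
        · exact hF g a hg ha t ht _ _ (by omega) (by omega)
        · rw [anti, hF g a hg ha t ht _ _ (by omega) (by omega), neg_zero]
  set pr : ℕ → Ix g → ℂ := fun m k => (per g a t m (num g a t k) : ℂ) with hpr
  have hb : ∀ m n : ℕ, ∑ l : Fin g, (pr m (.inl l) * pr n (.inr l) -
      pr m (.inr l) * pr n (.inl l)) = (bil g a t m n : ℂ) := by
    intro m n
    unfold bil
    push_cast
    rfl
  have hl : ∀ (k : Ix g) (i : Fin g), Per g a t k (.inl i) =
      ∑ m ∈ ({(i : ℕ)} : Finset ℕ), (2 * (-1) ^ m : ℂ) * pr (2 * m) k := by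
    intro k i
    rw [Finset.sum_singleton]
    rfl
  have hr : ∀ (k : Ix g) (i : Fin g), Per g a t k (.inr i) =
      ∑ m ∈ Finset.Ico (i : ℕ) g, (2 * Complex.I * (-1) ^ m : ℂ) * pr (2 * m + 1) k := by
    intro k i
    have : Per g a t k (.inr i) = 2 * Complex.I *
        ∑ m ∈ Finset.Ico (i : ℕ) g, (-1) ^ m * (per g a t (2 * m + 1) (num g a t k) : ℂ) := rfl
    rw [this, Finset.mul_sum]
    refine Finset.sum_congr rfl fun m _ => ?_
    rw [hpr]
    ring
  have main_lr : ∀ i j : Fin g, -∑ m ∈ ({(i : ℕ)} : Finset ℕ), ∑ n ∈ Finset.Ico (j : ℕ) g,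
      (2 * (-1) ^ m : ℂ) * (2 * Complex.I * (-1) ^ n : ℂ) *
        (bil g a t (2 * m) (2 * n + 1) : ℂ) =
      -(2 * Real.pi * Complex.I) * (if i = j then 1 else 0) := by
    intro i j
    rw [Finset.sum_singleton]
    have h1 : ∑ n ∈ Finset.Ico (j : ℕ) g, (2 * (-1) ^ (i : ℕ) : ℂ) *
        (2 * Complex.I * (-1) ^ n : ℂ) * (bil g a t (2 * (i : ℕ)) (2 * n + 1) : ℂ) =
        (2 * Real.pi * Complex.I * (-1) ^ (i : ℕ)) * ∑ n ∈ Finset.Ico (j : ℕ) g,
          ((if n = (i : ℕ) then (-1 : ℂ) ^ n else 0) +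
            (if n + 1 = (i : ℕ) then (-1 : ℂ) ^ n else 0)) := by
      rw [Finset.mul_sum]
      refine Finset.sum_congr rfl fun n hn => ?_
      rw [hmix i n i.2 (Finset.mem_Ico.1 hn).2]
      push_cast
      by_cases h1 : n = (i : ℕ) <;> by_cases h2 : n + 1 = (i : ℕ) <;> simp [h1, h2] <;> ring
    rw [h1, sgn_sum (i : ℕ) (j : ℕ) i.2]
    by_cases h : i = j
    · subst h
      rw [if_pos rfl, if_pos rfl]
      have : ((-1 : ℂ) ^ (i : ℕ)) * (-1) ^ (i : ℕ) = 1 := by
        rw [← mul_pow]; norm_num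
      linear_combination (-(2 * Real.pi * Complex.I : ℂ)) * this
    · rw [if_neg (fun h' => h (Fin.ext h')), if_neg h]
      ring
  unfold Simil
  ext c c'
  rw [entry, Matrix.smul_apply, smul_eq_mul]
  rcases c with i | i <;> rcases c' with j | j
  · simp_rw [hl]
    rw [key pr _ _ _ _ (fun m => 2 * m) (fun m => 2 * m)]
    simp_rw [hb]
    rw [Finset.sum_singleton, Finset.sum_singleton, heven i j i.2 j.2]
    simp [Matrix.J]
  · simp_rw [hl, hr]
    rw [key pr _ _ _ _ (fun m => 2 * m) (fun m => 2 * m + 1)]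
    simp_rw [hb]
    rw [main_lr]
    by_cases hij : i = j
    · subst hij; simp [Matrix.J]
    · simp [Matrix.J, hij]
  · simp_rw [hl, hr]
    rw [key pr _ _ _ _ (fun m => 2 * m + 1) (fun m => 2 * m)]
    simp_rw [hb]
    rw [Finset.sum_comm]
    have h := main_lr j i
    have h2 : -∑ m ∈ ({(j : ℕ)} : Finset ℕ), ∑ n ∈ Finset.Ico (i : ℕ) g,
      (2 * (-1) ^ m : ℂ) * (2 * Complex.I * (-1) ^ n : ℂ) *
        (bil g a t (2 * m) (2 * n + 1) : ℂ) =
      -(-∑ m ∈ ({(j : ℕ)} : Finset ℕ), ∑ n ∈ Finset.Ico (i : ℕ) g,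
      (2 * Complex.I * (-1) ^ n : ℂ) * (2 * (-1) ^ m : ℂ) *
        (bil g a t (2 * n + 1) (2 * m) : ℂ)) := by
      rw [neg_neg, ← Finset.sum_neg_distrib]
      refine Finset.sum_congr rfl fun m _ => ?_
      rw [← Finset.sum_neg_distrib]
      refine Finset.sum_congr rfl fun n _ => ?_
      rw [anti (2 * m) (2 * n + 1)]
      push_cast
      ring
    have h3 := h2.symm.trans h
    rw [neg_eq_iff_eq_neg] at h3
    rw [h3]
    by_cases hij : j = i
    · subst hij; simp [Matrix.J]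
    · simp [Matrix.J, hij, Ne.symm hij]
  · simp_rw [hr]
    rw [key pr _ _ _ _ (fun m => 2 * m + 1) (fun m => 2 * m + 1)]
    simp_rw [hb]
    have : ∑ m ∈ Finset.Ico (i : ℕ) g, ∑ n ∈ Finset.Ico (j : ℕ) g,
        (2 * Complex.I * (-1) ^ m : ℂ) * (2 * Complex.I * (-1) ^ n : ℂ) *
        (bil g a t (2 * m + 1) (2 * n + 1) : ℂ) = 0 := by
      refine Finset.sum_eq_zero fun m hm => Finset.sum_eq_zero fun n hn => ?_
      rw [hodd m n (Finset.mem_Ico.1 hm).2 (Finset.mem_Ico.1 hn).2]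
      simp
    rw [this]
    simp [Matrix.J]

end

end Pool.Agent.HGP
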