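import Pool.Agent.HGP.Stmts

/-!
# HGP: module RIEMC (Riemann relations for complex parameters)
-/

open scoped BigOperators Topology
open Metric Set MeasureTheory

namespace Pool.Agent.HGP

theorem riemc_proof (h1 : Stmt_Riem) (h2 : Stmt_Plink) (h3 : Stmt_Phol) : Stmt_RiemC := by
  intro g a hg ha t ht
  unfold Simil
  ext c d
  set b : ℝ := a (2 * g - 1) with hb
  set f : ℂ → ℂ := fun t => ((PerC g a t).transpose * Matrix.J (Fin g) ℂ * PerC g a t) c d -
    ((2 * Real.pi * Complex.I : ℂ) • Matrix.J (Fin g) ℂ) c d with hf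
  have hd : DifferentiableOn ℂ f (U g a) := by
    simp only [hf, Matrix.mul_apply, Matrix.transpose_apply]
    refine DifferentiableOn.sub_const ?_ _
    refine DifferentiableOn.fun_sum (fun j _ => ?_)
    refine DifferentiableOn.mul ?_ (h3 g a hg ha j d)
    refine DifferentiableOn.fun_sum (fun i _ => ?_)
    exact (h3 g a hg ha i c).mul_const _
  have han : AnalyticOnNhd ℂ f (U g a) := hd.analyticOnNhd (U_isOpen g a)
  have hreal : ∀ s : ℝ, b < s → f s = 0 := by
    intro s hs
    have h := h1 g a hg ha s hs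
    unfold Simil at h
    simp only [hf]
    rw [h2 g a hg ha s hs, h, sub_self]
  have hz0 : ((b + 1 : ℝ) : ℂ) ∈ U g a := U_ofReal (by linarith)
  have hfreq : ∃ᶠ z in 𝓝[≠] ((b + 1 : ℝ) : ℂ), f z = 0 := by
    have htend : Filter.Tendsto (fun n : ℕ => ((b + 1 + 1 / ((n : ℝ) + 1) : ℝ) : ℂ)) Filter.atTop
        (𝓝[≠] ((b + 1 : ℝ) : ℂ)) := by
      rw [tendsto_nhdsWithin_iff]
      constructor
      · have h := (tendsto_one_div_add_atTop_nhds_zero_nat (𝕜 := ℝ)).const_add (b + 1)
        rw [add_zero] at h
        exact (Complex.continuous_ofReal.tendsto _).comp h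
      · refine Filter.Eventually.of_forall (fun n => ?_)
        intro h
        have h' : (b + 1 + 1 / ((n : ℝ) + 1) : ℝ) = b + 1 :=
          Complex.ofReal_injective (Set.mem_singleton_iff.1 h)
        have : 0 < 1 / ((n : ℝ) + 1) := by positivity
        linarith
    refine htend.frequently (Filter.Frequently.of_forall (fun n => ?_))
    apply hreal
    have : 0 < 1 / ((n : ℝ) + 1) := by positivity
    linarith
  have hz := han.eqOn_zero_of_preconnected_of_frequently_eq_zero (U_isPreconnected g a) hz0
    hfreq ht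
  simp only [hf, Pi.zero_apply] at hz
  exact sub_eq_zero.1 hz

end Pool.Agent.HGP
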