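import Pool.Agent.HGP.Stmts

/-!
# HGP, module STEP: the counting theorem for one curve
-/

open scoped BigOperators Topology
open Metric Set MeasureTheory

namespace Pool.Agent.HGP

noncomputable section

namespace STEPX

lemma diff_det {n : ℕ} {s : Set ℂ} {A : ℂ → Matrix (Fin n) (Fin n) ℂ}
    (h : ∀ i j, DifferentiableOn ℂ (fun z => A z i j) s) :
    DifferentiableOn ℂ (fun z => (A z).det) s := by
  simp only [Matrix.det_apply]
  refine DifferentiableOn.fun_sum fun σ _ => ?_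
  refine DifferentiableOn.const_smul ?_ _
  exact DifferentiableOn.fun_finsetProd fun i _ => h _ _

lemma diff_adj {n : ℕ} {s : Set ℂ} {A : ℂ → Matrix (Fin n) (Fin n) ℂ}
    (h : ∀ i j, DifferentiableOn ℂ (fun z => A z i j) s) (i j : Fin n) :
    DifferentiableOn ℂ (fun z => (A z).adjugate i j) s := by
  simp only [Matrix.adjugate_apply]
  refine diff_det fun k l => ?_
  by_cases hk : k = j
  · subst hk
    simp only [Matrix.updateRow_self]
    exact differentiableOn_const _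
  · simp only [Matrix.updateRow_ne hk]
    exact h k l

lemma diff_inv {n : ℕ} {s : Set ℂ} {A : ℂ → Matrix (Fin n) (Fin n) ℂ}
    (h : ∀ i j, DifferentiableOn ℂ (fun z => A z i j) s) (hdet : ∀ z ∈ s, (A z).det ≠ 0)
    (i j : Fin n) : DifferentiableOn ℂ (fun z => (A z)⁻¹ i j) s := by
  have h1 : (fun z => (A z)⁻¹ i j) = fun z => ((A z).det)⁻¹ * (A z).adjugate i j := by
    funext z
    rw [Matrix.inv_def, Matrix.smul_apply, smul_eq_mul, Ring.inverse_eq_inv']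
  rw [h1]
  exact ((diff_det h).fun_inv hdet).fun_mul (diff_adj h i j)

lemma diff_mul {n : ℕ} {s : Set ℂ} {A B : ℂ → Matrix (Fin n) (Fin n) ℂ}
    (hA : ∀ i j, DifferentiableOn ℂ (fun z => A z i j) s)
    (hB : ∀ i j, DifferentiableOn ℂ (fun z => B z i j) s) (i j : Fin n) :
    DifferentiableOn ℂ (fun z => (A z * B z) i j) s := by
  simp only [Matrix.mul_apply]
  exact DifferentiableOn.fun_sum fun k _ => (hA i k).fun_mul (hB k j)

lemma diff_fvec {g : ℕ} {s : Set ℂ} {M : ℂ → Matrix (Ix g) (Ix g) ℂ}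
    (hM : ∀ k c, DifferentiableOn ℂ (fun z => M z k c) s)
    (hdet : ∀ z ∈ s, (M z).toBlocks₁₁.det ≠ 0) (x : Idx g) :
    DifferentiableOn ℂ (fun z => fvec (M z) x) s := by
  have h11 : ∀ i j, DifferentiableOn ℂ (fun z => (M z).toBlocks₁₁ i j) s :=
    fun i j => hM (.inl i) (.inl j)
  have h21 : ∀ i j, DifferentiableOn ℂ (fun z => (M z).toBlocks₂₁ i j) s :=
    fun i j => hM (.inr i) (.inl j)
  have h12 : ∀ i j, DifferentiableOn ℂ (fun z => (M z).toBlocks₁₂ i j) s :=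
    fun i j => hM (.inl i) (.inr j)
  have hinv := diff_inv h11 hdet
  rcases x with p | q | q
  · exact h11 p.1 p.2
  · exact diff_mul h21 hinv q.1.1 q.1.2
  · exact diff_mul hinv h12 q.1.1 q.1.2

lemma exists_ball (hvdm : Stmt_Vdm) (hplink : Stmt_Plink) (hphol : Stmt_Phol) {g : ℕ}
    {a : ℕ → ℝ} (hg : 0 < g) (ha : StrictMono a) {τ : ℝ} (hτ : a (2 * g - 1) < τ) :
    ∃ ρ : ℝ, 0 < ρ ∧ ∀ z ∈ ball (τ : ℂ) (10 * ρ),
      z ∈ U g a ∧ (PerC g a z).toBlocks₁₁.det ≠ 0 := by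
  have hd : DifferentiableOn ℂ (fun z => (PerC g a z).toBlocks₁₁.det) (U g a) :=
    diff_det fun i j => hphol g a hg ha (.inl i) (.inl j)
  have hτU : (τ : ℂ) ∈ U g a := U_ofReal hτ
  have hτd : (PerC g a τ).toBlocks₁₁.det ≠ 0 := by
    rw [hplink g a hg ha τ hτ]
    exact hvdm g a hg ha τ hτ
  have hUn : U g a ∈ 𝓝 (τ : ℂ) := (U_isOpen g a).mem_nhds hτU
  have hc : ContinuousAt (fun z => (PerC g a z).toBlocks₁₁.det) (τ : ℂ) :=
    hd.continuousOn.continuousAt hUn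
  have hev : ∀ᶠ z in 𝓝 (τ : ℂ), z ∈ U g a ∧ (PerC g a z).toBlocks₁₁.det ≠ 0 :=
    (Filter.eventually_mem_set.mpr hUn).and (hc.eventually_ne hτd)
  obtain ⟨δ, hδ, hball⟩ := Metric.eventually_nhds_iff_ball.mp hev
  refine ⟨δ / 10, by positivity, fun z hz => hball z ?_⟩
  rwa [mul_div_cancel₀ _ (by norm_num : (10 : ℝ) ≠ 0)] at hz

lemma indep (hind : Stmt_Ind) (hphol : Stmt_Phol) {g : ℕ} {a : ℕ → ℝ} (hg : 0 < g)
    (ha : StrictMono a) {τ ρ : ℝ} (hρ : 0 < ρ)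
    (hball : ∀ z ∈ ball (τ : ℂ) (10 * ρ), z ∈ U g a ∧ (PerC g a z).toBlocks₁₁.det ≠ 0) {N : ℕ}
    (e : Idx g ≃ Fin N) :
    GPC.Indep N (τ : ℂ) ρ (fun z => z) (fun j z => fvec (PerC g a z) (e.symm j)) where
  pos := hρ
  ds := differentiableOn_id
  df := fun j => diff_fvec (fun k c => (hphol g a hg ha k c).mono (fun z hz => (hball z hz).1))
    (fun z hz => (hball z hz).2) _
  ind := fun Q hQ => by
    have h1 := hind g a hg ha τ (10 * ρ) (by positivity) hball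
      (MvPolynomial.rename (Option.map e.symm) Q) (fun z hz => by
        rw [MvPolynomial.eval_rename]
        have h2 : opt z (fvec (PerC g a z)) ∘ Option.map e.symm =
            GPC.pt z (fun j => fvec (PerC g a z) (e.symm j)) := by
          funext o
          cases o <;> rfl
        rw [h2]
        exact hQ z hz)
    have hinj : Function.Injective (MvPolynomial.rename (R := ℂ) (Option.map e.symm)) :=
      MvPolynomial.rename_injective _ (Option.map_injective e.symm.injective)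
    exact hinj (by rw [h1, map_zero])

lemma isSmall_rename {σ τ : Type} (E : σ ≃ τ) {Q : MvPolynomial σ ℤ} {D B : ℕ}
    (h : GPC.IsSmall Q D B) : GPC.IsSmall (MvPolynomial.rename E Q) D B := by
  refine ⟨(MvPolynomial.totalDegree_rename_le _ _).trans h.1, fun m => ?_⟩
  have h1 : m = Finsupp.mapDomain E (Finsupp.mapDomain E.symm m) := by
    rw [← Finsupp.mapDomain_comp]
    simp
  rw [h1, MvPolynomial.coeff_rename_mapDomain E E.injective]
  exact h.2 _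

lemma isBad (hplink : Stmt_Plink) {g : ℕ} {a : ℕ → ℝ} (hg : 0 < g) (ha : StrictMono a)
    {κ : Type} [Fintype κ] {c : κ → ℂ} {D B : ℕ} {r : ℚ} (hr : a (2 * g - 1) < r) {N : ℕ}
    (e : Idx g ≃ Fin N) {τ ρ : ℝ} (hρ : |(r : ℝ) - τ| ≤ ρ)
    (h : ¬ GPC.Free D B (Sum.elim c (fvec (Per g a r)))) :
    GPC.IsBad (τ : ℂ) (τ : ℂ) ρ ρ (fun z => z) (fun j z => fvec (PerC g a z) (e.symm j)) c D B
      r := by
  unfold GPC.Free at h
  push Not at h
  obtain ⟨Q, hQs, hQ0, hQne⟩ := h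
  have hn : ‖((r : ℝ) : ℂ) - (τ : ℂ)‖ ≤ ρ := by
    rw [← Complex.ofReal_sub, Complex.norm_real]
    exact hρ
  refine ⟨((r : ℝ) : ℂ), ?_, hn, ?_, MvPolynomial.rename
    ((Equiv.sumComm κ (Idx g)).trans (Equiv.sumCongr e (Equiv.refl κ))) Q, ?_,
    isSmall_rename _ hQs, ?_⟩
  · rw [mem_closedBall, dist_eq_norm]
    exact hn
  · simp
  · intro h0
    apply hQne
    have hinj := MvPolynomial.rename_injective (R := ℤ) _
      ((Equiv.sumComm κ (Idx g)).trans (Equiv.sumCongr e (Equiv.refl κ))).injective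
    exact hinj (by rw [h0, map_zero])
  · rw [MvPolynomial.aeval_rename, ← hQ0]
    beta_reduce
    rw [hplink g a hg ha r hr]
    congr 2
    funext x
    rcases x with x | x
    · simp
    · simp

end STEPX

open STEPX in
/-- STEP -/
theorem step_proof (hG : GPC.Stmt_ThmG) (hind : Stmt_Ind) (hvdm : Stmt_Vdm)
    (hplink : Stmt_Plink) (hphol : Stmt_Phol) : Stmt_Step := by
  classical
  intro g a hg ha T0 T1 hT0 ε hε κ _ D A
  let e := Fintype.equivFin (Idx g)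
  have hx : ∀ τ : ℝ, ∃ (ρ C : ℝ), 0 < ρ ∧ 0 ≤ C ∧ (T0 ≤ τ → ∀ H : ℕ, 1 ≤ H → ∀ c : κ → ℂ,
      GPC.Free D (H ^ A) c → ∀ T : Finset ℚ, (∀ r ∈ T, r.num.natAbs ≤ H ∧ r.den ≤ H ∧
        GPC.IsBad (τ : ℂ) (τ : ℂ) ρ ρ (fun z => z) (fun j z => fvec (PerC g a z) (e.symm j)) c
          D (H ^ A) r) → (T.card : ℝ) ≤ C * (H : ℝ) ^ ε) := by
    intro τ
    by_cases hτ : T0 ≤ τ
    · obtain ⟨ρ, hρ, hball⟩ := exists_ball hvdm hplink hphol hg ha (hT0.trans_le hτ)
      obtain ⟨C, hC⟩ := hG _ κ (τ : ℂ) ρ ε _ _ (indep hind hphol hg ha hρ hball e) hε D A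
      refine ⟨ρ, max C 0, hρ, le_max_right _ _, fun _ H hH c hc T hT => ?_⟩
      refine (hC H hH c hc T hT).trans ?_
      exact mul_le_mul_of_nonneg_right (le_max_left _ _) (by positivity)
    · exact ⟨1, 0, one_pos, le_refl _, fun h => absurd h hτ⟩
  choose ρ C hρ hC0 hC using hx
  obtain ⟨F, hF, hcov⟩ := (isCompact_Icc (a := T0) (b := T1)).elim_nhds_subcover
    (fun τ => ball τ (ρ τ)) (fun τ _ => ball_mem_nhds τ (hρ τ))
  refine ⟨∑ τ ∈ F, C τ, fun H hH c hc T hT => ?_⟩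
  have hsub : T ⊆ F.biUnion (fun τ => T.filter (fun r : ℚ => |(r : ℝ) - τ| ≤ ρ τ)) := by
    intro r hr
    have h1 : (r : ℝ) ∈ Icc T0 T1 := ⟨(hT r hr).1, (hT r hr).2.1⟩
    obtain ⟨τ, hτF, hτ⟩ := Set.mem_iUnion₂.mp (hcov h1)
    refine Finset.mem_biUnion.mpr ⟨τ, hτF, Finset.mem_filter.mpr ⟨hr, ?_⟩⟩
    rw [mem_ball, Real.dist_eq] at hτ
    exact hτ.le
  have h2 : (T.card : ℝ) ≤ ∑ τ ∈ F, ((T.filter (fun r : ℚ => |(r : ℝ) - τ| ≤ ρ τ)).card : ℝ) := by
    have h3 := (Finset.card_le_card hsub).trans Finset.card_biUnion_le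
    exact_mod_cast h3
  refine h2.trans ?_
  rw [Finset.sum_mul]
  refine Finset.sum_le_sum fun τ hτ => ?_
  refine hC τ (hF τ hτ).1 H hH c hc _ fun r hr => ?_
  obtain ⟨hr1, hr2⟩ := Finset.mem_filter.mp hr
  obtain ⟨h4, h5, h6, h7, h8⟩ := hT r hr1
  exact ⟨h6, h7, isBad hplink hg ha (hT0.trans_le h4) e hr2 h8⟩

end

end Pool.Agent.HGP
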