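import Pool.Agent.HGP.Stmts

/-!
# HGP, TRI: Cauchy's theorem for the triangle `a j, a (j + 1), t`
-/

open scoped BigOperators Topology
open Metric Set MeasureTheory

namespace Pool.Agent.HGP

noncomputable section

namespace Tri_

/-- the plane cut along two real half lines -/
def D (α β : ℝ) : Set ℂ := {x | x.im ≠ 0 ∨ (α < x.re ∧ x.re < β)}

theorem D_open (α β : ℝ) : IsOpen (D α β) := by
  have h1 : IsOpen {x : ℂ | x.im ≠ 0} := isOpen_ne_fun Complex.continuous_im continuous_const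
  have h2 : IsOpen {x : ℂ | α < x.re ∧ x.re < β} :=
    (isOpen_lt continuous_const Complex.continuous_re).inter
      (isOpen_lt Complex.continuous_re continuous_const)
  exact h1.union h2

theorem D_left {α β b : ℝ} {x : ℂ} (hx : x ∈ D α β) (hb : b ≤ α) :
    x - (b : ℂ) ∈ Complex.slitPlane := by
  rw [Complex.mem_slitPlane_iff]
  simp only [Complex.sub_re, Complex.ofReal_re, Complex.sub_im, Complex.ofReal_im, sub_zero]
  rcases hx with h | h
  · exact Or.inr h
  · left; linarith [h.1]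

theorem D_right {α β b : ℝ} {x : ℂ} (hx : x ∈ D α β) (hb : β ≤ b) :
    (b : ℂ) - x ∈ Complex.slitPlane := by
  rw [Complex.mem_slitPlane_iff]
  simp only [Complex.sub_re, Complex.ofReal_re, Complex.sub_im, Complex.ofReal_im, zero_sub]
  rcases hx with h | h
  · exact Or.inr (neg_ne_zero.2 h)
  · left; linarith [h.2]

/-- the denominator -/
def P (g : ℕ) (a : ℕ → ℝ) (j : ℕ) (x : ℂ) : ℂ :=
  Complex.I * ((∏ i ∈ Finset.range (j + 1), csq (x - (a i : ℂ))) *
    ∏ i ∈ Finset.Ico (j + 1) (2 * g), (Complex.I * csq ((a i : ℂ) - x)))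

/-- the function to be integrated, without the factor at `t` -/
def Ph (g : ℕ) (a : ℕ → ℝ) (j l : ℕ) (x : ℂ) : ℂ := x ^ l / P g a j x

variable {g : ℕ} {a : ℕ → ℝ} {j l : ℕ} {t : ℂ}

theorem csq_ne {z : ℂ} (hz : z ∈ Complex.slitPlane) : csq z ≠ 0 :=
  csq_ne_zero (Complex.slitPlane_ne_zero hz)

theorem P_ne (ha : StrictMono a) {x : ℂ} (hx : x ∈ D (a j) (a (j + 1))) : P g a j x ≠ 0 := by
  unfold P
  refine mul_ne_zero Complex.I_ne_zero (mul_ne_zero ?_ ?_)
  · refine Finset.prod_ne_zero_iff.2 fun i hi => csq_ne (D_left hx (ha.monotone ?_))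
    rw [Finset.mem_range] at hi
    omega
  · refine Finset.prod_ne_zero_iff.2 fun i hi =>
      mul_ne_zero Complex.I_ne_zero (csq_ne (D_right hx (ha.monotone ?_)))
    rw [Finset.mem_Ico] at hi
    omega

theorem P_diff (ha : StrictMono a) {x : ℂ} (hx : x ∈ D (a j) (a (j + 1))) :
    DifferentiableAt ℂ (P g a j) x := by
  unfold P
  refine DifferentiableAt.const_mul (DifferentiableAt.mul ?_ ?_) _
  · refine DifferentiableAt.fun_finsetProd fun i hi => ?_
    rw [Finset.mem_range] at hi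
    exact (csq_differentiableAt (D_left hx
      (show a i ≤ a j from ha.monotone (by omega)))).comp x (differentiableAt_id.sub_const _)
  · refine DifferentiableAt.fun_finsetProd fun i hi => ?_
    rw [Finset.mem_Ico] at hi
    exact DifferentiableAt.const_mul ((csq_differentiableAt
      (D_right hx (show a (j + 1) ≤ a i from ha.monotone (by omega)))).comp x
        (differentiableAt_id.const_sub _)) _

theorem Ph_diff (ha : StrictMono a) {x : ℂ} (hx : x ∈ D (a j) (a (j + 1))) :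
    DifferentiableAt ℂ (Ph g a j l) x :=
  (differentiableAt_id.pow l).div (P_diff ha hx) (P_ne ha hx)

theorem Ph_diffOn (ha : StrictMono a) : DifferentiableOn ℂ (Ph g a j l) (D (a j) (a (j + 1))) :=
  fun _ hx => (Ph_diff ha hx).differentiableWithinAt

theorem Ph_cont (ha : StrictMono a) : ContinuousOn (Ph g a j l) (D (a j) (a (j + 1))) :=
  (Ph_diffOn ha).continuousOn

theorem dPh_cont (ha : StrictMono a) :
    ContinuousOn (deriv (Ph g a j l)) (D (a j) (a (j + 1))) :=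
  ((Ph_diffOn ha).deriv (D_open _ _)).continuousOn

theorem P_eq (hj : j + 1 ≤ 2 * g) {x : ℂ} (hx : 0 < x.im) :
    P g a j x = Complex.I * ∏ i ∈ Finset.range (2 * g), csq (x - (a i : ℂ)) := by
  unfold P
  rw [← Finset.prod_range_mul_prod_Ico _ hj]
  congr 2
  refine Finset.prod_congr rfl fun i _ => ?_
  rw [csq_eq_I_mul (z := x - (a i : ℂ)) (by simpa using hx), neg_sub]

theorem pth_im (b s : ℝ) (t : ℂ) : (pth b s t).im = s * t.im := by
  simp [pth]

theorem pth_mem {b s : ℝ} {α β : ℝ} (hb : α < b ∧ b < β) (hs : 0 ≤ s) (ht : 0 < t.im) :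
    pth b s t ∈ D α β := by
  rcases hs.eq_or_lt with h | h
  · right
    rw [← h]
    simpa [pth] using hb
  · left
    rw [pth_im]
    exact (mul_pos h ht).ne'

theorem pth_mem' {b s : ℝ} {α β : ℝ} (hs : 0 < s) (ht : 0 < t.im) : pth b s t ∈ D α β := by
  left
  rw [pth_im]
  exact (mul_pos hs ht).ne'

/-- the integrand -/
def Fi (g : ℕ) (a : ℕ → ℝ) (j l : ℕ) (t : ℂ) (τ s : ℝ) : ℂ :=
  ((1 / √(1 - s) : ℝ) : ℂ) * (csq (t - τ) * Ph g a j l (pth τ s t))

/-- the inner part of its derivative -/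
def In (g : ℕ) (a : ℕ → ℝ) (j l : ℕ) (t : ℂ) (τ s : ℝ) : ℂ :=
  -(1 / (2 * csq (t - τ))) * Ph g a j l (pth τ s t) +
    csq (t - τ) * (deriv (Ph g a j l) (pth τ s t) * (1 - s))

/-- the derivative of the integrand -/
def dF (g : ℕ) (a : ℕ → ℝ) (j l : ℕ) (t : ℂ) (τ s : ℝ) : ℂ :=
  ((1 / √(1 - s) : ℝ) : ℂ) * In g a j l t τ s

theorem slit_t (ht : 0 < t.im) (τ : ℝ) : t - (τ : ℂ) ∈ Complex.slitPlane := by
  rw [Complex.mem_slitPlane_iff]
  right
  simpa using ht.ne'

theorem csq_deriv {z : ℂ} (hz : z ∈ Complex.slitPlane) :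
    HasDerivAt csq (1 / (2 * csq z)) z := by
  have h := (csq_differentiableAt hz).hasDerivAt
  have h2 := h.mul h
  have h3 : (csq * csq) = fun z => z := by
    funext z; exact csq_mul_self z
  rw [h3] at h2
  have h4 := h2.unique (hasDerivAt_id z)
  have h5 := csq_ne hz
  have h6 : deriv csq z = 1 / (2 * csq z) := by
    field_simp
    linear_combination h4
  rwa [h6] at h

theorem Fi_deriv (ha : StrictMono a) (ht : 0 < t.im) {τ s : ℝ}
    (hτ : a j < τ ∧ τ < a (j + 1)) (hs : 0 ≤ s) :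
    HasDerivAt (fun τ : ℝ => Fi g a j l t τ s) (dF g a j l t τ s) τ := by
  have h1 : HasDerivAt (fun z : ℂ => csq (t - z)) (1 / (2 * csq (t - τ)) * (-1)) (τ : ℂ) :=
    HasDerivAt.comp (τ : ℂ) (csq_deriv (slit_t ht τ)) ((hasDerivAt_id (τ : ℂ)).const_sub t)
  have h2 : HasDerivAt (fun z : ℂ => z + (s : ℂ) * (t - z)) (1 + (s : ℂ) * (-1)) (τ : ℂ) :=
    (hasDerivAt_id (τ : ℂ)).add (((hasDerivAt_id (τ : ℂ)).const_sub t).const_mul (s : ℂ))
  have h3 : HasDerivAt (fun z : ℂ => Ph g a j l (z + (s : ℂ) * (t - z)))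
      (deriv (Ph g a j l) (pth τ s t) * (1 + (s : ℂ) * (-1))) (τ : ℂ) := by
    have h5 : HasDerivAt (Ph g a j l) (deriv (Ph g a j l) (pth τ s t))
        ((τ : ℂ) + (s : ℂ) * (t - τ)) := (Ph_diff ha (pth_mem hτ hs ht)).hasDerivAt
    exact HasDerivAt.comp (τ : ℂ) h5 h2
  have h4 := ((h1.mul h3).const_mul ((1 / √(1 - s) : ℝ) : ℂ)).comp_ofReal
  refine h4.congr_deriv ?_
  unfold dF In
  simp only [pth]
  ring

theorem cont_pth (τ : ℝ) (t : ℂ) : Continuous (fun s : ℝ => pth τ s t) := by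
  unfold pth; fun_prop

theorem cont_pth2 (t : ℂ) : Continuous (fun q : ℝ × ℝ => pth q.1 q.2 t) := by
  unfold pth; fun_prop

theorem cont_csqt (ht : 0 < t.im) : Continuous (fun τ : ℝ => csq (t - (τ : ℂ))) := by
  rw [continuous_iff_continuousAt]
  intro τ
  exact ContinuousAt.comp (g := csq) (f := fun τ : ℝ => t - (τ : ℂ))
    (csq_continuousAt (slit_t ht τ)) (by fun_prop)

theorem In_cont (ha : StrictMono a) (ht : 0 < t.im) :
    ContinuousOn (fun q : ℝ × ℝ => In g a j l t q.1 q.2)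
      (Ioo (a j) (a (j + 1)) ×ˢ Icc (0 : ℝ) 1) := by
  have hm : MapsTo (fun q : ℝ × ℝ => pth q.1 q.2 t) (Ioo (a j) (a (j + 1)) ×ˢ Icc (0 : ℝ) 1)
      (D (a j) (a (j + 1))) := fun q hq => pth_mem hq.1 hq.2.1 ht
  have h1 : Continuous (fun q : ℝ × ℝ => csq (t - (q.1 : ℂ))) :=
    (cont_csqt ht).comp continuous_fst
  have h2 := (Ph_cont (g := g) (l := l) ha).comp (cont_pth2 t).continuousOn hm
  have h3 := (dPh_cont (g := g) (l := l) ha).comp (cont_pth2 t).continuousOn hm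
  unfold In
  refine ContinuousOn.add (ContinuousOn.mul ?_ h2) (h1.continuousOn.mul (h3.mul ?_))
  · refine ContinuousOn.neg (ContinuousOn.div continuousOn_const
      (continuousOn_const.mul h1.continuousOn) ?_)
    intro q _
    exact mul_ne_zero two_ne_zero (csq_ne (slit_t ht _))
  · exact (continuous_const.sub (Complex.continuous_ofReal.comp continuous_snd)).continuousOn

/-- the weight -/
def wt (s : ℝ) : ℝ := 1 / √(|(s - 0) * (s - 1)| * 1)

theorem wt_int (hI : Stmt_Intg) : IntervalIntegrable wt volume 0 1 :=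
  hI 0 1 (fun _ => 1) zero_lt_one continuousOn_const (fun _ _ => one_pos)

theorem wt_eq {s : ℝ} (hs : 0 < s ∧ s < 1) : wt s = 1 / (√s * √(1 - s)) := by
  unfold wt
  have h1 : |(s - 0) * (s - 1)| * 1 = s * (1 - s) := by
    rw [mul_one, abs_of_nonpos (mul_nonpos_of_nonneg_of_nonpos (by linarith [hs.1])
      (by linarith [hs.2]))]
    ring
  rw [h1, Real.sqrt_mul hs.1.le]

theorem le_wt {s : ℝ} (hs : 0 < s ∧ s < 1) : 1 / √(1 - s) ≤ wt s := by
  rw [wt_eq hs]
  have h1 : 0 < √(1 - s) := Real.sqrt_pos.2 (by linarith [hs.2])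
  have h2 : 0 < √s := Real.sqrt_pos.2 hs.1
  have h3 : √s ≤ 1 := Real.sqrt_le_one.2 hs.2.le
  apply one_div_le_one_div_of_le (mul_pos h2 h1)
  nlinarith

theorem ae_Ioo {p : ℝ → Prop} (h : ∀ s, 0 < s → s < 1 → p s) :
    ∀ᵐ s ∂(volume : Measure ℝ), s ∈ Set.uIoc (0 : ℝ) 1 → p s := by
  have h1 : ∀ᵐ s ∂(volume : Measure ℝ), s ≠ 1 := by
    have : (volume : Measure ℝ) {(1 : ℝ)} = 0 := by simp
    exact compl_mem_ae_iff.2 this
  filter_upwards [h1] with s hs hmem
  rw [uIoc_of_le zero_le_one] at hmem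
  exact h s hmem.1 (lt_of_le_of_ne hmem.2 hs)

/-- measurability of functions continuous on the open interval -/
theorem meas_of {f : ℝ → ℂ} (h : ContinuousOn f (Ioo 0 1)) :
    AEStronglyMeasurable f (volume.restrict (Set.uIoc (0 : ℝ) 1)) := by
  rw [uIoc_of_le zero_le_one, ← restrict_Ioo_eq_restrict_Ioc]
  exact h.aestronglyMeasurable measurableSet_Ioo

theorem cont_w : ContinuousOn (fun s : ℝ => ((1 / √(1 - s) : ℝ) : ℂ)) (Ioo 0 1) := by
  refine Complex.continuous_ofReal.comp_continuousOn ?_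
  refine ContinuousOn.div continuousOn_const
    (Real.continuous_sqrt.comp (continuous_const.sub continuous_id)).continuousOn ?_
  intro s hs
  exact (Real.sqrt_pos.2 (by simpa using hs.2)).ne'

theorem Fi_cont_s (ha : StrictMono a) (ht : 0 < t.im) (τ : ℝ) :
    ContinuousOn (Fi g a j l t τ) (Ioo 0 1) := by
  refine cont_w.mul (continuousOn_const.mul ?_)
  exact (Ph_cont ha).comp (cont_pth τ t).continuousOn (fun s hs => pth_mem' hs.1 ht)

/-- uniform bound of the integrand -/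
theorem Fi_bound (hg : j + 1 < 2 * g) (ha : StrictMono a) (ht : 0 < t.im) :
    ∃ M : ℝ, ∀ τ ∈ Icc (a j) (a (j + 1)), ∀ s, 0 < s → s < 1 →
      ‖Fi g a j l t τ s‖ ≤ M * wt s := by
  classical
  set R : Finset ℕ := ((Finset.range (2 * g)).erase j).erase (j + 1) with hR
  let N : ℝ × ℝ → ℝ := fun q => √‖t - (q.1 : ℂ)‖ * ‖pth q.1 q.2 t‖ ^ l /
    ∏ i ∈ R, √‖pth q.1 q.2 t - (a i : ℂ)‖
  have hne : ∀ q ∈ Icc (a j) (a (j + 1)) ×ˢ Icc (0 : ℝ) 1, ∀ i ∈ R,
      pth q.1 q.2 t - (a i : ℂ) ≠ 0 := by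
    rintro ⟨τ, s⟩ ⟨hτ, hs⟩ i hi h0
    rcases hs.1.eq_or_lt with hs0 | hs0
    · simp only at hs0
      have h1 : τ - a i = 0 := by
        have := congrArg Complex.re h0
        rw [← hs0] at this
        simpa [pth] using this
      rw [hR, Finset.mem_erase, Finset.mem_erase] at hi
      have h2 : τ = a i := by linarith
      rw [h2] at hτ
      have h3 := ha.le_iff_le.1 hτ.1
      have h4 := ha.le_iff_le.1 hτ.2
      omega
    · have := congrArg Complex.im h0
      rw [Complex.sub_im, pth_im, Complex.ofReal_im, sub_zero, Complex.zero_im] at this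
      exact (mul_pos hs0 ht).ne' this
  have hN : ContinuousOn N (Icc (a j) (a (j + 1)) ×ˢ Icc (0 : ℝ) 1) := by
    have c1 := cont_pth2 t
    refine ContinuousOn.div (Continuous.continuousOn ?_) (Continuous.continuousOn ?_) ?_
    · exact (Real.continuous_sqrt.comp (continuous_norm.comp (continuous_const.sub
        (Complex.continuous_ofReal.comp continuous_fst)))).mul ((continuous_norm.comp c1).pow l)
    · refine continuous_finsetProd _ fun i _ => ?_
      exact Real.continuous_sqrt.comp (continuous_norm.comp (c1.sub continuous_const))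
    · intro q hq
      refine Finset.prod_ne_zero_iff.2 fun i hi => ?_
      exact (Real.sqrt_pos.2 (norm_pos_iff.2 (hne q hq i hi))).ne'
  obtain ⟨M₀, hM₀⟩ := (isCompact_Icc.prod isCompact_Icc).exists_bound_of_continuousOn hN
  have hM₀' : ∀ τ ∈ Icc (a j) (a (j + 1)), ∀ s ∈ Icc (0 : ℝ) 1, N (τ, s) ≤ M₀ := fun τ hτ s hs =>
    (le_abs_self _).trans (hM₀ (τ, s) ⟨hτ, hs⟩)
  have hd : 0 < a (j + 1) - a j := sub_pos.2 (ha (Nat.lt_succ_self j))
  set κ : ℝ := (a (j + 1) - a j) / 2 * t.im with hκ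
  have hκ0 : 0 < κ := by positivity
  refine ⟨M₀ / √κ, ?_⟩
  intro τ hτ s hs0 hs1
  have hx : 0 < (pth τ s t).im := by rw [pth_im]; exact mul_pos hs0 ht
  have h1s : 0 < √(1 - s) := Real.sqrt_pos.2 (by linarith)
  have hss : 0 < √s := Real.sqrt_pos.2 hs0
  set x := pth τ s t with hxdef
  have hN0 : N (τ, s) ≤ M₀ := hM₀' τ hτ s ⟨hs0.le, hs1.le⟩
  have hprod : ∏ i ∈ Finset.range (2 * g), √‖x - (a i : ℂ)‖ =
      √‖x - (a j : ℂ)‖ * (√‖x - (a (j + 1) : ℂ)‖ * ∏ i ∈ R, √‖x - (a i : ℂ)‖) := by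
    rw [hR, Finset.mul_prod_erase _ (fun i => √‖x - (a i : ℂ)‖)
      (Finset.mem_erase.2 ⟨by omega, Finset.mem_range.2 (by omega)⟩),
      Finset.mul_prod_erase _ (fun i => √‖x - (a i : ℂ)‖) (Finset.mem_range.2 (by omega))]
  have hPos : ∀ i, 0 < ‖x - (a i : ℂ)‖ := by
    intro i
    rw [norm_pos_iff]
    apply ne_zero_of_im
    rw [Complex.sub_im, Complex.ofReal_im, sub_zero]
    exact hx.ne'
  have hFi : ‖Fi g a j l t τ s‖ = N (τ, s) /
      (√(1 - s) * (√‖x - (a j : ℂ)‖ * √‖x - (a (j + 1) : ℂ)‖)) := by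
    unfold Fi Ph
    rw [P_eq hg.le hx, norm_mul, norm_mul, norm_div, norm_mul, Complex.norm_I, one_mul,
      norm_pow, norm_prod, csq_norm, Complex.norm_real, Real.norm_eq_abs,
      abs_of_nonneg (by positivity : 0 ≤ 1 / √(1 - s))]
    simp only [csq_norm]
    rw [hprod]
    simp only [N]
    have e1 : √‖x - (a j : ℂ)‖ ≠ 0 := (Real.sqrt_pos.2 (hPos _)).ne'
    have e2 : √‖x - (a (j + 1) : ℂ)‖ ≠ 0 := (Real.sqrt_pos.2 (hPos _)).ne'
    have e3 : ∏ i ∈ R, √‖x - (a i : ℂ)‖ ≠ 0 :=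
      Finset.prod_ne_zero_iff.2 fun i _ => (Real.sqrt_pos.2 (hPos _)).ne'
    rw [← hxdef]
    field_simp
  have hlow : κ * s ≤ ‖x - (a j : ℂ)‖ * ‖x - (a (j + 1) : ℂ)‖ := by
    have l1 : s * t.im ≤ ‖x - (a j : ℂ)‖ := by
      have := Complex.abs_im_le_norm (x - (a j : ℂ))
      rw [Complex.sub_im, Complex.ofReal_im, sub_zero, pth_im] at this
      exact (le_abs_self _).trans this
    have l2 : s * t.im ≤ ‖x - (a (j + 1) : ℂ)‖ := by
      have := Complex.abs_im_le_norm (x - (a (j + 1) : ℂ))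
      rw [Complex.sub_im, Complex.ofReal_im, sub_zero, pth_im] at this
      exact (le_abs_self _).trans this
    have l3 : a (j + 1) - a j ≤ ‖x - (a j : ℂ)‖ + ‖x - (a (j + 1) : ℂ)‖ := by
      have := norm_sub_le (x - (a j : ℂ)) (x - (a (j + 1) : ℂ))
      have e : x - (a j : ℂ) - (x - (a (j + 1) : ℂ)) = ((a (j + 1) - a j : ℝ) : ℂ) := by
        push_cast; ring
      rw [e, Complex.norm_real, Real.norm_eq_abs, abs_of_pos hd] at this
      exact this
    have hst : 0 < s * t.im := mul_pos hs0 ht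
    rw [hκ]
    rcases le_total ‖x - (a j : ℂ)‖ ‖x - (a (j + 1) : ℂ)‖ with hle | hle
    · have l4 : (a (j + 1) - a j) / 2 ≤ ‖x - (a (j + 1) : ℂ)‖ := by linarith
      calc (a (j + 1) - a j) / 2 * t.im * s = (s * t.im) * ((a (j + 1) - a j) / 2) := by ring
        _ ≤ _ := mul_le_mul l1 l4 (by positivity) (norm_nonneg _)
    · have l4 : (a (j + 1) - a j) / 2 ≤ ‖x - (a j : ℂ)‖ := by linarith
      calc (a (j + 1) - a j) / 2 * t.im * s = ((a (j + 1) - a j) / 2) * (s * t.im) := by ring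
        _ ≤ _ := mul_le_mul l4 l2 hst.le (norm_nonneg _)
  have hlow' : √κ * √s ≤ √‖x - (a j : ℂ)‖ * √‖x - (a (j + 1) : ℂ)‖ := by
    rw [← Real.sqrt_mul hκ0.le, ← Real.sqrt_mul (norm_nonneg _)]
    exact Real.sqrt_le_sqrt hlow
  have hN0' : 0 ≤ N (τ, s) := by
    simp only [N]; positivity
  have hsk : 0 < √κ := Real.sqrt_pos.2 hκ0
  rw [hFi, wt_eq ⟨hs0, hs1⟩]
  calc N (τ, s) / (√(1 - s) * (√‖x - (a j : ℂ)‖ * √‖x - (a (j + 1) : ℂ)‖)) ≤
        M₀ / (√(1 - s) * (√κ * √s)) := by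
        apply div_le_div₀ (hN0'.trans hN0) hN0 (by positivity)
        exact mul_le_mul_of_nonneg_left hlow' h1s.le
    _ = _ := by field_simp

theorem Fi_int (hI : Stmt_Intg) (hg : j + 1 < 2 * g) (ha : StrictMono a) (ht : 0 < t.im)
    {τ : ℝ} (hτ : τ ∈ Icc (a j) (a (j + 1))) :
    IntervalIntegrable (Fi g a j l t τ) volume 0 1 := by
  obtain ⟨M, hM⟩ := Fi_bound (l := l) hg ha ht
  refine ((wt_int hI).const_mul M).mono_fun (meas_of (Fi_cont_s ha ht τ)) ?_
  rw [Filter.EventuallyLE, ae_restrict_iff' measurableSet_uIoc]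
  exact ae_Ioo fun s h0 h1 => (hM τ hτ s h0 h1).trans (le_abs_self _)

/-- the integral over the segment from `τ` to `t` -/
def W (g : ℕ) (a : ℕ → ℝ) (j l : ℕ) (t : ℂ) (τ : ℝ) : ℂ := ∫ s in (0 : ℝ)..1, Fi g a j l t τ s

theorem W_cont (hI : Stmt_Intg) (hg : j + 1 < 2 * g) (ha : StrictMono a) (ht : 0 < t.im) :
    ContinuousOn (W g a j l t) (Icc (a j) (a (j + 1))) := by
  obtain ⟨M, hM⟩ := Fi_bound (l := l) hg ha ht
  intro τ hτ
  refine intervalIntegral.continuousWithinAt_of_dominated_interval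
    (bound := fun s => M * wt s) ?_ ?_ ((wt_int hI).const_mul M) ?_
  · exact Filter.Eventually.of_forall fun τ => meas_of (Fi_cont_s ha ht τ)
  · filter_upwards [self_mem_nhdsWithin] with τ' hτ'
    exact ae_Ioo fun s h0 h1 => hM τ' hτ' s h0 h1
  · refine ae_Ioo fun s h0 h1 => ContinuousAt.continuousWithinAt ?_
    unfold Fi
    refine continuousAt_const.mul ((cont_csqt ht).continuousAt.mul ?_)
    exact ContinuousAt.comp (g := Ph g a j l) (f := fun τ : ℝ => pth τ s t)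
      (Ph_diff ha (pth_mem' h0 ht)).continuousAt (by unfold pth; fun_prop)

/-- the boundary term -/
def Gs (g : ℕ) (a : ℕ → ℝ) (j l : ℕ) (t : ℂ) (τ s : ℝ) : ℂ :=
  ((√(1 - s) : ℝ) : ℂ) / csq (t - τ) * Ph g a j l (pth τ s t)

theorem Gs_deriv (ha : StrictMono a) (ht : 0 < t.im) {τ s : ℝ}
    (hτ : a j < τ ∧ τ < a (j + 1)) (hs : 0 < s) (hs1 : s < 1) :
    HasDerivAt (Gs g a j l t τ) (dF g a j l t τ s) s := by
  have h1s : 0 < √(1 - s) := Real.sqrt_pos.2 (by linarith)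
  have h1 : HasDerivAt (fun s : ℝ => √(1 - s)) (-1 / (2 * √(1 - s))) s :=
    ((hasDerivAt_id s).const_sub 1).sqrt (by simp only [id]; linarith)
  have h2 : HasDerivAt (fun s : ℝ => ((√(1 - s) : ℝ) : ℂ)) ((-1 / (2 * √(1 - s)) : ℝ) : ℂ) s :=
    h1.ofReal_comp
  have h3 : HasDerivAt (fun z : ℂ => (τ : ℂ) + z * (t - τ)) (1 * (t - τ)) (s : ℂ) :=
    ((hasDerivAt_id (s : ℂ)).mul_const (t - (τ : ℂ))).const_add (τ : ℂ)
  have h4 : HasDerivAt (Ph g a j l) (deriv (Ph g a j l) (pth τ s t))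
      ((τ : ℂ) + (s : ℂ) * (t - τ)) := (Ph_diff ha (pth_mem hτ hs.le ht)).hasDerivAt
  have h5 : HasDerivAt (fun z : ℂ => Ph g a j l ((τ : ℂ) + z * (t - τ)))
      (deriv (Ph g a j l) (pth τ s t) * (1 * (t - τ))) (s : ℂ) :=
    HasDerivAt.comp (h₂ := Ph g a j l) (h := fun z : ℂ => (τ : ℂ) + z * (t - τ)) (s : ℂ) h4 h3
  have h6 := (h2.div_const (csq (t - τ))).mul h5.comp_ofReal
  refine h6.congr_deriv ?_
  have hc := csq_ne (slit_t ht τ)
  have hcc := csq_mul_self (t - (τ : ℂ))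
  have h1s' : ((√(1 - s) : ℝ) : ℂ) ≠ 0 := by exact_mod_cast h1s.ne'
  have hsq : ((√(1 - s) : ℝ) : ℂ) * ((√(1 - s) : ℝ) : ℂ) = 1 - (s : ℂ) := by
    rw [← Complex.ofReal_mul, Real.mul_self_sqrt (by linarith)]
    push_cast; ring
  unfold dF In
  have e1 : (t - (τ : ℂ)) / csq (t - τ) = csq (t - τ) := by
    rw [div_eq_iff hc, hcc]
  have e2 : (1 - (s : ℂ)) / ((√(1 - s) : ℝ) : ℂ) = ((√(1 - s) : ℝ) : ℂ) := by
    rw [div_eq_iff h1s', hsq]
  have e3 : pth τ s t = (τ : ℂ) + (s : ℂ) * (t - τ) := rfl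
  rw [← e3]
  push_cast
  calc -1 / (2 * ((√(1 - s) : ℝ) : ℂ)) / csq (t - τ) * Ph g a j l (pth τ s t) +
      ((√(1 - s) : ℝ) : ℂ) / csq (t - τ) * (deriv (Ph g a j l) (pth τ s t) * (1 * (t - τ))) =
      -1 / (2 * ((√(1 - s) : ℝ) : ℂ)) / csq (t - τ) * Ph g a j l (pth τ s t) +
      ((√(1 - s) : ℝ) : ℂ) * (deriv (Ph g a j l) (pth τ s t) * ((t - τ) / csq (t - τ))) := by
        ring
    _ = -1 / (2 * ((√(1 - s) : ℝ) : ℂ)) / csq (t - τ) * Ph g a j l (pth τ s t) +
      ((1 - (s : ℂ)) / ((√(1 - s) : ℝ) : ℂ)) * (deriv (Ph g a j l) (pth τ s t) *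
        csq (t - τ)) := by rw [e1, e2]
    _ = _ := by
        field_simp

theorem In_int (ha : StrictMono a) (ht : 0 < t.im) {τ : ℝ}
    (hτ : a j < τ ∧ τ < a (j + 1)) :
    (∃ (ε M : ℝ), 0 < ε ∧ (∀ τ' ∈ ball τ ε, a j < τ' ∧ τ' < a (j + 1)) ∧
      ∀ τ' ∈ ball τ ε, ∀ s, 0 < s → s < 1 → ‖dF g a j l t τ' s‖ ≤ M * wt s) := by
  set ε : ℝ := min (τ - a j) (a (j + 1) - τ) / 2 with hε
  have hm : 0 < min (τ - a j) (a (j + 1) - τ) :=
    lt_min (by linarith [hτ.1]) (by linarith [hτ.2])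
  have hε0 : 0 < ε := by positivity
  have hl1 : 2 * ε ≤ τ - a j := by rw [hε]; linarith [min_le_left (τ - a j) (a (j + 1) - τ)]
  have hl2 : 2 * ε ≤ a (j + 1) - τ := by
    rw [hε]; linarith [min_le_right (τ - a j) (a (j + 1) - τ)]
  have hc : ContinuousOn (fun q : ℝ × ℝ => In g a j l t q.1 q.2)
      (Icc (τ - ε) (τ + ε) ×ˢ Icc (0 : ℝ) 1) := by
    refine (In_cont ha ht).mono (prod_mono ?_ subset_rfl)
    intro y hy
    exact ⟨by linarith [hy.1], by linarith [hy.2]⟩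
  obtain ⟨M, hM⟩ := (isCompact_Icc.prod isCompact_Icc).exists_bound_of_continuousOn hc
  refine ⟨ε, M, hε0, ?_, ?_⟩
  · intro τ' hτ'
    rw [Real.ball_eq_Ioo] at hτ'
    exact ⟨by linarith [hτ'.1], by linarith [hτ'.2]⟩
  · intro τ' hτ' s h0 h1
    rw [Real.ball_eq_Ioo] at hτ'
    have h2 := hM (τ', s) ⟨⟨hτ'.1.le, hτ'.2.le⟩, ⟨h0.le, h1.le⟩⟩
    simp only at h2
    have h3 := le_wt ⟨h0, h1⟩
    have h4 : 0 ≤ 1 / √(1 - s) := by positivity
    unfold dF
    rw [norm_mul, Complex.norm_real, Real.norm_eq_abs, abs_of_nonneg h4, mul_comm]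
    exact mul_le_mul h2 h3 h4 ((norm_nonneg _).trans h2)

theorem In_cont_s (ha : StrictMono a) (ht : 0 < t.im) {τ : ℝ}
    (hτ : a j < τ ∧ τ < a (j + 1)) :
    ContinuousOn (dF g a j l t τ) (Ioo 0 1) := by
  have hc : ContinuousOn (fun s : ℝ => ((τ, s) : ℝ × ℝ)) (Ioo 0 1) :=
    (Continuous.prodMk continuous_const continuous_id).continuousOn
  have hm : MapsTo (fun s : ℝ => ((τ, s) : ℝ × ℝ)) (Ioo 0 1)
      (Ioo (a j) (a (j + 1)) ×ˢ Icc (0 : ℝ) 1) := by
    intro s hs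
    exact ⟨hτ, ⟨hs.1.le, hs.2.le⟩⟩
  have h : ContinuousOn ((fun q : ℝ × ℝ => In g a j l t q.1 q.2) ∘
      (fun s : ℝ => ((τ, s) : ℝ × ℝ))) (Ioo 0 1) := (In_cont ha ht).comp hc hm
  exact cont_w.mul h

theorem W_deriv (hI : Stmt_Intg) (hg : j + 1 < 2 * g) (ha : StrictMono a) (ht : 0 < t.im)
    {τ : ℝ} (hτ : a j < τ ∧ τ < a (j + 1)) :
    HasDerivAt (W g a j l t) (-(Ph g a j l τ / csq (t - τ))) τ := by
  obtain ⟨ε, M, hε, hball, hbd⟩ := In_int (g := g) (l := l) ha ht hτ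
  have k1 : ∀ᶠ x in 𝓝 τ, AEStronglyMeasurable (Fi g a j l t x)
      (volume.restrict (Set.uIoc (0 : ℝ) 1)) :=
    Filter.Eventually.of_forall fun τ => meas_of (Fi_cont_s ha ht τ)
  have k2 : IntervalIntegrable (Fi g a j l t τ) volume 0 1 :=
    Fi_int hI hg ha ht ⟨hτ.1.le, hτ.2.le⟩
  have k3 : AEStronglyMeasurable (dF g a j l t τ) (volume.restrict (Set.uIoc (0 : ℝ) 1)) :=
    meas_of (In_cont_s ha ht hτ)
  have k4 : ∀ᵐ s ∂(volume : Measure ℝ), s ∈ Set.uIoc (0 : ℝ) 1 → ∀ x ∈ ball τ ε,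
      ‖dF g a j l t x s‖ ≤ M * wt s := ae_Ioo fun s h0 h1 τ' hτ' => hbd τ' hτ' s h0 h1
  have k5 : ∀ᵐ s ∂(volume : Measure ℝ), s ∈ Set.uIoc (0 : ℝ) 1 → ∀ x ∈ ball τ ε,
      HasDerivAt (fun x => Fi g a j l t x s) (dF g a j l t x s) x :=
    ae_Ioo fun s h0 _ τ' hτ' => Fi_deriv ha ht (hball τ' hτ') h0.le
  have key := intervalIntegral.hasDerivAt_integral_of_dominated_loc_of_deriv_le
    (ball_mem_nhds τ hε) k1 k2 k3 k4 ((wt_int hI).const_mul M) k5
  have h2 : ∫ s in (0 : ℝ)..1, dF g a j l t τ s =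
      Gs g a j l t τ 1 - Gs g a j l t τ 0 := by
    apply intervalIntegral.integral_eq_sub_of_hasDerivAt_of_le zero_le_one
    · unfold Gs
      refine ContinuousOn.mul (Continuous.continuousOn ?_) ?_
      · exact (Complex.continuous_ofReal.comp (Real.continuous_sqrt.comp
          (continuous_const.sub continuous_id))).div_const _
      · exact (Ph_cont ha).comp (cont_pth τ t).continuousOn (fun s hs => pth_mem hτ hs.1 ht)
    · intro s hs
      exact Gs_deriv ha ht hτ hs.1 hs.2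
    · exact key.1
  have h3 := key.2
  rw [h2] at h3
  unfold W
  refine h3.congr_deriv ?_
  unfold Gs
  simp only [sub_self, Real.sqrt_zero, Complex.ofReal_zero, zero_div, zero_mul, sub_zero,
    Real.sqrt_one, Complex.ofReal_one, zero_sub]
  have e : pth τ 0 t = (τ : ℂ) := by simp [pth]
  rw [e]
  ring

/-- the product of square roots -/
theorem prod_sqrt (S : Finset ℕ) (f : ℕ → ℝ) (hf : ∀ i ∈ S, 0 ≤ f i) :
    ∏ i ∈ S, √(f i) = √(∏ i ∈ S, f i) := by
  induction S using Finset.induction_on with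
  | empty => simp
  | insert i S hi ih =>
    rw [Finset.prod_insert hi, Finset.prod_insert hi, ih (fun k hk => hf k
      (Finset.mem_insert_of_mem hk)), Real.sqrt_mul (hf i (Finset.mem_insert_self i S))]

theorem P_real (hg : j + 1 < 2 * g) (ha : StrictMono a) {x : ℝ}
    (hx : a j < x ∧ x < a (j + 1)) :
    P g a j (x : ℂ) = Complex.I ^ (2 * g - j) *
      ((√|∏ i ∈ Finset.range (2 * g), (x - a i)| : ℝ) : ℂ) := by
  have h1 : ∏ i ∈ Finset.range (j + 1), csq ((x : ℂ) - (a i : ℂ)) =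
      ((∏ i ∈ Finset.range (j + 1), √|x - a i| : ℝ) : ℂ) := by
    rw [Complex.ofReal_prod]
    refine Finset.prod_congr rfl fun i hi => ?_
    rw [Finset.mem_range] at hi
    have h2 : a i ≤ a j := ha.monotone (by omega)
    have h3 : 0 ≤ x - a i := by linarith [hx.1]
    rw [abs_of_nonneg h3, ← csq_ofReal h3]
    push_cast
    rfl
  have h2 : ∏ i ∈ Finset.Ico (j + 1) (2 * g), (Complex.I * csq ((a i : ℂ) - (x : ℂ))) =
      Complex.I ^ (2 * g - (j + 1)) *
        ((∏ i ∈ Finset.Ico (j + 1) (2 * g), √|x - a i| : ℝ) : ℂ) := by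
    rw [Finset.prod_mul_distrib, Finset.prod_const, Nat.card_Ico, Complex.ofReal_prod]
    congr 1
    refine Finset.prod_congr rfl fun i hi => ?_
    rw [Finset.mem_Ico] at hi
    have h2 : a (j + 1) ≤ a i := ha.monotone hi.1
    have h3 : 0 ≤ a i - x := by linarith [hx.2]
    rw [abs_sub_comm, abs_of_nonneg h3, ← csq_ofReal h3]
    push_cast
    rfl
  unfold P
  rw [h1, h2]
  have h3 : √|∏ i ∈ Finset.range (2 * g), (x - a i)| =
      (∏ i ∈ Finset.range (j + 1), √|x - a i|) *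
        ∏ i ∈ Finset.Ico (j + 1) (2 * g), √|x - a i| := by
    rw [Finset.prod_range_mul_prod_Ico _ hg.le, Finset.abs_prod,
      prod_sqrt _ _ (fun _ _ => abs_nonneg _)]
  have h4 : 2 * g - j = (2 * g - (j + 1)) + 1 := by omega
  rw [h3, h4, pow_succ]
  push_cast
  ring

end Tri_

open Tri_ in
theorem tri_proof (hI : Stmt_Intg) : Stmt_Tri := by
  intro g a hg0 ha j l hg t ht
  classical
  have hd : a j < a (j + 1) := ha (Nat.lt_succ_self j)
  -- the end points
  have hend : ∀ k, (k = j ∨ k = j + 1) → W g a j l t (a k) = Ic g a k l t := by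
    intro k hk
    unfold W Ic
    rw [← intervalIntegral.integral_const_mul]
    refine intervalIntegral.integral_congr_ae (ae_Ioo fun s h0 h1 => ?_)
    have hx : 0 < (pth (a k) s t).im := by rw [pth_im]; exact mul_pos h0 ht
    unfold Fi Ph
    rw [P_eq hg.le hx, ← Finset.mul_prod_erase (Finset.range (2 * g))
      (fun i => csq (pth (a k) s t - (a i : ℂ))) (Finset.mem_range.2 (by omega : k < 2 * g))]
    have e1 : pth (a k) s t - (a k : ℂ) = (s : ℂ) * (t - (a k : ℂ)) := by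
      unfold pth; ring
    rw [e1, csq_mul_ofReal h0.le, Real.sqrt_mul h0.le]
    have n1 : csq (t - (a k : ℂ)) ≠ 0 := csq_ne (slit_t ht _)
    have n2 : ((√s : ℝ) : ℂ) ≠ 0 := by exact_mod_cast (Real.sqrt_pos.2 h0).ne'
    have n3 : ((√(1 - s) : ℝ) : ℂ) ≠ 0 := by
      exact_mod_cast (Real.sqrt_pos.2 (by linarith)).ne'
    have n4 : ∏ i ∈ (Finset.range (2 * g)).erase k, csq (pth (a k) s t - (a i : ℂ)) ≠ 0 := by
      refine Finset.prod_ne_zero_iff.2 fun i _ => csq_ne_zero (ne_zero_of_im ?_)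
      rw [Complex.sub_im, Complex.ofReal_im, sub_zero]
      exact hx.ne'
    push_cast
    field_simp
    rw [Complex.I_sq]
    ring
  -- the fundamental theorem of calculus
  have hint : IntervalIntegrable (fun τ : ℝ => -(Ph g a j l τ / csq (t - τ))) volume
      (a j) (a (j + 1)) := by
    let G : ℝ → ℝ := fun x => ∏ i ∈ ((Finset.range (2 * g)).erase j).erase (j + 1), |x - a i|
    have hG : ContinuousOn G (Icc (a j) (a (j + 1))) :=
      (continuous_finsetProd _ fun i _ => (continuous_id.sub continuous_const).abs).continuousOn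
    have hG0 : ∀ x ∈ Icc (a j) (a (j + 1)), 0 < G x := by
      intro x hx
      refine Finset.prod_pos fun i hi => abs_pos.2 ?_
      rw [Finset.mem_erase, Finset.mem_erase] at hi
      intro h2
      have h2 : x = a i := by linarith
      rw [h2] at hx
      have h3 := ha.le_iff_le.1 hx.1
      have h4 := ha.le_iff_le.1 hx.2
      omega
    have h1 := hI (a j) (a (j + 1)) G hd hG hG0
    have hc : Continuous (fun τ : ℝ => ‖(τ : ℂ) ^ l / csq (t - τ)‖) := by
      refine continuous_norm.comp (Continuous.div (by fun_prop) (cont_csqt ht) ?_)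
      exact fun τ => csq_ne (slit_t ht τ)
    obtain ⟨M, hM⟩ := isCompact_Icc.exists_bound_of_continuousOn (s := Icc (a j) (a (j + 1)))
      hc.continuousOn
    refine (h1.const_mul M).mono_fun ?_ ?_
    · rw [uIoc_of_le hd.le, ← restrict_Ioo_eq_restrict_Ioc]
      refine ContinuousOn.aestronglyMeasurable ?_ measurableSet_Ioo
      refine ContinuousOn.neg (ContinuousOn.div ?_ (cont_csqt ht).continuousOn
        (fun τ _ => csq_ne (slit_t ht τ)))
      exact (Ph_cont ha).comp Complex.continuous_ofReal.continuousOn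
        (fun x hx => Or.inr (by simpa using hx))
    · rw [Filter.EventuallyLE, ae_restrict_iff' measurableSet_uIoc]
      have h2 : ∀ᵐ s ∂(volume : Measure ℝ), s ≠ a (j + 1) := by
        have : (volume : Measure ℝ) {a (j + 1)} = 0 := by simp
        exact compl_mem_ae_iff.2 this
      filter_upwards [h2] with x hx hmem
      rw [uIoc_of_le hd.le] at hmem
      have hx1 : a j < x ∧ x < a (j + 1) := ⟨hmem.1, lt_of_le_of_ne hmem.2 hx⟩
      have h3 := hM x ⟨hx1.1.le, hx1.2.le⟩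
      rw [norm_norm] at h3
      refine le_trans ?_ (le_abs_self _)
      have h4 : |∏ i ∈ Finset.range (2 * g), (x - a i)| = |(x - a j) * (x - a (j + 1))| * G x := by
        rw [← Finset.mul_prod_erase (Finset.range (2 * g)) _ (Finset.mem_range.2
          (by omega : j < 2 * g)), ← Finset.mul_prod_erase ((Finset.range (2 * g)).erase j) _
          (Finset.mem_erase.2 ⟨by omega, Finset.mem_range.2 (by omega : j + 1 < 2 * g)⟩)]
        rw [← mul_assoc, abs_mul, Finset.abs_prod]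
      unfold Ph
      rw [P_real hg ha hx1, h4, norm_neg, norm_div, norm_div, norm_mul, norm_pow (Complex.I),
        Complex.norm_I, one_pow, one_mul, Complex.norm_real, Real.norm_eq_abs,
        abs_of_nonneg (Real.sqrt_nonneg _)]
      rw [norm_div] at h3
      calc ‖(x : ℂ) ^ l‖ / √(|(x - a j) * (x - a (j + 1))| * G x) / ‖csq (t - (x : ℂ))‖ =
          (‖(x : ℂ) ^ l‖ / ‖csq (t - (x : ℂ))‖) *
            (1 / √(|(x - a j) * (x - a (j + 1))| * G x)) := by
            rw [div_right_comm, div_eq_mul_one_div]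
        _ ≤ _ := mul_le_mul_of_nonneg_right h3 (by positivity)
  have hftc := intervalIntegral.integral_eq_sub_of_hasDerivAt_of_le hd.le
    (W_cont (l := l) hI hg ha ht) (fun τ hτ => W_deriv hI hg ha ht hτ) hint
  rw [hend j (Or.inl rfl), hend (j + 1) (Or.inr rfl)] at hftc
  have hYc : Yc g a j l t = ∫ τ in (a j)..(a (j + 1)), Ph g a j l τ / csq (t - τ) := by
    unfold Yc Jc
    rw [if_pos hg, ← intervalIntegral.integral_const_mul]
    refine intervalIntegral.integral_congr_ae ?_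
    have h2 : ∀ᵐ s ∂(volume : Measure ℝ), s ≠ a (j + 1) := by
      have : (volume : Measure ℝ) {a (j + 1)} = 0 := by simp
      exact compl_mem_ae_iff.2 this
    filter_upwards [h2] with x hx hmem
    rw [uIoc_of_le hd.le] at hmem
    have hx1 : a j < x ∧ x < a (j + 1) := ⟨hmem.1, lt_of_le_of_ne hmem.2 hx⟩
    unfold Ph
    rw [P_real hg ha hx1]
    have n1 : csq (t - (x : ℂ)) ≠ 0 := csq_ne (slit_t ht _)
    have n0 : P g a j (x : ℂ) ≠ 0 := P_ne ha (Or.inr (by simpa using hx1))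
    rw [P_real hg ha hx1] at n0
    have n2 := right_ne_zero_of_mul n0
    have n3 := left_ne_zero_of_mul n0
    have e1 : Complex.I ^ (j + 2 * g) * Complex.I ^ (2 * g - j) = 1 := by
      rw [← pow_add, show j + 2 * g + (2 * g - j) = 4 * g by omega, pow_mul, Complex.I_pow_four,
        one_pow]
    have e2 : Complex.I ^ (j + 2 * g) = 1 / Complex.I ^ (2 * g - j) := by
      rw [eq_div_iff n3, e1]
    rw [e2]
    field_simp
  rw [hYc]
  rw [intervalIntegral.integral_neg] at hftc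
  linear_combination hftc

end

end Pool.Agent.HGP
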