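import Pool.Agent.HGP.Stmts

/-! # Module VDM: the matrix of the real periods of the holomorphic differentials is invertible -/

open scoped BigOperators Topology
open Metric Set MeasureTheory

namespace Pool.Agent.HGP.VDM

/-- The integrand is integrable on the intervals with even number. -/
theorem integrable (hIntg : Stmt_Intg) (g : ℕ) (a : ℕ → ℝ) (ha : StrictMono a)
    (t : ℝ) (ht : a (2 * g - 1) < t) (i : ℕ) (hi : i < g) (p : Polynomial ℝ) :
    IntervalIntegrable (fun x => p.eval x / √|(Fpol g a t).eval x|) volume (a (2 * i))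
      (a (2 * i + 1)) := by
  have hlt : a (2 * i) < a (2 * i + 1) := ha (by omega)
  let S : Finset ℕ := ((Finset.range (2 * g)).erase (2 * i)).erase (2 * i + 1)
  let G : ℝ → ℝ := fun x => (∏ j ∈ S, |x - a j|) * |x - t|
  have hGc : Continuous G := by
    refine Continuous.mul (continuous_finsetProd _ fun j _ => ?_) ?_
    · exact (continuous_id.sub continuous_const).abs
    · exact (continuous_id.sub continuous_const).abs
  have hGpos : ∀ x ∈ Icc (a (2 * i)) (a (2 * i + 1)), 0 < G x := by
    intro x hx
    refine mul_pos (Finset.prod_pos fun j hj => ?_) ?_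
    · rw [abs_pos, sub_ne_zero]
      simp only [S, Finset.mem_erase, Finset.mem_range] at hj
      rcases Nat.lt_or_ge j (2 * i) with h | h
      · have := ha h
        have := hx.1
        linarith
      · have := ha (show 2 * i + 1 < j by omega)
        have := hx.2
        intro h'
        linarith
    · rw [abs_pos, sub_ne_zero]
      have h1 : a (2 * i + 1) ≤ a (2 * g - 1) := ha.monotone (by omega)
      have := hx.2
      linarith
  have hF : ∀ x, |(Fpol g a t).eval x| = |(x - a (2 * i)) * (x - a (2 * i + 1))| * G x := by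
    intro x
    simp only [Fpol, Polynomial.eval_mul, Polynomial.eval_prod, Polynomial.eval_sub,
      Polynomial.eval_X, Polynomial.eval_C, G]
    rw [← Finset.mul_prod_erase (Finset.range (2 * g)) _ (Finset.mem_range.mpr
      (show 2 * i < 2 * g by omega)), ← Finset.mul_prod_erase ((Finset.range (2 * g)).erase (2 * i)) _
      (show 2 * i + 1 ∈ _ by simp; omega)]
    rw [abs_mul, abs_mul, abs_mul, Finset.abs_prod, abs_mul]
    ring
  have h1 := hIntg (a (2 * i)) (a (2 * i + 1)) G hlt hGc.continuousOn hGpos
  have h2 := h1.continuousOn_mul (g := fun x => p.eval x) (p.continuous.continuousOn)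
  refine h2.congr ?_
  intro x _
  simp only [hF x]
  ring

theorem exists_root (hIntg : Stmt_Intg) (g : ℕ) (a : ℕ → ℝ) (ha : StrictMono a)
    (t : ℝ) (ht : a (2 * g - 1) < t) (i : ℕ) (hi : i < g) (p : Polynomial ℝ)
    (h0 : per g a t (2 * i) p = 0) :
    ∃ x ∈ Ioo (a (2 * i)) (a (2 * i + 1)), p.eval x = 0 := by
  have hlt : a (2 * i) < a (2 * i + 1) := ha (by omega)
  have hr : rend g a t (2 * i) = a (2 * i + 1) := by
    rw [rend, if_pos (by omega)]
  rw [per, hr] at h0
  by_contra hcon
  push Not at hcon
  have hFpos : ∀ x ∈ Ioo (a (2 * i)) (a (2 * i + 1)), 0 < √|(Fpol g a t).eval x| := by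
    intro x hx
    rw [Real.sqrt_pos, abs_pos]
    simp only [Fpol, Polynomial.eval_mul, Polynomial.eval_prod, Polynomial.eval_sub,
      Polynomial.eval_X, Polynomial.eval_C]
    refine mul_ne_zero (Finset.prod_ne_zero_iff.mpr fun j hj => ?_) ?_
    · rw [sub_ne_zero]
      rcases Nat.lt_or_ge (2 * i) j with h | h
      · have h1 : a (2 * i + 1) ≤ a j := ha.monotone (by omega)
        have := hx.2
        intro h'
        linarith
      · have h1 : a j ≤ a (2 * i) := ha.monotone h
        have := hx.1
        intro h'
        linarith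
    · rw [sub_ne_zero]
      have h1 : a (2 * i + 1) ≤ a (2 * g - 1) := ha.monotone (by omega)
      have := hx.2
      intro h'
      linarith
  -- constant sign
  have hsign : (∀ x ∈ Ioo (a (2 * i)) (a (2 * i + 1)), 0 < p.eval x) ∨
      (∀ x ∈ Ioo (a (2 * i)) (a (2 * i + 1)), p.eval x < 0) := by
    by_contra hno
    push Not at hno
    obtain ⟨⟨x, hx, hx'⟩, y, hy, hy'⟩ := hno
    have hpre : IsPreconnected (Ioo (a (2 * i)) (a (2 * i + 1))) := isPreconnected_Ioo
    obtain ⟨z, hz, hz'⟩ := hpre.intermediate_value hx hy p.continuous.continuousOn ⟨hx', hy'⟩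
    exact hcon z hz hz'
  have hint := integrable hIntg g a ha t ht i hi p
  rcases hsign with hs | hs
  · have := intervalIntegral.intervalIntegral_pos_of_pos_on hint
      (fun x hx => div_pos (hs x hx) (hFpos x hx)) hlt
    linarith
  · have := intervalIntegral.intervalIntegral_pos_of_pos_on hint.neg
      (fun x hx => by
        change 0 < -(p.eval x / √|(Fpol g a t).eval x|)
        have := div_neg_of_neg_of_pos (hs x hx) (hFpos x hx)
        linarith) hlt
    have h1 : ∫ x in (a (2 * i))..(a (2 * i + 1)),
      (-fun x => p.eval x / √|(Fpol g a t).eval x|) x = 0 := by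
      simp only [Pi.neg_apply, intervalIntegral.integral_neg, h0, neg_zero]
    linarith

end Pool.Agent.HGP.VDM

namespace Pool.Agent.HGP

theorem vdm_proof (hIntg : Stmt_Intg) : Stmt_Vdm := by
  intro g a hg ha t ht
  let R : Matrix (Fin g) (Fin g) ℝ := Matrix.of fun k i =>
    per g a t (2 * (i : ℕ)) (Polynomial.X ^ (k : ℕ))
  have hM : (Per g a t).toBlocks₁₁ = R.map (algebraMap ℝ ℂ) *
      Matrix.diagonal (fun i : Fin g => (2 * (-1) ^ (i : ℕ) : ℂ)) := by
    ext k i
    rw [Matrix.mul_diagonal]
    simp only [Matrix.toBlocks₁₁, Per, Matrix.of_apply, num, R, Matrix.map_apply]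
    rw [mul_comm]
    rfl
  rw [hM, Matrix.det_mul, Matrix.det_diagonal]
  refine mul_ne_zero ?_ (Finset.prod_ne_zero_iff.mpr fun i _ => by simp)
  have hdet : (R.map (algebraMap ℝ ℂ)).det = (algebraMap ℝ ℂ) R.det :=
    (RingHom.map_det (algebraMap ℝ ℂ) R).symm
  rw [hdet]
  have hR : R.det ≠ 0 := by
    intro h0
    obtain ⟨v, hv, hvR⟩ := Matrix.exists_vecMul_eq_zero_iff.mpr h0
    let p : Polynomial ℝ := ∑ k : Fin g, Polynomial.C (v k) * Polynomial.X ^ (k : ℕ)
    have hper : ∀ i : Fin g, per g a t (2 * (i : ℕ)) p = 0 := by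
      intro i
      have h1 := congrFun hvR i
      rw [Matrix.vecMul, dotProduct] at h1
      have hr : rend g a t (2 * (i : ℕ)) = a (2 * (i : ℕ) + 1) := by
        rw [rend, if_pos (by omega)]
      have h2 : per g a t (2 * (i : ℕ)) p = ∑ k : Fin g, v k * R k i := by
        simp only [per, hr, R, Matrix.of_apply, p, Polynomial.eval_finsetSum, Polynomial.eval_mul,
          Polynomial.eval_C, Finset.sum_div]
        rw [intervalIntegral.integral_finsetSum]
        · refine Finset.sum_congr rfl fun k _ => ?_
          rw [← intervalIntegral.integral_const_mul]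
          refine intervalIntegral.integral_congr fun x _ => ?_
          ring
        · intro k _
          have := VDM.integrable hIntg g a ha t ht i i.2 (Polynomial.C (v k) *
            Polynomial.X ^ (k : ℕ))
          simpa only [Polynomial.eval_mul, Polynomial.eval_C] using this
      rw [h2, h1]; rfl
    have hroot : ∀ i : Fin g, ∃ x ∈ Ioo (a (2 * (i : ℕ))) (a (2 * (i : ℕ) + 1)), p.eval x = 0 :=
      fun i => VDM.exists_root hIntg g a ha t ht i i.2 p (hper i)
    choose z hz hz0 using hroot
    have hinj : Function.Injective z := by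
      have hmono : StrictMono z := by
        intro i j hij
        have h1 := (hz i).2
        have h2 := (hz j).1
        have h3 : a (2 * (i : ℕ) + 1) ≤ a (2 * (j : ℕ)) := ha.monotone (by
          have : (i : ℕ) < j := hij
          omega)
        linarith
      exact hmono.injective
    have hdeg : p.natDegree < Fintype.card (Fin g) := by
      rw [Fintype.card_fin]
      have : p.natDegree ≤ g - 1 := by
        refine Polynomial.natDegree_sum_le_of_forall_le _ _ fun k _ => ?_
        refine (Polynomial.natDegree_C_mul_X_pow_le _ _).trans ?_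
        omega
      omega
    have hp0 : p = 0 := Polynomial.eq_zero_of_natDegree_lt_card_of_eval_eq_zero p hinj hz0 hdeg
    apply hv
    funext k
    have h3 := congrArg (fun q => Polynomial.coeff q (k : ℕ)) hp0
    simp only [p, Polynomial.finsetSum_coeff, Polynomial.coeff_C_mul, Polynomial.coeff_X_pow,
      Polynomial.coeff_zero] at h3
    rw [Finset.sum_eq_single k] at h3
    · simpa using h3
    · intro j _ hj
      rw [if_neg (fun h => hj (Fin.ext h.symm)), mul_zero]
    · intro h; exact absurd (Finset.mem_univ _) h
  simpa using hR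

end Pool.Agent.HGP
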