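import Pool.Agent.GPC.Main
import Pool.Agent.HGP.CELLA
import Pool.Agent.HGP.CELLB
import Pool.Agent.HGP.CELLP
import Pool.Agent.HGP.CELLQ
import Pool.Agent.HGP.FIBER
import Pool.Agent.HGP.FINAL
import Pool.Agent.HGP.GEN
import Pool.Agent.HGP.GENA
import Pool.Agent.HGP.GENB
import Pool.Agent.HGP.HOMOG
import Pool.Agent.HGP.HOMOGC
import Pool.Agent.HGP.IEXT
import Pool.Agent.HGP.INDUC
import Pool.Agent.HGP.INTG
import Pool.Agent.HGP.Ind
import Pool.Agent.HGP.JHOL
import Pool.Agent.HGP.JLEFT
import Pool.Agent.HGP.JLINK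
import Pool.Agent.HGP.JMID
import Pool.Agent.HGP.JRIGHT
import Pool.Agent.HGP.LIMPI
import Pool.Agent.HGP.LOC
import Pool.Agent.HGP.LOGSH
import Pool.Agent.HGP.LS
import Pool.Agent.HGP.PATH
import Pool.Agent.HGP.PHOL
import Pool.Agent.HGP.PINT
import Pool.Agent.HGP.PLINK
import Pool.Agent.HGP.RADJ
import Pool.Agent.HGP.RALG
import Pool.Agent.HGP.RCUT
import Pool.Agent.HGP.RFAR
import Pool.Agent.HGP.RIEM
import Pool.Agent.HGP.RIEMC
import Pool.Agent.HGP.STEP
import Pool.Agent.HGP.TRANS
import Pool.Agent.HGP.TRI
import Pool.Agent.HGP.UNIP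
import Pool.Agent.HGP.VDM

/-!
# HGP: assembly
-/

namespace Pool.Agent.HGP.Main

open Pool.Agent.HGP

theorem pint : Stmt_Pint := pint_proof
theorem intg : Stmt_Intg := intg_proof
theorem jlink : Stmt_Jlink := jlink_proof
theorem plink : Stmt_Plink := plink_proof jlink intg
theorem jhol : Stmt_Jhol := jhol_proof pint intg
theorem loc : Stmt_Loc := loc_proof
theorem tri : Stmt_Tri := tri_proof intg
theorem iext : Stmt_Iext := iext_proof pint intg
theorem jmid : Stmt_Jmid := jmid_proof pint intg
theorem jleft : Stmt_Jleft := jleft_proof pint intg loc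
theorem jright : Stmt_Jright := jright_proof pint intg loc iext
theorem ls : Stmt_LS := ls_proof tri iext jmid jleft jright
theorem phol : Stmt_Phol := phol_proof jhol
theorem unip : Stmt_Unip := unip_proof logsh_proof ls phol
theorem genb : Stmt_GenB := genb_proof
theorem gen : Stmt_Gen := gen_proof gena_proof genb
theorem path : Stmt_Path := path_proof genb
theorem rcut : Stmt_RCut := rcut_proof ralg_proof intg
theorem rfar : Stmt_RFar := rfar_proof rcut
theorem radj : Stmt_RAdj := radj_proof rcut LIMPI_proof intg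
theorem riem : Stmt_Riem := riem_proof rfar radj
theorem riemc : Stmt_RiemC := riemc_proof riem plink phol
theorem fiber : Stmt_Fiber := fiber_proof unip gen riemc phol
theorem vdm : Stmt_Vdm := vdm_proof intg
theorem ind : Stmt_Ind := ind_proof homogc_proof cellq_proof fiber cellb_proof
theorem step : Stmt_Step := step_proof GPC.Main.thmG ind vdm plink phol
theorem induc : Stmt_Induc := induc_proof step
theorem trans : Stmt_Trans := trans_proof cella_proof cellp_proof homog_proof vdm riem path
theorem final : Stmt_Final := final_proof riem trans induc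

end Pool.Agent.HGP.Main
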