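import Pool.Agent.HGP.Basic

/-!
# HGP: exact statements of the modules
-/

open scoped BigOperators Topology
open Metric Set MeasureTheory

namespace Pool.Agent.HGP

noncomputable section

/-! ## Analysis -/

/-- PINT: holomorphic dependence of an integral on a parameter. -/
def Stmt_Pint : Prop := ∀ (p q : ℝ) (φ : ℝ → ℂ) (V : Set ℂ) (k : ℂ → ℝ → ℂ), p ≤ q →
  IntervalIntegrable φ volume p q → IsOpen V →
  ContinuousOn (fun z : ℂ × ℝ => k z.1 z.2) (V ×ˢ Icc p q) →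
  (∀ x ∈ Icc p q, DifferentiableOn ℂ (fun t => k t x) V) →
  DifferentiableOn ℂ (fun t => ∫ x in p..q, φ x * k t x) V

/-- INTG: integrability of inverse square roots. -/
def Stmt_Intg : Prop := ∀ (p q : ℝ) (G : ℝ → ℝ), p < q → ContinuousOn G (Icc p q) →
  (∀ x ∈ Icc p q, 0 < G x) →
  IntervalIntegrable (fun x => 1 / √(|(x - p) * (x - q)| * G x)) volume p q

/-- JLINK: the complex integrals at real parameters. -/
def Stmt_Jlink : Prop := ∀ (g : ℕ) (a : ℕ → ℝ), 0 < g → StrictMono a → ∀ t : ℝ,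
  a (2 * g - 1) < t → ∀ m < 2 * g, ∀ l : ℕ, Jc g a m l t = (per g a t m (Polynomial.X ^ l) : ℂ)

/-- PLINK: the complex period matrix at real parameters. -/
def Stmt_Plink : Prop := ∀ (g : ℕ) (a : ℕ → ℝ), 0 < g → StrictMono a → ∀ t : ℝ,
  a (2 * g - 1) < t → PerC g a t = Per g a t

/-- JHOL -/
def Stmt_Jhol : Prop := ∀ (g : ℕ) (a : ℕ → ℝ), 0 < g → StrictMono a → ∀ m < 2 * g, ∀ l : ℕ,
  DifferentiableOn ℂ (Jc g a m l) (U g a)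

/-- LOC: the local structure of the integrals at a branch point. -/
def Stmt_Loc : Prop := ∀ (R ρ : ℝ) (φ : ℂ → ℂ), 0 < ρ → ρ < R →
  DifferentiableOn ℂ φ (ball 0 R) →
  ∃ (r : ℝ) (h : ℂ → ℂ), 0 < r ∧ DifferentiableOn ℂ h (ball 0 r) ∧
    ∀ w ∈ ball (0 : ℂ) r, w ∈ Complex.slitPlane →
      ∫ v in (0 : ℝ)..ρ, φ v / (((√v : ℝ) : ℂ) * csq (v + w)) =
        h w - (1 / Real.pi) * Complex.log w *
          ∫ s in (0 : ℝ)..1, φ (-(s * w)) / ((√(s * (1 - s)) : ℝ) : ℂ)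

/-- TRI: Cauchy's theorem for the triangle `a j, a (j + 1), t`. -/
def Stmt_Tri : Prop := ∀ (g : ℕ) (a : ℕ → ℝ), 0 < g → StrictMono a → ∀ j l : ℕ,
  j + 1 < 2 * g → ∀ t : ℂ, 0 < t.im → Ic g a j l t - Ic g a (j + 1) l t = Yc g a j l t

/-- IEXT -/
def Stmt_Iext : Prop := ∀ (g : ℕ) (a : ℕ → ℝ), 0 < g → StrictMono a → ∀ j < 2 * g, ∀ l : ℕ,
  ∃ (ρ : ℝ) (e : ℂ → ℂ), 0 < ρ ∧ DifferentiableOn ℂ e (ball ((a j : ℝ) : ℂ) ρ) ∧
    ∀ t ∈ ball ((a j : ℝ) : ℂ) ρ, 0 < t.im → Ic g a j l t = e t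

/-- JMID -/
def Stmt_Jmid : Prop := ∀ (g : ℕ) (a : ℕ → ℝ), 0 < g → StrictMono a → ∀ j < 2 * g,
  ∀ m l : ℕ, m + 1 < 2 * g → m ≠ j → m + 1 ≠ j →
  ∃ (ρ : ℝ) (h : ℂ → ℂ), 0 < ρ ∧ DifferentiableOn ℂ h (ball ((a j : ℝ) : ℂ) ρ) ∧
    ∀ t ∈ ball ((a j : ℝ) : ℂ) ρ, 0 < t.im → Yc g a m l t = h t

/-- JLEFT -/
def Stmt_Jleft : Prop := ∀ (g : ℕ) (a : ℕ → ℝ), 0 < g → StrictMono a → ∀ m l : ℕ,
  m + 1 < 2 * g → ∃ (ρ : ℝ) (h : ℂ → ℂ), 0 < ρ ∧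
    DifferentiableOn ℂ h (ball ((a (m + 1) : ℝ) : ℂ) ρ) ∧
    ∀ t ∈ ball ((a (m + 1) : ℝ) : ℂ) ρ, 0 < t.im → Yc g a m l t =
      h t + Complex.I / Real.pi * Complex.log (t - a (m + 1)) * Ic g a (m + 1) l t

/-- JRIGHT -/
def Stmt_Jright : Prop := ∀ (g : ℕ) (a : ℕ → ℝ), 0 < g → StrictMono a → ∀ m l : ℕ,
  m + 1 < 2 * g → ∃ (ρ : ℝ) (h : ℂ → ℂ), 0 < ρ ∧
    DifferentiableOn ℂ h (ball ((a m : ℝ) : ℂ) ρ) ∧
    ∀ t ∈ ball ((a m : ℝ) : ℂ) ρ, 0 < t.im → Yc g a m l t =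
      h t + Complex.I / Real.pi * Complex.log (t - a m) * Ic g a m l t

/-- LS: the local structure of all the integrals near `a j`, from the upper half plane. -/
def Stmt_LS : Prop := ∀ (g : ℕ) (a : ℕ → ℝ), 0 < g → StrictMono a → ∀ j < 2 * g,
  ∃ (ρ : ℝ) (e : ℕ → ℂ → ℂ) (h : ℕ → ℕ → ℂ → ℂ), 0 < ρ ∧
    (∀ l < 2 * g, DifferentiableOn ℂ (e l) (ball ((a j : ℝ) : ℂ) ρ)) ∧
    (∀ m < 2 * g, ∀ l < 2 * g, DifferentiableOn ℂ (h m l) (ball ((a j : ℝ) : ℂ) ρ)) ∧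
    ∀ t ∈ ball ((a j : ℝ) : ℂ) ρ, 0 < t.im →
      (∀ l < 2 * g, ∑ m ∈ Finset.Ico j (2 * g), Yc g a m l t = e l t) ∧
      ∀ m < 2 * g, ∀ l < 2 * g, Yc g a m l t =
        h m l t + chi g m j * (Complex.I / Real.pi) * Complex.log (t - a j) * e l t

/-- LOGSH: the logarithm is transcendental over the germs of holomorphic functions. -/
def Stmt_LogSh : Prop := ∀ (V : Type) [Fintype V] (b ρ : ℝ) (h e : V → ℂ → ℂ), 0 < ρ →
  (∀ v, DifferentiableOn ℂ (h v) (ball (b : ℂ) ρ)) →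
  (∀ v, DifferentiableOn ℂ (e v) (ball (b : ℂ) ρ)) →
  ∀ P : MvPolynomial (Option V) ℂ,
    (∀ t ∈ ball (b : ℂ) ρ, 0 < t.im →
      MvPolynomial.eval (opt t (fun v => h v t + Complex.log (t - b) * e v t)) P = 0) →
    ∀ c : ℂ, ∀ t ∈ ball (b : ℂ) ρ,
      MvPolynomial.eval (opt t (fun v => h v t + c * e v t)) P = 0

/-- PHOL -/
def Stmt_Phol : Prop := ∀ (g : ℕ) (a : ℕ → ℝ), 0 < g → StrictMono a → ∀ k c : Ix g,
  DifferentiableOn ℂ (fun t => PerC g a t k c) (U g a)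

/-- UNIP: relations are invariant under the unipotent monodromy. -/
def Stmt_Unip : Prop := ∀ (g : ℕ) (a : ℕ → ℝ), 0 < g → StrictMono a →
  ∀ P : MvPolynomial (Option (Ix g × Ix g)) ℂ,
    (∀ t ∈ U g a, MvPolynomial.eval (opt t (fun p => PerC g a t p.1 p.2)) P = 0) →
    ∀ j < 2 * g, ∀ c : ℂ, ∀ t ∈ U g a,
      MvPolynomial.eval (opt t (fun p => (PerC g a t * tv (dvec g j) c) p.1 p.2)) P = 0

/-! ## The symplectic group -/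

/-- GENA: the group generated by the transvections of the `dvec g j` is transitive. -/
def Stmt_GenA : Prop := ∀ g : ℕ, 0 < g → ∀ v w : Ix g → ℂ, v ≠ 0 → w ≠ 0 →
  ∃ h ∈ Submonoid.closure {M : Matrix (Ix g) (Ix g) ℂ | ∃ j < 2 * g, ∃ c : ℂ,
    M = tv (dvec g j) c}, h.mulVec v = w

/-- GENB: the symplectic group is generated by transvections. -/
def Stmt_GenB : Prop := ∀ g : ℕ, ∀ M : Matrix (Ix g) (Ix g) ℂ, Simil 1 M →
  M ∈ Submonoid.closure {N : Matrix (Ix g) (Ix g) ℂ | ∃ (v : Ix g → ℂ) (c : ℂ), N = tv v c}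

/-- GEN: the symplectic group is generated by the transvections of the `dvec g j`. -/
def Stmt_Gen : Prop := ∀ g : ℕ, 0 < g → ∀ M : Matrix (Ix g) (Ix g) ℂ, Simil 1 M →
  M ∈ Submonoid.closure {N : Matrix (Ix g) (Ix g) ℂ | ∃ j < 2 * g, ∃ c : ℂ,
    N = tv (dvec g j) c}

/-- PATH: polynomial paths into the big cell. -/
def Stmt_Path : Prop := ∀ (g : ℕ) (M : Matrix (Ix g) (Ix g) ℂ) (lam : ℂ), lam ≠ 0 →
  Simil lam M → ∃ p : Ix g → Ix g → Polynomial ℂ,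
    (∀ i j, (p i j).eval 0 = M i j) ∧
    (∀ s : ℂ, Simil lam (Matrix.of fun i j => (p i j).eval s)) ∧
    (Matrix.of fun i j => (p i j).eval 1 : Matrix (Ix g) (Ix g) ℂ).toBlocks₁₁.det ≠ 0

/-! ## Riemann relations -/

/-- RALG: the algebraic identity behind the bilinear relations. -/
def Stmt_RAlg : Prop := ∀ (g : ℕ) (a : ℕ → ℝ) (t x y : ℝ),
  -2 * (x - y) ^ 2 * ∑ j : Fin g,
    ((num g a t (.inl j)).eval x * (num g a t (.inr j)).eval y -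
      (num g a t (.inr j)).eval x * (num g a t (.inl j)).eval y) =
  (x - y) * ((Fpol g a t).derivative.eval x + (Fpol g a t).derivative.eval y) / 2 -
    ((Fpol g a t).eval x - (Fpol g a t).eval y)

/-- The bilinear form of two intervals. -/
def bil (g : ℕ) (a : ℕ → ℝ) (t : ℝ) (m n : ℕ) : ℝ := ∑ j : Fin g,
  (per g a t m (num g a t (.inl j)) * per g a t n (num g a t (.inr j)) -
    per g a t m (num g a t (.inr j)) * per g a t n (num g a t (.inl j)))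

/-- RCUT: the bilinear form of a cut interval and an interval. -/
def Stmt_RCut : Prop := ∀ (g : ℕ) (a : ℕ → ℝ), 0 < g → StrictMono a → ∀ t : ℝ,
  a (2 * g - 1) < t → ∀ m n : ℕ, m < n → n < 2 * g → ∀ q : ℝ, a m < q → q ≤ a (m + 1) →
  q < a n → ∑ j : Fin g,
    ((∫ x in (a m)..q, (num g a t (.inl j)).eval x / √|(Fpol g a t).eval x|) *
        per g a t n (num g a t (.inr j)) -
      (∫ x in (a m)..q, (num g a t (.inr j)).eval x / √|(Fpol g a t).eval x|) *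
        per g a t n (num g a t (.inl j))) =
    (-1) ^ m / 2 * (√|(Fpol g a t).eval q| *
      ∫ y in (a n)..(rend g a t n), 1 / ((y - q) * √|(Fpol g a t).eval y|))

/-- RFAR -/
def Stmt_RFar : Prop := ∀ (g : ℕ) (a : ℕ → ℝ), 0 < g → StrictMono a → ∀ t : ℝ,
  a (2 * g - 1) < t → ∀ m n : ℕ, m + 1 < n → n < 2 * g → bil g a t m n = 0

/-- LIMPI: an approximate identity. -/
def Stmt_LimPi : Prop := ∀ (L : ℝ) (q : ℝ → ℝ), 0 < L → ContinuousWithinAt q (Ici 0) 0 →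
  IntervalIntegrable (fun y => q y / √y) volume 0 L →
  Filter.Tendsto (fun ε : ℝ => √ε * ∫ y in (0 : ℝ)..L, q y / (√y * (y + ε)))
    (𝓝[>] 0) (𝓝 (Real.pi * q 0))

/-- RADJ -/
def Stmt_RAdj : Prop := ∀ (g : ℕ) (a : ℕ → ℝ), 0 < g → StrictMono a → ∀ t : ℝ,
  a (2 * g - 1) < t → ∀ m : ℕ, m + 1 < 2 * g → bil g a t m (m + 1) = (-1) ^ m * (Real.pi / 2)

/-- RIEM: Riemann's bilinear relations. -/
def Stmt_Riem : Prop := ∀ (g : ℕ) (a : ℕ → ℝ), 0 < g → StrictMono a → ∀ t : ℝ,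
  a (2 * g - 1) < t → Simil (2 * Real.pi * Complex.I) (Per g a t)

/-- RIEMC -/
def Stmt_RiemC : Prop := ∀ (g : ℕ) (a : ℕ → ℝ), 0 < g → StrictMono a → ∀ t ∈ U g a,
  Simil (2 * Real.pi * Complex.I) (PerC g a t)

/-! ## Algebraic independence -/

/-- FIBER: relations between the periods hold on the whole fibre of the torsor. -/
def Stmt_Fiber : Prop := ∀ (g : ℕ) (a : ℕ → ℝ), 0 < g → StrictMono a →
  ∀ (P : MvPolynomial (Option (Ix g × Ix g)) ℂ) (z0 : ℂ) (R : ℝ), 0 < R → ball z0 R ⊆ U g a →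
  (∀ t ∈ ball z0 R, MvPolynomial.eval (opt t (fun p => PerC g a t p.1 p.2)) P = 0) →
  ∀ t ∈ U g a, ∀ M : Matrix (Ix g) (Ix g) ℂ, Simil (2 * Real.pi * Complex.I) M →
    MvPolynomial.eval (opt t (fun p => M p.1 p.2)) P = 0

/-- VDM: the matrix of the real periods of the holomorphic differentials is invertible. -/
def Stmt_Vdm : Prop := ∀ (g : ℕ) (a : ℕ → ℝ), 0 < g → StrictMono a → ∀ t : ℝ,
  a (2 * g - 1) < t → (Per g a t).toBlocks₁₁.det ≠ 0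

/-- CELLA -/
def Stmt_CellA : Prop := ∀ (g : ℕ) (M : Matrix (Ix g) (Ix g) ℂ) (lam : ℂ), lam ≠ 0 →
  Simil lam M → M.toBlocks₁₁.det ≠ 0 → Aof (fvec M) = M.toBlocks₁₁ ∧ mvec (fvec M) lam = M

/-- CELLB -/
def Stmt_CellB : Prop := ∀ (g : ℕ) (w : Idx g → ℂ) (lam : ℂ), (Aof w).det ≠ 0 →
  Simil lam (mvec w lam) ∧ (mvec w lam).toBlocks₁₁ = Aof w ∧ fvec (mvec w lam) = w

/-- CELLP -/
def Stmt_CellP : Prop := ∀ g : ℕ, ∃ (Δ : MvPolynomial (Option (Idx g)) ℤ)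
  (q : Ix g × Ix g → MvPolynomial (Option (Idx g)) ℤ), ∀ (w : Idx g → ℂ) (lam : ℂ),
    MvPolynomial.aeval (opt lam w) Δ = (Aof w).det ∧
    ((Aof w).det ≠ 0 → ∀ p, MvPolynomial.aeval (opt lam w) (q p) =
      (Aof w).det * mvec w lam p.1 p.2)

/-- CELLQ -/
def Stmt_CellQ : Prop := ∀ g : ℕ, ∃ (Δ : MvPolynomial (Ix g × Ix g) ℂ)
  (q : Idx g → MvPolynomial (Ix g × Ix g) ℂ), ∀ M : Matrix (Ix g) (Ix g) ℂ,
    MvPolynomial.eval (fun p => M p.1 p.2) Δ = M.toBlocks₁₁.det ∧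
    (M.toBlocks₁₁.det ≠ 0 → ∀ x, MvPolynomial.eval (fun p => M p.1 p.2) (q x) =
      M.toBlocks₁₁.det * fvec M x)

/-- HOMOG: substitution of fractions in an integral polynomial, with bounds. -/
def Stmt_Homog : Prop := ∀ (V W : Type) [Fintype V] [Fintype W]
  (q : V → MvPolynomial W ℤ) (Δ : MvPolynomial W ℤ) (D : ℕ), ∃ D1 C : ℕ,
  ∀ (B : ℕ) (P : MvPolynomial V ℤ), GPC.IsSmall P D B → ∃ P1 : MvPolynomial W ℤ,
    GPC.IsSmall P1 D1 (C * B) ∧ ∀ w : W → ℂ, MvPolynomial.aeval w Δ ≠ 0 →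
      MvPolynomial.aeval w P1 = (MvPolynomial.aeval w Δ) ^ D *
        MvPolynomial.aeval (fun v => MvPolynomial.aeval w (q v) / MvPolynomial.aeval w Δ) P

/-- HOMOGC -/
def Stmt_HomogC : Prop := ∀ (V W : Type) (q : V → MvPolynomial W ℂ) (Δ : MvPolynomial W ℂ)
  (P : MvPolynomial V ℂ), ∃ (D : ℕ) (P1 : MvPolynomial W ℂ), ∀ w : W → ℂ,
    MvPolynomial.eval w Δ ≠ 0 → MvPolynomial.eval w P1 = (MvPolynomial.eval w Δ) ^ D *
      MvPolynomial.eval (fun v => MvPolynomial.eval w (q v) / MvPolynomial.eval w Δ) P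

/-- IND: algebraic independence of the coordinates of the period matrix. -/
def Stmt_Ind : Prop := ∀ (g : ℕ) (a : ℕ → ℝ), 0 < g → StrictMono a → ∀ (z0 : ℂ) (R : ℝ),
  0 < R → (∀ z ∈ ball z0 R, z ∈ U g a ∧ (PerC g a z).toBlocks₁₁.det ≠ 0) →
  ∀ Q : MvPolynomial (Option (Idx g)) ℂ,
    (∀ z ∈ ball z0 R, MvPolynomial.eval (opt z (fvec (PerC g a z))) Q = 0) → Q = 0

/-! ## Counting -/

/-- STEP: one curve. -/
def Stmt_Step : Prop := ∀ (g : ℕ) (a : ℕ → ℝ), 0 < g → StrictMono a → ∀ T0 T1 : ℝ,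
  a (2 * g - 1) < T0 → ∀ ε : ℝ, 0 < ε → ∀ (κ : Type) [Fintype κ] (D A : ℕ), ∃ C : ℝ,
  ∀ H : ℕ, 1 ≤ H → ∀ c : κ → ℂ, GPC.Free D (H ^ A) c → ∀ T : Finset ℚ,
    (∀ r ∈ T, T0 ≤ r ∧ (r : ℝ) ≤ T1 ∧ r.num.natAbs ≤ H ∧ r.den ≤ H ∧
      ¬ GPC.Free D (H ^ A) (Sum.elim c (fvec (Per g a r)))) → (T.card : ℝ) ≤ C * (H : ℝ) ^ ε

/-- INDUC: tuples of curves. -/
def Stmt_Induc : Prop := ∀ (r : ℕ) (g : Fin r → ℕ) (a : Fin r → ℕ → ℝ),
  (∀ i, 0 < g i) → (∀ i, StrictMono (a i)) → ∀ (T0 T1 : Fin r → ℝ),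
  (∀ i, a i (2 * g i - 1) < T0 i) → ∀ (D A : ℕ) (ε : ℝ), 0 < ε → ∃ C : ℝ, ∀ H : ℕ, 1 ≤ H →
    (Nat.card {t : Fin r → ℚ // (∀ i, T0 i ≤ t i ∧ (t i : ℝ) ≤ T1 i ∧ (t i).num.natAbs ≤ H ∧
      (t i).den ≤ H) ∧ ¬ GPC.Free D (H ^ A) (cvec g a (fun i => (t i : ℝ)))} : ℝ) ≤
        C * (H : ℝ) ^ (2 * (r : ℝ) - 2 + ε)

/-- TRANS: relations on the torsor give relations between the coordinates. -/
def Stmt_Trans : Prop := ∀ (r : ℕ) (g : Fin r → ℕ), (∀ i, 0 < g i) → ∀ D A : ℕ,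
  ∃ D1 A1 : ℕ, ∀ H : ℕ, 2 ≤ H → ∀ (a : Fin r → ℕ → ℝ) (t : Fin r → ℝ),
    (∀ i, StrictMono (a i)) → (∀ i, a i (2 * g i - 1) < t i) →
    Bad g a D (H ^ A) t → ¬ GPC.Free D1 (H ^ A1) (cvec g a t)

end

end Pool.Agent.HGP
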