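import Pool.Agent.GPC.Sealed

/-!
# Period matrices of hyperelliptic curves of every genus: definitions of the statement

The curve is `y ^ 2 = (x - a 0) ⋯ (x - a (2 g - 1)) (x - t)` with `a` strictly increasing and
`t > a (2 g - 1)`. `GPC.IsSmall P D B` (imported) means: `P` has total degree at most `D` and all
its coefficients have absolute value at most `B`.
-/

open scoped BigOperators

namespace Pool.Agent.HGP

noncomputable section

/-- Indices of a symplectic basis. -/
abbrev Ix (g : ℕ) := Fin g ⊕ Fin g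

/-- The polynomial `F_t = (X - a 0) ⋯ (X - a (2 g - 1)) (X - t)`. -/
def Fpol (g : ℕ) (a : ℕ → ℝ) (t : ℝ) : Polynomial ℝ :=
  (∏ i ∈ Finset.range (2 * g), (Polynomial.X - Polynomial.C (a i))) *
    (Polynomial.X - Polynomial.C t)

/-- The right end point of the interval number `m` between consecutive roots of `F_t`. -/
def rend (g : ℕ) (a : ℕ → ℝ) (t : ℝ) (m : ℕ) : ℝ := if m + 1 < 2 * g then a (m + 1) else t

/-- The numerators `p` of the basis `p dx / y` of the first de Rham cohomology: `x ^ j`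
(`j < g`) and `η_j = ∑ n, (n - 2 j - 2) / 4 * f_n * x ^ (n - 2 - j)`, where `f_n` are the
coefficients of `F_t`. -/
def num (g : ℕ) (a : ℕ → ℝ) (t : ℝ) : Ix g → Polynomial ℝ
  | .inl j => Polynomial.X ^ (j : ℕ)
  | .inr j => ∑ n ∈ Finset.Ico (2 * (j : ℕ) + 3) (2 * g + 2),
      Polynomial.C (((n : ℝ) - 2 * (j : ℕ) - 2) / 4 * (Fpol g a t).coeff n) *
        Polynomial.X ^ (n - 2 - (j : ℕ))

/-- The integral of `p dx / √|F_t|` over the interval number `m`. -/
def per (g : ℕ) (a : ℕ → ℝ) (t : ℝ) (m : ℕ) (p : Polynomial ℝ) : ℝ :=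
  ∫ x in (a m)..(rend g a t m), p.eval x / √|(Fpol g a t).eval x|

/-- The period matrix: rows = the differentials `num k dx / y`, columns = the symplectic basis
`α_i` (twice the interval number `2 i`), `β_i` (twice the intervals number `2 m + 1`, `m ≥ i`)
of the first homology. -/
def Per (g : ℕ) (a : ℕ → ℝ) (t : ℝ) : Matrix (Ix g) (Ix g) ℂ :=
  Matrix.of fun k c => match c with
    | .inl i => 2 * (-1) ^ (i : ℕ) * (per g a t (2 * (i : ℕ)) (num g a t k) : ℂ)
    | .inr i => 2 * Complex.I *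
        ∑ m ∈ Finset.Ico (i : ℕ) g, (-1) ^ m * (per g a t (2 * m + 1) (num g a t k) : ℂ)

/-- `M` is a symplectic similitude with multiplier `lam`: the pairs `(lam, M)` with `lam ≠ 0`
form the motivic torsor. -/
def Simil {g : ℕ} (lam : ℂ) (M : Matrix (Ix g) (Ix g) ℂ) : Prop :=
  M.transpose * Matrix.J (Fin g) ℂ * M = lam • Matrix.J (Fin g) ℂ

/-- The point with coordinates `lam`, `M i`. -/
def tpt {r : ℕ} {g : Fin r → ℕ} (lam : ℂ) (M : ∀ i, Matrix (Ix (g i)) (Ix (g i)) ℂ) :
    Option (Σ i : Fin r, Ix (g i) × Ix (g i)) → ℂ :=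
  fun o => o.elim lam (fun p => M p.1 p.2.1 p.2.2)

/-- `P` does not vanish identically on the torsor of all `(lam, M_1, ..., M_r)`, `lam ≠ 0`,
`M_i` a symplectic similitude with multiplier `lam`. -/
def NonTrivial {r : ℕ} {g : Fin r → ℕ}
    (P : MvPolynomial (Option (Σ i : Fin r, Ix (g i) × Ix (g i))) ℤ) : Prop :=
  ∃ (lam : ℂ) (M : ∀ i, Matrix (Ix (g i)) (Ix (g i)) ℂ), lam ≠ 0 ∧ (∀ i, Simil lam (M i)) ∧
    MvPolynomial.aeval (tpt lam M) P ≠ 0

/-- The periods of the curves with parameters `t i` (and `2 π i`) satisfy a polynomial relation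
of complexity `(D, B)` which does not hold on the whole torsor. -/
def Bad {r : ℕ} (g : Fin r → ℕ) (a : Fin r → ℕ → ℝ) (D B : ℕ) (t : Fin r → ℝ) : Prop :=
  ∃ P : MvPolynomial (Option (Σ i : Fin r, Ix (g i) × Ix (g i))) ℤ,
    GPC.IsSmall P D B ∧ NonTrivial P ∧
      MvPolynomial.aeval (tpt (2 * Real.pi * Complex.I) (fun i => Per (g i) (a i) (t i))) P = 0

end

end Pool.Agent.HGP
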