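import Pool.Agent.HGP.Defs

/-!
# HGP: basic facts on the principal square root
-/

open scoped BigOperators Topology
open Metric Set

namespace Pool.Agent.HGP

lemma csq_mul_self (z : ℂ) : csq z * csq z = z := by
  unfold csq
  by_cases hz : z = 0
  · subst hz; simp
  · rw [← Complex.cpow_add _ _ hz]; norm_num

lemma csq_sq (z : ℂ) : csq z ^ 2 = z := by rw [sq, csq_mul_self]

lemma csq_ne_zero {z : ℂ} (hz : z ≠ 0) : csq z ≠ 0 := by
  intro h
  have := csq_mul_self z
  rw [h] at this
  simp at this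
  exact hz this.symm

@[simp] lemma csq_zero : csq 0 = 0 := by unfold csq; simp

lemma csq_eq_zero {z : ℂ} : csq z = 0 ↔ z = 0 := by
  constructor
  · intro h
    by_contra hz
    exact csq_ne_zero hz h
  · rintro rfl
    exact csq_zero

lemma csq_ofReal {x : ℝ} (hx : 0 ≤ x) : csq (x : ℂ) = ((√x : ℝ) : ℂ) := by
  unfold csq
  rw [Real.sqrt_eq_rpow, Complex.ofReal_cpow hx]
  norm_num

lemma csq_differentiableOn : DifferentiableOn ℂ csq Complex.slitPlane := by
  intro z hz
  unfold csq
  exact (DifferentiableAt.cpow differentiableAt_id (differentiableAt_const _)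
    hz).differentiableWithinAt

lemma csq_differentiableAt {z : ℂ} (hz : z ∈ Complex.slitPlane) : DifferentiableAt ℂ csq z :=
  (csq_differentiableOn z hz).differentiableAt (Complex.isOpen_slitPlane.mem_nhds hz)

lemma csq_continuousOn : ContinuousOn csq Complex.slitPlane :=
  csq_differentiableOn.continuousOn

lemma csq_continuousAt {z : ℂ} (hz : z ∈ Complex.slitPlane) : ContinuousAt csq z :=
  (csq_differentiableAt hz).continuousAt

lemma csq_norm (z : ℂ) : ‖csq z‖ = √‖z‖ := by
  have h := congrArg norm (csq_mul_self z)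
  rw [norm_mul] at h
  rw [← h, Real.sqrt_mul_self (norm_nonneg _)]

lemma csq_continuousAt_zero : ContinuousAt csq 0 := by
  rw [ContinuousAt, csq_zero, tendsto_zero_iff_norm_tendsto_zero]
  simp_rw [csq_norm]
  have : Filter.Tendsto (fun z : ℂ => √‖z‖) (𝓝 0) (𝓝 (√‖(0 : ℂ)‖)) :=
    (Real.continuous_sqrt.comp continuous_norm).tendsto 0
  simpa using this

lemma csq_measurable : Measurable csq := by
  unfold csq
  exact measurable_id.pow_const _

lemma csq_mul_ofReal {s : ℝ} (hs : 0 ≤ s) (z : ℂ) : csq (s * z) = ((√s : ℝ) : ℂ) * csq z := by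
  have h := Complex.real_smul (x := s) (z := z)
  rcases hs.eq_or_lt with rfl | hs
  · simp
  by_cases hz : z = 0
  · subst hz; simp
  have hs' : (s : ℂ) ≠ 0 := by exact_mod_cast hs.ne'
  unfold csq
  rw [Complex.cpow_def_of_ne_zero (mul_ne_zero hs' hz), Complex.cpow_def_of_ne_zero hz,
    Complex.log_ofReal_mul hs hz, add_mul, Complex.exp_add]
  congr 1
  rw [Real.sqrt_eq_rpow, Complex.ofReal_cpow hs.le, Complex.cpow_def_of_ne_zero hs',
    Complex.ofReal_log hs.le]
  norm_num

lemma log_neg {z : ℂ} (hz : 0 < z.im) : Complex.log (-z) = Complex.log z - Real.pi * Complex.I := by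
  unfold Complex.log
  rw [Complex.arg_neg_eq_arg_sub_pi_of_im_pos hz]
  simp
  ring

lemma log_neg' {z : ℂ} (hz : z.im < 0) :
    Complex.log (-z) = Complex.log z + Real.pi * Complex.I := by
  unfold Complex.log
  rw [Complex.arg_neg_eq_arg_add_pi_of_im_neg hz]
  simp
  ring

lemma ne_zero_of_im {z : ℂ} (hz : z.im ≠ 0) : z ≠ 0 := by
  rintro rfl
  simp at hz

/-- `√z = i √(-z)` in the upper half plane. -/
lemma csq_eq_I_mul {z : ℂ} (hz : 0 < z.im) : csq z = Complex.I * csq (-z) := by
  have h0 : z ≠ 0 := ne_zero_of_im hz.ne'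
  unfold csq
  rw [Complex.cpow_def_of_ne_zero h0, Complex.cpow_def_of_ne_zero (neg_ne_zero.mpr h0), log_neg hz]
  have : Complex.log z * (1 / 2) = (Real.pi / 2 * Complex.I) +
      (Complex.log z - Real.pi * Complex.I) * (1 / 2) := by ring
  rw [this, Complex.exp_add, Complex.exp_pi_div_two_mul_I]

/-- `√z = i √(-z)` on the negative real half line. -/
lemma csq_neg_ofReal {x : ℝ} (hx : 0 ≤ x) : csq (-(x : ℂ)) = Complex.I * ((√x : ℝ) : ℂ) := by
  rcases hx.eq_or_lt with rfl | hx
  · simp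
  have h0 : (x : ℂ) ≠ 0 := by exact_mod_cast hx.ne'
  rw [← csq_ofReal hx.le]
  unfold csq
  rw [Complex.cpow_def_of_ne_zero (neg_ne_zero.mpr h0), Complex.cpow_def_of_ne_zero h0]
  have h1 : Complex.log (-(x : ℂ)) = Complex.log x + Real.pi * Complex.I := by
    unfold Complex.log
    rw [Complex.arg_ofReal_of_nonneg hx.le, ← Complex.ofReal_neg,
      Complex.arg_ofReal_of_neg (neg_neg_of_pos hx)]
    simp
  rw [h1]
  have : (Complex.log x + Real.pi * Complex.I) * (1 / 2) = (Real.pi / 2 * Complex.I) +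
      (Complex.log x) * (1 / 2) := by ring
  rw [this, Complex.exp_add, Complex.exp_pi_div_two_mul_I]

lemma U_isOpen (g : ℕ) (a : ℕ → ℝ) : IsOpen (U g a) := by
  unfold U
  exact Complex.isOpen_slitPlane.preimage (continuous_id.sub continuous_const)

lemma U_of_im_pos {g : ℕ} {a : ℕ → ℝ} {t : ℂ} (ht : t.im ≠ 0) : t ∈ U g a := by
  show t - (a (2 * g - 1) : ℂ) ∈ Complex.slitPlane
  right
  simpa using ht

lemma U_ofReal {g : ℕ} {a : ℕ → ℝ} {t : ℝ} (ht : a (2 * g - 1) < t) : (t : ℂ) ∈ U g a := by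
  show (t : ℂ) - (a (2 * g - 1) : ℂ) ∈ Complex.slitPlane
  left
  simpa using ht

/-- The cut plane is star convex with respect to any real point right of the cut. -/
lemma U_starConvex (g : ℕ) (a : ℕ → ℝ) :
    StarConvex ℝ ((a (2 * g - 1) + 1 : ℝ) : ℂ) (U g a) := by
  intro y hy p q hp hq hpq
  have h := Complex.starConvex_one_slitPlane (show y - (a (2 * g - 1) : ℂ) ∈ _ from hy) hp hq hpq
  show p • ((a (2 * g - 1) + 1 : ℝ) : ℂ) + q • y - (a (2 * g - 1) : ℂ) ∈ Complex.slitPlane
  convert h using 1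
  have h1 : (p : ℂ) + (q : ℂ) = 1 := by exact_mod_cast hpq
  simp only [Complex.real_smul]
  push_cast
  linear_combination (-(a (2 * g - 1) : ℂ)) * (-h1)

lemma U_isPreconnected (g : ℕ) (a : ℕ → ℝ) : IsPreconnected (U g a) :=
  ((U_starConvex g a).isPathConnected
    (U_ofReal (by linarith))).isConnected.isPreconnected

/-- `t - x` is in the slit plane, for `t` in the cut plane and `x ≤ a (2 g - 1)`. -/
lemma sub_mem_slit {g : ℕ} {a : ℕ → ℝ} {t : ℂ} (ht : t ∈ U g a) {x : ℝ}
    (hx : x ≤ a (2 * g - 1)) : t - (x : ℂ) ∈ Complex.slitPlane := by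
  have h : t - (a (2 * g - 1) : ℂ) ∈ Complex.slitPlane := ht
  rw [Complex.mem_slitPlane_iff] at h ⊢
  simp only [Complex.sub_re, Complex.ofReal_re, Complex.sub_im, Complex.ofReal_im, sub_zero] at h ⊢
  rcases h with h | h
  · left; linarith
  · right; exact h

end Pool.Agent.HGP
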