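import Pool.Agent.GPC.Defs
import Pool.Agent.HGP.Sealed

/-!
# HGP: periods of hyperelliptic curves of every genus, auxiliary definitions
-/

open scoped BigOperators Topology
open Metric Set

namespace Pool.Agent.HGP

noncomputable section

/-- FINAL -/
def Stmt_Final : Prop := ∀ (r : ℕ) (g : Fin r → ℕ) (a : Fin r → ℕ → ℝ),
  (∀ i, 0 < g i) → (∀ i, StrictMono (a i)) →
  (∀ i, ∀ t : ℝ, a i (2 * g i - 1) < t → Simil (2 * Real.pi * Complex.I) (Per (g i) (a i) t)) ∧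
  ∀ (T0 T1 : Fin r → ℝ), (∀ i, a i (2 * g i - 1) < T0 i) → ∀ (D A : ℕ) (ε : ℝ), 0 < ε →
  ∃ C : ℝ, ∀ H : ℕ, 1 ≤ H →
    (Nat.card {t : Fin r → ℚ // (∀ i, T0 i ≤ t i ∧ (t i : ℝ) ≤ T1 i ∧ (t i).num.natAbs ≤ H ∧
      (t i).den ≤ H) ∧ Bad g a D (H ^ A) (fun i => (t i : ℝ))} : ℝ) ≤
        C * (H : ℝ) ^ (2 * (r : ℝ) - 2 + ε)

/-! ## Complex parameters -/

/-- The principal square root. -/
def csq (z : ℂ) : ℂ := z ^ (1 / 2 : ℂ)

/-- The plane cut along the real half line left of `a (2 g - 1)`. -/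
def U (g : ℕ) (a : ℕ → ℝ) : Set ℂ := {t | t - (a (2 * g - 1) : ℂ) ∈ Complex.slitPlane}

/-- The point `b + s (t - b)`. -/
def pth (b : ℝ) (s : ℝ) (t : ℂ) : ℂ := b + s * (t - b)

/-- The integral of `x ^ l dx / √|F_t|` over the interval number `m`, for complex `t`. -/
def Jc (g : ℕ) (a : ℕ → ℝ) (m l : ℕ) (t : ℂ) : ℂ :=
  if m + 1 < 2 * g then
    ∫ x in (a m)..(a (m + 1)), (x : ℂ) ^ l /
      (((√|∏ i ∈ Finset.range (2 * g), (x - a i)| : ℝ) : ℂ) * csq (t - x))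
  else
    ∫ s in (0 : ℝ)..1, (pth (a m) s t) ^ l /
      (((√(s * (1 - s)) : ℝ) : ℂ) * ∏ i ∈ Finset.range (2 * g - 1), csq (pth (a m) s t - a i))

/-- The integral of `x ^ l dx / y` over the interval number `m` (upper side). -/
def Yc (g : ℕ) (a : ℕ → ℝ) (m l : ℕ) (t : ℂ) : ℂ := Complex.I ^ (m + 2 * g) * Jc g a m l t

/-- The integral of `x ^ l dx / y` from `a j` to `t`, for `t` in the upper half plane. -/
def Ic (g : ℕ) (a : ℕ → ℝ) (j l : ℕ) (t : ℂ) : ℂ :=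
  -Complex.I * ∫ s in (0 : ℝ)..1, (pth (a j) s t) ^ l /
    (((√(s * (1 - s)) : ℝ) : ℂ) *
      ∏ i ∈ (Finset.range (2 * g)).erase j, csq (pth (a j) s t - a i))

/-- `F_t` for complex `t`. -/
def FpolC (g : ℕ) (a : ℕ → ℝ) (t : ℂ) : Polynomial ℂ :=
  (∏ i ∈ Finset.range (2 * g), (Polynomial.X - Polynomial.C ((a i : ℝ) : ℂ))) *
    (Polynomial.X - Polynomial.C t)

/-- The coefficient of `x ^ l` in the numerator number `k`. -/
def Th (g : ℕ) (a : ℕ → ℝ) (k : Ix g) (l : ℕ) (t : ℂ) : ℂ := match k with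
  | .inl j => if l = (j : ℕ) then 1 else 0
  | .inr j => if (j : ℕ) < l then
      (((l : ℂ) - (j : ℕ)) / 4) * (FpolC g a t).coeff (l + (j : ℕ) + 2) else 0

/-- The period matrix for complex parameters. -/
def PerC (g : ℕ) (a : ℕ → ℝ) (t : ℂ) : Matrix (Ix g) (Ix g) ℂ :=
  Matrix.of fun k c => match c with
    | .inl i => 2 * (-1) ^ g * ∑ l ∈ Finset.range (2 * g), Th g a k l t * Yc g a (2 * (i : ℕ)) l t
    | .inr i => 2 * (-1) ^ g * ∑ l ∈ Finset.range (2 * g),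
        Th g a k l t * ∑ m ∈ Finset.Ico (i : ℕ) g, Yc g a (2 * m + 1) l t

/-- The intersection number of the interval number `m` with the arc from `a j` to `t`. -/
def chi (g m j : ℕ) : ℂ :=
  if m + 1 = j then 1 else if m = j then (if j + 1 < 2 * g then 1 else 0)
    else if m + 1 = 2 * g then (if j < m then -1 else 0) else 0

/-- The vector of the arc from `a j` to `t` in the symplectic basis. -/
def dvec (g j : ℕ) : Ix g → ℂ
  | .inl i => if j ≤ 2 * (i : ℕ) then 1 else 0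
  | .inr i => if (i : ℕ) = j / 2 then 1 else 0

/-- The symplectic transvection `x ↦ x + c <x, d> d` (up to the sign of `c`). -/
def tv {g : ℕ} (d : Ix g → ℂ) (c : ℂ) : Matrix (Ix g) (Ix g) ℂ :=
  1 + c • Matrix.vecMulVec d ((Matrix.J (Fin g) ℂ).mulVec d)

/-! ## The big cell of the group of symplectic similitudes -/

/-- Indices of symmetric matrices. -/
abbrev Up (g : ℕ) := {p : Fin g × Fin g // p.1 ≤ p.2}

/-- Indices of the coordinates of the big cell. -/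
abbrev Idx (g : ℕ) := (Fin g × Fin g) ⊕ (Up g ⊕ Up g)

/-- The symmetric matrix with given upper triangular part. -/
def symm {g : ℕ} (σ : Up g → ℂ) : Matrix (Fin g) (Fin g) ℂ :=
  Matrix.of fun i j => if h : i ≤ j then σ ⟨(i, j), h⟩ else σ ⟨(j, i), le_of_not_ge h⟩

/-- The coordinates `A, C A⁻¹, A⁻¹ B` of `M = (A, B; C, D)`. -/
def fvec {g : ℕ} (M : Matrix (Ix g) (Ix g) ℂ) : Idx g → ℂ
  | .inl p => M.toBlocks₁₁ p.1 p.2
  | .inr (.inl q) => (M.toBlocks₂₁ * M.toBlocks₁₁⁻¹) q.1.1 q.1.2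
  | .inr (.inr q) => (M.toBlocks₁₁⁻¹ * M.toBlocks₁₂) q.1.1 q.1.2

/-- The block `A` of the point with coordinates `w`. -/
def Aof {g : ℕ} (w : Idx g → ℂ) : Matrix (Fin g) (Fin g) ℂ :=
  Matrix.of fun i j => w (.inl (i, j))

/-- The matrix with coordinates `w` and multiplier `lam`. -/
def mvec {g : ℕ} (w : Idx g → ℂ) (lam : ℂ) : Matrix (Ix g) (Ix g) ℂ :=
  let A := Aof w
  let S := symm (fun p => w (.inr (.inl p)))
  let T := symm (fun p => w (.inr (.inr p)))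
  Matrix.fromBlocks A (A * T) (S * A) (S * A * T + lam • (A⁻¹).transpose)

/-- The point with coordinates `a` (index `none`) and `f j` (index `some j`). -/
def opt {α : Type} (x : ℂ) (f : α → ℂ) (o : Option α) : ℂ := o.elim x f

/-- The vector of constants attached to the tuple `t`. -/
def cvec {r : ℕ} (g : Fin r → ℕ) (a : Fin r → ℕ → ℝ) (t : Fin r → ℝ) :
    Option (Σ i : Fin r, Idx (g i)) → ℂ :=
  opt (2 * Real.pi * Complex.I) (fun p => fvec (Per (g p.1) (a p.1) (t p.1)) p.2)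

end

end Pool.Agent.HGP
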