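import Pool.Agent.HGP.Main

/-!
# The period conjecture up to bounded complexity for one-parameter families of hyperelliptic
curves of every genus, and for products of members of such families

For each `i` the curve `y ^ 2 = (x - a_i 0) ⋯ (x - a_i (2 g_i - 1)) (x - t_i)` has genus `g_i`,
the `a_i j` are fixed real numbers, strictly increasing in `j`, and `t_i` is a rational number in
a fixed compact interval to the right of `a_i (2 g_i - 1)`. The first part of the theorem is
Riemann's bilinear relations: the period matrices are points of the torsor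
`M_iᵀ J M_i = lam J`, `lam = 2 π i`. The second part: for all but at most `C H ^ (2 r - 2 + ε)` of
the `r`-tuples `t` of height at most `H`, every integral polynomial of degree at most `D` with
coefficients at most `H ^ A` in absolute value which vanishes at `(2 π i, M_1, ..., M_r)`
vanishes on the whole torsor.
-/

open scoped BigOperators

open Pool.Agent.HGP in
theorem Pool.Agent.Results.MP_77d3f5_ag.EveryGenus.result (r : ℕ) (g : Fin r → ℕ)
    (a : Fin r → ℕ → ℝ) (hg : ∀ i, 0 < g i) (ha : ∀ i, StrictMono (a i)) :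
    (∀ i, ∀ t : ℝ, a i (2 * g i - 1) < t →
      Simil (2 * Real.pi * Complex.I) (Per (g i) (a i) t)) ∧
    ∀ (T0 T1 : Fin r → ℝ), (∀ i, a i (2 * g i - 1) < T0 i) → ∀ (D A : ℕ) (ε : ℝ), 0 < ε →
    ∃ C : ℝ, ∀ H : ℕ, 1 ≤ H →
      (Nat.card {t : Fin r → ℚ // (∀ i, T0 i ≤ t i ∧ (t i : ℝ) ≤ T1 i ∧
        (t i).num.natAbs ≤ H ∧ (t i).den ≤ H) ∧
        Bad g a D (H ^ A) (fun i => (t i : ℝ))} : ℝ) ≤ C * (H : ℝ) ^ (2 * (r : ℝ) - 2 + ε) :=
  Main.final r g a hg ha
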