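import Pool.Agent.HGP.Stmts

/-!
# HGP JLINK: the complex integrals at real parameters
-/

open scoped BigOperators Topology
open Metric Set MeasureTheory

namespace Pool.Agent.HGP

namespace JLINKX

lemma Fpol_eval (g : ℕ) (a : ℕ → ℝ) (t x : ℝ) : (Fpol g a t).eval x =
    (∏ i ∈ Finset.range (2 * g), (x - a i)) * (x - t) := by
  unfold Fpol
  rw [Polynomial.eval_mul, Polynomial.eval_prod]
  simp

lemma first (g : ℕ) (a : ℕ → ℝ) (hg : 0 < g) (ha : StrictMono a) (t : ℝ)
    (ht : a (2 * g - 1) < t) (m : ℕ) (hm : m + 1 < 2 * g) (l : ℕ) :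
    Jc g a m l t = (per g a t m (Polynomial.X ^ l) : ℂ) := by
  unfold Jc per rend
  rw [if_pos hm, if_pos hm, ← intervalIntegral.integral_ofReal]
  refine intervalIntegral.integral_congr ?_
  intro x hx
  rw [uIcc_of_le (ha.monotone (Nat.le_succ m))] at hx
  have h1 : x ≤ a (2 * g - 1) := hx.2.trans (ha.monotone (by omega))
  have h2 : 0 < t - x := by linarith
  have h3 : csq ((t : ℂ) - (x : ℂ)) = ((√(t - x) : ℝ) : ℂ) := by
    rw [← csq_ofReal h2.le]
    push_cast
    rfl
  simp only
  rw [h3, Fpol_eval, abs_mul, Real.sqrt_mul (abs_nonneg _), abs_sub_comm x t, abs_of_pos h2]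
  push_cast
  simp

lemma last (g : ℕ) (a : ℕ → ℝ) (hg : 0 < g) (ha : StrictMono a) (t : ℝ)
    (ht : a (2 * g - 1) < t) (m : ℕ) (hm : m + 1 = 2 * g) (l : ℕ) :
    Jc g a m l t = (per g a t m (Polynomial.X ^ l) : ℂ) := by
  have hm' : m = 2 * g - 1 := by omega
  have hmt : a m < t := by rw [hm']; exact ht
  have hne : t - a m ≠ 0 := by linarith [hmt]
  have e1 : per g a t m (Polynomial.X ^ l) = ∫ s in (0 : ℝ)..1, (t - a m) *
      ((Polynomial.X ^ l : Polynomial ℝ).eval (a m + s * (t - a m)) /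
        √|(Fpol g a t).eval (a m + s * (t - a m))|) := by
    unfold per rend
    rw [if_neg (by omega)]
    have h := intervalIntegral.integral_comp_mul_add
      (fun x => (Polynomial.X ^ l : Polynomial ℝ).eval x / √|(Fpol g a t).eval x|)
      (a := 0) (b := 1) hne (a m)
    rw [intervalIntegral.integral_const_mul]
    have e : (fun s : ℝ => (Polynomial.X ^ l : Polynomial ℝ).eval (a m + s * (t - a m)) /
        √|(Fpol g a t).eval (a m + s * (t - a m))|) = fun s => (fun x =>
          (Polynomial.X ^ l : Polynomial ℝ).eval x / √|(Fpol g a t).eval x|)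
          ((t - a m) * s + a m) := by
      funext s
      have : a m + s * (t - a m) = (t - a m) * s + a m := by ring
      simp only [this]
    rw [e, h]
    simp only [mul_zero, zero_add, mul_one, sub_add_cancel, smul_eq_mul]
    rw [mul_inv_cancel_left₀ hne]
  rw [e1]
  unfold Jc
  rw [if_neg (by omega), ← intervalIntegral.integral_ofReal]
  refine intervalIntegral.integral_congr ?_
  intro s hs
  rw [uIcc_of_le zero_le_one] at hs
  simp only
  have hp : pth (a m) s (t : ℂ) = ((a m + s * (t - a m) : ℝ) : ℂ) := by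
    unfold pth
    push_cast
    ring
  set x : ℝ := a m + s * (t - a m) with hx
  have hx1 : a m ≤ x := by
    have : 0 ≤ s * (t - a m) := mul_nonneg hs.1 (by linarith)
    linarith
  have h3 : ∀ i ∈ Finset.range (2 * g - 1), csq (pth (a m) s (t : ℂ) - (a i : ℂ)) =
      ((√(x - a i) : ℝ) : ℂ) := by
    intro i hi
    rw [Finset.mem_range] at hi
    have h4 : a i < a m := ha (by omega)
    rw [← csq_ofReal (by linarith), hp]
    push_cast
    rfl
  rw [Finset.prod_congr rfl h3, hp]
  have hP : 0 < ∏ i ∈ Finset.range (2 * g - 1), (x - a i) := by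
    refine Finset.prod_pos ?_
    intro i hi
    rw [Finset.mem_range] at hi
    have h4 : a i < a m := ha (by omega)
    linarith
  have hF : |(Fpol g a t).eval x| =
      (∏ i ∈ Finset.range (2 * g - 1), (x - a i)) * ((s * (1 - s)) * (t - a m) ^ 2) := by
    rw [Fpol_eval]
    have e2 : (2 * g : ℕ) = (2 * g - 1) + 1 := by omega
    have e3 : (∏ i ∈ Finset.range (2 * g), (x - a i)) =
        (∏ i ∈ Finset.range (2 * g - 1), (x - a i)) * (x - a m) := by
      conv_lhs => rw [e2, Finset.prod_range_succ]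
      rw [← hm']
    rw [e3]
    have e4 : (∏ i ∈ Finset.range (2 * g - 1), (x - a i)) * (x - a m) * (x - t) =
        -((∏ i ∈ Finset.range (2 * g - 1), (x - a i)) * ((s * (1 - s)) * (t - a m) ^ 2)) := by
      rw [hx]
      ring
    rw [e4, abs_neg, abs_of_nonneg]
    refine mul_nonneg hP.le (mul_nonneg (mul_nonneg hs.1 (by linarith [hs.2])) (sq_nonneg _))
  have hsq : √|(Fpol g a t).eval x| = (∏ i ∈ Finset.range (2 * g - 1), √(x - a i)) *
      (√(s * (1 - s)) * (t - a m)) := by
    rw [hF, Real.sqrt_mul hP.le, Real.sqrt_mul (mul_nonneg hs.1 (by linarith [hs.2])),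
      Real.sqrt_sq (by linarith)]
    congr 1
    have h5 : ∀ A : Finset ℕ, (∀ i ∈ A, 0 ≤ x - a i) →
        √(∏ i ∈ A, (x - a i)) = ∏ i ∈ A, √(x - a i) := by
      intro A
      classical
      induction A using Finset.induction_on with
      | empty => intro _; simp
      | insert i A hi ih =>
        intro hA
        rw [Finset.prod_insert hi, Finset.prod_insert hi, Real.sqrt_mul (hA i (by simp)),
          ih (fun j hj => hA j (by simp [hj]))]
    refine h5 _ ?_
    intro i hi
    rw [Finset.mem_range] at hi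
    have h4 : a i < a m := ha (by omega)
    linarith
  rw [hsq]
  push_cast
  simp only [Polynomial.eval_pow, Polynomial.eval_X]
  have hne' : ((t : ℂ) - (a m : ℂ)) ≠ 0 := by exact_mod_cast hne
  rw [show ((t : ℂ) - (a m : ℂ)) * ((((x : ℝ) ^ l : ℝ) : ℂ) /
      ((∏ i ∈ Finset.range (2 * g - 1), ((√(x - a i) : ℝ) : ℂ)) *
        (((√(s * (1 - s)) : ℝ) : ℂ) * ((t : ℂ) - (a m : ℂ))))) =
      ((t : ℂ) - (a m : ℂ)) * (((x : ℝ) ^ l : ℝ) : ℂ) /
      (((t : ℂ) - (a m : ℂ)) * ((∏ i ∈ Finset.range (2 * g - 1), ((√(x - a i) : ℝ) : ℂ)) *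
        ((√(s * (1 - s)) : ℝ) : ℂ))) by
    rw [mul_div_assoc]
    congr 2
    ring]
  rw [mul_div_mul_left _ _ hne', mul_comm (∏ i ∈ Finset.range (2 * g - 1), _)]
  push_cast
  rfl

end JLINKX

theorem jlink_proof : Stmt_Jlink := by
  intro g a hg ha t ht m hm l
  rcases Nat.lt_or_ge (m + 1) (2 * g) with h | h
  · exact JLINKX.first g a hg ha t ht m h l
  · exact JLINKX.last g a hg ha t ht m (by omega) l

end Pool.Agent.HGP
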