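import Pool.Agent.HGP.Stmts

/-!
# HGP: UNIP, relations are invariant under the unipotent local monodromy
-/

open scoped BigOperators Topology
open Metric Set MeasureTheory

namespace Pool.Agent.HGP

namespace UNIP_

noncomputable section

lemma diff_eval {V : Type} (P : MvPolynomial V ℂ) (f : ℂ → V → ℂ) (s : Set ℂ)
    (hf : ∀ v, DifferentiableOn ℂ (fun t => f t v) s) :
    DifferentiableOn ℂ (fun t => MvPolynomial.eval (f t) P) s := by
  induction P using MvPolynomial.induction_on with
  | C a => simpa using (differentiableOn_const (c := a))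
  | add p q hp hq =>
    simp only [map_add]
    exact hp.add hq
  | mul_X p v hp =>
    simp only [map_mul, MvPolynomial.eval_X]
    exact hp.mul (hf v)

lemma diff_Th (g : ℕ) (a : ℕ → ℝ) (k : Ix g) (l : ℕ) : Differentiable ℂ (Th g a k l) := by
  rcases k with j | j
  · have : Th g a (.inl j) l = fun _ => if l = (j : ℕ) then 1 else 0 := by
      funext t; rfl
    rw [this]
    exact differentiable_const _
  · have : Th g a (.inr j) l = fun t => if (j : ℕ) < l then
      (((l : ℂ) - (j : ℕ)) / 4) * (FpolC g a t).coeff (l + (j : ℕ) + 2) else 0 := by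
      funext t; rfl
    rw [this]
    by_cases h : (j : ℕ) < l
    · simp only [h, if_true]
      have h2 : ∀ t : ℂ, (FpolC g a t).coeff (l + (j : ℕ) + 2) =
          (∏ i ∈ Finset.range (2 * g), (Polynomial.X - Polynomial.C ((a i : ℝ) : ℂ))).coeff
            (l + (j : ℕ) + 1) -
          (∏ i ∈ Finset.range (2 * g), (Polynomial.X - Polynomial.C ((a i : ℝ) : ℂ))).coeff
            (l + (j : ℕ) + 1 + 1) * t := by
        intro t
        unfold FpolC
        rw [show l + (j : ℕ) + 2 = (l + (j : ℕ) + 1) + 1 by ring, Polynomial.coeff_mul_X_sub_C]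
      simp only [h2]
      exact (differentiable_const _).mul
        ((differentiable_const _).sub ((differentiable_const _).mul differentiable_id))
    · simp only [h, if_false]
      exact differentiable_const _

/-- The coefficient of the logarithm. -/
lemma chi_inl (g j : ℕ) (i : Fin g) (hj : j < 2 * g) :
    chi g (2 * (i : ℕ)) j = -((Matrix.J (Fin g) ℂ).mulVec (dvec g j)) (.inl i) := by
  have h1 : ((Matrix.J (Fin g) ℂ).mulVec (dvec g j)) (.inl i) = - dvec g j (.inr i) := by
    simp [Matrix.J, Matrix.mulVec, dotProduct, Fintype.sum_sum_type, Matrix.one_apply]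
  rw [h1, neg_neg]
  have hi := i.2
  simp only [dvec, chi]
  split_ifs <;> first | rfl | omega

lemma ico_split (g i : ℕ) (hi : i < g) (f : ℕ → ℂ) :
    ∑ m ∈ Finset.Ico i g, f m = (∑ m ∈ Finset.Ico i (g - 1), f m) + f (g - 1) := by
  obtain ⟨g', rfl⟩ : ∃ g', g = g' + 1 := ⟨g - 1, by omega⟩
  rw [Finset.sum_Ico_succ_top (by omega)]
  simp

lemma chi_inr (g j : ℕ) (i : Fin g) (hj : j < 2 * g) :
    ∑ m ∈ Finset.Ico (i : ℕ) g, chi g (2 * m + 1) j =
      -((Matrix.J (Fin g) ℂ).mulVec (dvec g j)) (.inr i) := by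
  have h1 : ((Matrix.J (Fin g) ℂ).mulVec (dvec g j)) (.inr i) = dvec g j (.inl i) := by
    simp [Matrix.J, Matrix.mulVec, dotProduct, Fintype.sum_sum_type, Matrix.one_apply]
  rw [h1]
  have hi := i.2
  rw [ico_split g i hi]
  have h2 : ∀ m ∈ Finset.Ico (i : ℕ) (g - 1), chi g (2 * m + 1) j =
      if m = (j - 1) / 2 then (if 1 ≤ j then 1 else 0) else 0 := by
    intro m hm
    rw [Finset.mem_Ico] at hm
    simp only [chi]
    split_ifs <;> first | rfl | omega
  rw [Finset.sum_congr rfl h2, Finset.sum_ite_eq']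
  simp only [dvec, chi, Finset.mem_Ico]
  split_ifs <;> first | (exfalso; omega) | norm_num

lemma sum_par (g j : ℕ) (hj : j < 2 * g) (f : ℕ → ℂ) :
    (∑ i : Fin g, (if j ≤ 2 * (i : ℕ) then 1 else 0) * f (2 * (i : ℕ))) +
      ∑ m ∈ Finset.Ico (j / 2) g, f (2 * m + 1) = ∑ m ∈ Finset.Ico j (2 * g), f m := by
  have h0 : ∀ n : ℕ, ∑ m ∈ Finset.range (2 * n), (if j ≤ m then f m else 0) =
      (∑ i ∈ Finset.range n, (if j ≤ 2 * i then 1 else 0) * f (2 * i)) +
        ∑ i ∈ Finset.range n, (if j / 2 ≤ i then f (2 * i + 1) else 0) := by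
    intro n
    induction n with
    | zero => simp
    | succ n ih =>
      rw [show 2 * (n + 1) = 2 * n + 1 + 1 by ring, Finset.sum_range_succ, Finset.sum_range_succ,
        Finset.sum_range_succ (n := n), Finset.sum_range_succ (n := n), ih]
      have h1 : (if j ≤ 2 * n + 1 then f (2 * n + 1) else 0) =
          (if j / 2 ≤ n then f (2 * n + 1) else 0) := by
        split_ifs <;> first | rfl | omega
      have h2 : (if j ≤ 2 * n then f (2 * n) else 0) =
          (if j ≤ 2 * n then 1 else 0) * f (2 * n) := by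
        split_ifs <;> simp
      rw [h1, h2]
      ring
  have h1 : ∑ m ∈ Finset.Ico j (2 * g), f m =
      ∑ m ∈ Finset.range (2 * g), (if j ≤ m then f m else 0) := by
    rw [← Finset.sum_filter]
    apply Finset.sum_congr _ (fun _ _ => rfl)
    ext m
    simp [Finset.mem_Ico]
    omega
  have h2 : ∑ m ∈ Finset.Ico (j / 2) g, f (2 * m + 1) =
      ∑ m ∈ Finset.range g, (if j / 2 ≤ m then f (2 * m + 1) else 0) := by
    rw [← Finset.sum_filter]
    apply Finset.sum_congr _ (fun _ _ => rfl)
    ext m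
    simp [Finset.mem_Ico]
    omega
  rw [h1, h2, h0 g, Finset.sum_range (fun i => (if j ≤ 2 * i then (1 : ℂ) else 0) * f (2 * i))]

/-- `PerC * dvec` is the period of the arc. -/
lemma per_dvec (g : ℕ) (a : ℕ → ℝ) (t : ℂ) (j : ℕ) (hj : j < 2 * g) (k : Ix g) :
    (PerC g a t).mulVec (dvec g j) k = 2 * (-1) ^ g *
      ∑ l ∈ Finset.range (2 * g), Th g a k l t * ∑ m ∈ Finset.Ico j (2 * g), Yc g a m l t := by
  have hj2 : j / 2 < g := by omega
  have h1 : ∀ l, ∑ m ∈ Finset.Ico j (2 * g), Yc g a m l t =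
      (∑ i : Fin g, (if j ≤ 2 * (i : ℕ) then 1 else 0) * Yc g a (2 * (i : ℕ)) l t) +
      ∑ m ∈ Finset.Ico (j / 2) g, Yc g a (2 * m + 1) l t := by
    intro l
    exact (sum_par g j hj (fun m => Yc g a m l t)).symm
  simp only [h1]
  unfold Matrix.mulVec dotProduct
  rw [Fintype.sum_sum_type]
  have h2 : ∑ x : Fin g, PerC g a t k (Sum.inr x) * dvec g j (Sum.inr x) =
      PerC g a t k (Sum.inr ⟨j / 2, hj2⟩) := by
    rw [Finset.sum_eq_single (⟨j / 2, hj2⟩ : Fin g)]
    · simp [dvec]
    · intro b _ hb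
      have : (b : ℕ) ≠ j / 2 := fun h => hb (Fin.ext h)
      simp [dvec, this]
    · intro h
      exact absurd (Finset.mem_univ _) h
  rw [h2]
  simp only [PerC, Matrix.of_apply, dvec]
  simp only [mul_add, Finset.sum_add_distrib, Finset.mul_sum]
  congr 1
  · simp only [Finset.sum_mul]
    rw [Finset.sum_comm]
    apply Finset.sum_congr rfl
    intro l _
    apply Finset.sum_congr rfl
    intro i _
    ring

end

end UNIP_

open UNIP_ in
/-- UNIP -/
theorem unip_proof (hL : Stmt_LogSh) (hLS : Stmt_LS) (hP : Stmt_Phol) : Stmt_Unip := by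
  intro g a hg ha P hP0 j hj c
  obtain ⟨ρ, e, h, hρ, he, hh, hloc⟩ := hLS g a hg ha j hj
  -- the two families
  set H : (Ix g × Ix g) → ℂ → ℂ := fun v t => match v.2 with
    | .inl i => 2 * (-1) ^ g * ∑ l ∈ Finset.range (2 * g), Th g a v.1 l t * h (2 * (i : ℕ)) l t
    | .inr i => 2 * (-1) ^ g * ∑ l ∈ Finset.range (2 * g),
        Th g a v.1 l t * ∑ m ∈ Finset.Ico (i : ℕ) g, h (2 * m + 1) l t with hH
  set E0 : Ix g → ℂ → ℂ := fun k t =>
    2 * (-1) ^ g * ∑ l ∈ Finset.range (2 * g), Th g a k l t * e l t with hE0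
  set E : (Ix g × Ix g) → ℂ → ℂ := fun v t =>
    (-(Complex.I / Real.pi) * ((Matrix.J (Fin g) ℂ).mulVec (dvec g j)) v.2) * E0 v.1 t with hE
  have hE0d : ∀ k, DifferentiableOn ℂ (E0 k) (ball ((a j : ℝ) : ℂ) ρ) := by
    intro k
    apply DifferentiableOn.const_mul
    apply DifferentiableOn.fun_sum
    intro l hl
    exact ((diff_Th g a k l).differentiableOn).mul (he l (Finset.mem_range.mp hl))
  have hEd : ∀ v, DifferentiableOn ℂ (E v) (ball ((a j : ℝ) : ℂ) ρ) := by
    intro v
    exact (hE0d v.1).const_mul _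
  have hHd : ∀ v, DifferentiableOn ℂ (H v) (ball ((a j : ℝ) : ℂ) ρ) := by
    rintro ⟨k, i | i⟩
    · show DifferentiableOn ℂ (fun t => 2 * (-1) ^ g *
        ∑ l ∈ Finset.range (2 * g), Th g a k l t * h (2 * (i : ℕ)) l t) _
      apply DifferentiableOn.const_mul
      apply DifferentiableOn.fun_sum
      intro l hl
      have hi := i.2
      exact ((diff_Th g a k l).differentiableOn).mul
        (hh (2 * (i : ℕ)) (by omega) l (Finset.mem_range.mp hl))
    · show DifferentiableOn ℂ (fun t => 2 * (-1) ^ g * ∑ l ∈ Finset.range (2 * g),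
        Th g a k l t * ∑ m ∈ Finset.Ico (i : ℕ) g, h (2 * m + 1) l t) _
      apply DifferentiableOn.const_mul
      apply DifferentiableOn.fun_sum
      intro l hl
      refine ((diff_Th g a k l).differentiableOn).mul (DifferentiableOn.fun_sum ?_)
      intro m hm
      rw [Finset.mem_Ico] at hm
      exact hh (2 * m + 1) (by omega) l (Finset.mem_range.mp hl)
  -- the structure of the period matrix
  have hstr : ∀ t ∈ ball ((a j : ℝ) : ℂ) ρ, 0 < t.im → ∀ v : Ix g × Ix g,
      PerC g a t v.1 v.2 = H v t + Complex.log (t - a j) * E v t := by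
    intro t ht htim
    obtain ⟨h1, h2⟩ := hloc t ht htim
    rintro ⟨k, i | i⟩
    · have hi := i.2
      show 2 * (-1) ^ g * ∑ l ∈ Finset.range (2 * g), Th g a k l t * Yc g a (2 * (i : ℕ)) l t =
        2 * (-1) ^ g * (∑ l ∈ Finset.range (2 * g), Th g a k l t * h (2 * (i : ℕ)) l t) +
          Complex.log (t - a j) * ((-(Complex.I / Real.pi) *
            ((Matrix.J (Fin g) ℂ).mulVec (dvec g j)) (.inl i)) * (2 * (-1) ^ g *
              ∑ l ∈ Finset.range (2 * g), Th g a k l t * e l t))
      have h3 : ∀ l ∈ Finset.range (2 * g), Th g a k l t * Yc g a (2 * (i : ℕ)) l t =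
          Th g a k l t * h (2 * (i : ℕ)) l t + Complex.log (t - a j) * ((-(Complex.I / Real.pi) *
            ((Matrix.J (Fin g) ℂ).mulVec (dvec g j)) (.inl i))) * (Th g a k l t * e l t) := by
        intro l hl
        rw [h2 (2 * (i : ℕ)) (by omega) l (Finset.mem_range.mp hl), chi_inl g j i hj]
        ring
      rw [Finset.sum_congr rfl h3, Finset.sum_add_distrib, ← Finset.mul_sum]
      ring
    · have hi := i.2
      show 2 * (-1) ^ g * ∑ l ∈ Finset.range (2 * g),
          Th g a k l t * ∑ m ∈ Finset.Ico (i : ℕ) g, Yc g a (2 * m + 1) l t =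
        2 * (-1) ^ g * (∑ l ∈ Finset.range (2 * g),
          Th g a k l t * ∑ m ∈ Finset.Ico (i : ℕ) g, h (2 * m + 1) l t) +
          Complex.log (t - a j) * ((-(Complex.I / Real.pi) *
            ((Matrix.J (Fin g) ℂ).mulVec (dvec g j)) (.inr i)) * (2 * (-1) ^ g *
              ∑ l ∈ Finset.range (2 * g), Th g a k l t * e l t))
      have h3 : ∀ l ∈ Finset.range (2 * g),
          Th g a k l t * ∑ m ∈ Finset.Ico (i : ℕ) g, Yc g a (2 * m + 1) l t =
          Th g a k l t * (∑ m ∈ Finset.Ico (i : ℕ) g, h (2 * m + 1) l t) +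
          Complex.log (t - a j) * ((-(Complex.I / Real.pi) *
            ((Matrix.J (Fin g) ℂ).mulVec (dvec g j)) (.inr i))) * (Th g a k l t * e l t) := by
        intro l hl
        have h4 : ∑ m ∈ Finset.Ico (i : ℕ) g, Yc g a (2 * m + 1) l t =
            (∑ m ∈ Finset.Ico (i : ℕ) g, h (2 * m + 1) l t) +
            (∑ m ∈ Finset.Ico (i : ℕ) g, chi g (2 * m + 1) j) *
              ((Complex.I / Real.pi) * Complex.log (t - a j) * e l t) := by
          rw [Finset.sum_mul, ← Finset.sum_add_distrib]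
          apply Finset.sum_congr rfl
          intro m hm
          rw [Finset.mem_Ico] at hm
          rw [h2 (2 * m + 1) (by omega) l (Finset.mem_range.mp hl)]
          ring
        rw [h4, chi_inr g j i hj]
        ring
      rw [Finset.sum_congr rfl h3, Finset.sum_add_distrib, ← Finset.mul_sum]
      ring
  -- apply LOGSH
  have hU : ∀ t : ℂ, 0 < t.im → t ∈ U g a := fun t ht => U_of_im_pos ht.ne'
  have key := hL (Ix g × Ix g) (a j) ρ H E hρ hHd hEd P (by
    intro t ht htim
    have h1 := hP0 t (hU t htim)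
    have h2 : (fun p : Ix g × Ix g => PerC g a t p.1 p.2) =
        (fun v => H v t + Complex.log (t - a j) * E v t) := by
      funext v
      exact hstr t ht htim v
    rw [← h2]
    exact h1)
  -- the conclusion on the upper half ball
  have hup : ∀ t ∈ ball ((a j : ℝ) : ℂ) ρ, 0 < t.im →
      MvPolynomial.eval (opt t (fun p => (PerC g a t * tv (dvec g j) c) p.1 p.2)) P = 0 := by
    intro t ht htim
    have h1 := key (Complex.log (t - a j) + c * Real.pi * Complex.I) t ht
    have h2 : (fun p : Ix g × Ix g => (PerC g a t * tv (dvec g j) c) p.1 p.2) =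
        (fun v => H v t + (Complex.log (t - a j) + c * Real.pi * Complex.I) * E v t) := by
      funext v
      have h3 : (PerC g a t * tv (dvec g j) c) v.1 v.2 = PerC g a t v.1 v.2 +
          c * ((PerC g a t).mulVec (dvec g j) v.1 *
            (Matrix.J (Fin g) ℂ).mulVec (dvec g j) v.2) := by
        unfold tv
        rw [Matrix.mul_add, Matrix.mul_one, Matrix.mul_smul, Matrix.mul_vecMulVec]
        simp [Matrix.vecMulVec_apply]
      have h4 : (PerC g a t).mulVec (dvec g j) v.1 = E0 v.1 t := by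
        rw [per_dvec g a t j hj]
        simp only [hE0]
        congr 1
        apply Finset.sum_congr rfl
        intro l hl
        rw [(hloc t ht htim).1 l (Finset.mem_range.mp hl)]
      rw [h3, h4, hstr t ht htim v]
      simp only [hE]
      have hpi : (Real.pi : ℂ) ≠ 0 := by exact_mod_cast Real.pi_ne_zero
      have h5 : (Real.pi : ℂ) * Complex.I * (-(Complex.I / Real.pi)) = 1 := by
        field_simp
        rw [Complex.I_sq]; ring
      linear_combination (-c * E0 v.1 t * (Matrix.J (Fin g) ℂ).mulVec (dvec g j) v.2) * h5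
    rw [h2]
    exact h1
  -- identity theorem
  have hdiff : DifferentiableOn ℂ (fun t => MvPolynomial.eval
      (opt t (fun p : Ix g × Ix g => (PerC g a t * tv (dvec g j) c) p.1 p.2)) P) (U g a) := by
    apply diff_eval P (fun t => opt t (fun p : Ix g × Ix g =>
      (PerC g a t * tv (dvec g j) c) p.1 p.2))
    intro v
    rcases v with _ | v
    · exact differentiableOn_id
    · show DifferentiableOn ℂ (fun t => (PerC g a t * tv (dvec g j) c) v.1 v.2) (U g a)
      simp only [Matrix.mul_apply]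
      apply DifferentiableOn.fun_sum
      intro k _
      exact (hP g a hg ha v.1 k).mul_const _
  have hana : AnalyticOnNhd ℂ (fun t => MvPolynomial.eval
      (opt t (fun p : Ix g × Ix g => (PerC g a t * tv (dvec g j) c) p.1 p.2)) P) (U g a) :=
    hdiff.analyticOnNhd (U_isOpen g a)
  set t0 : ℂ := ((a j : ℝ) : ℂ) + ((ρ / 2 : ℝ) : ℂ) * Complex.I with ht0
  have ht0im : 0 < t0.im := by
    simp [ht0]
    positivity
  have ht0b : t0 ∈ ball ((a j : ℝ) : ℂ) ρ := by
    rw [mem_ball, dist_eq_norm, ht0]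
    simp only [add_sub_cancel_left, norm_mul, Complex.norm_I, mul_one, Complex.norm_real]
    rw [Real.norm_of_nonneg (by positivity)]
    linarith
  have hopen : {t : ℂ | 0 < t.im} ∈ 𝓝 t0 :=
    (isOpen_lt continuous_const Complex.continuous_im).mem_nhds ht0im
  have hev : (fun t => MvPolynomial.eval
      (opt t (fun p : Ix g × Ix g => (PerC g a t * tv (dvec g j) c) p.1 p.2)) P) =ᶠ[𝓝 t0] 0 := by
    filter_upwards [hopen, isOpen_ball.mem_nhds ht0b] with t h1 h2
    exact hup t h2 h1
  intro t ht
  exact hana.eqOn_zero_of_preconnected_of_eventuallyEq_zero (U_isPreconnected g a)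
    (hU t0 ht0im) hev ht

end Pool.Agent.HGP
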